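import Pool.Agent.Q253.Thin.UpperS
import Pool.Agent.Y843.HS.Top

/-!
# Integers outside arbitrary residue classes
-/

set_option autoImplicit false

namespace Pool.Agent.Q253.Thin

open Finset Filter
open Pool.Agent.Y843.HS (Pr VV Pr_mem Pr_prime VV_split Sv)
open Pool.Agent.Y843.HG (V1 V1_bounds)
open Pool.Agent.Y840.CT

/-- at most `r` classes for every prime, not all classes -/
structure SysZ (r : ℕ) (Z : ℕ → Finset ℕ) : Prop where
  card : ∀ p : ℕ, p.Prime → (Z p).card ≤ r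
  loc : ∀ p : ℕ, p.Prime → (Z p).card < p
  lt : ∀ p : ℕ, p.Prime → ∀ c ∈ Z p, c < p

open Classical in
/-- the integers of `(A, B]` outside the classes for the primes `≤ X ^ (1/t)` -/
noncomputable def IS (t X A B : ℕ) (Z : ℕ → Finset ℕ) : Finset ℕ :=
  (Ioc A B).filter (fun n => ∀ q : ℕ, q.Prime → (q : ℝ) ≤ (X : ℝ) ^ (1 / (t : ℝ)) → n % q ∉ Z q)

theorem VZ_nonneg {r : ℕ} {Z : ℕ → Finset ℕ} (h : SysZ r Z) (a b : ℕ) : 0 ≤ VV Z a b := by
  apply prod_nonneg
  intro p hp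
  have hpp := Pr_prime hp
  have hp0 : (0 : ℝ) < p := by exact_mod_cast hpp.pos
  rw [sub_nonneg, div_le_one hp0]
  exact_mod_cast (h.loc p hpp).le

theorem VZ_le_one {r : ℕ} {Z : ℕ → Finset ℕ} (h : SysZ r Z) (a b : ℕ) : VV Z a b ≤ 1 := by
  apply prod_le_one
  · intro p hp
    have hpp := Pr_prime hp
    have hp0 : (0 : ℝ) < p := by exact_mod_cast hpp.pos
    rw [sub_nonneg, div_le_one hp0]
    exact_mod_cast (h.loc p hpp).le
  · intro p hp
    have : (0 : ℝ) ≤ ((Z p).card : ℝ) / p := by positivity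
    linarith

/-- the sieve product has at least the order `1 / log ^ r X` -/
theorem VZ_low (r : ℕ) (hr : 1 ≤ r) : ∃ c : ℝ, 0 < c ∧ ∀ X : ℕ, 2 ≤ X → ∀ Z : ℕ → Finset ℕ, SysZ r Z →
    c / Real.log X ^ r ≤ VV Z 0 X := by
  classical
  obtain ⟨c, C, hc, hC, hV⟩ := V1_bounds
  obtain ⟨z, hz⟩ : ∃ z : ℕ, z = 2 * r ^ 2 := ⟨_, rfl⟩
  have hr0 : (0 : ℝ) < r := by exact_mod_cast hr
  have hz0 : 0 < z := by rw [hz]; positivity
  have hfac : (0 : ℝ) < ∏ p ∈ Pr 0 z, (1 / (p : ℝ)) := prod_pos fun p hp => by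
    have : (0 : ℝ) < p := by exact_mod_cast (Pr_prime hp).pos
    positivity
  refine ⟨(∏ p ∈ Pr 0 z, (1 / (p : ℝ))) * (1 / 2) * c ^ r, by positivity, ?_⟩
  intro X hX Z hZ
  have hlX : 0 < Real.log X := Real.log_pos (by exact_mod_cast (by omega : 1 < X))
  have hρ : ∀ q : ℕ, q.Prime → ((Z q).card : ℝ) ≤ (r : ℝ) := by
    intro q hq
    exact_mod_cast hZ.card q hq
  have hfn : ∀ q : ℕ, q.Prime → 1 / (q : ℝ) ≤ 1 - ((Z q).card : ℝ) / q := by
    intro q hq
    have h0 : (0 : ℝ) < q := by exact_mod_cast hq.pos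
    have h1 : ((Z q).card : ℝ) + 1 ≤ q := by exact_mod_cast hZ.loc q hq
    rw [le_sub_iff_add_le, ← add_div, div_le_one h0]
    linarith
  -- split the product
  have hsp : VV Z 0 X = (∏ p ∈ (Pr 0 X).filter (fun p => p ≤ z), (1 - ((Z p).card : ℝ) / p)) *
      ∏ p ∈ (Pr 0 X).filter (fun p => ¬ p ≤ z), (1 - ((Z p).card : ℝ) / p) := by
    rw [prod_filter_mul_prod_filter_not]
    rfl
  have hA : ∏ p ∈ Pr 0 z, (1 / (p : ℝ)) ≤
      ∏ p ∈ (Pr 0 X).filter (fun p => p ≤ z), (1 - ((Z p).card : ℝ) / p) := by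
    have hs : (Pr 0 X).filter (fun p => p ≤ z) ⊆ Pr 0 z := by
      intro p hp
      rw [mem_filter, Pr_mem] at hp
      exact Pr_mem.2 ⟨⟨hp.1.1.1, hp.2⟩, hp.1.2⟩
    calc ∏ p ∈ Pr 0 z, (1 / (p : ℝ)) ≤ ∏ p ∈ (Pr 0 X).filter (fun p => p ≤ z), (1 / (p : ℝ)) := by
          rw [← prod_sdiff hs]
          apply mul_le_of_le_one_left
          · exact prod_nonneg fun p _ => by positivity
          · apply prod_le_one
            · intro p _
              positivity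
            · intro p hp
              have h1 : (1 : ℝ) ≤ p := by exact_mod_cast (Pr_prime (mem_sdiff.1 hp).1).one_lt.le
              rw [div_le_one (by linarith)]
              exact h1
      _ ≤ _ := Finset.prod_le_prod (fun p _ => by positivity) fun p hp =>
          hfn p (Pr_prime (mem_filter.1 hp).1)
  have hB : 1 / 2 * V1 X ^ r ≤ ∏ p ∈ (Pr 0 X).filter (fun p => ¬ p ≤ z), (1 - ((Z p).card : ℝ) / p) := by
    have hκz : r ≤ z := by rw [hz]; nlinarith
    have h1 : ∏ p ∈ (Pr 0 X).filter (fun p => ¬ p ≤ z), ((1 - (r : ℝ) ^ 2 * ((p : ℝ) ^ 2)⁻¹) *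
        (1 - 1 / (p : ℝ)) ^ r) ≤ ∏ p ∈ (Pr 0 X).filter (fun p => ¬ p ≤ z), (1 - ((Z p).card : ℝ) / p) := by
      apply Finset.prod_le_prod
      · intro p hp
        rw [mem_filter] at hp
        have hp1 : (1 : ℝ) < p := by exact_mod_cast (Pr_prime hp.1).one_lt
        have hpz : (r : ℝ) ≤ p := by exact_mod_cast (by omega : r ≤ p)
        apply mul_nonneg
        · rw [sub_nonneg, ← div_eq_mul_inv, div_le_one (by positivity)]
          exact pow_le_pow_left₀ (by positivity) hpz 2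
        · apply pow_nonneg
          rw [sub_nonneg, div_le_one (by linarith)]
          exact hp1.le
      · intro p hp
        rw [mem_filter] at hp
        have hp1 : (1 : ℝ) < p := by exact_mod_cast (Pr_prime hp.1).one_lt
        have hpz : ((r : ℕ) : ℝ) ≤ p := by exact_mod_cast (by omega : r ≤ p)
        refine (one_sub_ge hp1 hpz).trans ?_
        have := hρ p (Pr_prime hp.1)
        have h2 : ((Z p).card : ℝ) / p ≤ (r : ℝ) / p := by gcongr
        linarith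
    refine le_trans ?_ h1
    rw [prod_mul_distrib, prod_pow]
    have h2 : (1 / 2 : ℝ) ≤ ∏ p ∈ (Pr 0 X).filter (fun p => ¬ p ≤ z), (1 - (r : ℝ) ^ 2 * ((p : ℝ) ^ 2)⁻¹) := by
      refine le_trans ?_ (prod_one_sub_ge _ _ ?_)
      · rw [← mul_sum]
        have h3 : ∑ p ∈ (Pr 0 X).filter (fun p => ¬ p ≤ z), ((p : ℝ) ^ 2)⁻¹ ≤ ((z : ℝ))⁻¹ := by
          rcases Nat.lt_or_ge X z with hXz | hXz
          · rw [sum_eq_zero]
            · positivity
            · intro p hp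
              rw [mem_filter, Pr_mem] at hp
              omega
          · calc ∑ p ∈ (Pr 0 X).filter (fun p => ¬ p ≤ z), ((p : ℝ) ^ 2)⁻¹ ≤
                  ∑ p ∈ Ioc z X, ((p : ℝ) ^ 2)⁻¹ := by
                  apply sum_le_sum_of_subset_of_nonneg
                  · intro p hp
                    rw [mem_filter, Pr_mem] at hp
                    rw [mem_Ioc]
                    omega
                  · intro p _ _
                    positivity
              _ ≤ (z : ℝ)⁻¹ - (X : ℝ)⁻¹ := sum_Ioc_inv_sq_le_sub hz0.ne' hXz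
              _ ≤ _ := by
                  have : (0 : ℝ) ≤ (X : ℝ)⁻¹ := by positivity
                  linarith
        have h4 : (r : ℝ) ^ 2 * ((z : ℝ))⁻¹ = 1 / 2 := by
          rw [hz]
          push_cast
          field_simp
        have h5 : (r : ℝ) ^ 2 * ∑ p ∈ (Pr 0 X).filter (fun p => ¬ p ≤ z), ((p : ℝ) ^ 2)⁻¹ ≤
            (r : ℝ) ^ 2 * ((z : ℝ))⁻¹ := by gcongr
        linarith
      · intro p hp
        rw [mem_filter] at hp
        have hpz : (r : ℝ) ≤ p := by exact_mod_cast (by omega : r ≤ p)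
        have hp0 : (0 : ℝ) < p := by exact_mod_cast (Pr_prime hp.1).pos
        refine ⟨by positivity, ?_⟩
        rw [← div_eq_mul_inv, div_le_one (by positivity)]
        exact pow_le_pow_left₀ (by positivity) hpz 2
    have h3 : V1 X ≤ ∏ p ∈ (Pr 0 X).filter (fun p => ¬ p ≤ z), (1 - 1 / (p : ℝ)) := by
      unfold V1
      rw [← prod_filter_mul_prod_filter_not (Pr 0 X) (fun p => p ≤ z)]
      apply mul_le_of_le_one_left
      · apply prod_nonneg
        intro p hp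
        have hp1 : (1 : ℝ) < p := by exact_mod_cast (Pr_prime (mem_filter.1 hp).1).one_lt
        rw [sub_nonneg, div_le_one (by linarith)]
        exact hp1.le
      · apply prod_le_one
        · intro p hp
          have hp1 : (1 : ℝ) < p := by exact_mod_cast (Pr_prime (mem_filter.1 hp).1).one_lt
          rw [sub_nonneg, div_le_one (by linarith)]
          exact hp1.le
        · intro p hp
          have hp1 : (0 : ℝ) < p := by exact_mod_cast (Pr_prime (mem_filter.1 hp).1).pos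
          have : 0 ≤ 1 / (p : ℝ) := by positivity
          linarith
    have h4 := V1_pos X
    calc 1 / 2 * V1 X ^ r ≤ (∏ p ∈ (Pr 0 X).filter (fun p => ¬ p ≤ z),
          (1 - (r : ℝ) ^ 2 * ((p : ℝ) ^ 2)⁻¹)) * V1 X ^ r :=
          mul_le_mul_of_nonneg_right h2 (by positivity)
      _ ≤ _ := by
          apply mul_le_mul_of_nonneg_left (pow_le_pow_left₀ h4.le h3 _)
          linarith
  rw [hsp]
  have hV1 := (hV X hX).1
  have h4 : c ^ r / Real.log X ^ r ≤ V1 X ^ r := by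
    rw [← div_pow]
    exact pow_le_pow_left₀ (by positivity) hV1 _
  calc (∏ p ∈ Pr 0 z, (1 / (p : ℝ))) * (1 / 2) * c ^ r / Real.log X ^ r =
        (∏ p ∈ Pr 0 z, (1 / (p : ℝ))) * (1 / 2 * (c ^ r / Real.log X ^ r)) := by ring
    _ ≤ (∏ p ∈ Pr 0 z, (1 / (p : ℝ))) * (1 / 2 * V1 X ^ r) := by gcongr
    _ ≤ _ := mul_le_mul hA hB (by
        have := V1_pos X
        positivity) (le_trans hfac.le hA)

/-- a class outside the given ones for finitely many primes -/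
theorem exists_class {r : ℕ} {Z : ℕ → Finset ℕ} (h : SysZ r Z) (P : Finset ℕ) (hP : ∀ p ∈ P, p.Prime) :
    ∃ a : ℕ, ∀ p ∈ P, a % p ∉ Z p := by
  classical
  have hex : ∀ p : ℕ, ∃ c : ℕ, p ∈ P → c < p ∧ c ∉ Z p := by
    intro p
    by_cases hp : p ∈ P
    · have h1 : ((range p) \ Z p).Nonempty := by
        rw [← card_pos]
        have h2 := le_card_sdiff (Z p) (range p)
        rw [card_range] at h2
        have h3 := h.loc p (hP p hp)
        omega
      obtain ⟨c, hc⟩ := h1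
      rw [Finset.mem_sdiff, mem_range] at hc
      exact ⟨c, fun _ => hc⟩
    · exact ⟨0, fun h => absurd h hp⟩
  choose c hc using hex
  obtain ⟨a, ha⟩ := Nat.chineseRemainderOfFinset c (fun p => p) P (fun p hp => (hP p hp).ne_zero) (by
    intro p hp q hq hpq
    exact (Nat.coprime_primes (hP p hp) (hP q hq)).2 hpq)
  refine ⟨a, fun p hp => ?_⟩
  have h1 := ha p hp
  unfold Nat.ModEq at h1
  rw [h1, Nat.mod_eq_of_lt (hc p hp).1]
  exact (hc p hp).2

/-- the bounds for the number of the integers outside the classes, from above for every `t` -/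
theorem int_upper (r t : ℕ) (hr : 1 ≤ r) (ht : 1 ≤ t) : ∃ C : ℝ, 0 < C ∧ ∀ θ : ℝ, 0 < θ → ∃ X₀ : ℕ, ∀ X : ℕ, X₀ ≤ X →
    ∀ Z : ℕ → Finset ℕ, SysZ r Z → ∀ A B : ℕ, θ * X ≤ (B : ℝ) - A →
      ((IS t X A B Z).card : ℝ) ≤ C * (((B : ℝ) - A) * VV Z 0 X) := by
  classical
  obtain ⟨C0, hC0, hflc⟩ := Pool.Agent.Y151.HS.flc
  set κ := r with hκ
  set b := C0 * (κ + 1) with hb
  have hb1 : 1 ≤ b := by
    rw [hb]
    exact Nat.mul_pos hC0 (by omega)
  set E := 9 * t * (C0 * b) with hE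
  have hCb : 1 ≤ C0 * b := Nat.mul_pos hC0 hb1
  have hE1 : 1 ≤ E := by
    rw [hE]
    exact Nat.mul_pos (by omega) hCb
  obtain ⟨cD, hcD, R₀, hden⟩ := Pool.Agent.Y79.HS.den κ (2 * E)
  obtain ⟨cV, hcV, hlow⟩ := VZ_low r hr
  set cs : ℝ := ∏ p ∈ Pr 0 b, (1 / (p : ℝ)) with hcs
  have hcs0 : 0 < cs := prod_pos fun p hp => by
    have : (0 : ℝ) < p := by exact_mod_cast (Pr_prime hp).pos
    positivity
  refine ⟨2 / (cs * cD) + 1, by positivity, ?_⟩
  intro θ hθ
  obtain ⟨X₁, hX₁⟩ := eventually_atTop.1 (ev_err r (θ * cV) (by positivity))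
  refine ⟨max (max X₁ 3) ((max b R₀ + 2) ^ (2 * E)), ?_⟩
  intro X hX Z hZ A B hAB
  have hX1 : X₁ ≤ X := le_trans (le_trans (le_max_left _ _) (le_max_left _ _)) hX
  have hX2 : 3 ≤ X := le_trans (le_trans (le_max_right _ _) (le_max_left _ _)) hX
  have hX3 : (max b R₀ + 2) ^ (2 * E) ≤ X := le_trans (le_max_right _ _) hX
  have hXE : 2 ^ E ≤ X := by
    refine le_trans ?_ hX3
    calc 2 ^ E ≤ (max b R₀ + 2) ^ E := Nat.pow_le_pow_left (by omega) _
      _ ≤ (max b R₀ + 2) ^ (2 * E) := Nat.pow_le_pow_right (by omega) (by omega)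
  obtain ⟨J, hJ1, hJ2⟩ := scale E hE1 hXE
  set z := 2 ^ 2 ^ J with hz
  have hz1 : 1 ≤ z := Nat.pos_of_ne_zero (by rw [hz]; positivity)
  have hzb : max b R₀ < z := by
    have h1 : (max b R₀ + 2) ^ (2 * E) < z ^ (2 * E) := lt_of_le_of_lt hX3 hJ2
    have := lt_of_pow_lt_pow_left₀ (2 * E) (Nat.zero_le _) h1
    omega
  have hbz : b ≤ z := by
    have := le_max_left b R₀
    omega
  have hRz : R₀ ≤ z := by
    have := le_max_right b R₀
    omega
  have hzt : z ^ t ≤ X := by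
    refine le_trans (Nat.pow_le_pow_right hz1 ?_) hJ1
    rw [hE]
    nlinarith
  have hz9 : z ^ 9 ≤ X := by
    refine le_trans (Nat.pow_le_pow_right hz1 ?_) hJ1
    rw [hE]
    nlinarith
  have hzX : z ≤ X := by
    refine le_trans ?_ hz9
    exact Nat.le_self_pow (by norm_num) z
  have hXpos : (0 : ℝ) < X := by exact_mod_cast (by omega : 0 < X)
  have hABr : (0 : ℝ) < (B : ℝ) - A := lt_of_lt_of_le (by positivity) hAB
  have hABn : A ≤ B := by
    have : (A : ℝ) < B := by linarith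
    exact_mod_cast this.le
  have hSv : ∀ a c : ℕ, Sv κ a c Z := fun a c p hp => ⟨hZ.card p (Pr_prime hp), hZ.lt p (Pr_prime hp)⟩
  have hfl := hflc κ b b J le_rfl le_rfl Z (hSv b z) 1 0 A (B - A) le_rfl (by
    intro p hp hd
    have h1 := (Pr_prime hp).two_le
    have h2 := Nat.le_of_dvd (by norm_num) hd
    omega)
  rw [show 2 ^ 2 ^ J = z from rfl] at hfl
  have hcard : (IS t X A B Z).card ≤ ((Ioc A (A + (B - A))).filter (fun x => x % 1 = 0 % 1 ∧
      ∀ p ∈ Pr b z, x % p ∉ Z p)).card := by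
    apply card_le_card
    intro x hx
    unfold IS at hx
    rw [mem_filter, mem_Ioc] at hx
    obtain ⟨⟨x1, x2⟩, xF⟩ := hx
    rw [mem_filter, mem_Ioc]
    refine ⟨⟨x1, by omega⟩, by omega, ?_⟩
    intro p hp
    have hpp := Pr_prime hp
    have hpz : p ≤ z := (Pr_mem.1 hp).1.2
    exact xF p hpp (le_rpow_of_pow_le ht (le_trans (Nat.pow_le_pow_left hpz t) hzt))
  -- the products
  have hnn := VZ_nonneg hZ
  have hV0 : cs ≤ VV Z 0 b := by
    rw [hcs]
    apply Finset.prod_le_prod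
    · intro p _
      positivity
    · intro p hp
      have hpp := Pr_prime hp
      have hp0 : (0 : ℝ) < p := by exact_mod_cast hpp.pos
      rw [le_sub_iff_add_le, ← add_div, div_le_one hp0]
      have := hZ.loc p hpp
      have h3 : 1 + (Z p).card ≤ p := by omega
      exact_mod_cast h3
  have hV2 : cD ≤ VV Z z X := hden z X hRz hJ2.le Z (hSv z X)
  have hVsp : VV Z 0 X = VV Z 0 b * VV Z b z * VV Z z X := by
    rw [VV_split Z (Nat.zero_le b) hbz, VV_split Z (Nat.zero_le z) hzX]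
  have hPi : VV Z b z ≤ VV Z 0 X / (cs * cD) := by
    rw [le_div_iff₀ (by positivity), hVsp]
    have h1 : cs * cD ≤ VV Z 0 b * VV Z z X := mul_le_mul hV0 hV2 hcD.le (hnn 0 b)
    calc VV Z b z * (cs * cD) ≤ VV Z b z * (VV Z 0 b * VV Z z X) := mul_le_mul_of_nonneg_left h1 (hnn b z)
      _ = VV Z 0 b * VV Z b z * VV Z z X := by ring
  have hl : 0 < Real.log X := Real.log_pos (by exact_mod_cast (by omega : 1 < X))
  have hl1 : 1 ≤ Real.log X := by
    rw [Real.le_log_iff_exp_le hXpos]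
    exact Real.exp_one_lt_d9.le.trans (le_trans (by norm_num) (by exact_mod_cast hX2 : (3 : ℝ) ≤ X))
  have hVlow0 := hlow X (by omega) Z hZ
  have hVlow : cV / Real.log X ^ (r + 1) ≤ VV Z 0 X := by
    refine le_trans ?_ hVlow0
    apply div_le_div_of_nonneg_left hcV.le (by positivity)
    exact pow_le_pow_right₀ hl1 (by omega)
  have hVF0 : 0 < VV Z 0 X := lt_of_lt_of_le (by positivity) hVlow
  -- the error term
  have herr : ((z : ℝ)) ^ (C0 * b) ≤ ((B : ℝ) - A) * VV Z 0 X := by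
    have h1 : ((z : ℝ) ^ (C0 * b)) ≤ (X : ℝ) ^ (1 / 4 : ℝ) := by
      have h2 : (z ^ (C0 * b)) ^ 4 ≤ X := by
        rw [← pow_mul]
        refine le_trans (Nat.pow_le_pow_right hz1 ?_) hJ1
        rw [hE]
        nlinarith
      have h3 := le_rpow_of_pow_le (a := z ^ (C0 * b)) (X := X) (t := 4) (by norm_num) h2
      push_cast at h3
      exact h3
    have h8 := hX₁ X hX1
    have hX1r : (1 : ℝ) ≤ X := by exact_mod_cast (by omega : 1 ≤ X)
    have h9 : (X : ℝ) ^ (1 / 4 : ℝ) * (2 * Real.log X ^ (r + 1)) ≤ θ * X * cV := by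
      have e1 : (X : ℝ) ^ (1 / 4 : ℝ) * (X : ℝ) ^ (1 / 4 : ℝ) ≤ X := by
        rw [← Real.rpow_add hXpos]
        have := Real.rpow_le_rpow_of_exponent_le hX1r (show (1 / 4 + 1 / 4 : ℝ) ≤ 1 by norm_num)
        rwa [Real.rpow_one] at this
      calc (X : ℝ) ^ (1 / 4 : ℝ) * (2 * Real.log X ^ (r + 1))
          ≤ (X : ℝ) ^ (1 / 4 : ℝ) * (θ * cV * (X : ℝ) ^ (1 / 4 : ℝ)) :=
            mul_le_mul_of_nonneg_left h8 (by positivity)
        _ = θ * cV * ((X : ℝ) ^ (1 / 4 : ℝ) * (X : ℝ) ^ (1 / 4 : ℝ)) := by ring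
        _ ≤ θ * cV * X := mul_le_mul_of_nonneg_left e1 (by positivity)
        _ = θ * X * cV := by ring
    have h11 : (X : ℝ) ^ (1 / 4 : ℝ) ≤ θ * X * (cV / Real.log X ^ (r + 1)) := by
      rw [← mul_div_assoc, le_div_iff₀ (by positivity)]
      refine le_trans ?_ h9
      have : 0 ≤ (X : ℝ) ^ (1 / 4 : ℝ) * Real.log X ^ (r + 1) := by positivity
      linarith
    calc (z : ℝ) ^ (C0 * b) ≤ θ * X * (cV / Real.log X ^ (r + 1)) := h1.trans h11
      _ ≤ ((B : ℝ) - A) * VV Z 0 X := mul_le_mul hAB hVlow (by positivity) hABr.le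
  have hcast : ((B - A : ℕ) : ℝ) = (B : ℝ) - A := by push_cast [Nat.cast_sub hABn]; ring
  have h1 := (abs_le.1 hfl).2
  rw [show ((2 : ℝ) ^ 2 ^ J) = (z : ℝ) by rw [hz]; push_cast; rfl, hcast] at h1
  have h7 : ∏ p ∈ Pr b z, (1 - ((Z p).card : ℝ) / p) = VV Z b z := rfl
  rw [h7] at h1
  have h2 : ((IS t X A B Z).card : ℝ) - ((B : ℝ) - A) * VV Z b z ≤
      (1 / 2 : ℝ) ^ b * (((B : ℝ) - A) * VV Z b z) + (z : ℝ) ^ (C0 * b) := by
    rw [Nat.cast_one, div_one] at h1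
    refine le_trans ?_ h1
    apply sub_le_sub_right
    rw [Nat.cast_le]
    convert hcard
  have h3 : (1 / 2 : ℝ) ^ b ≤ 1 := pow_le_one₀ (by norm_num) (by norm_num)
  have h4 : 0 ≤ ((B : ℝ) - A) * VV Z b z := mul_nonneg (by positivity) (hnn b z)
  have h5 : (1 / 2 : ℝ) ^ b * (((B : ℝ) - A) * VV Z b z) ≤ ((B : ℝ) - A) * VV Z b z :=
    mul_le_of_le_one_left h4 h3
  have h6 : ((B : ℝ) - A) * VV Z b z ≤ ((B : ℝ) - A) * (VV Z 0 X / (cs * cD)) :=
    mul_le_mul_of_nonneg_left hPi (by positivity)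
  have e2 : (2 / (cs * cD) + 1) * (((B : ℝ) - A) * VV Z 0 X) =
      2 * (((B : ℝ) - A) * (VV Z 0 X / (cs * cD))) + ((B : ℝ) - A) * VV Z 0 X := by
    field_simp
  rw [e2]
  linarith

/-- the bounds for the number of the integers outside the classes, from below for some `t`, and progressions in
subsets of positive relative density -/
theorem int_lower (r : ℕ) (hr : 1 ≤ r) : ∃ t : ℕ, 1 ≤ t ∧ ∃ c : ℝ, 0 < c ∧ ∀ θ : ℝ, 0 < θ → ∃ X₀ : ℕ, ∀ X : ℕ, X₀ ≤ X →
    ∀ Z : ℕ → Finset ℕ, SysZ r Z → ∀ A B : ℕ, θ * X ≤ (B : ℝ) - A →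
      c * (((B : ℝ) - A) * VV Z 0 X) ≤ ((IS t X A B Z).card : ℝ) := by
  classical
  obtain ⟨C0, hC0, hflc⟩ := Pool.Agent.Y151.HS.flc
  set κ := r with hκ
  set b := C0 * (κ + 1) with hb
  have hb1 : 1 ≤ b := by
    rw [hb]
    exact Nat.mul_pos hC0 (by omega)
  set E := 9 * (C0 * b) with hE
  have hCb : 1 ≤ C0 * b := Nat.mul_pos hC0 hb1
  have hE1 : 1 ≤ E := by
    rw [hE]
    exact Nat.mul_pos (by omega) hCb
  obtain ⟨cV, hcV, hlow⟩ := VZ_low r hr
  set D : ℕ := ∏ p ∈ Pr 0 b, p with hD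
  have hD1 : 1 ≤ D := Nat.pos_of_ne_zero (prod_ne_zero_iff.2 fun p hp => (Pr_prime hp).ne_zero)
  have hDr : (0 : ℝ) < D := by exact_mod_cast hD1
  refine ⟨2 * E, by omega, 1 / (4 * D), by positivity, ?_⟩
  intro θ hθ
  obtain ⟨X₁, hX₁⟩ := eventually_atTop.1 (ev_err r (θ * cV / (4 * D)) (by positivity))
  refine ⟨max (max X₁ 3) ((b + 2) ^ (2 * E)), ?_⟩
  intro X hX Z hZ A B hAB
  have hX1 : X₁ ≤ X := le_trans (le_trans (le_max_left _ _) (le_max_left _ _)) hX
  have hX2 : 3 ≤ X := le_trans (le_trans (le_max_right _ _) (le_max_left _ _)) hX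
  have hX3 : (b + 2) ^ (2 * E) ≤ X := le_trans (le_max_right _ _) hX
  have hXE : 2 ^ E ≤ X := by
    refine le_trans ?_ hX3
    calc 2 ^ E ≤ (b + 2) ^ E := Nat.pow_le_pow_left (by omega) _
      _ ≤ (b + 2) ^ (2 * E) := Nat.pow_le_pow_right (by omega) (by omega)
  obtain ⟨J, hJ1, hJ2⟩ := scale E hE1 hXE
  set z := 2 ^ 2 ^ J with hz
  have hz1 : 1 ≤ z := Nat.pos_of_ne_zero (by rw [hz]; positivity)
  have hbz : b ≤ z := by
    have h1 : (b + 2) ^ (2 * E) < z ^ (2 * E) := lt_of_le_of_lt hX3 hJ2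
    have := lt_of_pow_lt_pow_left₀ (2 * E) (Nat.zero_le _) h1
    omega
  have hzX : z ≤ X := by
    refine le_trans ?_ hJ1
    exact Nat.le_self_pow (by omega) z
  have hXpos : (0 : ℝ) < X := by exact_mod_cast (by omega : 0 < X)
  have hABr : (0 : ℝ) < (B : ℝ) - A := lt_of_lt_of_le (by positivity) hAB
  have hABn : A ≤ B := by
    have : (A : ℝ) < B := by linarith
    exact_mod_cast this.le
  have hSv : ∀ a c : ℕ, Sv κ a c Z := fun a c p hp => ⟨hZ.card p (Pr_prime hp), hZ.lt p (Pr_prime hp)⟩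
  obtain ⟨a, ha⟩ := exists_class hZ (Pr 0 b) (fun p hp => Pr_prime hp)
  have hfl := hflc κ b b J le_rfl le_rfl Z (hSv b z) D a A (B - A) hD1 (by
    intro p hp hd
    have hpp := Pr_prime hp
    have h1 := (hpp.prime.dvd_finsetProd_iff _).1 hd
    obtain ⟨q, hq, hpq⟩ := h1
    have h2 := (Nat.prime_dvd_prime_iff_eq hpp (Pr_prime hq)).1 hpq
    have h3 := (Pr_mem.1 hp).1.1
    have h4 := (Pr_mem.1 hq).1.2
    omega)
  rw [show 2 ^ 2 ^ J = z from rfl] at hfl
  have hcard : ((Ioc A (A + (B - A))).filter (fun x => x % D = a % D ∧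
      ∀ p ∈ Pr b z, x % p ∉ Z p)).card ≤ (IS (2 * E) X A B Z).card := by
    apply card_le_card
    intro x hx
    rw [mem_filter, mem_Ioc] at hx
    obtain ⟨⟨x1, x2⟩, x3, x4⟩ := hx
    unfold IS
    rw [mem_filter, mem_Ioc]
    refine ⟨⟨x1, by omega⟩, ?_⟩
    intro q hq hqX
    by_cases hqb : q ≤ b
    · have hqm : q ∈ Pr 0 b := Pr_mem.2 ⟨⟨hq.pos, hqb⟩, hq⟩
      have h1 : q ∣ D := dvd_prod_of_mem _ hqm
      have h2 : x % q = a % q := by
        have h3 : x ≡ a [MOD D] := x3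
        exact h3.of_dvd h1
      rw [h2]
      exact ha q hqm
    · apply x4 q
      refine Pr_mem.2 ⟨⟨by omega, ?_⟩, hq⟩
      by_contra hcon
      push Not at hcon
      have h1 : (z : ℝ) < (X : ℝ) ^ (1 / ((2 * E : ℕ) : ℝ)) := lt_of_lt_of_le (by exact_mod_cast hcon) hqX
      have h2 : ((z : ℝ)) ^ (2 * E) < X := by
        have h3 := pow_lt_pow_left₀ h1 (by positivity) (show 2 * E ≠ 0 by omega)
        rw [← Real.rpow_natCast ((X : ℝ) ^ (1 / ((2 * E : ℕ) : ℝ))), ← Real.rpow_mul hXpos.le, one_div,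
          inv_mul_cancel₀ (by exact_mod_cast (by omega : 2 * E ≠ 0)), Real.rpow_one] at h3
        exact h3
      have h4 : z ^ (2 * E) < X := by exact_mod_cast h2
      omega
  -- the products
  have hnn := VZ_nonneg hZ
  have hV1 : VV Z 0 X ≤ VV Z b z := by
    rw [← VV_split Z (Nat.zero_le z) hzX, ← VV_split Z (Nat.zero_le b) hbz]
    have h1 := VZ_le_one hZ 0 b
    have h2 := VZ_le_one hZ z X
    calc VV Z 0 b * VV Z b z * VV Z z X ≤ VV Z 0 b * VV Z b z * 1 :=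
          mul_le_mul_of_nonneg_left h2 (mul_nonneg (hnn _ _) (hnn _ _))
      _ = VV Z 0 b * VV Z b z := mul_one _
      _ ≤ 1 * VV Z b z := mul_le_mul_of_nonneg_right h1 (hnn _ _)
      _ = _ := one_mul _
  have hl : 0 < Real.log X := Real.log_pos (by exact_mod_cast (by omega : 1 < X))
  have hl1 : 1 ≤ Real.log X := by
    rw [Real.le_log_iff_exp_le hXpos]
    exact Real.exp_one_lt_d9.le.trans (le_trans (by norm_num) (by exact_mod_cast hX2 : (3 : ℝ) ≤ X))
  have hVlow0 := hlow X (by omega) Z hZ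
  have hVlow : cV / Real.log X ^ (r + 1) ≤ VV Z 0 X := by
    refine le_trans ?_ hVlow0
    apply div_le_div_of_nonneg_left hcV.le (by positivity)
    exact pow_le_pow_right₀ hl1 (by omega)
  -- the error term
  have herr : ((z : ℝ)) ^ (C0 * b) ≤ ((B : ℝ) - A) * VV Z 0 X / (4 * D) := by
    have h1 : ((z : ℝ) ^ (C0 * b)) ≤ (X : ℝ) ^ (1 / 4 : ℝ) := by
      have h2 : (z ^ (C0 * b)) ^ 4 ≤ X := by
        rw [← pow_mul]
        refine le_trans (Nat.pow_le_pow_right hz1 ?_) hJ1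
        rw [hE]
        nlinarith
      have h3 := le_rpow_of_pow_le (a := z ^ (C0 * b)) (X := X) (t := 4) (by norm_num) h2
      push_cast at h3
      exact h3
    have h8 := hX₁ X hX1
    have hX1r : (1 : ℝ) ≤ X := by exact_mod_cast (by omega : 1 ≤ X)
    have h9 : (X : ℝ) ^ (1 / 4 : ℝ) * (2 * Real.log X ^ (r + 1)) ≤ θ * X * cV / (4 * D) := by
      have e1 : (X : ℝ) ^ (1 / 4 : ℝ) * (X : ℝ) ^ (1 / 4 : ℝ) ≤ X := by
        rw [← Real.rpow_add hXpos]
        have := Real.rpow_le_rpow_of_exponent_le hX1r (show (1 / 4 + 1 / 4 : ℝ) ≤ 1 by norm_num)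
        rwa [Real.rpow_one] at this
      calc (X : ℝ) ^ (1 / 4 : ℝ) * (2 * Real.log X ^ (r + 1))
          ≤ (X : ℝ) ^ (1 / 4 : ℝ) * (θ * cV / (4 * D) * (X : ℝ) ^ (1 / 4 : ℝ)) :=
            mul_le_mul_of_nonneg_left h8 (by positivity)
        _ = θ * cV / (4 * D) * ((X : ℝ) ^ (1 / 4 : ℝ) * (X : ℝ) ^ (1 / 4 : ℝ)) := by ring
        _ ≤ θ * cV / (4 * D) * X := mul_le_mul_of_nonneg_left e1 (by positivity)
        _ = θ * X * cV / (4 * D) := by ring
    have h11 : (X : ℝ) ^ (1 / 4 : ℝ) ≤ θ * X * (cV / Real.log X ^ (r + 1)) / (4 * D) := by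
      have e3 : θ * X * (cV / Real.log X ^ (r + 1)) / (4 * D) = (θ * X * cV / (4 * D)) / Real.log X ^ (r + 1) := by
        field_simp
      rw [e3, le_div_iff₀ (by positivity)]
      refine le_trans ?_ h9
      have : 0 ≤ (X : ℝ) ^ (1 / 4 : ℝ) * Real.log X ^ (r + 1) := by positivity
      linarith
    refine (h1.trans h11).trans (div_le_div_of_nonneg_right ?_ (by positivity))
    exact mul_le_mul hAB hVlow (by positivity) hABr.le
  have hcast : ((B - A : ℕ) : ℝ) = (B : ℝ) - A := by push_cast [Nat.cast_sub hABn]; ring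
  have h1 := (abs_le.1 hfl).1
  rw [show ((2 : ℝ) ^ 2 ^ J) = (z : ℝ) by rw [hz]; push_cast; rfl, hcast] at h1
  have h7 : ∏ p ∈ Pr b z, (1 - ((Z p).card : ℝ) / p) = VV Z b z := rfl
  rw [h7] at h1
  have h3 : (1 / 2 : ℝ) ^ b ≤ 1 / 2 := by
    calc (1 / 2 : ℝ) ^ b ≤ (1 / 2) ^ 1 := pow_le_pow_of_le_one (by norm_num) (by norm_num) hb1
      _ = 1 / 2 := pow_one _
  have h4 : 0 ≤ ((B : ℝ) - A) / D * VV Z b z := mul_nonneg (by positivity) (hnn b z)
  have h5 : (1 / 2 : ℝ) ^ b * (((B : ℝ) - A) / D * VV Z b z) ≤ 1 / 2 * (((B : ℝ) - A) / D * VV Z b z) :=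
    mul_le_mul_of_nonneg_right h3 h4
  have h6 : ((B : ℝ) - A) / D * VV Z 0 X ≤ ((B : ℝ) - A) / D * VV Z b z :=
    mul_le_mul_of_nonneg_left hV1 (by positivity)
  have key : ∀ w : ℝ, -((1 / 2 : ℝ) ^ b * (((B : ℝ) - A) / D * VV Z b z) + (z : ℝ) ^ (C0 * b)) ≤
      w - ((B : ℝ) - A) / D * VV Z b z → w ≤ ((IS (2 * E) X A B Z).card : ℝ) →
      (1 / 2 : ℝ) * (((B : ℝ) - A) / D * VV Z b z) - (z : ℝ) ^ (C0 * b) ≤ ((IS (2 * E) X A B Z).card : ℝ) := by
    intro w hw1 hw2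
    linarith
  have h8 : (1 / 2 : ℝ) * (((B : ℝ) - A) / D * VV Z b z) - (z : ℝ) ^ (C0 * b) ≤ ((IS (2 * E) X A B Z).card : ℝ) := by
    refine key _ h1 ?_
    rw [Nat.cast_le]
    convert hcard
  have e2 : 1 / (4 * D) * (((B : ℝ) - A) * VV Z 0 X) = 1 / 4 * (((B : ℝ) - A) / D * VV Z 0 X) := by
    field_simp
  have e5 : ((B : ℝ) - A) * VV Z 0 X / (4 * D) = 1 / 4 * (((B : ℝ) - A) / D * VV Z 0 X) := by
    field_simp
  rw [e2]
  rw [e5] at herr
  linarith

end Pool.Agent.Q253.Thin
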