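import Pool.Agent.Q253.Thin.IntFamily

/-!
# Sparse sets of integers which represent the prime and the rough values of all polynomials
-/

set_option autoImplicit false

namespace Pool.Agent.Q253.Thin

open Finset Filter
open Pool.Agent.Y843.HS (Pr VV Pr_mem Pr_prime VV_split Sv)

/-- the value at `n` of the polynomial with the coefficients `c` -/
def val {d : ℕ} (c : Fin (d + 1) → ℤ) (n : ℕ) : ℤ := ∑ j, c j * (n : ℤ) ^ (j : ℕ)

/-- no prime divides all values -/
def AdmP {d : ℕ} (c : Fin (d + 1) → ℤ) : Prop := ∀ q : ℕ, q.Prime → ∃ n : ℕ, ¬ (q : ℤ) ∣ val c n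

/-- the roots modulo `q` -/
def Zc {d : ℕ} (c : Fin (d + 1) → ℤ) (q : ℕ) : Finset ℕ := (range q).filter (fun a => (q : ℤ) ∣ val c a)

theorem val_mod {d : ℕ} (c : Fin (d + 1) → ℤ) (q n : ℕ) : (q : ℤ) ∣ val c n ↔ (q : ℤ) ∣ val c (n % q) := by
  have h : val c n ≡ val c (n % q) [ZMOD q] := by
    unfold val
    apply Int.ModEq.sum
    intro j _
    apply Int.ModEq.mul_left
    apply Int.ModEq.pow
    push_cast
    exact (Int.mod_modEq _ _).symm
  rw [Int.modEq_iff_dvd] at h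
  constructor
  · intro h1
    have := dvd_add h h1
    simpa using this
  · intro h1
    have := dvd_sub h1 h
    simpa using this

theorem mem_Zc {d : ℕ} (c : Fin (d + 1) → ℤ) {q : ℕ} (hq : 0 < q) (n : ℕ) : n % q ∈ Zc c q ↔ (q : ℤ) ∣ val c n := by
  unfold Zc
  rw [mem_filter, mem_range]
  constructor
  · rintro ⟨_, h⟩
    exact (val_mod c q n).2 h
  · intro h
    exact ⟨Nat.mod_lt _ hq, (val_mod c q n).1 h⟩

theorem card_Zc {d : ℕ} (c : Fin (d + 1) → ℤ) (h : AdmP c) {q : ℕ} (hq : q.Prime) : (Zc c q).card ≤ d := by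
  classical
  have : Fact q.Prime := ⟨hq⟩
  set f : Polynomial (ZMod q) := ∑ j : Fin (d + 1), Polynomial.C ((c j : ℤ) : ZMod q) * Polynomial.X ^ (j : ℕ) with hf
  have hev : ∀ a : ℕ, f.eval (a : ZMod q) = ((val c a : ℤ) : ZMod q) := by
    intro a
    rw [hf, Polynomial.eval_finsetSum]
    unfold val
    push_cast
    apply sum_congr rfl
    intro j _
    simp
  have hdvd : ∀ a : ℕ, f.eval (a : ZMod q) = 0 ↔ (q : ℤ) ∣ val c a := by
    intro a
    rw [hev, ZMod.intCast_zmod_eq_zero_iff_dvd]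
  have hf0 : f ≠ 0 := by
    obtain ⟨n, hn⟩ := h q hq
    intro h0
    apply hn
    rw [← hdvd, h0, Polynomial.eval_zero]
  have hdeg : f.natDegree ≤ d := by
    rw [hf]
    apply Polynomial.natDegree_sum_le_of_forall_le
    intro j _
    refine (Polynomial.natDegree_C_mul_X_pow_le _ _).trans ?_
    have := j.2
    omega
  have h1 : (Zc c q).card ≤ f.roots.toFinset.card := by
    apply card_le_card_of_injOn (fun a : ℕ => (a : ZMod q))
    · intro a ha
      have ha' := Finset.mem_coe.1 ha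
      unfold Zc at ha'
      rw [mem_filter] at ha'
      rw [Finset.mem_coe, Multiset.mem_toFinset, Polynomial.mem_roots hf0]
      exact (hdvd a).2 ha'.2
    · intro a ha b hb hab
      have ha' := Finset.mem_coe.1 ha
      have hb' := Finset.mem_coe.1 hb
      unfold Zc at ha' hb'
      rw [mem_filter, mem_range] at ha' hb'
      have h2 := (ZMod.natCast_eq_natCast_iff a b q).1 hab
      exact h2.eq_of_lt_of_lt ha'.1 hb'.1
  exact h1.trans ((Multiset.toFinset_card_le _).trans ((Polynomial.card_roots' f).trans hdeg))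

theorem sysP {d : ℕ} (c : Fin (d + 1) → ℤ) (h : AdmP c) : SysZ d (Zc c) where
  card p hp := card_Zc c h hp
  loc p hp := by
    obtain ⟨n, hn⟩ := h p hp
    have h1 : Zc c p ⊂ range p := by
      refine (Finset.ssubset_iff_of_subset (show Zc c p ⊆ range p from filter_subset _ _)).2 ?_
      refine ⟨n % p, mem_range.2 (Nat.mod_lt _ hp.pos), ?_⟩
      rw [mem_Zc c hp.pos]
      exact hn
    have := card_lt_card h1
    rwa [card_range] at this
  lt p hp a ha := by
    unfold Zc at ha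
    rw [mem_filter, mem_range] at ha
    exact ha.1

open Classical in
/-- the `n` in `(u, v]` such that the value has no prime factor `≤ X ^ (1/t)` -/
noncomputable def Ro {d : ℕ} (t X : ℕ) (c : Fin (d + 1) → ℤ) (u v : ℕ) : Finset ℕ :=
  (Ioc u v).filter (fun n => ∀ q : ℕ, q.Prime → (q : ℤ) ∣ val c n → (X : ℝ) ^ (1 / (t : ℝ)) < q)

open Classical in
/-- the `n` in `(u, v]` such that the absolute value of the value is a prime larger than `X ^ (1/t)` -/
noncomputable def Pv {d : ℕ} (t X : ℕ) (c : Fin (d + 1) → ℤ) (u v : ℕ) : Finset ℕ :=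
  (Ioc u v).filter (fun n => (val c n).natAbs.Prime ∧ (X : ℝ) ^ (1 / (t : ℝ)) < ((val c n).natAbs : ℝ))

theorem Ro_eq {d : ℕ} (t X : ℕ) (c : Fin (d + 1) → ℤ) (u v : ℕ) : Ro t X c u v = IS t X u v (Zc c) := by
  classical
  unfold Ro IS
  apply filter_congr
  intro n _
  constructor
  · intro h q hq hqX hmem
    have := h q hq ((mem_Zc c hq.pos n).1 hmem)
    linarith
  · intro h q hq hd
    by_contra hcon
    push Not at hcon
    exact h q hq hcon ((mem_Zc c hq.pos n).2 hd)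

theorem Pv_sub {d : ℕ} (t X : ℕ) (c : Fin (d + 1) → ℤ) (u v : ℕ) : Pv t X c u v ⊆ Ro t X c u v := by
  classical
  intro n hn
  unfold Pv at hn
  rw [mem_filter] at hn
  unfold Ro
  rw [mem_filter]
  refine ⟨hn.1, fun q hq hd => ?_⟩
  have h1 : q ∣ (val c n).natAbs := Int.natCast_dvd.1 hd
  have h2 := (Nat.prime_dvd_prime_iff_eq hq hn.2.1).1 h1
  rw [h2]
  exact hn.2.2

theorem Ro_mono {d : ℕ} (t X : ℕ) (c : Fin (d + 1) → ℤ) {u v u' v' : ℕ} (h1 : u' ≤ u) (h2 : v ≤ v') :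
    Ro t X c u v ⊆ Ro t X c u' v' := by
  classical
  intro n hn
  unfold Ro at hn ⊢
  rw [mem_filter, mem_Ioc] at hn ⊢
  exact ⟨⟨by omega, by omega⟩, hn.2⟩

/-- **One dyadic block.** -/
theorem blockP (d A t : ℕ) (hd : 1 ≤ d) (ht : 1 ≤ t) (ε : ℝ) (hε : 0 < ε) : ∃ K : ℝ, 0 < K ∧ ∃ X₀ : ℕ, ∀ X : ℕ, X₀ ≤ X →
    ∀ m : ℝ, K * Real.log X ^ (d + 1) ≤ m → m ≤ X → ∃ S ⊆ Ioc X (X + X), (S.card : ℝ) ≤ 2 * m ∧ m ≤ 2 * (S.card : ℝ) ∧
      ∀ c : Fin (d + 1) → ℤ, AdmP c → (∀ j, |c j| ≤ (X : ℤ) ^ A) → ∀ u v : ℕ, X ≤ u → u ≤ v → v ≤ X + X →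
        |((S ∩ Ro t X c u v).card : ℝ) - S.card * ((Ro t X c u v).card / X)| ≤ ε * (S.card * VV (Zc c) 0 X) ∧
        |((S ∩ Pv t X c u v).card : ℝ) - S.card * ((Pv t X c u v).card / X)| ≤ ε * (S.card * VV (Zc c) 0 X) := by
  classical
  obtain ⟨Cu, hCu, hup⟩ := int_upper d t hd ht
  obtain ⟨X₂, hX₂⟩ := hup 1 one_pos
  set ε1 : ℝ := min (1 / 2) (ε / (2 * (1 + Cu))) with hε1
  have hε10 : 0 < ε1 := by positivity
  have e2 : ε1 ≤ 1 / 2 := min_le_left _ _
  have e3 : ε1 * (2 * (1 + Cu)) ≤ ε := by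
    have := min_le_right (1 / 2) (ε / (2 * (1 + Cu)))
    rwa [← hε1, le_div_iff₀ (by positivity)] at this
  obtain ⟨K, hK, X₃, h3⟩ := familyZ d t hd ht ((A + 1) * (d + 1) + 5) ε1 hε10
  refine ⟨K, hK, max (max X₂ X₃) 3, ?_⟩
  intro X hX m hm hmX
  have x2 : X₂ ≤ X := (le_max_left _ _).trans ((le_max_left _ _).trans hX)
  have x3 : X₃ ≤ X := (le_max_right _ _).trans ((le_max_left _ _).trans hX)
  have x5 : 3 ≤ X := (le_max_right _ _).trans hX
  have hXr : (3 : ℝ) ≤ X := by exact_mod_cast x5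
  have hX0 : (0 : ℝ) < X := by linarith
  have hl : 0 < Real.log X := Real.log_pos (by linarith)
  have hm0 : 0 < m := lt_of_lt_of_le (by positivity) hm
  set I : Finset ((Fin (d + 1) → ℤ) × ℕ × ℕ × Bool) :=
    ((Fintype.piFinset (fun _ : Fin (d + 1) => Icc (-((X : ℤ) ^ A)) ((X : ℤ) ^ A))).filter (fun c => AdmP c)) ×ˢ
      ((Icc X (X + X)) ×ˢ ((Icc X (X + X)) ×ˢ (univ : Finset Bool))) with hI
  set R : (Fin (d + 1) → ℤ) × ℕ × ℕ × Bool → Finset ℕ := fun τ =>
    if τ.2.2.2 then Ro t X τ.1 τ.2.1 τ.2.2.1 else Pv t X τ.1 τ.2.1 τ.2.2.1 with hR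
  have hsub : ∀ τ ∈ I, R τ ⊆ IS t X X (X + X) (Zc τ.1) := by
    intro τ hτ
    rw [hI, mem_product, mem_product, mem_product, mem_Icc, mem_Icc] at hτ
    rw [← Ro_eq, hR]
    simp only
    split_ifs
    · exact Ro_mono t X τ.1 hτ.2.1.1 hτ.2.2.1.2
    · exact (Pv_sub t X τ.1 _ _).trans (Ro_mono t X τ.1 hτ.2.1.1 hτ.2.2.1.2)
  have hadm : ∀ τ ∈ I, AdmP τ.1 := by
    intro τ hτ
    rw [hI, mem_product, mem_filter] at hτ
    exact hτ.1.2
  have hIc : I.card ≤ X ^ ((A + 1) * (d + 1) + 5) := by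
    rw [hI, card_product, card_product, card_product, Nat.card_Icc, card_univ, Fintype.card_bool]
    have h1 : ((Fintype.piFinset (fun _ : Fin (d + 1) => Icc (-((X : ℤ) ^ A)) ((X : ℤ) ^ A))).filter
        (fun c => AdmP c)).card ≤ X ^ ((A + 1) * (d + 1)) := by
      refine (card_filter_le _ _).trans ?_
      rw [Fintype.card_piFinset, prod_const, card_univ, Fintype.card_fin, Int.card_Icc, pow_mul]
      apply Nat.pow_le_pow_left
      have h2 : ((X : ℤ) ^ A + 1 - -((X : ℤ) ^ A)) = ((2 * X ^ A + 1 : ℕ) : ℤ) := by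
        push_cast
        ring
      rw [h2, Int.toNat_natCast, pow_succ]
      have h3 : 1 ≤ X ^ A := Nat.one_le_pow _ _ (by omega)
      nlinarith
    have h2 : X + X + 1 - X ≤ X ^ 2 := by
      have : X + X + 1 - X = X + 1 := by omega
      rw [this]
      nlinarith
    calc _ ≤ X ^ ((A + 1) * (d + 1)) * (X ^ 2 * (X ^ 2 * X)) :=
          Nat.mul_le_mul h1 (Nat.mul_le_mul h2 (Nat.mul_le_mul h2 (by omega)))
      _ = _ := by ring
  obtain ⟨S, hSP, hScard, hSR⟩ := h3 X x3 X _ I (fun τ => Zc τ.1) R (fun τ hτ => sysP τ.1 (hadm τ hτ)) hsub hIc m hm hmX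
  have hScard' := abs_le.1 hScard
  have hSle : (S.card : ℝ) ≤ 2 * m := by
    have h5 := mul_le_mul_of_nonneg_right e2 hm0.le
    linarith [hScard'.2]
  have hSge : m ≤ 2 * (S.card : ℝ) := by
    have h5 := mul_le_mul_of_nonneg_right e2 hm0.le
    linarith [hScard'.1]
  refine ⟨S, hSP, hSle, hSge, ?_⟩
  intro c hc hcA u v hu huv hv
  have hVN0 : 0 ≤ VV (Zc c) 0 X := VZ_nonneg (sysP c hc) _ _
  have key : ∀ b : Bool, |((S ∩ R (c, u, v, b)).card : ℝ) - S.card * ((R (c, u, v, b)).card / X)| ≤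
      ε * (S.card * VV (Zc c) 0 X) := by
    intro b
    have hmem : (c, u, v, b) ∈ I := by
      rw [hI, mem_product, mem_product, mem_product, mem_Icc, mem_Icc, mem_filter, Fintype.mem_piFinset]
      refine ⟨⟨fun j => ?_, hc⟩, ⟨hu, by simp only; omega⟩, ⟨by simp only; omega, hv⟩, mem_univ _⟩
      rw [mem_Icc]
      exact abs_le.1 (hcA j)
    have h5 := hSR _ hmem
    simp only at h5
    set w : ℝ := ((R (c, u, v, b)).card : ℝ) with hw
    have hw0 : 0 ≤ w := Nat.cast_nonneg _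
    have hwu : w ≤ Cu * (X * VV (Zc c) 0 X) := by
      have h7 := hX₂ X x2 (Zc c) (sysP c hc) X (X + X) (by push_cast; linarith)
      have h8 : (((X + X : ℕ) : ℝ) - X) = X := by
        push_cast
        ring
      rw [h8] at h7
      refine le_trans ?_ h7
      rw [hw]
      exact_mod_cast card_le_card (hsub _ hmem)
    clear_value w
    have h7 : |(S.card : ℝ) * (w / X) - m / X * w| ≤ ε1 * m * (Cu * VV (Zc c) 0 X) := by
      have h8 : (S.card : ℝ) * (w / X) - m / X * w = ((S.card : ℝ) - m) * (w / X) := by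
        field_simp
      rw [h8, abs_mul, abs_of_nonneg (show 0 ≤ w / X by positivity)]
      apply mul_le_mul hScard _ (by positivity) (by positivity)
      rw [div_le_iff₀ hX0]
      linarith
    have h8 : |((S ∩ R (c, u, v, b)).card : ℝ) - S.card * (w / X)| ≤
        ε1 * (m * VV (Zc c) 0 X) + ε1 * m * (Cu * VV (Zc c) 0 X) := by
      have h9 : ((S ∩ R (c, u, v, b)).card : ℝ) - S.card * (w / X) =
        (((S ∩ R (c, u, v, b)).card : ℝ) - m / X * w) - ((S.card : ℝ) * (w / X) - m / X * w) := by ring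
      rw [h9]
      refine (abs_sub _ _).trans (add_le_add h5 h7)
    refine h8.trans ?_
    have h9 : ε1 * (m * VV (Zc c) 0 X) + ε1 * m * (Cu * VV (Zc c) 0 X) = ε1 * (1 + Cu) * (m * VV (Zc c) 0 X) := by ring
    rw [h9]
    have h10 : m * VV (Zc c) 0 X ≤ 2 * (S.card : ℝ) * VV (Zc c) 0 X := mul_le_mul_of_nonneg_right hSge hVN0
    have h11 := mul_le_mul_of_nonneg_left h10 (show 0 ≤ ε1 * (1 + Cu) by positivity)
    have h12 := mul_le_mul_of_nonneg_right e3 (mul_nonneg (Nat.cast_nonneg S.card) hVN0)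
    refine h11.trans (le_trans (le_of_eq ?_) h12)
    ring
  have h1 := key true
  have h2 := key false
  have r1 : R (c, u, v, true) = Ro t X c u v := by
    rw [hR]
    simp
  have r2 : R (c, u, v, false) = Pv t X c u v := by
    rw [hR]
    simp
  rw [r1] at h1
  rw [r2] at h2
  exact ⟨h1, h2⟩

end Pool.Agent.Q253.Thin
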