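import Pool.Agent.Q253.Thin.Fixed
import Pool.Agent.Y843.HS.Top

/-!
# Arithmetic progressions in dense sets of primes of a residue class modulo a large prime
-/

set_option autoImplicit false

namespace Pool.Agent.Q253.Thin

open Finset Filter
open Pool.Agent.Y840.CT
open Pool.Agent.Y843.HS (Pr VV Pr_mem Pr_prime VV_split Sv)
open Pool.Agent.Y843.HG (Z0)
open Pool.Agent.Y843.CH (hr hr_lt hr_cast hr_eq_iff hr_zero_iff)

/-- the classes for `y` with `q (y - 1) + a` in a class of `Z p` -/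
def Zq (Z : ℕ → Finset ℕ) (q a p : ℕ) : Finset ℕ :=
  (range p).filter (fun c => (q * (c + (p - 1)) + a) % p ∈ Z p)

theorem Zq_card {Z : ℕ → Finset ℕ} {q a p : ℕ} (hp : p.Prime) (hc : q.Coprime p) (hZ : ∀ c ∈ Z p, c < p) :
    (Zq Z q a p).card = (Z p).card := by
  classical
  have hp0 := hp.pos
  set f : ℕ → ℕ := fun c => (q * (c + (p - 1)) + a) % p with hf
  have hmaps : ∀ c ∈ range p, f c ∈ range p := fun c _ => mem_range.2 (Nat.mod_lt _ hp0)
  have hinj : Set.InjOn f (range p : Set ℕ) := by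
    intro c hc' d hd' h
    rw [mem_coe, mem_range] at hc' hd'
    have h1 : q * (c + (p - 1)) + a ≡ q * (d + (p - 1)) + a [MOD p] := h
    have h2 : q * (c + (p - 1)) ≡ q * (d + (p - 1)) [MOD p] := Nat.ModEq.add_right_cancel' a h1
    have h3 : c + (p - 1) ≡ d + (p - 1) [MOD p] := Nat.ModEq.cancel_left_of_coprime (by
      rw [Nat.gcd_comm]
      exact hc) h2
    have h4 : c ≡ d [MOD p] := Nat.ModEq.add_right_cancel' (p - 1) h3
    have h5 : c % p = d % p := h4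
    rwa [Nat.mod_eq_of_lt hc', Nat.mod_eq_of_lt hd'] at h5
  have hsurj : ∀ b ∈ range p, ∃ c ∈ range p, f c = b := by
    have himg : (range p).image f = range p := by
      apply eq_of_subset_of_card_le
      · intro b hb
        rw [mem_image] at hb
        obtain ⟨c, hc', rfl⟩ := hb
        exact hmaps c hc'
      · rw [card_image_of_injOn hinj]
    intro b hb
    rw [← himg, mem_image] at hb
    exact hb
  have h1 : (Zq Z q a p).image f = Z p := by
    ext b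
    rw [mem_image]
    constructor
    · rintro ⟨c, hc', rfl⟩
      unfold Zq at hc'
      exact (mem_filter.1 hc').2
    · intro hb
      obtain ⟨c, hc', hcb⟩ := hsurj b (mem_range.2 (hZ b hb))
      refine ⟨c, ?_, hcb⟩
      unfold Zq
      rw [mem_filter]
      refine ⟨hc', ?_⟩
      rw [← hcb] at hb
      exact hb
  rw [← h1, card_image_of_injOn]
  intro c hc' d hd' h
  unfold Zq at hc' hd'
  exact hinj (mem_coe.2 (mem_filter.1 (mem_coe.1 hc')).1) (mem_coe.2 (mem_filter.1 (mem_coe.1 hd')).1) h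

theorem ev_pow (θ κ : ℝ) (hθ : 0 < θ) (R : ℕ) (hκ : 0 < κ) :
    ∀ᶠ X : ℕ in atTop, 4 ≤ θ / 2 * (X : ℝ) ^ (1 / 2 : ℝ) ∧ (R : ℝ) ≤ (θ / 2 * (X : ℝ) ^ (1 / 2 : ℝ)) ∧
      (X : ℝ) ^ (1 / 4 : ℝ) ≤ θ / 2 * (X : ℝ) ^ (1 / 2 : ℝ) ∧ (R : ℝ) + 2 ≤ (X : ℝ) ^ (κ / 8) ∧ 2 ≤ Real.log X := by
  have h1 := (((tendsto_rpow_atTop (show (0 : ℝ) < 1 / 2 by norm_num)).comp
    (tendsto_natCast_atTop_atTop (R := ℝ))).const_mul_atTop (show 0 < θ / 2 by positivity))
  have h2 := ((tendsto_rpow_atTop (show (0 : ℝ) < 1 / 4 by norm_num)).comp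
    (tendsto_natCast_atTop_atTop (R := ℝ))).eventually (eventually_ge_atTop (2 / θ))
  have h3 := ((tendsto_rpow_atTop (show (0 : ℝ) < κ / 8 by positivity)).comp
    (tendsto_natCast_atTop_atTop (R := ℝ))).eventually (eventually_ge_atTop ((R : ℝ) + 2))
  have h4 := (Real.tendsto_log_atTop.comp (tendsto_natCast_atTop_atTop (R := ℝ))).eventually (eventually_ge_atTop 2)
  filter_upwards [h1.eventually (eventually_ge_atTop 4), h1.eventually (eventually_ge_atTop (R : ℝ)), h2, h3, h4,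
    eventually_ge_atTop 1] with X a1 a2 a3 a4 a5 a6
  refine ⟨a1, a2, ?_, a4, a5⟩
  have hX : (0 : ℝ) < X := by exact_mod_cast a6
  simp only [Function.comp] at a3
  have e : (X : ℝ) ^ (1 / 2 : ℝ) = (X : ℝ) ^ (1 / 4 : ℝ) * (X : ℝ) ^ (1 / 4 : ℝ) := by
    rw [← Real.rpow_add hX]
    norm_num
  rw [e]
  have h5 : 1 ≤ θ / 2 * (X : ℝ) ^ (1 / 4 : ℝ) := by
    calc (1 : ℝ) = θ / 2 * (2 / θ) := by field_simp
      _ ≤ θ / 2 * (X : ℝ) ^ (1 / 4 : ℝ) := mul_le_mul_of_nonneg_left a3 (by positivity)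
  calc (X : ℝ) ^ (1 / 4 : ℝ) = 1 * (X : ℝ) ^ (1 / 4 : ℝ) := (one_mul _).symm
    _ ≤ θ / 2 * (X : ℝ) ^ (1 / 4 : ℝ) * (X : ℝ) ^ (1 / 4 : ℝ) := mul_le_mul_of_nonneg_right h5 (by positivity)
    _ = _ := by ring

/-- **Progressions.** -/
theorem apClass (k r t : ℕ) (ht : 1 ≤ t) (c θ : ℝ) (hc : 0 < c) (hθ : 0 < θ) : ∃ D X₀ : ℕ, ∀ X : ℕ, X₀ ≤ X →
    ∀ F : ℕ → Finset ℤ, ∀ h0 : ℤ, SysF r X F h0 → ∀ A B : ℕ, B ≤ X → θ * X ≤ (B : ℝ) - A →
    ∀ q : ℕ, q ^ 2 ≤ 2 * X → (q = 1 ∨ (q.Prime ∧ (X : ℝ) ^ (1 / 9 : ℝ) < q)) →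
    ∀ S : Finset ℕ, S ⊆ GoodF t X A B F h0 → (∃ a, ∀ p ∈ S, p % q = a) →
      c * (((B : ℝ) - A) * VF F X / q) ≤ S.card →
      ∃ a d : ℕ, 1 ≤ d ∧ (d : ℝ) ≤ Real.log X ^ D ∧ ∀ j < k, a + j * (q * d) ∈ S := by
  classical
  have ht0 : (0 : ℝ) < t := by exact_mod_cast ht
  have ht1 : (1 : ℝ) ≤ t := by exact_mod_cast ht
  set κ : ℝ := 1 / (20 * t) with hκ
  have hκ0 : 0 < κ := by positivity
  set L : ℕ := ⌈8 / κ⌉₊ with hL
  obtain ⟨cD, hcD, R₀, hden⟩ := Pool.Agent.Y79.HS.den (r + 1) L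
  obtain ⟨D, X₁, hfin⟩ := Pool.Agent.Y843.HS.fin k (r + 1) κ (c * cD / 2) hκ0 (by positivity)
  obtain ⟨X₂, hX₂⟩ := eventually_atTop.1 (ev_pow θ κ hθ (max R₀ X₁) hκ0)
  refine ⟨2 * D, max X₂ 4, ?_⟩
  intro X hX F h0 Sy A B hBX hAB q hq2 hqc S hS ⟨a0, ha0⟩ hScard
  obtain ⟨e1, e2, e3, e4, e5⟩ := hX₂ X ((le_max_left _ _).trans hX)
  have hX4 : 4 ≤ X := (le_max_right _ _).trans hX
  have hXpos : (0 : ℝ) < X := by exact_mod_cast (by omega : 0 < X)
  have hX1 : (1 : ℝ) ≤ X := by exact_mod_cast (by omega : 1 ≤ X)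
  have hABr : (0 : ℝ) < (B : ℝ) - A := lt_of_lt_of_le (by positivity) hAB
  have hABn : A ≤ B := by
    have : (A : ℝ) < B := by linarith
    exact_mod_cast this.le
  have hq1 : 1 ≤ q := by
    rcases hqc with h | ⟨h, _⟩
    · omega
    · exact h.pos
  have hq0 : (0 : ℝ) < q := by exact_mod_cast hq1
  have hqX : (q : ℝ) ≤ 2 * (X : ℝ) ^ (1 / 2 : ℝ) := by
    have h5 : (q : ℝ) ^ 2 ≤ 2 * X := by exact_mod_cast hq2
    have h6 : ((X : ℝ) ^ (1 / 2 : ℝ)) ^ 2 = X := by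
      rw [← Real.rpow_natCast, ← Real.rpow_mul hXpos.le]
      norm_num
    have h7 : 0 ≤ (X : ℝ) ^ (1 / 2 : ℝ) := by positivity
    nlinarith
  have hlen : θ / 2 * (X : ℝ) ^ (1 / 2 : ℝ) ≤ ((B : ℝ) - A) / q := by
    rw [le_div_iff₀ hq0]
    have e : (X : ℝ) ^ (1 / 2 : ℝ) * (X : ℝ) ^ (1 / 2 : ℝ) = X := by
      rw [← Real.rpow_add hXpos]
      norm_num
    calc θ / 2 * (X : ℝ) ^ (1 / 2 : ℝ) * q ≤ θ / 2 * (X : ℝ) ^ (1 / 2 : ℝ) * (2 * (X : ℝ) ^ (1 / 2 : ℝ)) :=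
          mul_le_mul_of_nonneg_left hqX (by positivity)
      _ = θ * ((X : ℝ) ^ (1 / 2 : ℝ) * (X : ℝ) ^ (1 / 2 : ℝ)) := by ring
      _ = θ * X := by rw [e]
      _ ≤ _ := hAB
  -- the new interval
  set A' := A / q with hA'
  set X' := B / q + 1 - A / q with hX'
  have hAq : A / q ≤ B / q := Nat.div_le_div_right hABn
  have hX'r : (X' : ℝ) = ((B / q : ℕ) : ℝ) + 1 - ((A / q : ℕ) : ℝ) := by
    rw [hX', Nat.cast_sub (by omega)]
    push_cast
    ring
  have hBq1 : ((B / q : ℕ) : ℝ) ≤ B / q := Nat.cast_div_le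
  have hBq2 : (B : ℝ) / q < ((B / q : ℕ) : ℝ) + 1 := by
    rw [div_lt_iff₀ hq0]
    have := Nat.lt_mul_div_succ B (show 0 < q by omega)
    have h : (B : ℝ) < q * (((B / q : ℕ) : ℝ) + 1) := by exact_mod_cast this
    linarith
  have hAq1 : ((A / q : ℕ) : ℝ) ≤ A / q := Nat.cast_div_le
  have hAq2 : (A : ℝ) / q < ((A / q : ℕ) : ℝ) + 1 := by
    rw [div_lt_iff₀ hq0]
    have := Nat.lt_mul_div_succ A (show 0 < q by omega)
    have h : (A : ℝ) < q * (((A / q : ℕ) : ℝ) + 1) := by exact_mod_cast this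
    linarith
  have hX'low : ((B : ℝ) - A) / q ≤ X' := by
    rw [hX'r, sub_div]
    linarith
  have hX'up : (X' : ℝ) ≤ 2 * (((B : ℝ) - A) / q) := by
    have : (X' : ℝ) ≤ ((B : ℝ) - A) / q + 2 := by
      rw [hX'r, sub_div]
      linarith
    linarith
  have hX'2X : (X' : ℝ) ≤ 2 * X := by
    have h1 : ((B : ℝ) - A) / q ≤ X := by
      rw [div_le_iff₀ hq0]
      have h2 : (B : ℝ) ≤ X := by exact_mod_cast hBX
      have h3 : (0 : ℝ) ≤ A := by positivity
      have h4 : (1 : ℝ) ≤ q := by exact_mod_cast hq1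
      nlinarith
    linarith
  have hX'4 : (X : ℝ) ^ (1 / 4 : ℝ) ≤ X' := e3.trans (hlen.trans hX'low)
  have hX'pos : (0 : ℝ) < X' := lt_of_lt_of_le (by positivity) hX'4
  have hX1X : X₁ ≤ X' := by
    have h1 : ((max R₀ X₁ : ℕ) : ℝ) ≤ X' := e2.trans (hlen.trans hX'low)
    have h2 : max R₀ X₁ ≤ X' := by exact_mod_cast h1
    exact (le_max_right _ _).trans h2
  -- small primes
  have hsmall : ∀ p : ℕ, (p : ℝ) ≤ (X' : ℝ) ^ κ → (p : ℝ) ≤ (X : ℝ) ^ (1 / (10 * t) : ℝ) := by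
    intro p hp
    refine hp.trans ?_
    have h1 : (X' : ℝ) ≤ (X : ℝ) ^ (2 : ℝ) := by
      rw [show (2 : ℝ) = ((2 : ℕ) : ℝ) by norm_num, Real.rpow_natCast]
      have : (4 : ℝ) ≤ X := by exact_mod_cast hX4
      nlinarith
    calc (X' : ℝ) ^ κ ≤ ((X : ℝ) ^ (2 : ℝ)) ^ κ := Real.rpow_le_rpow hX'pos.le h1 hκ0.le
      _ = (X : ℝ) ^ (1 / (10 * t) : ℝ) := by
          rw [← Real.rpow_mul hXpos.le]
          congr 1
          rw [hκ]
          field_simp
          norm_num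
  have hsmallt : ∀ p : ℕ, (p : ℝ) ≤ (X' : ℝ) ^ κ → (p : ℝ) ≤ (X : ℝ) ^ (1 / (t : ℝ)) := by
    intro p hp
    refine (hsmall p hp).trans (Real.rpow_le_rpow_of_exponent_le hX1 ?_)
    apply one_div_le_one_div_of_le ht0
    linarith
  have hsmallq : ∀ p : ℕ, p.Prime → (p : ℝ) ≤ (X' : ℝ) ^ κ → q.Coprime p := by
    intro p hp hpX
    rcases hqc with h | ⟨h, h9⟩
    · rw [h]
      exact Nat.coprime_one_left p
    · rw [Nat.coprime_primes h hp]
      rintro rfl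
      have h1 : (X : ℝ) ^ (1 / (10 * t) : ℝ) ≤ (X : ℝ) ^ (1 / 9 : ℝ) := by
        apply Real.rpow_le_rpow_of_exponent_le hX1
        apply one_div_le_one_div_of_le (by norm_num)
        linarith
      linarith [hsmall q hpX]
  set Z := Z0 (OmF F) with hZ
  have hZc : ∀ p : ℕ, p.Prime → (Z p).card ≤ r + 1 ∧ (Z p).card < p ∧ ∀ c ∈ Z p, c < p := by
    intro p hp
    refine ⟨?_, ?_, ?_⟩
    · rw [hZ, Z0_OmF]
      refine (card_insert_le _ _).trans ?_
      have h1 : ((F p).image (fun h => hr h p)).card ≤ (F p).card := card_image_le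
      have h2 := Sy.card p hp
      omega
    · rw [hZ, card_Z0F F hp.pos]
      exact Sy.loc p hp
    · rw [hZ, Z0_OmF]
      intro c hc
      rcases mem_insert.1 hc with h | h
      · rw [h]
        exact hp.pos
      · rw [mem_image] at h
        obtain ⟨h', _, rfl⟩ := h
        exact hr_lt h' hp.pos
  set Z' : ℕ → Finset ℕ := fun p => Zq Z q a0 p with hZ'
  have hZ'card : ∀ p : ℕ, p.Prime → (p : ℝ) ≤ (X' : ℝ) ^ κ → (Z' p).card = (Z p).card := by
    intro p hp hpX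
    exact Zq_card hp (hsmallq p hp hpX) (hZc p hp).2.2
  set T := S.image (fun p => p / q + 1) with hT
  have hTinj : Set.InjOn (fun p => p / q + 1) (S : Set ℕ) := by
    intro p hp p' hp' h
    simp only [add_left_inj] at h
    have h1 := ha0 p (mem_coe.1 hp)
    have h2 := ha0 p' (mem_coe.1 hp')
    rw [← Nat.div_add_mod p q, ← Nat.div_add_mod p' q, h, h1, h2]
  have hTcard : T.card = S.card := card_image_of_injOn hTinj
  have hTsub : T ⊆ Ioc A' (A' + X') := by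
    intro y hy
    rw [hT, mem_image] at hy
    obtain ⟨p, hp, rfl⟩ := hy
    have h1 := hS hp
    unfold GoodF at h1
    rw [mem_filter, mem_Ioc] at h1
    have h2 : A / q ≤ p / q := Nat.div_le_div_right h1.1.1.le
    have h3 : p / q ≤ B / q := Nat.div_le_div_right h1.1.2
    rw [mem_Ioc]
    omega
  have hTavoid : ∀ n ∈ T, ∀ p : ℕ, p.Prime → (p : ℝ) ≤ (X' : ℝ) ^ κ → n % p ∉ Z' p := by
    intro n hn l hl hlX hmem
    rw [hT, mem_image] at hn
    obtain ⟨p, hp, rfl⟩ := hn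
    have hpG := hS hp
    unfold GoodF at hpG
    rw [mem_filter, mem_Ioc] at hpG
    obtain ⟨⟨p1, p2⟩, pp, pt, ⟨pr1, pr2, pr3⟩, pF⟩ := hpG
    have hp' := ha0 p hp
    simp only [hZ', Zq, mem_filter, mem_range] at hmem
    have h1 : (q * ((p / q + 1) % l + (l - 1)) + a0) % l = p % l := by
      have h2 : q * ((p / q + 1) % l + (l - 1)) + a0 ≡ q * ((p / q + 1) + (l - 1)) + a0 [MOD l] :=
        Nat.ModEq.add_right _ (Nat.ModEq.mul_left _ (Nat.ModEq.add_right _ (Nat.mod_modEq _ _)))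
      have h3 : q * ((p / q + 1) + (l - 1)) + a0 = p + q * l := by
        have hl1 := hl.pos
        have h4 : (p / q + 1) + (l - 1) = p / q + l := by omega
        have h5 := Nat.div_add_mod p q
        rw [h4, Nat.mul_add, ← hp']
        omega
      rw [h3] at h2
      have h6 : p + q * l ≡ p [MOD l] := by
        unfold Nat.ModEq
        simp
      exact h2.trans h6
    rw [h1, hZ, Z0_OmF] at hmem
    have hlt := hsmallt l hlX
    rcases mem_insert.1 hmem.2 with h | h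
    · have h1 : l ∣ p := Nat.dvd_of_mod_eq_zero h
      have h2 := (Nat.prime_dvd_prime_iff_eq hl pp).1 h1
      rw [h2] at hlt
      linarith
    · rw [mem_image] at h
      obtain ⟨h', hh', he⟩ := h
      apply pF l hl hlt h' hh'
      rw [← Pool.Agent.Y843.CH.hr_nat p hl.pos] at he
      have h1 := (hr_eq_iff h' (p : ℤ) hl.pos).1 he
      exact (Int.modEq_iff_dvd).1 h1.symm
  -- the density
  set K := ⌊(X' : ℝ) ^ κ⌋₊ with hK
  have hKX : X ≤ K ^ L := by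
    have h1 : (X : ℝ) ^ (κ / 8) ≤ K := by
      have h2 : (X : ℝ) ^ (κ / 4) ≤ (X' : ℝ) ^ κ := by
        calc (X : ℝ) ^ (κ / 4) = ((X : ℝ) ^ (1 / 4 : ℝ)) ^ κ := by
              rw [← Real.rpow_mul hXpos.le]
              congr 1
              ring
          _ ≤ (X' : ℝ) ^ κ := Real.rpow_le_rpow (by positivity) hX'4 hκ0.le
      have h3 : (X : ℝ) ^ (κ / 4) = (X : ℝ) ^ (κ / 8) * (X : ℝ) ^ (κ / 8) := by
        rw [← Real.rpow_add hXpos]
        congr 1
        ring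
      have h4 : (2 : ℝ) ≤ (X : ℝ) ^ (κ / 8) := by
        have : (0 : ℝ) ≤ ((max R₀ X₁ : ℕ) : ℝ) := by positivity
        linarith
      have h5 := Nat.lt_floor_add_one ((X' : ℝ) ^ κ)
      rw [← hK] at h5
      nlinarith
    have h2 : (X : ℝ) ≤ (K : ℝ) ^ L := by
      have hL8 : 8 / κ ≤ L := Nat.le_ceil _
      calc (X : ℝ) = (X : ℝ) ^ (1 : ℝ) := (Real.rpow_one _).symm
        _ ≤ (X : ℝ) ^ (κ / 8 * L) := by
            apply Real.rpow_le_rpow_of_exponent_le hX1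
            calc (1 : ℝ) = κ / 8 * (8 / κ) := by field_simp
              _ ≤ κ / 8 * L := mul_le_mul_of_nonneg_left hL8 (by positivity)
        _ = ((X : ℝ) ^ (κ / 8)) ^ L := by
            rw [Real.rpow_mul hXpos.le, Real.rpow_natCast]
        _ ≤ (K : ℝ) ^ L := pow_le_pow_left₀ (by positivity) h1 L
    exact_mod_cast h2
  have hRK : R₀ ≤ K := by
    have h1 : (X : ℝ) ^ (κ / 8) ≤ (X' : ℝ) ^ κ := by
      calc (X : ℝ) ^ (κ / 8) ≤ (X : ℝ) ^ (κ / 4) := Real.rpow_le_rpow_of_exponent_le hX1 (by linarith)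
        _ = ((X : ℝ) ^ (1 / 4 : ℝ)) ^ κ := by
            rw [← Real.rpow_mul hXpos.le]
            congr 1
            ring
        _ ≤ (X' : ℝ) ^ κ := Real.rpow_le_rpow (by positivity) hX'4 hκ0.le
    apply Nat.le_floor
    have h2 : (R₀ : ℝ) ≤ ((max R₀ X₁ : ℕ) : ℝ) := by exact_mod_cast le_max_left _ _
    linarith
  have hKle : K ≤ X := by
    have h1 : (K : ℝ) ≤ (X : ℝ) ^ (1 / (10 * t) : ℝ) := hsmall K (Nat.floor_le (by positivity))
    have h2 : (X : ℝ) ^ (1 / (10 * t) : ℝ) ≤ X := by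
      calc (X : ℝ) ^ (1 / (10 * t) : ℝ) ≤ (X : ℝ) ^ (1 : ℝ) := by
            apply Real.rpow_le_rpow_of_exponent_le hX1
            rw [div_le_one (by positivity)]
            linarith
        _ = X := Real.rpow_one _
    exact_mod_cast h1.trans h2
  have hVVeq : VV Z' 0 K = VV Z 0 K := by
    unfold VV
    apply prod_congr rfl
    intro p hp
    have hpp := Pr_prime hp
    have hpK : (p : ℝ) ≤ (X' : ℝ) ^ κ := by
      have h1 : p ≤ K := (Pr_mem.1 hp).1.2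
      have h2 : (p : ℝ) ≤ K := by exact_mod_cast h1
      exact h2.trans (Nat.floor_le (by positivity))
    rw [hZ'card p hpp hpK]
  have hVV0 : 0 ≤ VV Z 0 K := by
    apply prod_nonneg
    intro p hp
    have hpp := Pr_prime hp
    have hp0 : (0 : ℝ) < p := by exact_mod_cast hpp.pos
    rw [sub_nonneg, div_le_one hp0]
    exact_mod_cast (hZc p hpp).2.1.le
  have hVVV : cD * VV Z 0 K ≤ VF F X := by
    rw [VF_eq, ← hZ, ← VV_split Z (Nat.zero_le K) hKle, mul_comm]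
    apply mul_le_mul_of_nonneg_left _ hVV0
    exact hden K X hRK hKX Z (fun p hp => ⟨(hZc p (Pr_prime hp)).1, (hZc p (Pr_prime hp)).2.2⟩)
  have hdens : c * cD / 2 * X' * VV Z' 0 K ≤ T.card := by
    rw [hVVeq, hTcard]
    refine le_trans ?_ hScard
    calc c * cD / 2 * X' * VV Z 0 K = c / 2 * X' * (cD * VV Z 0 K) := by ring
      _ ≤ c / 2 * X' * VF F X := mul_le_mul_of_nonneg_left hVVV (by positivity)
      _ ≤ c / 2 * (2 * (((B : ℝ) - A) / q)) * VF F X :=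
          mul_le_mul_of_nonneg_right (mul_le_mul_of_nonneg_left hX'up (by positivity))
            (VF_mono Sy.loc le_rfl).2
      _ = c * (((B : ℝ) - A) * VF F X / q) := by ring
  obtain ⟨y, d, hd1, hd2, hy⟩ := hfin X' A' hX1X Z' (by
    intro p hp hpX
    rw [hZ'card p hp hpX]
    refine ⟨(hZc p hp).1, (hZc p hp).2.1, ?_⟩
    intro c hc
    simp only [hZ', Zq, mem_filter, mem_range] at hc
    exact hc.1) T hTsub hTavoid hdens
  have hback : ∀ n ∈ T, q * (n - 1) + a0 ∈ S ∧ 1 ≤ n := by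
    intro n hn
    rw [hT, mem_image] at hn
    obtain ⟨p, hp, rfl⟩ := hn
    have h1 := Nat.div_add_mod p q
    rw [ha0 p hp] at h1
    simp only [Nat.add_sub_cancel]
    rw [h1]
    exact ⟨hp, Nat.le_add_left 1 _⟩
  refine ⟨q * (y - 1) + a0, d, hd1, ?_, ?_⟩
  · refine hd2.trans ?_
    have hl0 : 0 ≤ Real.log X' := Real.log_natCast_nonneg _
    have h1 : Real.log X' ≤ Real.log X ^ 2 := by
      have h2 : Real.log X' ≤ Real.log (2 * X) := Real.log_le_log hX'pos hX'2X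
      rw [Real.log_mul (by norm_num) hXpos.ne'] at h2
      have h3 : Real.log 2 ≤ 1 := by
        have := Real.log_two_lt_d9
        linarith
      nlinarith
    calc Real.log X' ^ D ≤ (Real.log X ^ 2) ^ D := pow_le_pow_left₀ hl0 h1 D
      _ = Real.log X ^ (2 * D) := by rw [← pow_mul]
  · intro j hj
    have h1 := hback _ (hy j hj)
    have h2 : 1 ≤ y := by
      rcases Nat.eq_zero_or_pos k with hk | hk
      · omega
      · have := (hback _ (hy 0 hk)).2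
        simp at this
        exact this
    have h3 : q * (y + j * d - 1) + a0 = q * (y - 1) + a0 + j * (q * d) := by
      obtain ⟨y', rfl⟩ : ∃ y', y = y' + 1 := ⟨y - 1, by omega⟩
      have : y' + 1 + j * d - 1 = y' + j * d := by omega
      rw [this]
      simp only [Nat.add_sub_cancel]
      ring
    rw [← h3]
    exact h1.1

end Pool.Agent.Q253.Thin
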