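import Pool.Agent.Q253.Thin.VGold

/-!
# The sieve product for the shifts `0`, `N`: upper bound
-/

set_option autoImplicit false

namespace Pool.Agent.Q253.Thin

open Finset Filter
open Pool.Agent.Y840.CT
open Pool.Agent.Y843.HS (Pr Pr_mem Pr_prime)
open Pool.Agent.Y843.HG (V1 V1_bounds V1_pos fac1 totient_real)

/-- the upper bound for the sieve product of Goldbach's problem -/
theorem VG_up : ∃ C : ℝ, 0 < C ∧ ∀ N : ℕ, 2 ≤ N → Even N →
    VF (fun _ => {(N : ℤ)}) N ≤ C * (N / (N.totient * Real.log N ^ 2)) := by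
  obtain ⟨c, C, hc, hC, hV⟩ := V1_bounds
  refine ⟨C ^ 2, by positivity, ?_⟩
  intro N hN hNe
  have hN0 : N ≠ 0 := by omega
  have hl : 0 < Real.log N := Real.log_pos (by exact_mod_cast (by omega : 1 < N))
  have hφ : (0 : ℝ) < N.totient := by exact_mod_cast Nat.totient_pos.2 (by omega)
  have hN0r : (0 : ℝ) < N := by exact_mod_cast (by omega : 0 < N)
  have hV1 := (hV N hN).2
  have hVF : VF (fun _ => {(N : ℤ)}) N = ∏ p ∈ Pr 0 N, (1 - (if p ∣ N then (1 : ℝ) else 2) / p) := by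
    unfold VF
    apply prod_congr
    · ext q
      rw [Pr_mem, mem_filter, mem_Icc]
      constructor
      · rintro ⟨⟨a, b⟩, c⟩
        exact ⟨⟨c.pos, b⟩, c⟩
      · rintro ⟨⟨a, b⟩, c⟩
        exact ⟨⟨c.pos, b⟩, c⟩
    · intro p hp
      rw [rho_single]
      simp only [Int.natCast_dvd_natCast]
      split_ifs <;> norm_num
  have hPF : (∏ p ∈ Pr 0 N, (if p ∣ N then (1 - 1 / (p : ℝ)) else 1)) = (N.totient : ℝ) / N := by
    rw [totient_real, ← prod_filter]
    have hNr : (N : ℝ) ≠ 0 := by exact_mod_cast hN0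
    rw [mul_div_cancel_left₀ _ hNr]
    apply prod_congr _ (fun _ _ => rfl)
    ext p
    rw [mem_filter, Pr_mem, Nat.mem_primeFactors]
    constructor
    · rintro ⟨⟨_, hp⟩, hd⟩
      exact ⟨hp, hd, hN0⟩
    · rintro ⟨hp, hd, _⟩
      exact ⟨⟨⟨hp.pos, Nat.le_of_dvd (by omega) hd⟩, hp⟩, hd⟩
  have hfac : (∏ p ∈ Pr 0 N, (1 - (if p ∣ N then (1 : ℝ) else 2) / p)) *
        ∏ p ∈ Pr 0 N, (if p ∣ N then (1 - 1 / (p : ℝ)) else 1) ≤ (V1 N) ^ 2 := by
    unfold V1
    rw [← prod_pow, ← prod_mul_distrib]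
    apply Finset.prod_le_prod
    · intro p hp
      have hpp := Pr_prime hp
      have hp2 : (2 : ℝ) ≤ p := by exact_mod_cast hpp.two_le
      have hp0 : (0 : ℝ) < p := by linarith
      split_ifs with h2
      · apply mul_nonneg
        · rw [sub_nonneg, div_le_one hp0]
          linarith
        · rw [sub_nonneg, div_le_one hp0]
          linarith
      · rw [mul_one, sub_nonneg, div_le_one hp0]
        exact hp2
    · intro p hp
      have hpp := Pr_prime hp
      have hp2 : (2 : ℝ) ≤ p := by exact_mod_cast hpp.two_le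
      have hp0 : (p : ℝ) ≠ 0 := by positivity
      split_ifs with hd
      · apply le_of_eq
        ring
      · rw [mul_one]
        have h3 : (0 : ℝ) ≤ (1 / (p : ℝ)) ^ 2 := by positivity
        have h4 : (1 - 1 / (p : ℝ)) ^ 2 = 1 - 2 / p + (1 / (p : ℝ)) ^ 2 := by
          field_simp
          ring
        rw [h4]
        linarith
  rw [hVF]
  rw [hPF] at hfac
  have hV0 : 0 ≤ V1 N := (Pool.Agent.Y843.HG.V1_pos N).le
  have h5 : (V1 N) ^ 2 ≤ (C / Real.log N) ^ 2 := pow_le_pow_left₀ hV0 hV1 2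
  have h6 := hfac.trans h5
  have e : C ^ 2 * ((N : ℝ) / (N.totient * Real.log N ^ 2)) = (C / Real.log N) ^ 2 * (N / N.totient) := by
    field_simp
  rw [e]
  calc ∏ p ∈ Pr 0 N, (1 - (if p ∣ N then (1 : ℝ) else 2) / p)
      = ((∏ p ∈ Pr 0 N, (1 - (if p ∣ N then (1 : ℝ) else 2) / p)) * (N.totient / N)) * (N / N.totient) := by
        field_simp
    _ ≤ _ := mul_le_mul_of_nonneg_right h6 (by positivity)

/-- the condition at the small primes is weaker for larger `t` -/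
theorem GoodF_t {t t' X A B : ℕ} (ht : 1 ≤ t) (htt : t ≤ t') (hX : 1 ≤ X) (F : ℕ → Finset ℤ) (h0 : ℤ) :
    GoodF t X A B F h0 ⊆ GoodF t' X A B F h0 := by
  classical
  intro p hp
  unfold GoodF at hp ⊢
  rw [mem_filter] at hp ⊢
  obtain ⟨hAB, pp, pt, pr, pF⟩ := hp
  have hX1 : (1 : ℝ) ≤ X := by exact_mod_cast hX
  have ht0 : (0 : ℝ) < t := by exact_mod_cast ht
  have htr : (t : ℝ) ≤ t' := by exact_mod_cast htt
  have h1 : (X : ℝ) ^ (1 / (t' : ℝ)) ≤ (X : ℝ) ^ (1 / (t : ℝ)) :=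
    Real.rpow_le_rpow_of_exponent_le hX1 (one_div_le_one_div_of_le ht0 htr)
  exact ⟨hAB, pp, lt_of_le_of_lt h1 pt, pr, fun q hq hqX => pF q hq (hqX.trans h1)⟩

end Pool.Agent.Q253.Thin
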