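import Mathlib

/-!
# Greedy hitting sets for weighted families
-/

set_option autoImplicit false

namespace Pool.Agent.Q253.Thin

open Finset

theorem hit {α ι : Type*} [DecidableEq α] (Ω : Finset α) (w : α → ℝ) (hw : ∀ a ∈ Ω, 0 ≤ w a)
    (W ρ : ℝ) (hW : 0 < W) (hWs : ∑ a ∈ Ω, w a ≤ W) (hρ : 0 < ρ) (G : ι → Finset α) :
    ∀ (k : ℕ) (I : Finset ι), (∀ i ∈ I, G i ⊆ Ω ∧ ρ * W ≤ ∑ a ∈ G i, w a) →
      (I.card : ℝ) * (1 - ρ) ^ k < 1 → ∃ T ⊆ Ω, T.card ≤ k ∧ ∀ i ∈ I, ∃ a ∈ T, a ∈ G i := by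
  classical
  intro k
  induction k with
  | zero =>
    intro I _ h
    rw [pow_zero, mul_one] at h
    have h1 : I.card = 0 := by
      have : I.card < 1 := by exact_mod_cast h
      omega
    have h2 := card_eq_zero.1 h1
    subst h2
    exact ⟨∅, empty_subset _, by simp, by simp⟩
  | succ k ih =>
    intro I hI h
    rcases I.eq_empty_or_nonempty with h0 | ⟨i0, hi0⟩
    · subst h0
      exact ⟨∅, empty_subset _, by simp, by simp⟩
    have hIc : (0 : ℝ) < I.card := by exact_mod_cast card_pos.2 ⟨i0, hi0⟩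
    have hρ1 : ρ ≤ 1 := by
      have h1 : ∑ a ∈ G i0, w a ≤ ∑ a ∈ Ω, w a :=
        sum_le_sum_of_subset_of_nonneg (hI i0 hi0).1 (fun a ha _ => hw a ha)
      have h2 := (hI i0 hi0).2
      by_contra hcon
      push Not at hcon
      nlinarith
    have hdc : ∑ a ∈ Ω, w a * ((I.filter (fun i => a ∈ G i)).card : ℝ) = ∑ i ∈ I, ∑ a ∈ G i, w a := by
      have e1 : ∀ i ∈ I, ∑ a ∈ G i, w a = ∑ a ∈ Ω, if a ∈ G i then w a else 0 := by
        intro i hi
        rw [← sum_filter]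
        congr 1
        ext a
        rw [mem_filter]
        exact ⟨fun ha => ⟨(hI i hi).1 ha, ha⟩, fun ha => ha.2⟩
      rw [sum_congr rfl e1, sum_comm]
      apply sum_congr rfl
      intro a _
      rw [← sum_filter, sum_const, nsmul_eq_mul, mul_comm]
    have hlow : ρ * W * I.card ≤ ∑ a ∈ Ω, w a * ((I.filter (fun i => a ∈ G i)).card : ℝ) := by
      rw [hdc]
      have := sum_le_sum (fun i hi => (hI i hi).2)
      rw [sum_const, nsmul_eq_mul] at this
      linarith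
    obtain ⟨a, ha, hage⟩ : ∃ a ∈ Ω, ρ * I.card ≤ ((I.filter (fun i => a ∈ G i)).card : ℝ) := by
      by_contra hcon
      push Not at hcon
      obtain ⟨a1, ha1, hwa1⟩ : ∃ a ∈ Ω, 0 < w a := by
        by_contra hc2
        push Not at hc2
        have h1 : ∑ a ∈ G i0, w a ≤ 0 := sum_nonpos (fun a ha => hc2 a ((hI i0 hi0).1 ha))
        have h2 := (hI i0 hi0).2
        have : 0 < ρ * W := by positivity
        linarith
      have h1 : ∑ a ∈ Ω, w a * ((I.filter (fun i => a ∈ G i)).card : ℝ) < ∑ a ∈ Ω, w a * (ρ * I.card) := by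
        apply sum_lt_sum
        · intro a ha
          exact mul_le_mul_of_nonneg_left (hcon a ha).le (hw a ha)
        · exact ⟨a1, ha1, mul_lt_mul_of_pos_left (hcon a1 ha1) hwa1⟩
      rw [← sum_mul] at h1
      have h2 : (∑ a ∈ Ω, w a) * (ρ * I.card) ≤ W * (ρ * I.card) :=
        mul_le_mul_of_nonneg_right hWs (by positivity)
      nlinarith
    have hsplit : ((I.filter (fun i => a ∈ G i)).card : ℝ) + ((I.filter (fun i => ¬ a ∈ G i)).card : ℝ) = I.card := by
      exact_mod_cast card_filter_add_card_filter_not (s := I) (fun i => a ∈ G i)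
    obtain ⟨T, hT, hTc, hTh⟩ := ih (I.filter (fun i => ¬ a ∈ G i)) (fun i hi => hI i (mem_filter.1 hi).1) (by
      have h1 : ((I.filter (fun i => ¬ a ∈ G i)).card : ℝ) ≤ I.card * (1 - ρ) := by linarith
      have h2 : (0 : ℝ) ≤ (1 - ρ) ^ k := pow_nonneg (by linarith) _
      calc _ ≤ (I.card * (1 - ρ)) * (1 - ρ) ^ k := mul_le_mul_of_nonneg_right h1 h2
        _ = I.card * (1 - ρ) ^ (k + 1) := by ring
        _ < 1 := h)
    refine ⟨insert a T, ?_, ?_, ?_⟩
    · intro b hb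
      rcases mem_insert.1 hb with rfl | hb
      · exact ha
      · exact hT hb
    · exact (card_insert_le a T).trans (by omega)
    · intro i hi
      by_cases h1 : a ∈ G i
      · exact ⟨a, mem_insert_self _ _, h1⟩
      · obtain ⟨b, hb, hb2⟩ := hTh i (mem_filter.2 ⟨hi, h1⟩)
        exact ⟨b, mem_insert_of_mem hb, hb2⟩

/-- a family of at most `M` sets with a positive relative weight has a hitting set with
`O(log M)` elements -/
theorem hit2 {α ι : Type*} [DecidableEq α] (Ω : Finset α) (w : α → ℝ) (hw : ∀ a ∈ Ω, 0 ≤ w a)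
    (W ρ : ℝ) (hW : 0 < W) (hWs : ∑ a ∈ Ω, w a ≤ W) (hρ : 0 < ρ) (G : ι → Finset α)
    (I : Finset ι) (M : ℝ) (hM : 2 ≤ M) (hIM : (I.card : ℝ) ≤ M)
    (hI : ∀ i ∈ I, G i ⊆ Ω ∧ ρ * W ≤ ∑ a ∈ G i, w a) :
    ∃ T ⊆ Ω, (T.card : ℝ) ≤ (1 / ρ + 2) * Real.log M ∧ ∀ i ∈ I, ∃ a ∈ T, a ∈ G i := by
  classical
  rcases I.eq_empty_or_nonempty with h0 | ⟨i0, hi0⟩
  · subst h0
    refine ⟨∅, empty_subset _, ?_, by simp⟩
    have : 0 ≤ Real.log M := Real.log_nonneg (by linarith)
    simp only [card_empty, Nat.cast_zero]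
    positivity
  have hρ1 : ρ ≤ 1 := by
    have h1 : ∑ a ∈ G i0, w a ≤ ∑ a ∈ Ω, w a :=
      sum_le_sum_of_subset_of_nonneg (hI i0 hi0).1 (fun a ha _ => hw a ha)
    have h2 := (hI i0 hi0).2
    by_contra hcon
    push Not at hcon
    nlinarith
  set k : ℕ := ⌊Real.log M / ρ⌋₊ + 1 with hk
  have hlog : 0 < Real.log M := Real.log_pos (by linarith)
  have hk1 : Real.log M / ρ < k := by
    rw [hk]
    push_cast
    exact Nat.lt_floor_add_one _
  have hk2 : (k : ℝ) ≤ Real.log M / ρ + 1 := by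
    rw [hk]
    push_cast
    have := Nat.floor_le (show 0 ≤ Real.log M / ρ by positivity)
    linarith
  obtain ⟨T, hT, hTc, hTh⟩ := hit Ω w hw W ρ hW hWs hρ G k I hI (by
    have h1 : (1 - ρ) ^ k ≤ Real.exp (-(ρ * k)) := by
      have h2 : 1 - ρ ≤ Real.exp (-ρ) := by
        have := Real.add_one_le_exp (-ρ)
        linarith
      calc (1 - ρ) ^ k ≤ Real.exp (-ρ) ^ k := pow_le_pow_left₀ (by linarith) h2 k
        _ = Real.exp (-(ρ * k)) := by
          rw [← Real.exp_nat_mul]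
          congr 1
          ring
    have h3 : Real.exp (-(ρ * k)) < Real.exp (-Real.log M) := by
      apply Real.exp_lt_exp.2
      rw [div_lt_iff₀ hρ] at hk1
      linarith
    rw [Real.exp_neg (Real.log M), Real.exp_log (by linarith)] at h3
    have h4 : (0 : ℝ) ≤ (1 - ρ) ^ k := pow_nonneg (by linarith) _
    have hMp : 0 < M := by linarith
    calc (I.card : ℝ) * (1 - ρ) ^ k ≤ M * (1 - ρ) ^ k := mul_le_mul_of_nonneg_right hIM h4
      _ ≤ M * Real.exp (-(ρ * k)) := mul_le_mul_of_nonneg_left h1 hMp.le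
      _ < M * M⁻¹ := mul_lt_mul_of_pos_left h3 hMp
      _ = 1 := mul_inv_cancel₀ hMp.ne')
  refine ⟨T, hT, ?_, hTh⟩
  have h5 : (T.card : ℝ) ≤ k := by exact_mod_cast hTc
  have h6 : Real.log 2 ≤ Real.log M := Real.log_le_log (by norm_num) hM
  have h7 := Real.log_two_gt_d9
  have e : (1 / ρ + 2) * Real.log M = Real.log M / ρ + 2 * Real.log M := by ring
  rw [e]
  linarith

end Pool.Agent.Q253.Thin
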