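import Pool.Agent.Q253.Thin.Dich
import Pool.Agent.Q253.Thin.Hit

/-!
# One thin set of primes for all systems of shifts
-/

set_option autoImplicit false

namespace Pool.Agent.Q253.Thin

open Finset Filter
open Pool.Agent.Y840.CT

theorem tower {X : ℕ} (hX : 2 ≤ X) : ∃ i : ℕ, 2 ^ 2 ^ i ≤ X ∧ X < (2 ^ 2 ^ i) ^ 2 := by
  have hn : 1 ≤ Nat.log 2 X := (Nat.le_log_iff_pow_le (by norm_num) (by omega)).2 (by simpa using hX)
  refine ⟨Nat.log 2 (Nat.log 2 X), ?_, ?_⟩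
  · have h1 : 2 ^ Nat.log 2 (Nat.log 2 X) ≤ Nat.log 2 X := Nat.pow_log_le_self 2 (by omega)
    exact le_trans (Nat.pow_le_pow_right (by norm_num) h1) (Nat.pow_log_le_self 2 (by omega))
  · have h1 : Nat.log 2 X < 2 ^ (Nat.log 2 (Nat.log 2 X) + 1) := Nat.lt_pow_succ_log_self (by norm_num) _
    have h2 : X < 2 ^ (Nat.log 2 X + 1) := Nat.lt_pow_succ_log_self (by norm_num) X
    refine lt_of_lt_of_le h2 ?_
    rw [← pow_mul]
    apply Nat.pow_le_pow_right (by norm_num)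
    rw [pow_succ] at h1
    exact h1

/-- the union of sets `T i` below the tower scales, with `O(2 ^ i)` elements, is thin -/
theorem thin_union (T : ℕ → Finset ℕ) (C : ℝ) (hC : 0 < C)
    (hT : ∀ i, ∀ q ∈ T i, q.Prime ∧ ((2 ^ 2 ^ i : ℕ) : ℝ) ^ (1 / 9 : ℝ) < q)
    (hc : ∀ i, ((T i).card : ℝ) ≤ C * Real.log ((2 ^ 2 ^ i : ℕ) : ℝ)) (x : ℕ) (hx : 2 ≤ x) :
    ∃ S : Finset ℕ, (∀ q : ℕ, (∃ i, q ∈ T i) → q ≤ x → q ∈ S) ∧ (S.card : ℝ) ≤ 18 * C * Real.log x := by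
  classical
  have hx9 : 2 ≤ x ^ 9 := hx.trans (Nat.le_self_pow (by norm_num) x)
  have hL1 : 1 ≤ Nat.log 2 (x ^ 9) :=
    (Nat.le_log_iff_pow_le (by norm_num) (by omega)).2 (by simpa using hx9)
  set n := Nat.log 2 (Nat.log 2 (x ^ 9)) with hn
  refine ⟨(range (n + 1)).biUnion T, ?_, ?_⟩
  · rintro q ⟨i, hi⟩ hqx
    rw [mem_biUnion]
    refine ⟨i, ?_, hi⟩
    rw [mem_range]
    have h1 := (hT i q hi).2
    have h2 : (2 ^ 2 ^ i : ℕ) < q ^ 9 := by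
      have h3 : (((2 ^ 2 ^ i : ℕ) : ℝ) ^ (1 / 9 : ℝ)) ^ 9 < (q : ℝ) ^ 9 :=
        pow_lt_pow_left₀ h1 (by positivity) (by norm_num)
      rw [← Real.rpow_natCast, ← Real.rpow_mul (by positivity)] at h3
      norm_num at h3
      exact_mod_cast h3
    have h4 : 2 ^ 2 ^ i ≤ x ^ 9 := (h2.le).trans (Nat.pow_le_pow_left hqx 9)
    have h5 : 2 ^ i ≤ Nat.log 2 (x ^ 9) := (Nat.le_log_iff_pow_le (by norm_num) (by omega)).2 h4
    have h6 : i ≤ n := by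
      rw [hn]
      exact (Nat.le_log_iff_pow_le (by norm_num) (by omega)).2 h5
    omega
  · have h1 : (((range (n + 1)).biUnion T).card : ℝ) ≤ ∑ i ∈ range (n + 1), ((T i).card : ℝ) := by
      exact_mod_cast card_biUnion_le
    have h2 : ∑ i ∈ range (n + 1), ((T i).card : ℝ) ≤ ∑ i ∈ range (n + 1), C * Real.log 2 * 2 ^ i := by
      apply sum_le_sum
      intro i _
      refine (hc i).trans ?_
      push_cast
      rw [Real.log_pow]
      push_cast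
      apply le_of_eq
      ring
    rw [← mul_sum] at h2
    have h3 : ∑ i ∈ range (n + 1), (2 : ℝ) ^ i ≤ 2 ^ (n + 1) := by
      rw [geom_sum_eq (by norm_num)]
      norm_num
    have hl2 : 0 < Real.log 2 := Real.log_pos (by norm_num)
    have h4 : (2 : ℝ) ^ n ≤ (Nat.log 2 (x ^ 9) : ℕ) := by
      have : 2 ^ n ≤ Nat.log 2 (x ^ 9) := Nat.pow_log_le_self 2 (by omega)
      exact_mod_cast this
    have h5 : ((Nat.log 2 (x ^ 9) : ℕ) : ℝ) * Real.log 2 ≤ 9 * Real.log x := by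
      have h6 : (2 : ℝ) ^ (Nat.log 2 (x ^ 9)) ≤ (x : ℝ) ^ 9 := by
        have := Nat.pow_log_le_self 2 (show x ^ 9 ≠ 0 by omega)
        exact_mod_cast this
      have h7 := Real.log_le_log (by positivity) h6
      rw [Real.log_pow, Real.log_pow] at h7
      push_cast at h7
      exact h7
    calc _ ≤ C * Real.log 2 * ∑ i ∈ range (n + 1), (2 : ℝ) ^ i := h1.trans h2
      _ ≤ C * Real.log 2 * 2 ^ (n + 1) := mul_le_mul_of_nonneg_left h3 (by positivity)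
      _ = 2 * C * (2 ^ n * Real.log 2) := by rw [pow_succ]; ring
      _ ≤ 2 * C * (9 * Real.log x) := by
          apply mul_le_mul_of_nonneg_left _ (by positivity)
          exact (mul_le_mul_of_nonneg_right h4 hl2.le).trans h5
      _ = 18 * C * Real.log x := by ring

/-- the system of the classes of a tuple of shifts -/
def FT {r : ℕ} (g : Fin r → ℤ) : ℕ → Finset ℤ := fun _ => univ.image g

/-- the dichotomy with given constants -/
def Dich (r t : ℕ) (c ρ : ℝ) : Prop := ∀ θ : ℝ, 0 < θ → ∃ X₀ : ℕ, ∀ X : ℕ, X₀ ≤ X →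
    ∀ F : ℕ → Finset ℤ, ∀ h0 : ℤ, SysF r X F h0 → ∀ A B : ℕ, B ≤ X → θ * X ≤ (B : ℝ) - A →
      c * (((B : ℝ) - A) * VF F X) ≤ ((PF t X A B F h0).card : ℝ) ∨
      ρ ≤ ∑ q ∈ Gd c t X A B F h0, (1 : ℝ) / q

theorem thin {r t : ℕ} {c ρ : ℝ} (hr : 1 ≤ r) (hρ : 0 < ρ) (hdich : Dich r t c ρ) :
    ∃ C : ℝ, 0 < C ∧ ∃ Q : Set ℕ,
    (∀ q ∈ Q, q.Prime) ∧
    (∀ x : ℕ, 2 ≤ x → ∃ S : Finset ℕ, (∀ q ∈ Q, q ≤ x → q ∈ S) ∧ (S.card : ℝ) ≤ C * Real.log x) ∧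
    ∀ θ : ℝ, 0 < θ → ∃ X₀ : ℕ, ∀ X : ℕ, X₀ ≤ X → ∀ g : Fin r → ℤ, (∀ i, |g i| ≤ X) → ∀ j : Fin r,
      SysF r X (FT g) (g j) → ∀ A B : ℕ, B ≤ X → θ * X ≤ (B : ℝ) - A →
        c * (((B : ℝ) - A) * VF (FT g) X) ≤ ((PF t X A B (FT g) (g j)).card : ℝ) ∨
        ∃ q ∈ Q, c * (((B : ℝ) - A) * VF (FT g) X / q) ≤ ((RF t X A B (FT g) (g j) q).card : ℝ) := by
  classical
  obtain ⟨M, hM, hmert⟩ := mert
  set K : ℕ := 4 * r + 10 with hK
  set C' : ℝ := (1 / (ρ / M) + 2) * K with hC'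
  have hC'0 : 0 < C' := by positivity
  have hstep : ∀ i : ℕ, ∃ T : Finset ℕ, (∀ q ∈ T, q.Prime ∧ ((2 ^ 2 ^ i : ℕ) : ℝ) ^ (1 / 9 : ℝ) < q) ∧
      ((T.card : ℝ) ≤ C' * Real.log ((2 ^ 2 ^ i : ℕ) : ℝ)) ∧
      (max (2 ^ 18) r ≤ 2 ^ 2 ^ i → ∀ X : ℕ, 2 ^ 2 ^ i ≤ X → X < (2 ^ 2 ^ i) ^ 2 → ∀ g : Fin r → ℤ,
        (∀ k, |g k| ≤ X) → ∀ j : Fin r, ∀ A B : ℕ, A ≤ X → B ≤ X →
        ρ ≤ ∑ q ∈ Gd c t X A B (FT g) (g j), (1 : ℝ) / q → ∃ q ∈ T, q ∈ Gd c t X A B (FT g) (g j)) := by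
    intro i
    by_cases hi : max (2 ^ 18) r ≤ 2 ^ 2 ^ i
    swap
    · refine ⟨∅, by simp, ?_, fun h => absurd h hi⟩
      have : 0 ≤ Real.log ((2 ^ 2 ^ i : ℕ) : ℝ) := Real.log_natCast_nonneg _
      simp only [card_empty, Nat.cast_zero]
      positivity
    set Y : ℕ := 2 ^ 2 ^ i with hY
    have hY18 : 2 ^ 18 ≤ Y := (le_max_left _ _).trans hi
    have hYr : r ≤ Y := (le_max_right _ _).trans hi
    have hY2 : 2 ≤ Y := le_trans (by norm_num) hY18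
    have hYr2 : (2 : ℝ) ≤ Y := by exact_mod_cast hY2
    set Ω := (Icc 1 (2 * Y)).filter (fun q : ℕ => q.Prime ∧ (Y : ℝ) ^ (1 / 9 : ℝ) < q) with hΩ
    set J : Finset (ℕ × (Fin r → ℤ) × Fin r × ℕ × ℕ) :=
      (range (Y ^ 2 + 1)) ×ˢ ((Fintype.piFinset (fun _ : Fin r => Icc (-(Y ^ 2 : ℤ)) (Y ^ 2))) ×ˢ
        ((univ : Finset (Fin r)) ×ˢ ((range (Y ^ 2 + 1)) ×ˢ (range (Y ^ 2 + 1))))) with hJ
    set G : (ℕ × (Fin r → ℤ) × Fin r × ℕ × ℕ) → Finset ℕ := fun τ =>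
      Gd c t τ.1 τ.2.2.2.1 τ.2.2.2.2 (FT τ.2.1) (τ.2.1 τ.2.2.1) with hG
    set I := J.filter (fun τ => (Y ≤ τ.1 ∧ τ.1 < Y ^ 2) ∧ ρ ≤ ∑ q ∈ G τ, (1 : ℝ) / q) with hI
    have hJc : J.card = (Y ^ 2 + 1) * ((2 * Y ^ 2 + 1) ^ r * (r * ((Y ^ 2 + 1) * (Y ^ 2 + 1)))) := by
      rw [hJ, card_product, card_product, card_product, card_product, Fintype.card_piFinset, card_range,
        card_univ, Fintype.card_fin, prod_const, card_univ, Fintype.card_fin, Int.card_Icc]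
      congr 3
      have : ((Y : ℤ) ^ 2 + 1 - -(Y : ℤ) ^ 2) = ((2 * Y ^ 2 + 1 : ℕ) : ℤ) := by push_cast; ring
      rw [this, Int.toNat_natCast]
    have hIM : (I.card : ℝ) ≤ (Y : ℝ) ^ K := by
      have h1 : I.card ≤ Y ^ K := by
        refine (card_filter_le _ _).trans ?_
        rw [hJc]
        have a1 : Y ^ 2 + 1 ≤ Y ^ 3 := by nlinarith [Nat.pow_le_pow_left hY2 2, pow_succ Y 2]
        have a2 : 2 * Y ^ 2 + 1 ≤ Y ^ 4 := by
          have : Y ^ 4 = Y ^ 2 * Y ^ 2 := by ring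
          have h4 : 4 ≤ Y ^ 2 := by
            calc 4 = 2 ^ 2 := by norm_num
              _ ≤ Y ^ 2 := Nat.pow_le_pow_left hY2 2
          nlinarith
        calc (Y ^ 2 + 1) * ((2 * Y ^ 2 + 1) ^ r * (r * ((Y ^ 2 + 1) * (Y ^ 2 + 1))))
            ≤ Y ^ 3 * ((Y ^ 4) ^ r * (Y * (Y ^ 3 * Y ^ 3))) :=
              Nat.mul_le_mul a1 (Nat.mul_le_mul (Nat.pow_le_pow_left a2 r)
                (Nat.mul_le_mul hYr (Nat.mul_le_mul a1 a1)))
          _ = Y ^ K := by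
              rw [hK, ← pow_mul]
              ring
      exact_mod_cast h1
    have hKY : (2 : ℝ) ≤ (Y : ℝ) ^ K := by
      calc (2 : ℝ) ≤ (Y : ℝ) ^ 1 := by rw [pow_one]; exact hYr2
        _ ≤ (Y : ℝ) ^ K := pow_le_pow_right₀ (by linarith) (by omega)
    have hsub : ∀ τ ∈ I, G τ ⊆ Ω := by
      intro τ hτ q hq
      rw [hI, mem_filter] at hτ
      rw [hG] at hq
      unfold Gd at hq
      rw [mem_filter, mem_Icc] at hq
      obtain ⟨⟨q1, q2⟩, ⟨q3, q4⟩, q5, -⟩ := hq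
      rw [hΩ, mem_filter, mem_Icc]
      refine ⟨⟨q1, ?_⟩, q3, ?_⟩
      · by_contra hcon
        push Not at hcon
        have h1 : (2 * Y) ^ 2 < q ^ 2 := Nat.pow_lt_pow_left hcon (by norm_num)
        have h2 : q ^ 2 < 2 * Y ^ 2 := by omega
        have h3 : (2 * Y) ^ 2 = 4 * Y ^ 2 := by ring
        omega
      · refine lt_of_le_of_lt ?_ q4
        apply Real.rpow_le_rpow (by positivity) _ (by norm_num)
        exact_mod_cast hτ.2.1.1
    obtain ⟨T, hT, hTc, hTh⟩ := hit2 Ω (fun q : ℕ => (1 : ℝ) / q) (fun q _ => by positivity) M (ρ / M) hM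
      (hmert Y hY18) (by positivity) G I ((Y : ℝ) ^ K) hKY hIM (by
        intro τ hτ
        refine ⟨hsub τ hτ, ?_⟩
        rw [hI, mem_filter] at hτ
        have e : ρ / M * M = ρ := by field_simp
        rw [e]
        exact hτ.2.2)
    refine ⟨T, ?_, ?_, ?_⟩
    · intro q hq
      have := hT hq
      rw [hΩ, mem_filter] at this
      exact this.2
    · rw [Real.log_pow] at hTc
      rw [hC']
      calc (T.card : ℝ) ≤ (1 / (ρ / M) + 2) * ((K : ℝ) * Real.log Y) := hTc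
        _ = (1 / (ρ / M) + 2) * K * Real.log Y := by ring
    · intro _ X hX1 hX2 g hg j A B hA hB hs
      obtain ⟨q, hq, hq2⟩ := hTh (X, g, j, A, B) (by
        rw [hI, mem_filter, hJ]
        simp only [mem_product, mem_range, mem_univ, Fintype.mem_piFinset, mem_Icc, true_and]
        refine ⟨⟨by omega, ?_, by omega, by omega⟩, ⟨hX1, hX2⟩, hs⟩
        intro k
        have h1 := abs_le.1 (hg k)
        have h2 : (X : ℤ) < (Y : ℤ) ^ 2 := by exact_mod_cast hX2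
        constructor <;> linarith [h1.1, h1.2])
      exact ⟨q, hq, hq2⟩
  choose T hT1 hT2 hT3 using hstep
  refine ⟨18 * C', by positivity, {q : ℕ | ∃ i, q ∈ T i}, ?_, ?_, ?_⟩
  · rintro q ⟨i, hi⟩
    exact (hT1 i q hi).1
  · intro x hx
    exact thin_union T C' hC'0 hT1 hT2 x hx
  · intro θ hθ
    obtain ⟨X₀, hX₀⟩ := hdich θ hθ
    refine ⟨max X₀ ((max (2 ^ 18) r) ^ 2), ?_⟩
    intro X hX g hg j S A B hBX hAB
    have g1 : X₀ ≤ X := (le_max_left _ _).trans hX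
    have g2 : (max (2 ^ 18) r) ^ 2 ≤ X := (le_max_right _ _).trans hX
    rcases hX₀ X g1 (FT g) (g j) S A B hBX hAB with h | h
    · exact Or.inl h
    right
    have hX2 : 2 ≤ X := by
      refine le_trans ?_ g2
      calc 2 ≤ (2 ^ 18) ^ 2 := by norm_num
        _ ≤ (max (2 ^ 18) r) ^ 2 := Nat.pow_le_pow_left (le_max_left _ _) 2
    obtain ⟨i, hi1, hi2⟩ := tower hX2
    have hmax : max (2 ^ 18) r ≤ 2 ^ 2 ^ i := by
      have := lt_of_pow_lt_pow_left₀ 2 (Nat.zero_le _) (lt_of_le_of_lt g2 hi2)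
      exact this.le
    have hXpos : (0 : ℝ) < X := by exact_mod_cast (by omega : 0 < X)
    have hAX : A ≤ X := by
      have h1 : (0 : ℝ) < (B : ℝ) - A := lt_of_lt_of_le (by positivity) hAB
      have h2 : (A : ℝ) < B := by linarith
      have : A < B := by exact_mod_cast h2
      omega
    obtain ⟨q, hq, hq2⟩ := hT3 i hmax X hi1 hi2 g hg j A B hAX hBX h
    refine ⟨q, ⟨i, hq⟩, ?_⟩
    unfold Gd at hq2
    rw [mem_filter] at hq2
    exact hq2.2.2.2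

end Pool.Agent.Q253.Thin
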