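import Pool.Agent.Q253.Thin.IntFamily

/-!
# Sparse sets of integers faithful for families of sifted sets: one block, and all dyadic blocks at once
-/

set_option autoImplicit false

namespace Pool.Agent.Q253.Thin

open Finset Filter
open Pool.Agent.Y843.HS (Pr VV Pr_mem Pr_prime VV_split Sv)

theorem blockZ (r t : ℕ) (hr : 1 ≤ r) (ht : 1 ≤ t) (D : ℕ) (ε : ℝ) (hε : 0 < ε) :
    ∃ K : ℝ, 0 < K ∧ ∃ X₀ : ℕ, ∀ X : ℕ, X₀ ≤ X →
    ∀ (ι : Type) (I : Finset ι) (Z : ι → ℕ → Finset ℕ) (R : ι → Finset ℕ),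
    (∀ i ∈ I, SysZ r (Z i)) → (∀ i ∈ I, R i ⊆ IS t X X (X + X) (Z i)) → I.card ≤ X ^ D →
    ∀ m : ℝ, K * Real.log X ^ (r + 1) ≤ m → m ≤ X →
    ∃ S ⊆ Ioc X (X + X), (S.card : ℝ) ≤ 2 * m ∧ m ≤ 2 * (S.card : ℝ) ∧ ∀ i ∈ I,
      |((S ∩ R i).card : ℝ) - S.card * ((R i).card / X)| ≤ ε * (S.card * VV (Z i) 0 X) := by
  classical
  obtain ⟨Cu, hCu, hup⟩ := int_upper r t hr ht
  obtain ⟨X₂, hX₂⟩ := hup 1 one_pos
  set ε1 : ℝ := min (1 / 2) (ε / (2 * (1 + Cu))) with hε1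
  have hε10 : 0 < ε1 := by positivity
  have e2 : ε1 ≤ 1 / 2 := min_le_left _ _
  have e3 : ε1 * (2 * (1 + Cu)) ≤ ε := by
    have := min_le_right (1 / 2) (ε / (2 * (1 + Cu)))
    rwa [← hε1, le_div_iff₀ (by positivity)] at this
  obtain ⟨K, hK, X₃, h3⟩ := familyZ r t hr ht D ε1 hε10
  refine ⟨K, hK, max (max X₂ X₃) 3, ?_⟩
  intro X hX ι I Z R hsys hsub hIc m hm hmX
  have x2 : X₂ ≤ X := (le_max_left _ _).trans ((le_max_left _ _).trans hX)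
  have x3 : X₃ ≤ X := (le_max_right _ _).trans ((le_max_left _ _).trans hX)
  have x5 : 3 ≤ X := (le_max_right _ _).trans hX
  have hXr : (3 : ℝ) ≤ X := by exact_mod_cast x5
  have hX0 : (0 : ℝ) < X := by linarith
  have hl : 0 < Real.log X := Real.log_pos (by linarith)
  have hm0 : 0 < m := lt_of_lt_of_le (by positivity) hm
  obtain ⟨S, hSP, hScard, hSR⟩ := h3 X x3 X ι I Z R hsys hsub hIc m hm hmX
  have hScard' := abs_le.1 hScard
  have hSle : (S.card : ℝ) ≤ 2 * m := by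
    have h5 := mul_le_mul_of_nonneg_right e2 hm0.le
    linarith [hScard'.2]
  have hSge : m ≤ 2 * (S.card : ℝ) := by
    have h5 := mul_le_mul_of_nonneg_right e2 hm0.le
    linarith [hScard'.1]
  refine ⟨S, hSP, hSle, hSge, ?_⟩
  intro i hi
  have hVN0 : 0 ≤ VV (Z i) 0 X := VZ_nonneg (hsys i hi) _ _
  have h5 := hSR i hi
  set w : ℝ := ((R i).card : ℝ) with hw
  have hw0 : 0 ≤ w := Nat.cast_nonneg _
  have hwu : w ≤ Cu * (X * VV (Z i) 0 X) := by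
    have h7 := hX₂ X x2 (Z i) (hsys i hi) X (X + X) (by push_cast; linarith)
    have h8 : (((X + X : ℕ) : ℝ) - X) = X := by
      push_cast
      ring
    rw [h8] at h7
    refine le_trans ?_ h7
    rw [hw]
    exact_mod_cast card_le_card (hsub _ hi)
  clear_value w
  have h7 : |(S.card : ℝ) * (w / X) - m / X * w| ≤ ε1 * m * (Cu * VV (Z i) 0 X) := by
    have h8 : (S.card : ℝ) * (w / X) - m / X * w = ((S.card : ℝ) - m) * (w / X) := by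
      field_simp
    rw [h8, abs_mul, abs_of_nonneg (show 0 ≤ w / X by positivity)]
    apply mul_le_mul hScard _ (by positivity) (by positivity)
    rw [div_le_iff₀ hX0]
    linarith
  have h8 : |((S ∩ R i).card : ℝ) - S.card * (w / X)| ≤
      ε1 * (m * VV (Z i) 0 X) + ε1 * m * (Cu * VV (Z i) 0 X) := by
    have h9 : ((S ∩ R i).card : ℝ) - S.card * (w / X) =
      (((S ∩ R i).card : ℝ) - m / X * w) - ((S.card : ℝ) * (w / X) - m / X * w) := by ring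
    rw [h9]
    refine (abs_sub _ _).trans (add_le_add h5 h7)
  refine h8.trans ?_
  have h9 : ε1 * (m * VV (Z i) 0 X) + ε1 * m * (Cu * VV (Z i) 0 X) = ε1 * (1 + Cu) * (m * VV (Z i) 0 X) := by ring
  rw [h9]
  have h10 : m * VV (Z i) 0 X ≤ 2 * (S.card : ℝ) * VV (Z i) 0 X := mul_le_mul_of_nonneg_right hSge hVN0
  have h11 := mul_le_mul_of_nonneg_left h10 (show 0 ≤ ε1 * (1 + Cu) by positivity)
  have h12 := mul_le_mul_of_nonneg_right e3 (mul_nonneg (Nat.cast_nonneg S.card) hVN0)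
  refine h11.trans (le_trans (le_of_eq ?_) h12)
  ring

open Classical in
/-- the part of `S` in `(2 ^ i, 2 ^ (i + 1)]` -/
noncomputable def blk (S : Set ℕ) (i : ℕ) : Finset ℕ := (Ioc (2 ^ i) (2 ^ (i + 1))).filter (fun n => n ∈ S)

/-- **The diagonal choice.** -/
theorem diag (e : ℕ) (ω : ℕ → ℝ) (hω0 : ∀ i, 0 ≤ ω i) (Good : ℝ → ℕ → Finset ℕ → Prop)
    (hmono : ∀ ε ε' : ℝ, ε ≤ ε' → ∀ i T, Good ε i T → Good ε' i T)
    (hev : ∀ j : ℕ, ∀ᶠ i : ℕ in atTop, ∃ T : Finset ℕ, T ⊆ Ioc (2 ^ i) (2 ^ (i + 1)) ∧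
      (T.card : ℝ) ≤ ω i * i ^ e ∧ Good (1 / ((j : ℝ) + 1)) i T) :
    ∃ S : Set ℕ, (∀ i : ℕ, ((blk S i).card : ℝ) ≤ ω i * i ^ e) ∧
      ∀ ε : ℝ, 0 < ε → ∃ i₀ : ℕ, ∀ i : ℕ, i₀ ≤ i → Good ε i (blk S i) := by
  classical
  have hchoice : ∀ i : ℕ, ∃ T : Finset ℕ, T ⊆ Ioc (2 ^ i) (2 ^ (i + 1)) ∧ (T.card : ℝ) ≤ ω i * i ^ e ∧
      ∀ j : ℕ, j ≤ i → (∃ T' : Finset ℕ, T' ⊆ Ioc (2 ^ i) (2 ^ (i + 1)) ∧
        (T'.card : ℝ) ≤ ω i * i ^ e ∧ Good (1 / ((j : ℝ) + 1)) i T') → Good (1 / ((j : ℝ) + 1)) i T := by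
    intro i
    set P : ℕ → Prop := fun j => ∃ T' : Finset ℕ, T' ⊆ Ioc (2 ^ i) (2 ^ (i + 1)) ∧
        (T'.card : ℝ) ≤ ω i * i ^ e ∧ Good (1 / ((j : ℝ) + 1)) i T' with hP
    by_cases h : ∃ j ≤ i, P j
    · obtain ⟨j, hj, hPj⟩ := h
      have h1 := Nat.findGreatest_spec hj hPj
      obtain ⟨T, hT1, hT2, hT3⟩ := h1
      refine ⟨T, hT1, hT2, fun j' hj' hPj' => hmono _ _ ?_ _ _ hT3⟩
      have h2 : j' ≤ Nat.findGreatest P i := Nat.le_findGreatest hj' hPj'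
      apply one_div_le_one_div_of_le (by positivity)
      have : (j' : ℝ) ≤ (Nat.findGreatest P i : ℕ) := by exact_mod_cast h2
      linarith
    · refine ⟨∅, by simp, ?_, fun j hj hPj => absurd ⟨j, hj, hPj⟩ h⟩
      rw [card_empty, Nat.cast_zero]
      exact mul_nonneg (hω0 i) (by positivity)
  choose T hT1 hT2 hT3 using hchoice
  have hblock : ∀ i : ℕ, blk {n | ∃ i, n ∈ T i} i = T i := by
    intro i
    ext n
    unfold blk
    rw [mem_filter, mem_Ioc, Set.mem_ofPred_eq]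
    constructor
    · rintro ⟨⟨h9, h10⟩, ⟨j, hj⟩⟩
      have h11 := mem_Ioc.1 (hT1 j hj)
      have h12 : i = j := by
        by_contra hne
        rcases Nat.lt_or_gt_of_ne hne with h | h
        · have : 2 ^ (i + 1) ≤ 2 ^ j := Nat.pow_le_pow_right (by norm_num) (by omega)
          omega
        · have : 2 ^ (j + 1) ≤ 2 ^ i := Nat.pow_le_pow_right (by norm_num) (by omega)
          omega
      rw [h12]
      exact hj
    · intro h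
      exact ⟨mem_Ioc.1 (hT1 i h), i, h⟩
  refine ⟨{n | ∃ i, n ∈ T i}, fun i => by rw [hblock]; exact hT2 i, ?_⟩
  intro ε hε
  obtain ⟨j, hj⟩ := exists_nat_one_div_lt hε
  obtain ⟨i₁, hi₁⟩ := eventually_atTop.1 (hev j)
  refine ⟨max i₁ j, ?_⟩
  intro i hi
  have hi1 : i₁ ≤ i := (le_max_left _ _).trans hi
  have hi2 : j ≤ i := (le_max_right _ _).trans hi
  rw [hblock]
  exact hmono _ _ hj.le _ _ (hT3 i j hi2 (hi₁ i hi1))

/-- from one block to all dyadic blocks -/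
theorem diag_of_block (e : ℕ) (ω : ℕ → ℝ) (hω0 : ∀ i, 0 ≤ ω i) (hω : Tendsto ω atTop atTop)
    (Good : ℝ → ℕ → Finset ℕ → Prop) (hmono : ∀ ε ε' : ℝ, ε ≤ ε' → ∀ i T, Good ε i T → Good ε' i T)
    (h : ∀ ε : ℝ, 0 < ε → ∃ K : ℝ, 0 < K ∧ ∃ i₀ : ℕ, ∀ i : ℕ, i₀ ≤ i → ∀ m : ℝ,
      K * Real.log ((2 ^ i : ℕ) : ℝ) ^ e ≤ m → m ≤ ((2 ^ i : ℕ) : ℝ) →
      ∃ T : Finset ℕ, T ⊆ Ioc (2 ^ i) (2 ^ (i + 1)) ∧ (T.card : ℝ) ≤ 2 * m ∧ Good ε i T) :
    ∃ S : Set ℕ, (∀ i : ℕ, ((blk S i).card : ℝ) ≤ ω i * i ^ e) ∧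
      ∀ ε : ℝ, 0 < ε → ∃ i₀ : ℕ, ∀ i : ℕ, i₀ ≤ i → Good ε i (blk S i) := by
  apply diag e ω hω0 Good hmono
  intro j
  obtain ⟨K, hK, i₀, h⟩ := h (1 / ((j : ℝ) + 1)) (by positivity)
  have hl2 : 0 < Real.log 2 := Real.log_pos (by norm_num)
  have h1 : ∀ᶠ i : ℕ in atTop, 2 * K ≤ ω i := hω.eventually_ge_atTop _
  have h2 : ∀ᶠ i : ℕ in atTop, K * Real.log ((2 ^ i : ℕ) : ℝ) ^ e ≤ ((2 ^ i : ℕ) : ℝ) := by
    have h3 := (isLittleO_log_rpow_rpow_atTop (s := 1) (e : ℝ) (by norm_num)).def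
      (show (0 : ℝ) < 1 / K by positivity)
    have h4 : Tendsto (fun i : ℕ => ((2 ^ i : ℕ) : ℝ)) atTop atTop :=
      tendsto_natCast_atTop_atTop.comp (tendsto_pow_atTop_atTop_of_one_lt (by norm_num))
    filter_upwards [h4.eventually h3] with i g
    have hX0 : (0 : ℝ) < ((2 ^ i : ℕ) : ℝ) := by positivity
    have hl : 0 ≤ Real.log ((2 ^ i : ℕ) : ℝ) := Real.log_natCast_nonneg _
    rw [Real.rpow_natCast, Real.rpow_one, Real.norm_of_nonneg (by positivity), Real.norm_of_nonneg hX0.le,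
      div_mul_eq_mul_div, one_mul, le_div_iff₀ hK] at g
    linarith
  filter_upwards [h1, h2, eventually_ge_atTop (max i₀ 1)] with i g1 g2 g3
  have hi1 : i₀ ≤ i := (le_max_left _ _).trans g3
  have hi2 : 1 ≤ i := (le_max_right _ _).trans g3
  have hlog : Real.log ((2 ^ i : ℕ) : ℝ) = i * Real.log 2 := by
    push_cast
    rw [Real.log_pow]
  have hir : (1 : ℝ) ≤ i := by exact_mod_cast hi2
  obtain ⟨T, hT, hT1, hT2⟩ := h i hi1 _ le_rfl g2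
  refine ⟨T, hT, ?_, hT2⟩
  refine hT1.trans ?_
  have h5 : Real.log ((2 ^ i : ℕ) : ℝ) ^ e ≤ (i : ℝ) ^ e := by
    apply pow_le_pow_left₀ (Real.log_natCast_nonneg _)
    rw [hlog]
    have := Real.log_two_lt_d9
    nlinarith
  calc 2 * (K * Real.log ((2 ^ i : ℕ) : ℝ) ^ e) = 2 * K * Real.log ((2 ^ i : ℕ) : ℝ) ^ e := by ring
    _ ≤ 2 * K * (i : ℝ) ^ e := mul_le_mul_of_nonneg_left h5 (by positivity)
    _ ≤ ω i * (i : ℝ) ^ e := mul_le_mul_of_nonneg_right g1 (by positivity)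

end Pool.Agent.Q253.Thin
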