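import Pool.Agent.Q253.Thin.Recip

/-!
# Factors which are common to a positive proportion of a family of systems
-/

set_option autoImplicit false

namespace Pool.Agent.Q253.Thin

open Finset Filter
open Pool.Agent.Y840.CT

/-- double counting: the `q` which belong to a positive proportion of the sets of a family -/
theorem common {ι : Type*} (I : Finset ι) (hI : I.Nonempty) (GD : ι → Finset ℕ) (Ω : Finset ℕ) {M ρ : ℝ}
    (hM : 0 < M) (hρ : 0 < ρ) (hΩ : ∑ q ∈ Ω, (1 : ℝ) / q ≤ M) (hsub : ∀ i ∈ I, GD i ⊆ Ω)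
    (hsum : ∀ i ∈ I, ρ ≤ ∑ q ∈ GD i, (1 : ℝ) / q) [∀ q, DecidablePred (fun i : ι => q ∈ GD i)] :
    ρ / 2 ≤ ∑ q ∈ Ω.filter (fun q => ρ / (2 * M) * (I.card : ℝ) ≤ ((I.filter (fun i => q ∈ GD i)).card : ℝ)),
      (1 : ℝ) / q := by
  classical
  set η : ℝ := ρ / (2 * M) with hη
  have hI0 : (0 : ℝ) < I.card := by exact_mod_cast card_pos.2 hI
  have hdc : ∑ i ∈ I, ∑ q ∈ GD i, (1 : ℝ) / q = ∑ q ∈ Ω, (1 : ℝ) / q * ((I.filter (fun i => q ∈ GD i)).card : ℝ) := by
    have e1 : ∀ i ∈ I, ∑ q ∈ GD i, (1 : ℝ) / q = ∑ q ∈ Ω, if q ∈ GD i then (1 : ℝ) / q else 0 := by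
      intro j hj
      rw [← sum_filter]
      congr 1
      ext q
      rw [mem_filter]
      exact ⟨fun h => ⟨hsub j hj h, h⟩, fun h => h.2⟩
    rw [sum_congr rfl e1, sum_comm]
    apply sum_congr rfl
    intro q _
    rw [← sum_filter, sum_const, nsmul_eq_mul, mul_comm]
  have hlow : ρ * (I.card : ℝ) ≤ ∑ i ∈ I, ∑ q ∈ GD i, (1 : ℝ) / q := by
    have := sum_le_sum hsum
    rw [sum_const, nsmul_eq_mul] at this
    linarith
  have hup : ∑ q ∈ Ω, (1 : ℝ) / q * ((I.filter (fun i => q ∈ GD i)).card : ℝ) ≤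
      (I.card : ℝ) * ∑ q ∈ Ω.filter (fun q => η * (I.card : ℝ) ≤ ((I.filter (fun i => q ∈ GD i)).card : ℝ)), (1 : ℝ) / q +
        η * (I.card : ℝ) * M := by
    rw [← sum_filter_add_sum_filter_not Ω (fun q => η * (I.card : ℝ) ≤ ((I.filter (fun i => q ∈ GD i)).card : ℝ))]
    apply add_le_add
    · rw [mul_sum]
      apply sum_le_sum
      intro q _
      rw [mul_comm]
      apply mul_le_mul_of_nonneg_right _ (by positivity)
      exact_mod_cast card_filter_le _ _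
    · calc _ ≤ ∑ q ∈ Ω.filter (fun q => ¬ η * (I.card : ℝ) ≤ ((I.filter (fun i => q ∈ GD i)).card : ℝ)),
            (1 : ℝ) / q * (η * (I.card : ℝ)) := by
            apply sum_le_sum
            intro q hq
            have := (mem_filter.1 hq).2
            push Not at this
            exact mul_le_mul_of_nonneg_left this.le (by positivity)
        _ ≤ ∑ q ∈ Ω, (1 : ℝ) / q * (η * (I.card : ℝ)) := by
            apply sum_le_sum_of_subset_of_nonneg (filter_subset _ _)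
            intro q _ _
            positivity
        _ = (∑ q ∈ Ω, (1 : ℝ) / q) * (η * (I.card : ℝ)) := by rw [sum_mul]
        _ ≤ M * (η * (I.card : ℝ)) := mul_le_mul_of_nonneg_right hΩ (by positivity)
        _ = _ := by ring
  rw [hdc] at hlow
  have h1 := hlow.trans hup
  have h2 : η * (I.card : ℝ) * M = ρ / 2 * I.card := by
    rw [hη]
    field_simp
  rw [h2] at h1
  have h4 : (I.card : ℝ) * (ρ / 2) ≤
      (I.card : ℝ) * ∑ q ∈ Ω.filter (fun q => η * (I.card : ℝ) ≤ ((I.filter (fun i => q ∈ GD i)).card : ℝ)), (1 : ℝ) / q := by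
    linarith
  exact le_of_mul_le_mul_left h4 hI0

open Classical in
/-- **Common factors in progression.** If a nonempty family of systems has too few solutions with a prime `h₀ - p`, then
`k` primes in a progression with a small difference are good for the proportion `η` of the systems each. -/
theorem familyDich (r : ℕ) : ∃ t : ℕ, 1 ≤ t ∧ ∃ c : ℝ, 0 < c ∧ ∃ η : ℝ, 0 < η ∧ ∀ (k : ℕ) (θ : ℝ), 0 < θ →
    ∃ D X₀ : ℕ, ∀ X : ℕ, X₀ ≤ X → ∀ (ι : Type) (I : Finset ι) (F : ι → ℕ → Finset ℤ) (h0 : ι → ℤ) (A B : ι → ℕ),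
      I.Nonempty → (∀ i ∈ I, SysF r X (F i) (h0 i) ∧ B i ≤ X ∧ θ * X ≤ (B i : ℝ) - A i ∧
        ((PF t X (A i) (B i) (F i) (h0 i)).card : ℝ) < c * (((B i : ℝ) - A i) * VF (F i) X)) →
      ∃ q d : ℕ, 1 ≤ d ∧ (d : ℝ) ≤ Real.log X ^ D ∧ ∀ j < k,
        η * (I.card : ℝ) ≤ ((I.filter (fun i => q + j * d ∈ Gd c t X (A i) (B i) (F i) (h0 i))).card : ℝ) := by
  classical
  obtain ⟨t, ht, c, hc, ρ, hρ, hdich⟩ := dich r
  obtain ⟨M, hM, hmert⟩ := mert
  refine ⟨t, ht, c, hc, ρ / (2 * M), by positivity, ?_⟩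
  intro k θ hθ
  obtain ⟨X₁, hX₁⟩ := hdich θ hθ
  obtain ⟨D, X₂, hX₂⟩ := recip_ap k 9 (by norm_num) (ρ / 2) (by positivity)
  refine ⟨D, max (max X₁ X₂) (2 ^ 18), ?_⟩
  intro X hX ι I F h0 A B hI hS
  have x1 : X₁ ≤ X := (le_max_left _ _).trans ((le_max_left _ _).trans hX)
  have x2 : X₂ ≤ X := (le_max_right _ _).trans ((le_max_left _ _).trans hX)
  have x3 : 2 ^ 18 ≤ X := (le_max_right _ _).trans hX
  set Ω := (Icc 1 (2 * X)).filter (fun q : ℕ => q.Prime ∧ (X : ℝ) ^ (1 / 9 : ℝ) < q) with hΩ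
  have h1 := common I hI (fun i => Gd c t X (A i) (B i) (F i) (h0 i)) Ω hM hρ (hmert X x3) (by
    intro i _ q hq
    unfold Gd at hq
    rw [mem_filter] at hq
    rw [hΩ, mem_filter]
    exact ⟨hq.1, hq.2.1⟩) (by
    intro i hi
    obtain ⟨a1, a2, a3, a4⟩ := hS i hi
    rcases hX₁ X x1 (F i) (h0 i) a1 (A i) (B i) a2 a3 with h | h
    · exact absurd a4 (not_lt.2 h)
    · exact h)
  obtain ⟨q, d, h2, h3, h4⟩ := hX₂ X x2 _ (by
    intro q hq
    rw [mem_filter] at hq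
    obtain ⟨hq1, hq2⟩ := hq
    rw [hΩ, mem_filter] at hq1
    refine ⟨hq1.2.1, by push_cast; exact hq1.2.2, ?_⟩
    have hI0 : (0 : ℝ) < I.card := by exact_mod_cast card_pos.2 hI
    have hpos : 0 < (I.filter (fun i => q ∈ Gd c t X (A i) (B i) (F i) (h0 i))).card := by
      have : (0 : ℝ) < ((I.filter (fun i => q ∈ Gd c t X (A i) (B i) (F i) (h0 i))).card : ℝ) :=
        lt_of_lt_of_le (by positivity) hq2
      exact_mod_cast this
    obtain ⟨i, hi⟩ := card_pos.1 hpos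
    rw [mem_filter] at hi
    have hi2 := hi.2
    unfold Gd at hi2
    rw [mem_filter] at hi2
    by_contra hcon
    push Not at hcon
    have := hi2.2.2.1
    nlinarith) h1
  refine ⟨q, d, h2, h3, ?_⟩
  intro j hj
  exact (mem_filter.1 (h4 j hj)).2

end Pool.Agent.Q253.Thin
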