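import Pool.Agent.Q253.Thin.Upper

/-!
# Primes, or a positive proportion of the large primes `q` as smaller factor
-/

set_option autoImplicit false

namespace Pool.Agent.Q253.Thin

open Finset Filter
open Pool.Agent.Y843.HS (Pr VV Pr_mem Pr_prime VV_split Sv)
open Pool.Agent.Y840.CT

/-- Mertens: the reciprocals of the primes of `(X ^ (1/9), 2 X]` -/
theorem mert : ∃ M : ℝ, 0 < M ∧ ∀ X : ℕ, 2 ^ 18 ≤ X →
    ∑ q ∈ (Icc 1 (2 * X)).filter (fun q : ℕ => q.Prime ∧ (X : ℝ) ^ (1 / 9 : ℝ) < q), (1 : ℝ) / q ≤ M := by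
  obtain ⟨C, hC⟩ := Pool.Agent.Helper256.KM.mertens_inv
  have hC0 : 0 ≤ C := (abs_nonneg _).trans (hC 3 le_rfl)
  refine ⟨Real.log 36 + 2 * C, by
    have : 0 < Real.log 36 := Real.log_pos (by norm_num)
    linarith, ?_⟩
  intro X hX
  have hXr : (2 : ℝ) ^ 18 ≤ X := by exact_mod_cast hX
  have hX0 : (0 : ℝ) < X := by linarith [pow_pos (show (0 : ℝ) < 2 by norm_num) 18]
  set R := ⌊(X : ℝ) ^ (1 / 9 : ℝ)⌋₊ with hR
  have h4 : (4 : ℝ) ≤ (X : ℝ) ^ (1 / 9 : ℝ) := by
    have h1 := Real.rpow_le_rpow (by positivity) hXr (show (0 : ℝ) ≤ 1 / 9 by norm_num)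
    have h2 : ((2 : ℝ) ^ 18) ^ (1 / 9 : ℝ) = 4 := by
      rw [← Real.rpow_natCast, ← Real.rpow_mul (by norm_num)]
      norm_num
    linarith
  have hR4 : 4 ≤ R := by
    rw [hR]
    exact Nat.le_floor (by exact_mod_cast h4)
  have hRlow : (X : ℝ) ^ (1 / 18 : ℝ) ≤ R := by
    have h1 : (X : ℝ) ^ (1 / 9 : ℝ) - 1 < R := by
      have := Nat.lt_floor_add_one ((X : ℝ) ^ (1 / 9 : ℝ))
      linarith
    have h2 : (X : ℝ) ^ (1 / 9 : ℝ) = (X : ℝ) ^ (1 / 18 : ℝ) * (X : ℝ) ^ (1 / 18 : ℝ) := by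
      rw [← Real.rpow_add hX0]
      norm_num
    have h3 : (2 : ℝ) ≤ (X : ℝ) ^ (1 / 18 : ℝ) := by
      have h4' := Real.rpow_le_rpow (by positivity) hXr (show (0 : ℝ) ≤ 1 / 18 by norm_num)
      have h5 : ((2 : ℝ) ^ 18) ^ (1 / 18 : ℝ) = 2 := by
        rw [← Real.rpow_natCast, ← Real.rpow_mul (by norm_num)]
        norm_num
      linarith
    nlinarith
  have hRX : R ≤ 2 * X := by
    have h1 : (R : ℝ) ≤ X := by
      have h2 := Nat.floor_le (show 0 ≤ (X : ℝ) ^ (1 / 9 : ℝ) by positivity)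
      have h3 : (X : ℝ) ^ (1 / 9 : ℝ) ≤ (X : ℝ) ^ (1 : ℝ) :=
        Real.rpow_le_rpow_of_exponent_le (by linarith [show (1 : ℝ) ≤ 2 ^ 18 by norm_num]) (by norm_num)
      rw [Real.rpow_one] at h3
      linarith
    have : R ≤ X := by exact_mod_cast h1
    omega
  have hs := Pool.Agent.Y79.HS.sum_pr hC (show 3 ≤ R by omega) hRX
  have hsub : (Icc 1 (2 * X)).filter (fun q : ℕ => q.Prime ∧ (X : ℝ) ^ (1 / 9 : ℝ) < q) ⊆ Pr R (2 * X) := by
    intro q hq
    rw [mem_filter, mem_Icc] at hq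
    rw [Pr_mem]
    refine ⟨⟨?_, hq.1.2⟩, hq.2.1⟩
    have h1 := Nat.floor_le (show 0 ≤ (X : ℝ) ^ (1 / 9 : ℝ) by positivity)
    exact_mod_cast lt_of_le_of_lt h1 hq.2.2
  refine (sum_le_sum_of_subset_of_nonneg hsub (fun q _ _ => by positivity)).trans ?_
  refine hs.trans ?_
  have hlX : 0 < Real.log X := Real.log_pos (by linarith [show (1 : ℝ) < 2 ^ 18 by norm_num])
  have h1 : Real.log (2 * X : ℕ) ≤ 2 * Real.log X := by
    push_cast
    rw [Real.log_mul (by norm_num) hX0.ne']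
    have : Real.log 2 ≤ Real.log X := Real.log_le_log (by norm_num) (by linarith [show (2 : ℝ) ≤ 2 ^ 18 by norm_num])
    linarith
  have h2 : (1 / 18 : ℝ) * Real.log X ≤ Real.log R := by
    rw [← Real.log_rpow hX0]
    exact Real.log_le_log (by positivity) hRlow
  have h3 : Real.log (Real.log (2 * X : ℕ)) ≤ Real.log 36 + Real.log (Real.log R) := by
    have hlR : 0 < Real.log R := lt_of_lt_of_le (by positivity) h2
    rw [← Real.log_mul (by norm_num) hlR.ne']
    apply Real.log_le_log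
    · apply Real.log_pos
      push_cast
      linarith [show (1 : ℝ) < 2 ^ 18 by norm_num]
    · linarith
  linarith

open Classical in
/-- the primes `q` which occur often enough as smaller prime factor -/
noncomputable def Gd (c : ℝ) (t X A B : ℕ) (F : ℕ → Finset ℤ) (h0 : ℤ) : Finset ℕ :=
  (Icc 1 (2 * X)).filter (fun q : ℕ => (q.Prime ∧ (X : ℝ) ^ (1 / 9 : ℝ) < q) ∧ q ^ 2 ≤ 2 * X ∧
    c * (((B : ℝ) - A) * VF F X / q) ≤ ((RF t X A B F h0 q).card : ℝ))

open Classical in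
/-- the good primes `p` with `h₀ - p` prime up to the sign -/
noncomputable def PF (t X A B : ℕ) (F : ℕ → Finset ℤ) (h0 : ℤ) : Finset ℕ :=
  (GoodF t X A B F h0).filter (fun p : ℕ => (h0 - p).natAbs.Prime)

theorem two_factors {m : ℕ} (h0 : m ≠ 0) (h1 : m ≠ 1) (hp : ¬ m.Prime) (hl : m.primeFactorsList.length ≤ 2) :
    m.minFac.Prime ∧ (m / m.minFac).Prime ∧ m.minFac ≤ m / m.minFac ∧ m = m.minFac * (m / m.minFac) := by
  have hmin := Nat.minFac_prime h1
  have hd := Nat.minFac_dvd m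
  have he : m = m.minFac * (m / m.minFac) := (Nat.mul_div_cancel' hd).symm
  have hm' : m / m.minFac ≠ 1 := by
    intro h
    rw [h, mul_one] at he
    rw [he] at hp
    exact hp hmin
  have hm0 : m / m.minFac ≠ 0 := by
    intro h
    rw [h, mul_zero] at he
    exact h0 he
  have hlist : m.primeFactorsList.length = (m / m.minFac).primeFactorsList.length + 1 := by
    have h2 := (Nat.perm_primeFactorsList_mul hmin.ne_zero hm0).length_eq
    rw [← he, List.length_append, Nat.primeFactorsList_prime hmin] at h2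
    simpa [add_comm] using h2
  have hlen : (m / m.minFac).primeFactorsList.length ≤ 1 := by omega
  have hprime : (m / m.minFac).Prime := by
    have hprod := Nat.prod_primeFactorsList hm0
    rcases hL : (m / m.minFac).primeFactorsList with _ | ⟨a, l⟩
    · rw [hL] at hprod
      simp only [List.prod_nil] at hprod
      exact absurd hprod.symm hm'
    · rw [hL] at hlen hprod
      have hl0 : l = [] := by
        simp only [List.length_cons] at hlen
        exact List.eq_nil_of_length_eq_zero (by omega)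
      subst hl0
      simp only [List.prod_cons, List.prod_nil, mul_one] at hprod
      rw [← hprod]
      have : a ∈ (m / m.minFac).primeFactorsList := by rw [hL]; simp
      exact Nat.prime_of_mem_primeFactorsList this
  exact ⟨hmin, hprime, Nat.minFac_le_of_dvd hprime.two_le (Nat.div_dvd_of_dvd hd), he⟩

theorem ev_two (r : ℕ) (c : ℝ) (hc : 0 < c) :
    ∀ᶠ X : ℕ in atTop, 2 * Real.log X ^ (r + 1) ≤ c * X := by
  filter_upwards [ev_err r c hc, eventually_ge_atTop 1] with X h hX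
  refine h.trans (mul_le_mul_of_nonneg_left ?_ hc.le)
  have h1 : (1 : ℝ) ≤ X := by exact_mod_cast hX
  calc (X : ℝ) ^ (1 / 4 : ℝ) ≤ (X : ℝ) ^ (1 : ℝ) := Real.rpow_le_rpow_of_exponent_le h1 (by norm_num)
    _ = X := Real.rpow_one _

/-- **The dichotomy.** -/
theorem dich (r : ℕ) : ∃ t : ℕ, 1 ≤ t ∧ ∃ c : ℝ, 0 < c ∧ ∃ ρ : ℝ, 0 < ρ ∧ ∀ θ : ℝ, 0 < θ → ∃ X₀ : ℕ, ∀ X : ℕ, X₀ ≤ X →
    ∀ F : ℕ → Finset ℤ, ∀ h0 : ℤ, SysF r X F h0 → ∀ A B : ℕ, B ≤ X → θ * X ≤ (B : ℝ) - A →
      c * (((B : ℝ) - A) * VF F X) ≤ ((PF t X A B F h0).card : ℝ) ∨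
      ρ ≤ ∑ q ∈ Gd c t X A B F h0, (1 : ℝ) / q := by
  classical
  obtain ⟨t, ht, c0, hc0, hgen, -⟩ := genF r
  obtain ⟨C, hC, hup⟩ := upper r t ht
  obtain ⟨M, hM, hmert⟩ := mert
  obtain ⟨cV, hcV, hlow⟩ := VF_low r
  refine ⟨t, ht, min (c0 / 4) (c0 / (4 * M)), by positivity, c0 / (4 * C), by positivity, ?_⟩
  intro θ hθ
  obtain ⟨X₁, h1⟩ := hgen θ hθ
  obtain ⟨X₂, h2⟩ := hup θ hθ
  obtain ⟨X₃, h3⟩ := eventually_atTop.1 (ev_two r (c0 / 4 * θ * cV) (by positivity))
  refine ⟨max (max X₁ X₂) (max X₃ (2 ^ 18)), ?_⟩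
  intro X hX F h0 S A B hBX hAB
  have g1 : X₁ ≤ X := le_trans (le_trans (le_max_left _ _) (le_max_left _ _)) hX
  have g2 : X₂ ≤ X := le_trans (le_trans (le_max_right _ _) (le_max_left _ _)) hX
  have g3 : X₃ ≤ X := le_trans (le_trans (le_max_left _ _) (le_max_right _ _)) hX
  have g4 : 2 ^ 18 ≤ X := le_trans (le_trans (le_max_right _ _) (le_max_right _ _)) hX
  have hX2 : 2 ≤ X := le_trans (by norm_num) g4
  have hXpos : (0 : ℝ) < X := by exact_mod_cast (by omega : 0 < X)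
  have hABr : (0 : ℝ) < (B : ℝ) - A := lt_of_lt_of_le (by positivity) hAB
  have hl : 0 < Real.log X := Real.log_pos (by exact_mod_cast (by omega : 1 < X))
  have hVlow := hlow X hX2 F S.card S.loc
  have hVF0 : 0 < VF F X := lt_of_lt_of_le (by positivity) hVlow
  set V := ((B : ℝ) - A) * VF F X with hV
  have hVpos : 0 < V := mul_pos hABr hVF0
  set c1 := min (c0 / 4) (c0 / (4 * M)) with hc1
  have hc1a : c1 ≤ c0 / 4 := min_le_left _ _
  have hc1b : c1 ≤ c0 / (4 * M) := min_le_right _ _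
  have hc10 : 0 < c1 := by positivity
  by_contra hcon
  push Not at hcon
  obtain ⟨hc, hd⟩ := hcon
  have hgood := h1 X g1 F h0 S A B hBX hAB
  rw [mul_assoc, ← hV] at hgood
  set Ω := (Icc 1 (2 * X)).filter (fun q : ℕ => (q.Prime ∧ (X : ℝ) ^ (1 / 9 : ℝ) < q)) with hΩ
  -- the cover
  have hcover : GoodF t X A B F h0 ⊆ PF t X A B F h0 ∪
      ((GoodF t X A B F h0).filter (fun p : ℕ => (h0 - p).natAbs = 1) ∪
        (Ω.filter (fun q => q ^ 2 ≤ 2 * X)).biUnion (fun q => RF t X A B F h0 q)) := by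
    intro p hp
    have hp' := hp
    unfold GoodF at hp'
    rw [mem_filter, mem_Ioc] at hp'
    obtain ⟨⟨p1, p2⟩, pp, pt, ⟨pr1, pr2, pr3⟩, pF⟩ := hp'
    rw [mem_union, mem_union]
    by_cases hq1 : (h0 - p).natAbs.Prime
    · left
      unfold PF
      exact mem_filter.2 ⟨hp, hq1⟩
    right
    by_cases hq2 : (h0 - p).natAbs = 1
    · left
      exact mem_filter.2 ⟨hp, hq2⟩
    right
    have hm0 : (h0 - p).natAbs ≠ 0 := by
      rw [Ne, Int.natAbs_eq_zero]
      exact pr1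
    obtain ⟨e1, e2, e3, e4⟩ := two_factors hm0 hq2 hq1 pr2
    set m := (h0 - p).natAbs with hm
    have hm2X : m ≤ 2 * X := by
      have h5 := S.size
      have h6 : |h0 - (p : ℤ)| ≤ |h0| + |(p : ℤ)| := abs_sub _ _
      have h7 : |(p : ℤ)| = p := abs_of_nonneg (by positivity)
      have h8 : ((m : ℕ) : ℤ) = |h0 - (p : ℤ)| := by rw [hm, Int.natCast_natAbs]
      have h9 : (p : ℤ) ≤ X := by exact_mod_cast le_trans p2 hBX
      have : (m : ℤ) ≤ 2 * X := by omega
      exact_mod_cast this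
    have hsq : m.minFac ^ 2 ≤ m := by
      calc m.minFac ^ 2 = m.minFac * m.minFac := by ring
        _ ≤ m.minFac * (m / m.minFac) := Nat.mul_le_mul_left _ e3
        _ = m := e4.symm
    rw [mem_biUnion]
    refine ⟨m.minFac, ?_, ?_⟩
    · rw [hΩ, mem_filter, mem_filter, mem_Icc]
      refine ⟨⟨⟨e1.one_lt.le, ?_⟩, e1, ?_⟩, hsq.trans hm2X⟩
      · exact le_trans (Nat.minFac_le (Nat.pos_of_ne_zero hm0)) hm2X
      · apply pr3 _ e1
        rw [Int.natCast_dvd]
        exact Nat.minFac_dvd m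
    · unfold RF
      exact mem_filter.2 ⟨hp, m / m.minFac, e2, e3, e4⟩
  have hone : ((GoodF t X A B F h0).filter (fun p : ℕ => (h0 - p).natAbs = 1)).card ≤ 2 := by
    have hsub : (GoodF t X A B F h0).filter (fun p : ℕ => (h0 - p).natAbs = 1) ⊆
        {(h0 - 1).toNat, (h0 + 1).toNat} := by
      intro p hp
      have := (mem_filter.1 hp).2
      rw [mem_insert, mem_singleton]
      omega
    exact (card_le_card hsub).trans card_le_two
  have hcount : ((GoodF t X A B F h0).card : ℝ) ≤ ((PF t X A B F h0).card : ℝ) + 2 +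
      ∑ q ∈ Ω.filter (fun q => q ^ 2 ≤ 2 * X), ((RF t X A B F h0 q).card : ℝ) := by
    have h5 : (GoodF t X A B F h0).card ≤ (PF t X A B F h0).card + (2 +
        ∑ q ∈ Ω.filter (fun q => q ^ 2 ≤ 2 * X), (RF t X A B F h0 q).card) :=
      (card_le_card hcover).trans ((card_union_le _ _).trans (Nat.add_le_add_left
        ((card_union_le _ _).trans (Nat.add_le_add hone card_biUnion_le)) _))
    have h6 : ((GoodF t X A B F h0).card : ℝ) ≤ (((PF t X A B F h0).card + (2 +
        ∑ q ∈ Ω.filter (fun q => q ^ 2 ≤ 2 * X), (RF t X A B F h0 q).card) : ℕ) : ℝ) := by exact_mod_cast h5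
    push_cast at h6
    linarith
  -- the good ones
  have hsplit : ∑ q ∈ Ω.filter (fun q => q ^ 2 ≤ 2 * X), ((RF t X A B F h0 q).card : ℝ) ≤
      c1 * V * M + C * V * ∑ q ∈ Gd c1 t X A B F h0, (1 : ℝ) / q := by
    rw [← sum_filter_add_sum_filter_not (Ω.filter (fun q => q ^ 2 ≤ 2 * X))
      (fun q : ℕ => ((RF t X A B F h0 q).card : ℝ) < c1 * (V / q))]
    apply add_le_add
    · calc _ ≤ ∑ q ∈ (Ω.filter (fun q => q ^ 2 ≤ 2 * X)).filter
            (fun q : ℕ => ((RF t X A B F h0 q).card : ℝ) < c1 * (V / q)), c1 * V * ((1 : ℝ) / q) := by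
            apply sum_le_sum
            intro q hq
            have := (mem_filter.1 hq).2
            have e : c1 * (V / q) = c1 * V * (1 / q) := by ring
            linarith
        _ ≤ ∑ q ∈ Ω, c1 * V * ((1 : ℝ) / q) := by
            apply sum_le_sum_of_subset_of_nonneg
            · exact (filter_subset _ _).trans (filter_subset _ _)
            · intro q _ _
              positivity
        _ = c1 * V * ∑ q ∈ Ω, (1 : ℝ) / q := by rw [mul_sum]
        _ ≤ c1 * V * M := mul_le_mul_of_nonneg_left (hmert X g4) (by positivity)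
    · rw [mul_sum]
      calc _ ≤ ∑ q ∈ (Ω.filter (fun q => q ^ 2 ≤ 2 * X)).filter
            (fun q : ℕ => ¬ ((RF t X A B F h0 q).card : ℝ) < c1 * (V / q)), C * V * ((1 : ℝ) / q) := by
            apply sum_le_sum
            intro q hq
            rw [mem_filter, mem_filter, hΩ, mem_filter, mem_Icc] at hq
            have h5 := h2 X g2 F h0 S A B hBX hAB q hq.1.1.2.1 hq.1.1.2.2 hq.1.2
            rw [← hV] at h5
            have e : C * (V / q) = C * V * (1 / q) := by ring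
            linarith
        _ ≤ ∑ q ∈ Gd c1 t X A B F h0, C * V * ((1 : ℝ) / q) := by
            apply sum_le_sum_of_subset_of_nonneg
            · intro q hq
              rw [mem_filter, mem_filter, hΩ, mem_filter] at hq
              unfold Gd
              rw [mem_filter, ← hV]
              exact ⟨hq.1.1.1, hq.1.1.2, hq.1.2, not_lt.1 hq.2⟩
            · intro q _ _
              positivity
  have h5 : (2 : ℝ) ≤ c0 / 4 * V := by
    have h6 := h3 X g3
    have h7 : θ * X * (cV / Real.log X ^ (r + 1)) ≤ V := mul_le_mul hAB hVlow (by positivity) hABr.le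
    have h8 : 2 ≤ c0 / 4 * (θ * X * (cV / Real.log X ^ (r + 1))) := by
      have e : c0 / 4 * (θ * X * (cV / Real.log X ^ (r + 1))) = (c0 / 4 * θ * cV * X) / Real.log X ^ (r + 1) := by ring
      rw [e, le_div_iff₀ (by positivity)]
      exact h6
    have h9 := mul_le_mul_of_nonneg_left h7 (show 0 ≤ c0 / 4 by positivity)
    linarith
  have h6 : ((PF t X A B F h0).card : ℝ) < c0 / 4 * V := lt_of_lt_of_le hc (mul_le_mul_of_nonneg_right hc1a hVpos.le)
  have h7 : c1 * V * M ≤ c0 / 4 * V := by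
    have h8 : c1 * M ≤ c0 / 4 := by
      have := mul_le_mul_of_nonneg_right hc1b hM.le
      have e : c0 / (4 * M) * M = c0 / 4 := by field_simp
      linarith
    calc c1 * V * M = (c1 * M) * V := by ring
      _ ≤ c0 / 4 * V := mul_le_mul_of_nonneg_right h8 hVpos.le
  have h8 : C * V * ∑ q ∈ Gd c1 t X A B F h0, (1 : ℝ) / q < C * V * (c0 / (4 * C)) :=
    mul_lt_mul_of_pos_left hd (by positivity)
  have e : C * V * (c0 / (4 * C)) = c0 / 4 * V := by field_simp
  linarith

end Pool.Agent.Q253.Thin
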