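import Pool.Agent.Q253.Thin.Upper

/-!
# The upper bound sieve for all good primes of an interval
-/

set_option autoImplicit false

namespace Pool.Agent.Q253.Thin

open Finset Filter
open Pool.Agent.Y843.HS (Pr VV Pr_mem Pr_prime VV_split Sv)
open Pool.Agent.Y843.HG (Z0)
open Pool.Agent.Y843.CH (hr hr_lt hr_cast hr_eq_iff hr_zero_iff)
open Pool.Agent.Y840.CT

/-- the number of all good primes is at most of the right order -/
theorem upper1 (r t : ℕ) (ht : 1 ≤ t) : ∃ C : ℝ, 0 < C ∧ ∀ θ : ℝ, 0 < θ → ∃ X₀ : ℕ, ∀ X : ℕ, X₀ ≤ X →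
    ∀ F : ℕ → Finset ℤ, ∀ h0 : ℤ, SysF r X F h0 → ∀ A B : ℕ, B ≤ X → θ * X ≤ (B : ℝ) - A →
      ((GoodF t X A B F h0).card : ℝ) ≤ C * (((B : ℝ) - A) * VF F X) := by
  classical
  obtain ⟨C0, hC0, hflc⟩ := Pool.Agent.Y151.HS.flc
  set κ := r + 1 with hκ
  set b := C0 * (κ + 1) with hb
  have hb1 : 1 ≤ b := by
    rw [hb]
    exact Nat.mul_pos hC0 (by omega)
  set E := 9 * t * (C0 * b) with hE
  have hCb : 1 ≤ C0 * b := Nat.mul_pos hC0 hb1
  have hE1 : 1 ≤ E := by
    rw [hE]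
    exact Nat.mul_pos (by omega) hCb
  obtain ⟨cD, hcD, R₀, hden⟩ := Pool.Agent.Y79.HS.den κ (2 * E)
  obtain ⟨cV, hcV, hlow⟩ := VF_low r
  set cs : ℝ := ∏ p ∈ Pr 0 b, (1 / (p : ℝ)) with hcs
  have hcs0 : 0 < cs := prod_pos fun p hp => by
    have : (0 : ℝ) < p := by exact_mod_cast (Pr_prime hp).pos
    positivity
  refine ⟨2 / (cs * cD) + 1, by positivity, ?_⟩
  intro θ hθ
  obtain ⟨X₁, hX₁⟩ := eventually_atTop.1 (ev_err r (θ * cV) (by positivity))
  refine ⟨max (max X₁ 2) ((max b R₀ + 2) ^ (2 * E)), ?_⟩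
  intro X hX F h0 S A B hBX hAB
  have hX1 : X₁ ≤ X := le_trans (le_trans (le_max_left _ _) (le_max_left _ _)) hX
  have hX2 : 2 ≤ X := le_trans (le_trans (le_max_right _ _) (le_max_left _ _)) hX
  have hX3 : (max b R₀ + 2) ^ (2 * E) ≤ X := le_trans (le_max_right _ _) hX
  have hXE : 2 ^ E ≤ X := by
    refine le_trans ?_ hX3
    calc 2 ^ E ≤ (max b R₀ + 2) ^ E := Nat.pow_le_pow_left (by omega) _
      _ ≤ (max b R₀ + 2) ^ (2 * E) := Nat.pow_le_pow_right (by omega) (by omega)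
  obtain ⟨J, hJ1, hJ2⟩ := scale E hE1 hXE
  set z := 2 ^ 2 ^ J with hz
  have hz1 : 1 ≤ z := Nat.pos_of_ne_zero (by rw [hz]; positivity)
  have hzb : max b R₀ < z := by
    have h1 : (max b R₀ + 2) ^ (2 * E) < z ^ (2 * E) := lt_of_le_of_lt hX3 hJ2
    have := lt_of_pow_lt_pow_left₀ (2 * E) (Nat.zero_le _) h1
    omega
  have hbz : b ≤ z := by
    have := le_max_left b R₀
    omega
  have hRz : R₀ ≤ z := by
    have := le_max_right b R₀
    omega
  have hzt : z ^ t ≤ X := by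
    refine le_trans (Nat.pow_le_pow_right hz1 ?_) hJ1
    rw [hE]
    nlinarith
  have hz9 : z ^ 9 ≤ X := by
    refine le_trans (Nat.pow_le_pow_right hz1 ?_) hJ1
    rw [hE]
    nlinarith
  have hzX : z ≤ X := by
    refine le_trans ?_ hz9
    exact Nat.le_self_pow (by norm_num) z
  have hXpos : (0 : ℝ) < X := by exact_mod_cast (by omega : 0 < X)
  have hABr : (0 : ℝ) < (B : ℝ) - A := lt_of_lt_of_le (by positivity) hAB
  have hABn : A ≤ B := by
    have : (A : ℝ) < B := by linarith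
    exact_mod_cast this.le
  set Z := Z0 (OmF F) with hZ
  have hZc : ∀ p : ℕ, p.Prime → (Z p).card ≤ κ ∧ ∀ c ∈ Z p, c < p := by
    intro p hp
    rw [hZ, Z0_OmF]
    constructor
    · refine (card_insert_le _ _).trans ?_
      have h1 : ((F p).image (fun h => hr h p)).card ≤ (F p).card := card_image_le
      have h2 := S.card p hp
      omega
    · intro c hc
      rcases mem_insert.1 hc with h | h
      · rw [h]
        exact hp.pos
      · rw [mem_image] at h
        obtain ⟨h', _, rfl⟩ := h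
        exact hr_lt h' hp.pos
  have hSv : ∀ a c : ℕ, Sv κ a c Z := fun a c p hp => hZc p (Pr_prime hp)
  have hfl := hflc κ b b J le_rfl le_rfl Z (hSv b z) 1 0 A (B - A) le_rfl (by
    intro p hp hd
    have h1 := (Pr_prime hp).two_le
    have h2 := Nat.le_of_dvd (by norm_num) hd
    omega)
  rw [show 2 ^ 2 ^ J = z from rfl] at hfl
  have hcard : (GoodF t X A B F h0).card ≤ ((Ioc A (A + (B - A))).filter (fun x => x % 1 = 0 % 1 ∧
      ∀ p ∈ Pr b z, x % p ∉ Z p)).card := by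
    apply card_le_card
    intro x hx
    unfold GoodF at hx
    rw [mem_filter, mem_Ioc] at hx
    obtain ⟨⟨x1, x2⟩, xp, xt, xr, xF⟩ := hx
    rw [mem_filter, mem_Ioc]
    refine ⟨⟨x1, by omega⟩, by omega, ?_⟩
    · intro p hp hmem
      have hpp := Pr_prime hp
      have hpz : p ≤ z := (Pr_mem.1 hp).1.2
      have hpt : (p : ℝ) ≤ (X : ℝ) ^ (1 / (t : ℝ)) :=
        le_rpow_of_pow_le ht (le_trans (Nat.pow_le_pow_left hpz t) hzt)
      rw [hZ, Z0_OmF] at hmem
      rcases mem_insert.1 hmem with h | h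
      · have h1 : p ∣ x := Nat.dvd_of_mod_eq_zero h
        have h2 := (Nat.prime_dvd_prime_iff_eq hpp xp).1 h1
        rw [h2] at hpt
        linarith
      · rw [mem_image] at h
        obtain ⟨h', hh', he⟩ := h
        apply xF p hpp hpt h' hh'
        rw [← Pool.Agent.Y843.CH.hr_nat x hpp.pos] at he
        have h1 := (hr_eq_iff h' (x : ℤ) hpp.pos).1 he
        exact (Int.modEq_iff_dvd).1 h1.symm
  -- the products
  have hnn : ∀ a c : ℕ, 0 ≤ VV Z a c := by
    intro a c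
    apply prod_nonneg
    intro p hp
    have hpp := Pr_prime hp
    have hp0 : (0 : ℝ) < p := by exact_mod_cast hpp.pos
    rw [sub_nonneg, div_le_one hp0, hZ, card_Z0F F hpp.pos]
    exact_mod_cast (S.loc p hpp).le
  have hV0 : cs ≤ VV Z 0 b := by
    rw [hcs]
    apply Finset.prod_le_prod
    · intro p _
      positivity
    · intro p hp
      have hpp := Pr_prime hp
      have hp0 : (0 : ℝ) < p := by exact_mod_cast hpp.pos
      rw [hZ, card_Z0F F hpp.pos, le_sub_iff_add_le, ← add_div, div_le_one hp0]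
      have := S.loc p hpp
      have h3 : 1 + rho (F p) p ≤ p := by omega
      exact_mod_cast h3
  have hV2 : cD ≤ VV Z z X := hden z X hRz hJ2.le Z (hSv z X)
  have hVsp : VF F X = VV Z 0 b * VV Z b z * VV Z z X := by
    rw [VF_eq, VV_split Z (Nat.zero_le b) hbz, VV_split Z (Nat.zero_le z) hzX]
  have hPi : VV Z b z ≤ VF F X / (cs * cD) := by
    rw [le_div_iff₀ (by positivity), hVsp]
    have h1 : cs * cD ≤ VV Z 0 b * VV Z z X := mul_le_mul hV0 hV2 hcD.le (hnn 0 b)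
    calc VV Z b z * (cs * cD) ≤ VV Z b z * (VV Z 0 b * VV Z z X) := mul_le_mul_of_nonneg_left h1 (hnn b z)
      _ = VV Z 0 b * VV Z b z * VV Z z X := by ring
  have hVlow := hlow X hX2 F S.card S.loc
  have hVF0 : 0 < VF F X := by
    have hl : 0 < Real.log X := Real.log_pos (by exact_mod_cast (by omega : 1 < X))
    exact lt_of_lt_of_le (by positivity) hVlow
  -- the error term
  have herr : ((z : ℝ)) ^ (C0 * b) ≤ ((B : ℝ) - A) * VF F X := by
    have h1 : ((z : ℝ) ^ (C0 * b)) ≤ (X : ℝ) ^ (1 / 4 : ℝ) := by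
      have h2 : (z ^ (C0 * b)) ^ 4 ≤ X := by
        rw [← pow_mul]
        refine le_trans (Nat.pow_le_pow_right hz1 ?_) hJ1
        rw [hE]
        nlinarith
      have h3 := le_rpow_of_pow_le (a := z ^ (C0 * b)) (X := X) (t := 4) (by norm_num) h2
      push_cast at h3
      exact h3
    have hl : 0 < Real.log X := Real.log_pos (by exact_mod_cast (by omega : 1 < X))
    have h8 := hX₁ X hX1
    have hX1r : (1 : ℝ) ≤ X := by exact_mod_cast (by omega : 1 ≤ X)
    have h9 : (X : ℝ) ^ (1 / 4 : ℝ) * (2 * Real.log X ^ (r + 1)) ≤ θ * X * cV := by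
      have e1 : (X : ℝ) ^ (1 / 4 : ℝ) * (X : ℝ) ^ (1 / 4 : ℝ) ≤ X := by
        rw [← Real.rpow_add hXpos]
        have := Real.rpow_le_rpow_of_exponent_le hX1r (show (1 / 4 + 1 / 4 : ℝ) ≤ 1 by norm_num)
        rwa [Real.rpow_one] at this
      calc (X : ℝ) ^ (1 / 4 : ℝ) * (2 * Real.log X ^ (r + 1))
          ≤ (X : ℝ) ^ (1 / 4 : ℝ) * (θ * cV * (X : ℝ) ^ (1 / 4 : ℝ)) :=
            mul_le_mul_of_nonneg_left h8 (by positivity)
        _ = θ * cV * ((X : ℝ) ^ (1 / 4 : ℝ) * (X : ℝ) ^ (1 / 4 : ℝ)) := by ring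
        _ ≤ θ * cV * X := mul_le_mul_of_nonneg_left e1 (by positivity)
        _ = θ * X * cV := by ring
    have h11 : (X : ℝ) ^ (1 / 4 : ℝ) ≤ θ * X * (cV / Real.log X ^ (r + 1)) := by
      rw [← mul_div_assoc, le_div_iff₀ (by positivity)]
      refine le_trans ?_ h9
      have : 0 ≤ (X : ℝ) ^ (1 / 4 : ℝ) * Real.log X ^ (r + 1) := by positivity
      linarith
    calc (z : ℝ) ^ (C0 * b) ≤ θ * X * (cV / Real.log X ^ (r + 1)) := h1.trans h11
      _ ≤ ((B : ℝ) - A) * VF F X := mul_le_mul hAB hVlow (by positivity) hABr.le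
  have hcast : ((B - A : ℕ) : ℝ) = (B : ℝ) - A := by push_cast [Nat.cast_sub hABn]; ring
  have h1 := (abs_le.1 hfl).2
  rw [show ((2 : ℝ) ^ 2 ^ J) = (z : ℝ) by rw [hz]; push_cast; rfl, hcast] at h1
  have h7 : ∏ p ∈ Pr b z, (1 - ((Z p).card : ℝ) / p) = VV Z b z := rfl
  rw [h7] at h1
  have h2 : ((GoodF t X A B F h0).card : ℝ) - ((B : ℝ) - A) * VV Z b z ≤
      (1 / 2 : ℝ) ^ b * (((B : ℝ) - A) * VV Z b z) + (z : ℝ) ^ (C0 * b) := by
    rw [Nat.cast_one, div_one] at h1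
    refine le_trans ?_ h1
    apply sub_le_sub_right
    rw [Nat.cast_le]
    convert hcard
  have h3 : (1 / 2 : ℝ) ^ b ≤ 1 := pow_le_one₀ (by norm_num) (by norm_num)
  have h4 : 0 ≤ ((B : ℝ) - A) * VV Z b z := mul_nonneg (by positivity) (hnn b z)
  have h5 : (1 / 2 : ℝ) ^ b * (((B : ℝ) - A) * VV Z b z) ≤ ((B : ℝ) - A) * VV Z b z :=
    mul_le_of_le_one_left h4 h3
  have h6 : ((B : ℝ) - A) * VV Z b z ≤ ((B : ℝ) - A) * (VF F X / (cs * cD)) :=
    mul_le_mul_of_nonneg_left hPi (by positivity)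
  have e2 : (2 / (cs * cD) + 1) * (((B : ℝ) - A) * VF F X) =
      2 * (((B : ℝ) - A) * (VF F X / (cs * cD))) + ((B : ℝ) - A) * VF F X := by
    field_simp
  rw [e2]
  linarith

end Pool.Agent.Q253.Thin
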