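import Pool.Agent.Q253.Thin.Sample
import Pool.Agent.Q253.Thin.UpperOne
import Pool.Agent.H386R2.HL.E

/-!
# A sparse set of primes that represents the Chen primes of all systems of a large family
-/

set_option autoImplicit false

namespace Pool.Agent.Q253.Thin

open Finset Filter
open Pool.Agent.Y840.CT

/-- the primes of an interval -/
def PI (A B : ℕ) : Finset ℕ := (Ioc A B).filter Nat.Prime

theorem PI_upper : ∃ X₀ : ℕ, ∀ X : ℕ, X₀ ≤ X → ∀ A B : ℕ, B ≤ X →
    ((PI A B).card : ℝ) ≤ 2 * (X / Real.log X) := by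
  have h1 := Pool.Agent.Helper507.PNT.pi_tendsto
  have h2 := (h1.eventually (Iic_mem_nhds (show (1 : ℝ) < 2 by norm_num)))
  obtain ⟨X₀, hX₀⟩ := eventually_atTop.1 (tendsto_natCast_atTop_atTop (R := ℝ) |>.eventually h2)
  refine ⟨max X₀ 2, fun X hX A B hB => ?_⟩
  have h3 := hX₀ X ((le_max_left _ _).trans hX)
  have hX2 : 2 ≤ X := (le_max_right _ _).trans hX
  simp only [Nat.floor_natCast] at h3
  have hXr : (0 : ℝ) < X := by exact_mod_cast (by omega : 0 < X)
  have hl : 0 < Real.log X := Real.log_pos (by exact_mod_cast (by omega : 1 < X))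
  have h4 : (PI A B).card ≤ Nat.primeCounting X := by
    rw [Nat.primeCounting, Nat.primeCounting', Nat.count_eq_card_filter_range]
    apply card_le_card
    intro p hp
    unfold PI at hp
    rw [mem_filter, mem_Ioc] at hp
    rw [mem_filter, mem_range]
    exact ⟨by omega, hp.2⟩
  have h5 : ((PI A B).card : ℝ) ≤ Nat.primeCounting X := by exact_mod_cast h4
  refine h5.trans ?_
  rw [← mul_div_assoc, le_div_iff₀ hl]
  rw [div_le_iff₀ hXr] at h3
  linarith

/-- **A sparse set of primes that represents the good primes of all systems of a family.** -/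
theorem family (r t : ℕ) (ht : 1 ≤ t) (D : ℕ) (θ ε : ℝ) (hθ : 0 < θ) (hε : 0 < ε) :
    ∃ K : ℝ, 0 < K ∧ ∃ X₀ : ℕ, ∀ X : ℕ, X₀ ≤ X → ∀ A B : ℕ, B ≤ X → θ * X ≤ (B : ℝ) - A →
    ∀ (ι : Type) (I : Finset ι) (F : ι → ℕ → Finset ℤ) (h : ι → ℤ) (R : ι → Finset ℕ),
    (∀ i ∈ I, SysF r X (F i) (h i)) → (∀ i ∈ I, R i ⊆ GoodF t X A B (F i) (h i)) → I.card ≤ X ^ D →
    ∀ m : ℝ, K * Real.log X ^ (r + 1) ≤ m → m ≤ (PI A B).card →
    ∃ S ⊆ PI A B, |(S.card : ℝ) - m| ≤ ε * m ∧ ∀ i ∈ I,
      |((S ∩ R i).card : ℝ) - m / (PI A B).card * (R i).card| ≤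
        ε * (m / (PI A B).card * (((B : ℝ) - A) * VF (F i) X)) := by
  classical
  obtain ⟨C, hC, hup⟩ := upper1 r t ht
  obtain ⟨cV, hcV, hlow⟩ := VF_low r
  obtain ⟨X₁, hX₁⟩ := hup θ hθ
  obtain ⟨X₂, hX₂⟩ := PI_upper
  set ε1 : ℝ := min 1 (min ε (ε / C)) with hε1
  have hε10 : 0 < ε1 := by positivity
  have hε11 : ε1 ≤ 1 := min_le_left _ _
  have hε12 : ε1 ≤ ε := (min_le_right _ _).trans (min_le_left _ _)
  have hε13 : ε1 * C ≤ ε := by
    have h1 : ε1 ≤ ε / C := (min_le_right _ _).trans (min_le_right _ _)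
    rwa [le_div_iff₀ hC] at h1
  set K : ℝ := 4 * (D + 4) / ε1 ^ 2 * (1 + 2 / (C * θ * cV)) with hK
  have hK0 : 0 < K := by positivity
  refine ⟨K, hK0, max (max X₁ X₂) 3, ?_⟩
  intro X hX A B hBX hAB ι I F h R hS hR hI m hm hmP
  have hX1 : X₁ ≤ X := (le_max_left _ _).trans ((le_max_left _ _).trans hX)
  have hX2 : X₂ ≤ X := (le_max_right _ _).trans ((le_max_left _ _).trans hX)
  have hX3 : 3 ≤ X := (le_max_right _ _).trans hX
  have hXr : (0 : ℝ) < X := by exact_mod_cast (by omega : 0 < X)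
  have hl1 : 1 ≤ Real.log X := by
    rw [Real.le_log_iff_exp_le hXr]
    have h3 : (3 : ℝ) ≤ X := by exact_mod_cast hX3
    have := Real.exp_one_lt_d9
    linarith
  have hl0 : 0 < Real.log X := by linarith
  have hm0 : 0 < m := lt_of_lt_of_le (by positivity) hm
  have hP0 : (0 : ℝ) < (PI A B).card := lt_of_lt_of_le hm0 hmP
  have hPu := hX₂ X hX2 A B hBX
  set p : ℝ := m / (PI A B).card with hp
  have hp0 : 0 < p := by positivity
  have hp1 : p ≤ 1 := by
    rw [hp, div_le_one hP0]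
    exact hmP
  have hABr : (0 : ℝ) < (B : ℝ) - A := lt_of_lt_of_le (by positivity) hAB
  -- the number of indices
  have hlogI : Real.log (2 * ((insertNone I).card : ℝ) + 1) ≤ (D + 4) * Real.log X := by
    rw [card_insertNone]
    push_cast
    have h1 : (I.card : ℝ) ≤ (X : ℝ) ^ D := by exact_mod_cast hI
    have h2 : (1 : ℝ) ≤ (X : ℝ) ^ D := one_le_pow₀ (by exact_mod_cast (by omega : 1 ≤ X))
    have h3 : 2 * ((I.card : ℝ) + 1) + 1 ≤ (X : ℝ) ^ (D + 4) := by
      have h4 : (3 : ℝ) ≤ X := by exact_mod_cast hX3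
      have h5 : (81 : ℝ) ≤ (X : ℝ) ^ 4 := by
        calc (81 : ℝ) = 3 ^ 4 := by norm_num
          _ ≤ (X : ℝ) ^ 4 := pow_le_pow_left₀ (by norm_num) h4 4
      rw [pow_add]
      nlinarith
    have h6 := Real.log_le_log (by positivity) h3
    rw [Real.log_pow] at h6
    push_cast at h6
    exact h6
  -- the sizes
  set U : Option ι → ℝ := fun o => match o with
    | none => m
    | some i => p * (C * (((B : ℝ) - A) * VF (F i) X)) with hUdef
  set R' : Option ι → Finset ℕ := fun o => match o with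
    | none => PI A B
    | some i => R i with hR'def
  have hGP : ∀ i ∈ I, R i ⊆ PI A B := by
    intro i hi x hx
    have h1 := hR i hi hx
    unfold GoodF at h1
    rw [mem_filter] at h1
    unfold PI
    rw [mem_filter]
    exact ⟨h1.1, h1.2.1⟩
  have hR' : ∀ o ∈ insertNone I, R' o ⊆ PI A B := by
    intro o ho
    cases o with
    | none => exact Subset.refl _
    | some i => exact hGP i (some_mem_insertNone.1 ho)
  have hU : ∀ o ∈ insertNone I, p * (R' o).card ≤ U o := by
    intro o ho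
    cases o with
    | none =>
      show p * ((PI A B).card : ℝ) ≤ m
      rw [hp, div_mul_cancel₀ _ hP0.ne']
    | some i =>
      have hi := some_mem_insertNone.1 ho
      show p * ((R i).card : ℝ) ≤ p * (C * (((B : ℝ) - A) * VF (F i) X))
      apply mul_le_mul_of_nonneg_left _ hp0.le
      refine le_trans ?_ (hX₁ X hX1 (F i) (h i) (hS i hi) A B hBX hAB)
      exact_mod_cast card_le_card (hR i hi)
  have hKm : 4 * (D + 4) / ε1 ^ 2 * Real.log X ^ (r + 1) ≤ m := by
    refine le_trans ?_ hm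
    rw [hK]
    have h1 : 0 ≤ 4 * (D + 4) / ε1 ^ 2 * (2 / (C * θ * cV)) * Real.log X ^ (r + 1) := by positivity
    nlinarith
  have hKm2 : 4 * (D + 4) / ε1 ^ 2 * (2 / (C * θ * cV)) * Real.log X ^ (r + 1) ≤ m := by
    refine le_trans ?_ hm
    rw [hK]
    have h1 : 0 ≤ 4 * (D + 4) / ε1 ^ 2 * Real.log X ^ (r + 1) := by positivity
    nlinarith
  have hL : ∀ o ∈ insertNone I, 4 * Real.log (2 * ((insertNone I).card : ℝ) + 1) ≤ ε1 ^ 2 * U o := by
    intro o ho
    refine (mul_le_mul_of_nonneg_left hlogI (by norm_num)).trans ?_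
    cases o with
    | none =>
      show 4 * ((D + 4) * Real.log X) ≤ ε1 ^ 2 * m
      have h1 : Real.log X ≤ Real.log X ^ (r + 1) := by
        rw [pow_succ]
        exact le_mul_of_one_le_left hl0.le (one_le_pow₀ hl1)
      have h2 := mul_le_mul_of_nonneg_left hKm (show 0 ≤ ε1 ^ 2 by positivity)
      have h3 : ε1 ^ 2 * (4 * (D + 4) / ε1 ^ 2 * Real.log X ^ (r + 1)) = 4 * (D + 4) * Real.log X ^ (r + 1) := by
        field_simp
      rw [h3] at h2
      have h4 : 4 * ((D : ℝ) + 4) * Real.log X ≤ 4 * (D + 4) * Real.log X ^ (r + 1) :=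
        mul_le_mul_of_nonneg_left h1 (by positivity)
      linarith
    | some i =>
      have hi := some_mem_insertNone.1 ho
      show 4 * ((D + 4) * Real.log X) ≤ ε1 ^ 2 * (p * (C * (((B : ℝ) - A) * VF (F i) X)))
      have hV := hlow X (by omega) (F i) (hS i hi).card (hS i hi).loc
      have h1 : θ * X * (cV / Real.log X ^ (r + 1)) ≤ ((B : ℝ) - A) * VF (F i) X :=
        mul_le_mul hAB hV (by positivity) hABr.le
      have h2 : m * Real.log X / (2 * X) ≤ p := by
        rw [hp, div_le_div_iff₀ (by positivity) hP0]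
        have h3 : ((PI A B).card : ℝ) * Real.log X ≤ 2 * X := by
          rw [← mul_div_assoc, le_div_iff₀ hl0] at hPu
          exact hPu
        have := mul_le_mul_of_nonneg_left h3 hm0.le
        linarith
      have h3 : m * Real.log X / (2 * X) * (C * (θ * X * (cV / Real.log X ^ (r + 1)))) ≤
          p * (C * (((B : ℝ) - A) * VF (F i) X)) :=
        mul_le_mul h2 (mul_le_mul_of_nonneg_left h1 hC.le) (by positivity) hp0.le
      refine le_trans ?_ (mul_le_mul_of_nonneg_left h3 (show 0 ≤ ε1 ^ 2 by positivity))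
      have h4 : ε1 ^ 2 * (m * Real.log X / (2 * X) * (C * (θ * X * (cV / Real.log X ^ (r + 1))))) =
          m * (ε1 ^ 2 * (C * θ * cV) / 2 / Real.log X ^ r) := by
        field_simp
        ring
      rw [h4]
      have h5 := mul_le_mul_of_nonneg_right hKm2
        (show 0 ≤ ε1 ^ 2 * (C * θ * cV) / 2 / Real.log X ^ r by positivity)
      refine le_trans (le_of_eq ?_) h5
      field_simp
      ring
  obtain ⟨S, hSP, hSR⟩ := sampling (PI A B) (insertNone I) R' hR' hp0.le hp1 hε10 hε11 U hU hL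
  refine ⟨S, hSP, ?_, ?_⟩
  · have h1 := hSR none none_mem_insertNone
    have h2 : S ∩ R' none = S := inter_eq_left.2 hSP
    rw [h2] at h1
    have h3 : p * ((R' none).card : ℝ) = m := by
      show p * ((PI A B).card : ℝ) = m
      rw [hp, div_mul_cancel₀ _ hP0.ne']
    rw [h3] at h1
    exact h1.trans (mul_le_mul_of_nonneg_right hε12 hm0.le)
  · intro i hi
    have h1 := hSR (some i) (some_mem_insertNone.2 hi)
    refine h1.trans ?_
    show ε1 * (p * (C * (((B : ℝ) - A) * VF (F i) X))) ≤ ε * (p * (((B : ℝ) - A) * VF (F i) X))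
    have h2 : 0 ≤ p * (((B : ℝ) - A) * VF (F i) X) :=
      mul_nonneg hp0.le (mul_nonneg hABr.le (VF_mono (hS i hi).loc le_rfl).2)
    have := mul_le_mul_of_nonneg_right hε13 h2
    linarith

end Pool.Agent.Q253.Thin
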