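import Pool.Agent.Q253.Thin.Main

/-!
# Fixed systems of shifts: a set of primes with `O((log log x) ^ 2)` elements up to `x`
-/

set_option autoImplicit false

namespace Pool.Agent.Q253.Thin

open Finset Filter
open Pool.Agent.Y840.CT
open Pool.Agent.Y843.HS (Pr VV Pr_mem Pr_prime VV_split Sv)
open Pool.Agent.Y843.HG (Z0)
open Pool.Agent.Y843.CH (hr hr_lt)

theorem loglog_bound {x : ℕ} (hx : 16 ≤ x) :
    ((Nat.log 2 (Nat.log 2 (x ^ 9)) : ℕ) : ℝ) + 2 ≤ 8 * Real.log (Real.log x) := by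
  have hx9 : x ^ 9 ≠ 0 := by positivity
  have hL1 : 1 ≤ Nat.log 2 (x ^ 9) := by
    apply (Nat.le_log_iff_pow_le (by norm_num) hx9).2
    calc 2 ^ 1 ≤ x := by omega
      _ ≤ x ^ 9 := Nat.le_self_pow (by norm_num) x
  set L := Nat.log 2 (x ^ 9) with hL
  set n := Nat.log 2 L with hn
  have hl2 := Real.log_two_gt_d9
  have hxr : (16 : ℝ) ≤ x := by exact_mod_cast hx
  have hlx : 4 * Real.log 2 ≤ Real.log x := by
    have : Real.log 16 = 4 * Real.log 2 := by
      rw [show (16 : ℝ) = 2 ^ 4 by norm_num, Real.log_pow]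
      norm_num
    rw [← this]
    exact Real.log_le_log (by norm_num) hxr
  have hlx0 : 0 < Real.log x := by linarith
  have hll : 1 ≤ Real.log (Real.log x) := by
    rw [Real.le_log_iff_exp_le hlx0]
    have := Real.exp_one_lt_d9
    linarith
  have h1 : (L : ℝ) * Real.log 2 ≤ 9 * Real.log x := by
    have h6 : (2 : ℝ) ^ L ≤ (x : ℝ) ^ 9 := by
      have := Nat.pow_log_le_self 2 hx9
      exact_mod_cast this
    have h7 := Real.log_le_log (by positivity) h6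
    rw [Real.log_pow, Real.log_pow] at h7
    push_cast at h7
    exact h7
  have h2 : (n : ℝ) * Real.log 2 ≤ Real.log L := by
    have h6 : (2 : ℝ) ^ n ≤ L := by
      have : 2 ^ n ≤ L := Nat.pow_log_le_self 2 (by omega)
      exact_mod_cast this
    have h7 := Real.log_le_log (by positivity) h6
    rw [Real.log_pow] at h7
    exact h7
  have h3 : Real.log L ≤ 4 * Real.log 2 + Real.log (Real.log x) := by
    have h4 : (L : ℝ) ≤ 16 * Real.log x := by
      have hL0 : (0 : ℝ) ≤ L := by positivity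
      nlinarith
    have hLp : (0 : ℝ) < L := by exact_mod_cast hL1
    have h5 := Real.log_le_log hLp h4
    rw [Real.log_mul (by norm_num) hlx0.ne'] at h5
    have h6 : Real.log 16 = 4 * Real.log 2 := by
      rw [show (16 : ℝ) = 2 ^ 4 by norm_num, Real.log_pow]
      norm_num
    linarith
  have h4 : (n : ℝ) * Real.log 2 ≤ 4 * Real.log 2 + Real.log (Real.log x) := h2.trans h3
  have h5 : (n : ℝ) ≤ 4 + 2 * Real.log (Real.log x) := by
    by_contra hcon
    push Not at hcon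
    nlinarith
  linarith

theorem thin_union2 (T : ℕ → Finset ℕ) (C : ℝ) (hC : 0 < C)
    (hT : ∀ i, ∀ q ∈ T i, q.Prime ∧ ((2 ^ 2 ^ i : ℕ) : ℝ) ^ (1 / 9 : ℝ) < q)
    (hc : ∀ i, ((T i).card : ℝ) ≤ C * (i + 2)) (x : ℕ) (hx : 16 ≤ x) :
    ∃ S : Finset ℕ, (∀ q : ℕ, (∃ i, q ∈ T i) → q ≤ x → q ∈ S) ∧
      (S.card : ℝ) ≤ 64 * C * Real.log (Real.log x) ^ 2 := by
  classical
  have hx9 : 2 ≤ x ^ 9 := by
    have := Nat.le_self_pow (show 9 ≠ 0 by norm_num) x
    omega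
  have hL1 : 1 ≤ Nat.log 2 (x ^ 9) :=
    (Nat.le_log_iff_pow_le (by norm_num) (by omega)).2 (by simpa using hx9)
  have hb := loglog_bound hx
  set n := Nat.log 2 (Nat.log 2 (x ^ 9)) with hn
  refine ⟨(range (n + 1)).biUnion T, ?_, ?_⟩
  · rintro q ⟨i, hi⟩ hqx
    rw [mem_biUnion]
    refine ⟨i, ?_, hi⟩
    rw [mem_range]
    have h1 := (hT i q hi).2
    have h2 : (2 ^ 2 ^ i : ℕ) < q ^ 9 := by
      have h3 : (((2 ^ 2 ^ i : ℕ) : ℝ) ^ (1 / 9 : ℝ)) ^ 9 < (q : ℝ) ^ 9 :=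
        pow_lt_pow_left₀ h1 (by positivity) (by norm_num)
      rw [← Real.rpow_natCast, ← Real.rpow_mul (by positivity)] at h3
      norm_num at h3
      exact_mod_cast h3
    have h4 : 2 ^ 2 ^ i ≤ x ^ 9 := (h2.le).trans (Nat.pow_le_pow_left hqx 9)
    have h5 : 2 ^ i ≤ Nat.log 2 (x ^ 9) := (Nat.le_log_iff_pow_le (by norm_num) (by omega)).2 h4
    have h6 : i ≤ n := by
      rw [hn]
      exact (Nat.le_log_iff_pow_le (by norm_num) (by omega)).2 h5
    omega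
  · have h1 : (((range (n + 1)).biUnion T).card : ℝ) ≤ ∑ i ∈ range (n + 1), ((T i).card : ℝ) := by
      exact_mod_cast card_biUnion_le
    have h2 : ∑ i ∈ range (n + 1), ((T i).card : ℝ) ≤ ∑ i ∈ range (n + 1), C * ((n : ℝ) + 2) := by
      apply sum_le_sum
      intro i hi
      refine (hc i).trans (mul_le_mul_of_nonneg_left ?_ hC.le)
      have : i ≤ n := by
        rw [mem_range] at hi
        omega
      have : (i : ℝ) ≤ n := by exact_mod_cast this
      linarith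
    rw [sum_const, card_range, nsmul_eq_mul] at h2
    push_cast at h2
    have hn0 : (0 : ℝ) ≤ n := by positivity
    calc _ ≤ ((n : ℝ) + 1) * (C * ((n : ℝ) + 2)) := h1.trans h2
      _ ≤ ((n : ℝ) + 2) * (C * ((n : ℝ) + 2)) := mul_le_mul_of_nonneg_right (by linarith) (by positivity)
      _ = C * ((n : ℝ) + 2) ^ 2 := by ring
      _ ≤ C * (8 * Real.log (Real.log x)) ^ 2 :=
          mul_le_mul_of_nonneg_left (pow_le_pow_left₀ (by positivity) hb 2) hC.le
      _ = 64 * C * Real.log (Real.log x) ^ 2 := by ring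

/-- monotonicity in `X` and the window -/
theorem GoodF_mono {t X X' A A' B B' : ℕ} (hX : X ≤ X') (hA : A ≤ A') (hB : B' ≤ B)
    (F : ℕ → Finset ℤ) (h0 : ℤ) : GoodF t X' A' B' F h0 ⊆ GoodF t X A B F h0 := by
  classical
  intro p hp
  unfold GoodF at hp ⊢
  rw [mem_filter, mem_Ioc] at hp ⊢
  obtain ⟨⟨p1, p2⟩, pp, pt, ⟨pr1, pr2, pr3⟩, pF⟩ := hp
  have hXr : (X : ℝ) ≤ X' := by exact_mod_cast hX
  have h1 : (X : ℝ) ^ (1 / (t : ℝ)) ≤ (X' : ℝ) ^ (1 / (t : ℝ)) :=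
    Real.rpow_le_rpow (by positivity) hXr (by positivity)
  have h2 : (X : ℝ) ^ (1 / 9 : ℝ) ≤ (X' : ℝ) ^ (1 / 9 : ℝ) :=
    Real.rpow_le_rpow (by positivity) hXr (by positivity)
  exact ⟨⟨by omega, by omega⟩, pp, lt_of_le_of_lt h1 pt, ⟨pr1, pr2, fun q hq hd => lt_of_le_of_lt h2 (pr3 q hq hd)⟩,
    fun q hq hqt => pF q hq (hqt.trans h1)⟩

theorem VF_ratio (r : ℕ) : ∃ c : ℝ, 0 < c ∧ ∃ R₀ : ℕ, ∀ X X' : ℕ, R₀ ≤ X → X ≤ X' → X' ≤ X ^ 2 →
    ∀ F : ℕ → Finset ℤ, (∀ q : ℕ, q.Prime → (F q).card ≤ r) → (∀ q : ℕ, q.Prime → rho (F q) q < q) →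
      c * VF F X ≤ VF F X' := by
  obtain ⟨c, hc, R₀, hden⟩ := Pool.Agent.Y79.HS.den (r + 1) 2
  refine ⟨c, hc, R₀, ?_⟩
  intro X X' hX hXX hX2 F hF hloc
  have hSv : Sv (r + 1) X X' (Z0 (OmF F)) := by
    intro p hp
    have hpp := Pr_prime hp
    rw [Z0_OmF]
    constructor
    · refine (card_insert_le _ _).trans ?_
      have h1 : ((F p).image (fun h => hr h p)).card ≤ (F p).card := card_image_le
      have h2 := hF p hpp
      omega
    · intro c hc
      rcases mem_insert.1 hc with h | h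
      · rw [h]
        exact hpp.pos
      · rw [mem_image] at h
        obtain ⟨h', _, rfl⟩ := h
        exact hr_lt h' hpp.pos
  have h1 := hden X X' hX hX2 (Z0 (OmF F)) hSv
  rw [VF_eq, VF_eq, ← VV_split (Z0 (OmF F)) (Nat.zero_le X) hXX, mul_comm]
  apply mul_le_mul_of_nonneg_left h1
  rw [← VF_eq]
  exact (VF_mono hloc le_rfl).2

/-- the conditions on a tuple of shifts without the size of the shifts -/
structure Adm (r : ℕ) (g : Fin r → ℤ) (j : Fin r) : Prop where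
  ne : g j ≠ 0
  loc : ∀ q : ℕ, q.Prime → rho (univ.image g) q < q

theorem Adm.sys {r : ℕ} {g : Fin r → ℤ} {j : Fin r} (h : Adm r g j) {X : ℕ} (hX : |g j| ≤ X) :
    SysF r X (FT g) (g j) where
  card q _ := by
    unfold FT
    exact card_image_le.trans (by simp)
  ne := h.ne
  size := hX
  mem q _ := by
    unfold FT
    simp
  loc q hq := h.loc q hq

theorem thinFixed {r t : ℕ} {c ρ : ℝ} (hc : 0 < c) (hρ : 0 < ρ) (hdich : Dich r t c ρ) :
    ∃ c' : ℝ, 0 < c' ∧ ∃ C : ℝ, 0 < C ∧ ∃ Q : Set ℕ, (∀ q ∈ Q, q.Prime) ∧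
    (∀ x : ℕ, 16 ≤ x → ∃ S : Finset ℕ, (∀ q ∈ Q, q ≤ x → q ∈ S) ∧ (S.card : ℝ) ≤ C * Real.log (Real.log x) ^ 2) ∧
    ∀ g : Fin r → ℤ, ∀ j : Fin r, Adm r g j → ∀ θ : ℝ, 0 < θ → ∃ X₀ : ℕ, ∀ X : ℕ, X₀ ≤ X →
      ∀ A B : ℕ, B ≤ X → θ * X ≤ (B : ℝ) - A →
        c' * (((B : ℝ) - A) * VF (FT g) X) ≤ ((PF t X A B (FT g) (g j)).card : ℝ) ∨
        ∃ q ∈ Q, c' * (((B : ℝ) - A) * VF (FT g) X / q) ≤ ((RF t X A B (FT g) (g j) q).card : ℝ) := by
  classical
  obtain ⟨M, hM, hmert⟩ := mert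
  obtain ⟨cD, hcD, R₀, hratio⟩ := VF_ratio r
  set K : ℕ := 2 * r + 3 with hK
  set C' : ℝ := (1 / (ρ / M) + 2) * (K * Real.log 2) with hC'
  have hl2 : 0 < Real.log 2 := Real.log_pos (by norm_num)
  have hC'0 : 0 < C' := by positivity
  have hstep : ∀ i : ℕ, ∃ T : Finset ℕ, (∀ q ∈ T, q.Prime ∧ ((2 ^ 2 ^ i : ℕ) : ℝ) ^ (1 / 9 : ℝ) < q) ∧
      ((T.card : ℝ) ≤ C' * (i + 2)) ∧
      (2 ^ 18 ≤ 2 ^ 2 ^ i → ∀ s : ℕ, 2 ^ 2 ^ i ≤ 2 ^ s → 2 ^ s < (2 ^ 2 ^ i) ^ 2 → ∀ g : Fin r → ℤ,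
        (∀ k, |g k| ≤ i) → ∀ j : Fin r, ∀ a b : ℕ, a ≤ 2 * i + 2 → b ≤ 2 * i + 2 →
        ρ ≤ ∑ q ∈ Gd c t (2 ^ s) (a * (2 ^ s / (i + 1))) (b * (2 ^ s / (i + 1))) (FT g) (g j), (1 : ℝ) / q →
        ∃ q ∈ T, q ∈ Gd c t (2 ^ s) (a * (2 ^ s / (i + 1))) (b * (2 ^ s / (i + 1))) (FT g) (g j)) := by
    intro i
    by_cases hi : 2 ^ 18 ≤ 2 ^ 2 ^ i
    swap
    · refine ⟨∅, by simp, ?_, fun h => absurd h hi⟩
      simp only [card_empty, Nat.cast_zero]
      positivity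
    set Y : ℕ := 2 ^ 2 ^ i with hY
    set Ω := (Icc 1 (2 * Y)).filter (fun q : ℕ => q.Prime ∧ (Y : ℝ) ^ (1 / 9 : ℝ) < q) with hΩ
    set J : Finset (ℕ × (Fin r → ℤ) × Fin r × ℕ × ℕ) :=
      (range (2 ^ (i + 1))) ×ˢ ((Fintype.piFinset (fun _ : Fin r => Icc (-(i : ℤ)) i)) ×ˢ
        ((univ : Finset (Fin r)) ×ˢ ((range (2 * i + 3)) ×ˢ (range (2 * i + 3))))) with hJ
    set G : (ℕ × (Fin r → ℤ) × Fin r × ℕ × ℕ) → Finset ℕ := fun τ =>
      Gd c t (2 ^ τ.1) (τ.2.2.2.1 * (2 ^ τ.1 / (i + 1))) (τ.2.2.2.2 * (2 ^ τ.1 / (i + 1)))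
        (FT τ.2.1) (τ.2.1 τ.2.2.1) with hG
    set I := J.filter (fun τ => (Y ≤ 2 ^ τ.1 ∧ 2 ^ τ.1 < Y ^ 2) ∧ ρ ≤ ∑ q ∈ G τ, (1 : ℝ) / q) with hI
    have hJc : J.card = 2 ^ (i + 1) * ((2 * i + 1) ^ r * (r * ((2 * i + 3) * (2 * i + 3)))) := by
      rw [hJ, card_product, card_product, card_product, card_product, Fintype.card_piFinset, card_range,
        card_univ, Fintype.card_fin, prod_const, card_univ, Fintype.card_fin, Int.card_Icc, card_range]
      congr 3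
      have : ((i : ℤ) + 1 - -(i : ℤ)) = ((2 * i + 1 : ℕ) : ℤ) := by push_cast; ring
      rw [this, Int.toNat_natCast]
    have hIM : (I.card : ℝ) ≤ (2 : ℝ) ^ (K * (i + 2)) := by
      have h1 : I.card ≤ 2 ^ (K * (i + 2)) := by
        refine (card_filter_le _ _).trans ?_
        rw [hJc]
        have b1 : 2 * i + 3 ≤ 2 ^ (i + 2) := by
          have : i + 2 < 2 ^ (i + 2) := Nat.lt_two_pow_self
          have h3 : i < 2 ^ i := Nat.lt_two_pow_self
          have h4 : 2 ^ (i + 2) = 4 * 2 ^ i := by ring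
          omega
        have b2 : 2 * i + 1 ≤ 2 ^ (i + 2) := by omega
        have b3 : r ≤ 2 ^ (r * (i + 2)) := by
          calc r ≤ 2 ^ r := Nat.lt_two_pow_self.le
            _ ≤ 2 ^ (r * (i + 2)) := Nat.pow_le_pow_right (by norm_num) (by nlinarith)
        calc 2 ^ (i + 1) * ((2 * i + 1) ^ r * (r * ((2 * i + 3) * (2 * i + 3))))
            ≤ 2 ^ (i + 2) * ((2 ^ (i + 2)) ^ r * (2 ^ (r * (i + 2)) * (2 ^ (i + 2) * 2 ^ (i + 2)))) :=
              Nat.mul_le_mul (Nat.pow_le_pow_right (by norm_num) (by omega))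
                (Nat.mul_le_mul (Nat.pow_le_pow_left b2 r) (Nat.mul_le_mul b3 (Nat.mul_le_mul b1 b1)))
          _ = 2 ^ (K * (i + 2)) := by
              rw [hK, ← pow_mul, ← pow_add, ← pow_add, ← pow_add, ← pow_add]
              congr 1
              ring
      exact_mod_cast h1
    have hKY : (2 : ℝ) ≤ (2 : ℝ) ^ (K * (i + 2)) := by
      calc (2 : ℝ) = 2 ^ 1 := by norm_num
        _ ≤ 2 ^ (K * (i + 2)) := pow_le_pow_right₀ (by norm_num) (by
            rw [hK]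
            nlinarith)
    have hsub : ∀ τ ∈ I, G τ ⊆ Ω := by
      intro τ hτ q hq
      rw [hI, mem_filter] at hτ
      rw [hG] at hq
      unfold Gd at hq
      rw [mem_filter, mem_Icc] at hq
      obtain ⟨⟨q1, q2⟩, ⟨q3, q4⟩, q5, -⟩ := hq
      rw [hΩ, mem_filter, mem_Icc]
      refine ⟨⟨q1, ?_⟩, q3, ?_⟩
      · by_contra hcon
        push Not at hcon
        have h1 : (2 * Y) ^ 2 < q ^ 2 := Nat.pow_lt_pow_left hcon (by norm_num)
        have h2 : q ^ 2 < 2 * Y ^ 2 := by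
          have := hτ.2.1.2
          omega
        have h3 : (2 * Y) ^ 2 = 4 * Y ^ 2 := by ring
        omega
      · refine lt_of_le_of_lt ?_ q4
        apply Real.rpow_le_rpow (by positivity) _ (by norm_num)
        exact_mod_cast hτ.2.1.1
    obtain ⟨T, hT, hTc, hTh⟩ := hit2 Ω (fun q : ℕ => (1 : ℝ) / q) (fun q _ => by positivity) M (ρ / M) hM
      (hmert Y hi) (by positivity) G I ((2 : ℝ) ^ (K * (i + 2))) hKY hIM (by
        intro τ hτ
        refine ⟨hsub τ hτ, ?_⟩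
        rw [hI, mem_filter] at hτ
        have e : ρ / M * M = ρ := by field_simp
        rw [e]
        exact hτ.2.2)
    refine ⟨T, ?_, ?_, ?_⟩
    · intro q hq
      have := hT hq
      rw [hΩ, mem_filter] at this
      exact this.2
    · rw [Real.log_pow] at hTc
      rw [hC']
      push_cast at hTc
      calc (T.card : ℝ) ≤ _ := hTc
        _ = (1 / (ρ / M) + 2) * (K * Real.log 2) * (i + 2) := by ring
    · intro _ s hs1 hs2 g hg j a b ha hb hs
      obtain ⟨q, hq, hq2⟩ := hTh (s, g, j, a, b) (by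
        rw [hI, mem_filter, hJ]
        simp only [mem_product, mem_range, mem_univ, Fintype.mem_piFinset, mem_Icc, true_and]
        refine ⟨⟨?_, ?_, by omega, by omega⟩, ⟨hs1, hs2⟩, hs⟩
        · rw [hY, ← pow_mul] at hs2
          have := (Nat.pow_lt_pow_iff_right (show 1 < 2 by norm_num)).1 hs2
          rw [pow_succ]
          exact this
        · intro k
          have h1 := abs_le.1 (hg k)
          constructor <;> linarith [h1.1, h1.2])
      exact ⟨q, hq, hq2⟩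
  choose T hT1 hT2 hT3 using hstep
  refine ⟨c * cD / 2, by positivity, 64 * C', by positivity, {q : ℕ | ∃ i, q ∈ T i}, ?_, ?_, ?_⟩
  · rintro q ⟨i, hi⟩
    exact (hT1 i q hi).1
  · intro x hx
    exact thin_union2 T C' hC'0 hT1 hT2 x hx
  · intro g j hadm θ hθ
    obtain ⟨X₁, hX₁⟩ := hdich (θ / 4) (by positivity)
    -- a bound for the shifts
    obtain ⟨Kg, hKg⟩ : ∃ Kg : ℕ, ∀ k, |g k| ≤ Kg := by
      refine ⟨∑ k, (g k).natAbs, fun k => ?_⟩
      rw [Int.abs_eq_natAbs]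
      have h1 : (g k).natAbs ≤ ∑ k, (g k).natAbs := single_le_sum (f := fun k => (g k).natAbs) (fun _ _ => Nat.zero_le _) (mem_univ k)
      exact_mod_cast h1
    set i₀ : ℕ := max (max Kg 5) ⌈8 / θ⌉₊ with hi₀
    refine ⟨max (max X₁ R₀) (max ((2 ^ 2 ^ i₀) ^ 2) 2), ?_⟩
    intro X hX A B hBX hAB
    have g1 : X₁ ≤ X := le_trans (le_trans (le_max_left _ _) (le_max_left _ _)) hX
    have g2 : R₀ ≤ X := le_trans (le_trans (le_max_right _ _) (le_max_left _ _)) hX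
    have g3 : (2 ^ 2 ^ i₀) ^ 2 ≤ X := le_trans (le_trans (le_max_left _ _) (le_max_right _ _)) hX
    have g4 : 2 ≤ X := le_trans (le_trans (le_max_right _ _) (le_max_right _ _)) hX
    have hXpos : (0 : ℝ) < X := by exact_mod_cast (by omega : 0 < X)
    have hABr : (0 : ℝ) < (B : ℝ) - A := lt_of_lt_of_le (by positivity) hAB
    set s := Nat.clog 2 X with hs
    have hs1 : X ≤ 2 ^ s := Nat.le_pow_clog (by norm_num) X
    have hs2 : 2 ^ s < 2 * X := by
      have h1 : 0 < s := Nat.clog_pos (by norm_num) g4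
      have h2 := Nat.pow_pred_clog_lt_self (b := 2) (by norm_num) (show 1 < X by omega)
      rw [← hs] at h2
      have h3 : 2 ^ s = 2 * 2 ^ (s - 1) := by
        rw [← pow_succ']
        congr 1
        omega
      rw [h3]
      have h4 : s.pred = s - 1 := rfl
      rw [h4] at h2
      omega
    have hs2X : 2 ≤ 2 ^ s := by omega
    obtain ⟨i, hi1, hi2⟩ := tower hs2X
    have hii : i₀ < i := by
      by_contra hcon
      push Not at hcon
      have h1 : 2 ^ 2 ^ i ≤ 2 ^ 2 ^ i₀ :=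
        Nat.pow_le_pow_right (by norm_num) (Nat.pow_le_pow_right (by norm_num) hcon)
      have h2 : (2 ^ 2 ^ i) ^ 2 ≤ (2 ^ 2 ^ i₀) ^ 2 := Nat.pow_le_pow_left h1 2
      omega
    have hK1 : Kg ≤ i := by
      have : Kg ≤ i₀ := (le_max_left _ _).trans (le_max_left _ _)
      omega
    have h5 : 5 ≤ i := by
      have : 5 ≤ i₀ := (le_max_right _ _).trans (le_max_left _ _)
      omega
    have hθi : 8 / θ ≤ (i : ℝ) + 1 := by
      have h1 : ⌈8 / θ⌉₊ ≤ i₀ := le_max_right _ _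
      have h2 := Nat.le_ceil (8 / θ)
      have h3 : ((⌈8 / θ⌉₊ : ℕ) : ℝ) ≤ i := by exact_mod_cast (by omega : ⌈8 / θ⌉₊ ≤ i)
      linarith
    have h18 : 2 ^ 18 ≤ 2 ^ 2 ^ i := by
      apply Nat.pow_le_pow_right (by norm_num)
      calc 18 ≤ 2 ^ 5 := by norm_num
        _ ≤ 2 ^ i := Nat.pow_le_pow_right (by norm_num) h5
    have hKX : (Kg : ℤ) ≤ (2 ^ s : ℕ) := by
      have h1 : Kg < 2 ^ i := lt_of_le_of_lt hK1 Nat.lt_two_pow_self
      have h2 : 2 ^ i < 2 ^ 2 ^ i := Nat.lt_two_pow_self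
      exact_mod_cast (by omega : Kg ≤ 2 ^ s)
    set m := 2 ^ s / (i + 1) with hm
    have hi1X : i + 1 ≤ 2 ^ s := by
      have h1 : i < 2 ^ i := Nat.lt_two_pow_self
      have h2 : 2 ^ i < 2 ^ 2 ^ i := Nat.lt_two_pow_self
      omega
    have hm1 : 1 ≤ m := (Nat.one_le_div_iff (by omega)).2 hi1X
    have hm2 : m * (i + 1) ≤ 2 ^ s := Nat.div_mul_le_self _ _
    have hm3 : 2 ^ s < 2 * (i + 1) * m := by
      have h1 : 2 ^ s < (i + 1) * (m + 1) := Nat.lt_mul_div_succ (2 ^ s) (show 0 < i + 1 by omega)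
      nlinarith
    set b := B / m with hb
    set a := (A + m - 1) / m with ha
    have hb1 : b * m ≤ B := Nat.div_mul_le_self _ _
    have hb2 : B < (b + 1) * m := by
      have := Nat.lt_mul_div_succ B (show 0 < m by omega)
      rw [mul_comm] at this
      exact this
    have ha1 : a * m ≤ A + m - 1 := Nat.div_mul_le_self _ _
    have ha2 : A ≤ a * m := by
      have := Nat.lt_mul_div_succ (A + m - 1) (show 0 < m by omega)
      rw [mul_comm, ← ha] at this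
      have h3 : (a + 1) * m = a * m + m := by ring
      omega
    have hmr : (m : ℝ) ≤ θ / 4 * X := by
      have h1 : (m : ℝ) * ((i : ℝ) + 1) ≤ 2 * X := by
        have h2 : m * (i + 1) ≤ 2 * X := hm2.trans hs2.le
        exact_mod_cast h2
      have hi0 : (0 : ℝ) < (i : ℝ) + 1 := by positivity
      have h3 : 8 ≤ ((i : ℝ) + 1) * θ := by
        rw [div_le_iff₀ hθ] at hθi
        exact hθi
      have h4 : (m : ℝ) * 8 ≤ 2 * X * θ := by
        calc (m : ℝ) * 8 ≤ m * (((i : ℝ) + 1) * θ) := mul_le_mul_of_nonneg_left h3 (by positivity)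
          _ = (m * ((i : ℝ) + 1)) * θ := by ring
          _ ≤ 2 * X * θ := mul_le_mul_of_nonneg_right h1 hθ.le
      linarith
    have har : ((a * m : ℕ) : ℝ) ≤ A + m := by
      have : a * m ≤ A + m := by omega
      exact_mod_cast this
    have hbr : (B : ℝ) - m ≤ ((b * m : ℕ) : ℝ) := by
      have : B ≤ b * m + m := by
        have h3 : (b + 1) * m = b * m + m := by ring
        omega
      have h4 : (B : ℝ) ≤ ((b * m + m : ℕ) : ℝ) := by exact_mod_cast this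
      push_cast at h4 ⊢
      linarith
    have hwin : ((B : ℝ) - A) / 2 ≤ ((b * m : ℕ) : ℝ) - ((a * m : ℕ) : ℝ) := by
      have h2 : 2 * (m : ℝ) ≤ ((B : ℝ) - A) / 2 := by linarith
      linarith
    have hX'r : ((2 ^ s : ℕ) : ℝ) ≤ 2 * X := by exact_mod_cast hs2.le
    have hab : a * m < b * m := by
      have : ((a * m : ℕ) : ℝ) < ((b * m : ℕ) : ℝ) := by linarith
      exact_mod_cast this
    have hbb : b ≤ 2 * i + 2 := by
      have h1 : b * m < 2 * (i + 1) * m := by omega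
      have := lt_of_mul_lt_mul_right h1 (Nat.zero_le m)
      omega
    have haa : a ≤ 2 * i + 2 := by
      have := lt_of_mul_lt_mul_right hab (Nat.zero_le m)
      omega
    have hVr : cD * VF (FT g) X ≤ VF (FT g) (2 ^ s) := by
      apply hratio X (2 ^ s) g2 hs1 _ (FT g) (fun q _ => by unfold FT; exact card_image_le.trans (by simp)) hadm.loc
      calc 2 ^ s ≤ 2 * X := hs2.le
        _ ≤ X ^ 2 := by nlinarith
    have hVX0 : 0 ≤ VF (FT g) X := (VF_mono hadm.loc le_rfl).2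
    have hconv : c * cD / 2 * (((B : ℝ) - A) * VF (FT g) X) ≤
        c * ((((b * m : ℕ) : ℝ) - ((a * m : ℕ) : ℝ)) * VF (FT g) (2 ^ s)) := by
      calc c * cD / 2 * (((B : ℝ) - A) * VF (FT g) X) = c * (((B : ℝ) - A) / 2 * (cD * VF (FT g) X)) := by ring
        _ ≤ c * ((((b * m : ℕ) : ℝ) - ((a * m : ℕ) : ℝ)) * VF (FT g) (2 ^ s)) :=
          mul_le_mul_of_nonneg_left (mul_le_mul hwin hVr (by positivity) (by linarith)) hc.le
    have hsys : SysF r (2 ^ s) (FT g) (g j) := hadm.sys ((hKg j).trans hKX)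
    have hwin2 : θ / 4 * ((2 ^ s : ℕ) : ℝ) ≤ ((b * m : ℕ) : ℝ) - ((a * m : ℕ) : ℝ) := by
      calc θ / 4 * ((2 ^ s : ℕ) : ℝ) ≤ θ / 4 * (2 * X) := mul_le_mul_of_nonneg_left hX'r (by positivity)
        _ ≤ _ := by linarith
    rcases hX₁ (2 ^ s) (by omega) (FT g) (g j) hsys (a * m) (b * m) (by omega) hwin2 with h | h
    · left
      refine hconv.trans (h.trans ?_)
      rw [Nat.cast_le]
      apply card_le_card
      intro p hp
      unfold PF at hp ⊢
      rw [mem_filter] at hp ⊢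
      exact ⟨GoodF_mono hs1 ha2 hb1 _ _ hp.1, hp.2⟩
    · right
      obtain ⟨q, hq, hq2⟩ := hT3 i h18 s hi1 hi2 g (fun k => (hKg k).trans (by exact_mod_cast hK1)) j a b haa hbb h
      refine ⟨q, ⟨i, hq⟩, ?_⟩
      unfold Gd at hq2
      rw [mem_filter] at hq2
      have h6 := hq2.2.2.2
      have hq0 : (0 : ℝ) < q := by exact_mod_cast hq2.2.1.1.pos
      calc c * cD / 2 * (((B : ℝ) - A) * VF (FT g) X / q) = (c * cD / 2 * (((B : ℝ) - A) * VF (FT g) X)) / q := by ring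
        _ ≤ (c * ((((b * m : ℕ) : ℝ) - ((a * m : ℕ) : ℝ)) * VF (FT g) (2 ^ s))) / q :=
            div_le_div_of_nonneg_right hconv hq0.le
        _ = c * ((((b * m : ℕ) : ℝ) - ((a * m : ℕ) : ℝ)) * VF (FT g) (2 ^ s) / q) := by ring
        _ ≤ ((RF t (2 ^ s) (a * m) (b * m) (FT g) (g j) q).card : ℝ) := h6
        _ ≤ ((RF t X A B (FT g) (g j) q).card : ℝ) := by
            rw [Nat.cast_le]
            apply card_le_card
            intro p hp
            unfold RF at hp ⊢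
            rw [mem_filter] at hp ⊢
            exact ⟨GoodF_mono hs1 ha2 hb1 _ _ hp.1, hp.2⟩

end Pool.Agent.Q253.Thin
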