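import Pool.Agent.Q253.Thin.Family
import Pool.Agent.Q253.Thin.VUp
import Pool.Agent.Q253.Thin.Fixed

/-!
# Sparse sets of primes that represent all Goldbach and Chen counts
-/

set_option autoImplicit false

namespace Pool.Agent.Q253.Thin

open Finset Filter
open Pool.Agent.Y840.CT

/-- `n` is a prime or a product of two primes, and all its prime factors are larger than `z` -/
def P2 (z : ℝ) (n : ℕ) : Prop :=
  (n.Prime ∨ ∃ a b : ℕ, a.Prime ∧ b.Prime ∧ n = a * b) ∧ ∀ q : ℕ, q.Prime → q ∣ n → z < q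

theorem P2_iff {n : ℕ} (hn : 1 < n) (z : ℝ) :
    P2 z n ↔ n.primeFactorsList.length ≤ 2 ∧ ∀ q : ℕ, q.Prime → q ∣ n → z < q := by
  unfold P2
  apply and_congr_left
  intro _
  constructor
  · rintro (h | ⟨a, b, ha, hb, rfl⟩)
    · rw [Nat.primeFactorsList_prime h]
      simp
    · rw [(Nat.perm_primeFactorsList_mul ha.ne_zero hb.ne_zero).length_eq, List.length_append,
        Nat.primeFactorsList_prime ha, Nat.primeFactorsList_prime hb]
      simp
  · intro h
    by_cases hp : n.Prime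
    · left
      exact hp
    · right
      obtain ⟨h1, h2, _, h3⟩ := two_factors (by omega) (by omega) hp h
      exact ⟨_, _, h1, h2, h3⟩

theorem sysN {N X : ℕ} (h2 : 2 ≤ N) (hN : Even N) (hX : N ≤ X) : SysF 1 X (fun _ => {(N : ℤ)}) N where
  card q _ := by simp
  ne := by
    have : N ≠ 0 := by omega
    exact_mod_cast this
  size := by
    rw [abs_of_nonneg (by positivity)]
    exact_mod_cast hX
  mem q _ := by simp
  loc q hq := by
    rw [rho_single]
    split_ifs with h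
    · exact hq.one_lt
    · rcases hq.two_le.eq_or_lt with h2 | h2
      · exfalso
        apply h
        rw [← h2]
        exact_mod_cast hN.two_dvd
      · exact h2

/-- membership in the set of good primes for Goldbach's problem -/
theorem mem_good {t x N p : ℕ} (ht : 9 ≤ t) (hx : 8 ≤ x) (hN : 4 * x ≤ N) (hN8 : N ≤ 8 * x) :
    p ∈ GoodF t (8 * x) x (2 * x) (fun _ => {(N : ℤ)}) N ↔
      p ∈ PI x (2 * x) ∧ P2 (((8 * x : ℕ) : ℝ) ^ (1 / 9 : ℝ)) (N - p) := by
  classical
  have hX1 : (1 : ℝ) ≤ ((8 * x : ℕ) : ℝ) := by exact_mod_cast (by omega : 1 ≤ 8 * x)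
  have ht9 : (9 : ℝ) ≤ t := by exact_mod_cast ht
  have hpow : ((8 * x : ℕ) : ℝ) ^ (1 / (t : ℝ)) ≤ ((8 * x : ℕ) : ℝ) ^ (1 / 9 : ℝ) :=
    Real.rpow_le_rpow_of_exponent_le hX1 (one_div_le_one_div_of_le (by norm_num) ht9)
  have hz : ((8 * x : ℕ) : ℝ) ^ (1 / 9 : ℝ) ≤ x := by
    have h8 : ((8 * x : ℕ) : ℝ) ≤ (x : ℝ) ^ (2 : ℝ) := by
      rw [Real.rpow_two]
      have : 8 * x ≤ x ^ 2 := by nlinarith
      exact_mod_cast this
    have hx0 : (0 : ℝ) ≤ x := Nat.cast_nonneg x
    have h1 := Real.rpow_le_rpow (by positivity) h8 (show (0 : ℝ) ≤ 1 / 9 by norm_num)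
    rw [← Real.rpow_mul hx0] at h1
    refine h1.trans ?_
    have h2 : (1 : ℝ) ≤ x := by exact_mod_cast (by omega : 1 ≤ x)
    have := Real.rpow_le_rpow_of_exponent_le h2 (show (2 * (1 / 9) : ℝ) ≤ 1 by norm_num)
    rwa [Real.rpow_one] at this
  unfold GoodF PI
  rw [mem_filter, mem_filter, mem_Ioc]
  constructor
  · rintro ⟨⟨h1, h2⟩, hp, _, ⟨h3, h4, h5⟩, _⟩
    refine ⟨⟨⟨h1, h2⟩, hp⟩, ?_⟩
    have e : (N : ℤ) - p = ((N - p : ℕ) : ℤ) := by
      rw [Nat.cast_sub (by omega)]
    rw [e, Int.natAbs_natCast] at h4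
    rw [P2_iff (by omega)]
    refine ⟨h4, fun q hq hd => h5 q hq ?_⟩
    rw [e]
    exact_mod_cast hd
  · rintro ⟨⟨⟨h1, h2⟩, hp⟩, h3⟩
    have e : (N : ℤ) - p = ((N - p : ℕ) : ℤ) := by
      rw [Nat.cast_sub (by omega)]
    rw [P2_iff (by omega)] at h3
    refine ⟨⟨h1, h2⟩, hp, ?_, ⟨?_, ?_, ?_⟩, ?_⟩
    · have : (x : ℝ) < p := by exact_mod_cast h1
      linarith
    · rw [e]
      exact_mod_cast (by omega : N - p ≠ 0)
    · rw [e, Int.natAbs_natCast]
      exact h3.1
    · intro q hq hd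
      rw [e] at hd
      exact h3.2 q hq (by exact_mod_cast hd)
    · intro q hq hqX h hh hd
      rw [mem_singleton] at hh
      rw [hh, e] at hd
      have := h3.2 q hq (by exact_mod_cast hd)
      linarith

/-- the number of primes in `(x, 2 x]` -/
theorem PI_lower : ∃ x₀ : ℕ, ∀ x : ℕ, x₀ ≤ x → 1 / 2 * (x / Real.log x) ≤ ((PI x (2 * x)).card : ℝ) := by
  obtain ⟨x₀, h⟩ := Pool.Agent.H386R2.HL.pnt_window (1 / 2) (by norm_num)
  refine ⟨x₀, fun x hx => ?_⟩
  have h1 := h x hx x le_rfl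
  refine le_trans (by linarith) (h1.trans ?_)
  have h2 : Nat.primeCounting (x + x) ≤ (PI x (2 * x)).card + Nat.primeCounting x := by
    unfold PI
    rw [Nat.primeCounting, Nat.primeCounting, Nat.primeCounting', Nat.count_eq_card_filter_range,
      Nat.count_eq_card_filter_range]
    refine le_trans (card_le_card ?_) (card_union_le _ _)
    intro p hp
    rw [mem_filter, mem_range] at hp
    rw [mem_union, mem_filter, mem_filter, mem_Ioc, mem_range]
    by_cases h3 : p ≤ x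
    · right
      exact ⟨by omega, hp.2⟩
    · left
      exact ⟨by omega, hp.2⟩
  have h3 : (Nat.primeCounting (x + x) : ℝ) ≤ (PI x (2 * x)).card + Nat.primeCounting x := by
    exact_mod_cast h2
  linarith

open Classical in
/-- the number of `p` in `S` with `N - p` a prime or a product of two primes larger than `z` -/
noncomputable def chen (z : ℝ) (S : Finset ℕ) (N : ℕ) : ℕ := (S.filter (fun p => P2 z (N - p))).card

/-- the number of `p` in `S` with `N - p` prime -/
def gold (S : Finset ℕ) (N : ℕ) : ℕ := (S.filter (fun p => (N - p).Prime)).card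

/-- **Sparse sets of primes that represent all Goldbach and Chen counts.** -/
theorem goldSample : ∃ c C : ℝ, 0 < c ∧ 0 < C ∧ ∀ ε : ℝ, 0 < ε → ∃ K : ℝ, 0 < K ∧ ∃ x₀ : ℕ, ∀ x : ℕ, x₀ ≤ x →
    ∀ m : ℝ, K * Real.log x ^ 2 ≤ m → m ≤ (PI x (2 * x)).card → ∃ S ⊆ PI x (2 * x),
      |(S.card : ℝ) - m| ≤ ε * m ∧ ∀ N : ℕ, Even N → 4 * x ≤ N → N ≤ 8 * x →
        c * (N / N.totient * (m / Real.log N)) ≤ chen (((8 * x : ℕ) : ℝ) ^ (1 / 9 : ℝ)) S N ∧
        chen (((8 * x : ℕ) : ℝ) ^ (1 / 9 : ℝ)) S N ≤ C * (N / N.totient * (m / Real.log N)) ∧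
        |(gold S N : ℝ) - m / (PI x (2 * x)).card * gold (PI x (2 * x)) N| ≤
          ε * (N / N.totient * (m / Real.log N)) := by
  classical
  obtain ⟨t0, ht0, c0, hc0, hgen, -⟩ := genF 1
  set t := max t0 9 with htdef
  have ht1 : 1 ≤ t := ht0.trans (le_max_left _ _)
  have ht9 : 9 ≤ t := le_max_right _ _
  obtain ⟨C0, hC0, hup⟩ := upper1 1 t ht1
  obtain ⟨c1, hc1, R₀, hrat⟩ := VF_ratio 1
  obtain ⟨c2, hc2, hVlow⟩ := VG_low
  obtain ⟨C2, hC2, hVup⟩ := VG_up
  obtain ⟨X₁, hX₁⟩ := hgen (1 / 8) (by norm_num)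
  obtain ⟨X₂, hX₂⟩ := hup (1 / 8) (by norm_num)
  obtain ⟨X₃, hX₃⟩ := PI_upper
  obtain ⟨X₄, hX₄⟩ := PI_lower
  refine ⟨c0 / 2 * (c1 * c2 / 64), (C0 + 1) * (2 * C2), by positivity, by positivity, ?_⟩
  intro ε hε
  set ε' : ℝ := min (min (c0 / 2) 1) (min ε (ε / (2 * C2))) with hε'
  have hε'0 : 0 < ε' := by positivity
  have e1 : ε' ≤ c0 / 2 := (min_le_left _ _).trans (min_le_left _ _)
  have e2 : ε' ≤ 1 := (min_le_left _ _).trans (min_le_right _ _)
  have e3 : ε' ≤ ε := (min_le_right _ _).trans (min_le_left _ _)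
  have e4 : ε' * (2 * C2) ≤ ε := by
    have h1 : ε' ≤ ε / (2 * C2) := (min_le_right _ _).trans (min_le_right _ _)
    rwa [le_div_iff₀ (by positivity)] at h1
  obtain ⟨K, hK, X₅, hX₅⟩ := family 1 t ht1 2 (1 / 8) ε' (by norm_num) hε'0
  refine ⟨K * 4, by positivity, max (max (max X₁ X₂) (max X₃ X₄)) (max X₅ (max R₀ 8)), ?_⟩
  intro x hx m hm hmP
  have hx1 : X₁ ≤ x := le_trans (le_trans (le_max_left _ _) (le_max_left _ _)) ((le_max_left _ _).trans hx)
  have hx2 : X₂ ≤ x := le_trans (le_trans (le_max_right _ _) (le_max_left _ _)) ((le_max_left _ _).trans hx)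
  have hx3 : X₃ ≤ x := le_trans (le_trans (le_max_left _ _) (le_max_right _ _)) ((le_max_left _ _).trans hx)
  have hx4 : X₄ ≤ x := le_trans (le_trans (le_max_right _ _) (le_max_right _ _)) ((le_max_left _ _).trans hx)
  have hx5 : X₅ ≤ x := le_trans (le_max_left _ _) ((le_max_right _ _).trans hx)
  have hxR : R₀ ≤ x := le_trans (le_max_left _ _) (le_trans (le_max_right _ _) ((le_max_right _ _).trans hx))
  have hx8 : 8 ≤ x := le_trans (le_max_right _ _) (le_trans (le_max_right _ _) ((le_max_right _ _).trans hx))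
  have hxr : (8 : ℝ) ≤ x := by exact_mod_cast hx8
  have hx0 : (0 : ℝ) < x := by linarith
  have hl : 0 < Real.log x := Real.log_pos (by linarith)
  have hlX : Real.log ((8 * x : ℕ) : ℝ) ≤ 2 * Real.log x := by
    have h1 : ((8 * x : ℕ) : ℝ) ≤ (x : ℝ) ^ 2 := by
      push_cast
      nlinarith
    have h2 := Real.log_le_log (by positivity) h1
    rwa [Real.log_pow, Nat.cast_ofNat] at h2
  have hlX0 : 0 < Real.log ((8 * x : ℕ) : ℝ) := Real.log_pos (by exact_mod_cast (by omega : 1 < 8 * x))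
  have hlX1 : Real.log x ≤ Real.log ((8 * x : ℕ) : ℝ) :=
    Real.log_le_log hx0 (by exact_mod_cast (by omega : x ≤ 8 * x))
  have hm0 : 0 < m := lt_of_lt_of_le (by positivity) hm
  have hP0 : (0 : ℝ) < (PI x (2 * x)).card := lt_of_lt_of_le hm0 hmP
  have hPlow := hX₄ x hx4
  have hPup := hX₃ (8 * x) (by omega) x (2 * x) (by omega)
  have hAB : (1 / 8 : ℝ) * ((8 * x : ℕ) : ℝ) ≤ ((2 * x : ℕ) : ℝ) - x := by
    push_cast
    linarith
  have hABe : ((2 * x : ℕ) : ℝ) - x = x := by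
    push_cast
    ring
  set I : Finset (ℕ × Bool) := ((Icc (4 * x) (8 * x)).filter (fun N => Even N)) ×ˢ univ with hI
  have hIm : ∀ i ∈ I, Even i.1 ∧ 4 * x ≤ i.1 ∧ i.1 ≤ 8 * x := by
    intro i hi
    rw [hI, mem_product, mem_filter, mem_Icc] at hi
    exact ⟨hi.1.2, hi.1.1.1, hi.1.1.2⟩
  set R : ℕ × Bool → Finset ℕ := fun i =>
    (GoodF t (8 * x) x (2 * x) (fun _ => {(i.1 : ℤ)}) i.1).filter (fun p => i.2 = true → (i.1 - p).Prime) with hR
  obtain ⟨S, hSP, hScard, hSR⟩ := hX₅ (8 * x) (by omega) x (2 * x) (by omega) hAB (ℕ × Bool) I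
    (fun i => fun _ => {(i.1 : ℤ)}) (fun i => i.1) R (by
      intro i hi
      obtain ⟨h1, h2, h3⟩ := hIm i hi
      exact sysN (by omega) h1 h3) (fun i _ => filter_subset _ _) (by
      rw [hI, card_product, Finset.card_univ, Fintype.card_bool]
      have h1 : ((Icc (4 * x) (8 * x)).filter (fun N => Even N)).card ≤ 4 * x + 1 := by
        refine (card_filter_le _ _).trans ?_
        rw [Nat.card_Icc]
        omega
      nlinarith) m (by
      refine le_trans ?_ hm
      have h1 : Real.log ((8 * x : ℕ) : ℝ) ^ (1 + 1) ≤ 4 * Real.log x ^ 2 := by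
        have := pow_le_pow_left₀ hlX0.le hlX 2
        calc _ = Real.log ((8 * x : ℕ) : ℝ) ^ 2 := rfl
          _ ≤ (2 * Real.log x) ^ 2 := this
          _ = _ := by ring
      have := mul_le_mul_of_nonneg_left h1 hK.le
      linarith) hmP
  refine ⟨S, hSP, hScard.trans (mul_le_mul_of_nonneg_right e3 hm0.le), ?_⟩
  intro N hNe hN4 hN8
  have hN2 : 2 ≤ N := by omega
  have hNr : (0 : ℝ) < N := by exact_mod_cast (by omega : 0 < N)
  have hφ : (0 : ℝ) < N.totient := by exact_mod_cast Nat.totient_pos.2 (by omega)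
  have hlN : 0 < Real.log N := Real.log_pos (by exact_mod_cast (by omega : 1 < N))
  have hlNx : Real.log N ≤ 2 * Real.log x :=
    (Real.log_le_log hNr (by exact_mod_cast hN8)).trans hlX
  have hlxN : Real.log x ≤ Real.log N := Real.log_le_log hx0 (by exact_mod_cast (by omega : x ≤ N))
  have hsys := sysN hN2 hNe hN8
  set V : ℝ := VF (fun _ => {(N : ℤ)}) (8 * x) with hV
  have hVlo : c1 * (c2 * (N / (N.totient * Real.log N ^ 2))) ≤ V := by
    refine le_trans (mul_le_mul_of_nonneg_left (hVlow N hN2 hNe) hc1.le) ?_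
    exact hrat N (8 * x) (by omega) hN8 (by nlinarith) _ hsys.card hsys.loc
  have hVhi : V ≤ C2 * (N / (N.totient * Real.log N ^ 2)) :=
    (VF_mono hsys.loc hN8).1.trans (hVup N hN2 hNe)
  set E : ℝ := m / (PI x (2 * x)).card * (((2 * x : ℕ) : ℝ) - x) * V with hE
  have hElo : c1 * c2 / 64 * (N / N.totient * (m / Real.log N)) ≤ E := by
    rw [hE, hABe]
    have h1 : m * (Real.log x / (16 * x)) ≤ m / (PI x (2 * x)).card := by
      rw [div_eq_mul_inv m]
      apply mul_le_mul_of_nonneg_left _ hm0.le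
      rw [← one_div, div_le_div_iff₀ (by positivity) hP0]
      rw [← mul_div_assoc, le_div_iff₀ hlX0] at hPup
      push_cast at hPup
      have h2 := mul_le_mul_of_nonneg_left hlX1 hP0.le
      push_cast at h2
      linarith
    have h2 : m * (Real.log x / (16 * x)) * x * (c1 * (c2 * (N / (N.totient * Real.log N ^ 2)))) ≤
        m / (PI x (2 * x)).card * x * V :=
      mul_le_mul (mul_le_mul_of_nonneg_right h1 hx0.le) hVlo (by positivity) (by positivity)
    refine le_trans ?_ h2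
    have h3 : m * (Real.log x / (16 * x)) * x * (c1 * (c2 * (N / (N.totient * Real.log N ^ 2)))) =
        c1 * c2 / 64 * (N / N.totient * (m / Real.log N)) * (4 * (Real.log x / Real.log N)) := by
      field_simp
      ring
    rw [h3]
    apply le_mul_of_one_le_right (by positivity)
    rw [← mul_div_assoc, le_div_iff₀ hlN]
    linarith
  have hEhi : E ≤ 2 * C2 * (N / N.totient * (m / Real.log N)) := by
    rw [hE, hABe]
    have h1 : m / (PI x (2 * x)).card ≤ m * (2 * Real.log x / x) := by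
      rw [div_eq_mul_inv m]
      apply mul_le_mul_of_nonneg_left _ hm0.le
      rw [← one_div, div_le_div_iff₀ hP0 (by positivity)]
      have h2 : (x : ℝ) / 2 ≤ (PI x (2 * x)).card * Real.log x := by
        have h3 := mul_le_mul_of_nonneg_right hPlow hl.le
        have h4 : 1 / 2 * ((x : ℝ) / Real.log x) * Real.log x = x / 2 := by
          field_simp
        rw [h4] at h3
        exact h3
      linarith
    have hV0 : 0 ≤ V := (VF_mono hsys.loc le_rfl).2
    have h2 : m / (PI x (2 * x)).card * x * V ≤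
        m * (2 * Real.log x / x) * x * (C2 * (N / (N.totient * Real.log N ^ 2))) :=
      mul_le_mul (mul_le_mul_of_nonneg_right h1 hx0.le) hVhi hV0 (by positivity)
    refine h2.trans ?_
    have h3 : m * (2 * Real.log x / x) * x * (C2 * (N / (N.totient * Real.log N ^ 2))) =
        2 * C2 * (N / N.totient * (m / Real.log N)) * (Real.log x / Real.log N) := by
      field_simp
    rw [h3]
    apply mul_le_of_le_one_right (by positivity)
    rw [div_le_one hlN]
    exact hlxN
  have hE0 : 0 ≤ E := le_trans (by positivity) hElo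
  have hI1 : ∀ b : Bool, (N, b) ∈ I := by
    intro b
    rw [hI, mem_product, mem_filter, mem_Icc]
    exact ⟨⟨⟨hN4, hN8⟩, hNe⟩, mem_univ _⟩
  have hEm : m / (PI x (2 * x)).card * ((((2 * x : ℕ) : ℝ) - x) * V) = E := by
    rw [hE]
    ring
  -- the Chen counts
  have hchen : (S ∩ R (N, false)).card = chen (((8 * x : ℕ) : ℝ) ^ (1 / 9 : ℝ)) S N := by
    unfold chen
    congr 1
    ext p
    rw [hR, mem_inter, mem_filter, mem_filter, mem_good ht9 hx8 hN4 hN8]
    constructor
    · rintro ⟨h1, ⟨_, h2⟩, _⟩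
      exact ⟨h1, h2⟩
    · rintro ⟨h1, h2⟩
      exact ⟨h1, ⟨hSP h1, h2⟩, by simp⟩
  have hz : ((8 * x : ℕ) : ℝ) ^ (1 / 9 : ℝ) ≤ x := by
    have h8 : ((8 * x : ℕ) : ℝ) ≤ (x : ℝ) ^ (2 : ℝ) := by
      rw [Real.rpow_two]
      push_cast
      nlinarith
    have h1 := Real.rpow_le_rpow (by positivity) h8 (show (0 : ℝ) ≤ 1 / 9 by norm_num)
    rw [← Real.rpow_mul hx0.le] at h1
    refine h1.trans ?_
    have := Real.rpow_le_rpow_of_exponent_le (show (1 : ℝ) ≤ x by linarith) (show (2 * (1 / 9) : ℝ) ≤ 1 by norm_num)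
    rwa [Real.rpow_one] at this
  have hgoldT : ∀ T : Finset ℕ, T ⊆ PI x (2 * x) → (T ∩ R (N, true)).card = gold T N := by
    intro T hT
    unfold gold
    congr 1
    ext p
    rw [hR, mem_inter, mem_filter, mem_filter, mem_good ht9 hx8 hN4 hN8]
    constructor
    · rintro ⟨h1, ⟨_, _⟩, h3⟩
      exact ⟨h1, h3 rfl⟩
    · rintro ⟨h1, h2⟩
      have hpP := hT h1
      refine ⟨h1, ⟨hpP, Or.inl h2, ?_⟩, fun _ => h2⟩
      intro q hq hd
      have h3 := (Nat.prime_dvd_prime_iff_eq hq h2).1 hd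
      unfold PI at hpP
      rw [mem_filter, mem_Ioc] at hpP
      have h4 : x < q := by omega
      have h5 : (x : ℝ) < q := by exact_mod_cast h4
      linarith
  have k1 := hSR (N, false) (hI1 false)
  have k2 := hSR (N, true) (hI1 true)
  simp only at k1 k2
  rw [← hV, hEm] at k1 k2
  rw [hchen] at k1
  have hPR : (R (N, true)).card = gold (PI x (2 * x)) N := by
    rw [← hgoldT _ (Subset.refl _)]
    congr 1
    symm
    apply inter_eq_right.2
    intro p hp
    rw [hR, mem_filter, mem_good ht9 hx8 hN4 hN8] at hp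
    exact hp.1.1
  rw [hgoldT S hSP, hPR] at k2
  have hRf : (R (N, false)).card = (GoodF t (8 * x) x (2 * x) (fun _ => {(N : ℤ)}) N).card := by
    congr 1
    rw [hR]
    apply filter_true_of_mem
    intro p _ h
    exact absurd h (by simp)
  rw [hRf] at k1
  have g1 := hX₁ (8 * x) (by omega) (fun _ => {(N : ℤ)}) N hsys x (2 * x) (by omega) hAB
  have g2 := hX₂ (8 * x) (by omega) (fun _ => {(N : ℤ)}) N hsys x (2 * x) (by omega) hAB
  have g3 : ((GoodF t0 (8 * x) x (2 * x) (fun _ => {(N : ℤ)}) N).card : ℝ) ≤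
      (GoodF t (8 * x) x (2 * x) (fun _ => {(N : ℤ)}) N).card := by
    exact_mod_cast card_le_card (GoodF_t ht0 (le_max_left _ _) (by omega) _ _)
  rw [← hV] at g1 g2
  have hp0 : 0 ≤ m / ((PI x (2 * x)).card : ℝ) := by positivity
  have g4 : c0 * E ≤ m / (PI x (2 * x)).card * (GoodF t (8 * x) x (2 * x) (fun _ => {(N : ℤ)}) N).card := by
    have := mul_le_mul_of_nonneg_left (g1.trans g3) hp0
    refine le_trans (le_of_eq ?_) this
    rw [hE]
    ring
  have g5 : m / (PI x (2 * x)).card * (GoodF t (8 * x) x (2 * x) (fun _ => {(N : ℤ)}) N).card ≤ C0 * E := by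
    have := mul_le_mul_of_nonneg_left g2 hp0
    refine le_trans this (le_of_eq ?_)
    rw [hE]
    ring
  obtain ⟨k3, k4⟩ := abs_le.1 k1
  have h1E := mul_le_mul_of_nonneg_right e1 hE0
  have h2E := mul_le_mul_of_nonneg_right e2 hE0
  refine ⟨?_, ?_, ?_⟩
  · have h1 : c0 / 2 * E ≤ chen (((8 * x : ℕ) : ℝ) ^ (1 / 9 : ℝ)) S N := by linarith
    refine le_trans ?_ h1
    have := mul_le_mul_of_nonneg_left hElo (show 0 ≤ c0 / 2 by positivity)
    linarith
  · have h1 : (chen (((8 * x : ℕ) : ℝ) ^ (1 / 9 : ℝ)) S N : ℝ) ≤ (C0 + 1) * E := by linarith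
    refine h1.trans ?_
    have := mul_le_mul_of_nonneg_left hEhi (show 0 ≤ C0 + 1 by positivity)
    linarith
  · refine k2.trans ?_
    have h1 := mul_le_mul_of_nonneg_left hEhi hε'0.le
    refine h1.trans ?_
    have h2 : 0 ≤ (N : ℝ) / N.totient * (m / Real.log N) := by positivity
    have := mul_le_mul_of_nonneg_right e4 h2
    linarith

end Pool.Agent.Q253.Thin
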