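import Mathlib

/-!
# Sampling: a sparse subset of a finite set that represents all sets of a given family
-/

set_option autoImplicit false

namespace Pool.Agent.Q253.Thin

open Finset

/-- the weights of the random subset -/
noncomputable def wt {α : Type*} [DecidableEq α] (P : Finset α) (p : ℝ) (S : Finset α) : ℝ :=
  (∏ _i ∈ S, p) * ∏ _i ∈ P \ S, (1 - p)

theorem wt_nonneg {α : Type*} [DecidableEq α] (P : Finset α) {p : ℝ} (hp : 0 ≤ p) (hp1 : p ≤ 1) (S : Finset α) :
    0 ≤ wt P p S :=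
  mul_nonneg (prod_nonneg fun _ _ => hp) (prod_nonneg fun _ _ => by linarith)

/-- the exponential moments -/
theorem wt_exp {α : Type*} [DecidableEq α] (P R : Finset α) (hR : R ⊆ P) (p y : ℝ) :
    ∑ S ∈ P.powerset, wt P p S * y ^ (S ∩ R).card = (1 + p * (y - 1)) ^ R.card := by
  have h := Finset.prod_add (fun i => p * if i ∈ R then y else 1) (fun _ => 1 - p) P
  have h1 : ∏ i ∈ P, ((p * if i ∈ R then y else 1) + (1 - p)) = (1 + p * (y - 1)) ^ R.card := by
    have h2 : ∀ i ∈ P, ((p * if i ∈ R then y else 1) + (1 - p)) = if i ∈ R then (1 + p * (y - 1)) else 1 := by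
      intro i _
      split_ifs <;> ring
    rw [prod_congr rfl h2, ← prod_filter, prod_const]
    congr 2
    ext i
    rw [mem_filter]
    exact ⟨fun h => h.2, fun h => ⟨hR h, h⟩⟩
  rw [← h1, h]
  apply sum_congr rfl
  intro S hS
  unfold wt
  rw [prod_mul_distrib]
  have h3 : ∏ i ∈ S, (if i ∈ R then y else 1) = y ^ (S ∩ R).card := by
    rw [← prod_filter, prod_const, filter_mem_eq_inter]
  rw [h3]
  ring

theorem wt_sum {α : Type*} [DecidableEq α] (P : Finset α) (p : ℝ) :
    ∑ S ∈ P.powerset, wt P p S = 1 := by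
  have h := wt_exp P ∅ (empty_subset _) p 1
  simpa using h

theorem exp_le_quad {l : ℝ} (h1 : |l| ≤ 1) : Real.exp l - 1 ≤ l + l ^ 2 := by
  have h := Real.abs_exp_sub_one_sub_id_le h1
  have := (abs_le.1 h).2
  linarith

/-- exponential moment bound -/
theorem wt_exp_le {α : Type*} [DecidableEq α] (P R : Finset α) (hR : R ⊆ P) {p : ℝ} (hp : 0 ≤ p) (hp1 : p ≤ 1)
    {l : ℝ} (hl : |l| ≤ 1) :
    ∑ S ∈ P.powerset, wt P p S * Real.exp (l * (S ∩ R).card) ≤ Real.exp (p * R.card * (l + l ^ 2)) := by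
  have h1 : ∀ S ∈ P.powerset, wt P p S * Real.exp (l * (S ∩ R).card) =
      wt P p S * Real.exp l ^ (S ∩ R).card := by
    intro S _
    rw [← Real.exp_nat_mul, mul_comm l]
  rw [sum_congr rfl h1, wt_exp P R hR]
  have h2 : 0 ≤ 1 + p * (Real.exp l - 1) := by
    have := Real.exp_pos l
    nlinarith
  have h3 : 1 + p * (Real.exp l - 1) ≤ Real.exp (p * (l + l ^ 2)) := by
    have h4 := mul_le_mul_of_nonneg_left (exp_le_quad hl) hp
    have h5 := Real.add_one_le_exp (p * (l + l ^ 2))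
    linarith
  refine (pow_le_pow_left₀ h2 h3 _).trans ?_
  rw [← Real.exp_nat_mul]
  apply le_of_eq
  congr 1
  ring

/-- the upper and lower tails -/
theorem wt_tail {α : Type*} [DecidableEq α] (P R : Finset α) (hR : R ⊆ P) {p : ℝ} (hp : 0 ≤ p) (hp1 : p ≤ 1)
    {ε U : ℝ} (hε : 0 < ε) (hε1 : ε ≤ 1) (hU : p * R.card ≤ U) :
    ∑ S ∈ P.powerset.filter (fun S => ε * U < |((S ∩ R).card : ℝ) - p * R.card|), wt P p S ≤
      2 * Real.exp (-(ε ^ 2 * U / 4)) := by
  classical
  have hpR : 0 ≤ p * R.card := by positivity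
  have key : ∀ l : ℝ, |l| ≤ ε / 2 → l ≠ 0 → |l| = ε / 2 →
      ∑ S ∈ P.powerset.filter (fun S => |l| * (ε * U) < l * (((S ∩ R).card : ℝ) - p * R.card)), wt P p S ≤
      Real.exp (-(ε ^ 2 * U / 4)) := by
    intro l hl _ hle
    have h1 := wt_exp_le P R hR hp hp1 (l := l) (by linarith)
    have h2 : Real.exp (l * (p * R.card) + |l| * (ε * U)) *
        ∑ S ∈ P.powerset.filter (fun S => |l| * (ε * U) < l * (((S ∩ R).card : ℝ) - p * R.card)), wt P p S ≤
        ∑ S ∈ P.powerset, wt P p S * Real.exp (l * (S ∩ R).card) := by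
      rw [mul_sum]
      refine le_trans ?_ (sum_le_sum_of_subset_of_nonneg (filter_subset
        (fun S : Finset α => |l| * (ε * U) < l * (((S ∩ R).card : ℝ) - p * R.card)) P.powerset)
        (fun S _ _ => mul_nonneg (wt_nonneg P hp hp1 S) (Real.exp_pos _).le))
      apply sum_le_sum
      intro S hS
      rw [mem_filter] at hS
      rw [mul_comm]
      apply mul_le_mul_of_nonneg_left _ (wt_nonneg P hp hp1 S)
      apply Real.exp_le_exp.2
      linarith [hS.2]
    have h3 := h2.trans h1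
    have h4 : l ^ 2 = (ε / 2) ^ 2 := by
      rw [← sq_abs, hle]
    have h5 : Real.exp (p * R.card * (l + l ^ 2)) ≤
        Real.exp (l * (p * R.card) + |l| * (ε * U)) * Real.exp (-(ε ^ 2 * U / 4)) := by
      rw [← Real.exp_add]
      apply Real.exp_le_exp.2
      rw [hle, h4]
      have h6 : p * R.card * (ε / 2) ^ 2 ≤ U * (ε / 2) ^ 2 := mul_le_mul_of_nonneg_right hU (by positivity)
      nlinarith
    exact le_of_mul_le_mul_left (h3.trans h5) (Real.exp_pos _)
  have ha : |ε / 2| = ε / 2 := abs_of_pos (by positivity)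
  have hb : |-(ε / 2)| = ε / 2 := by rw [abs_neg, ha]
  have k1 := key (ε / 2) (by rw [ha]) (by positivity) ha
  have k2 := key (-(ε / 2)) (by rw [hb]) (by linarith) hb
  rw [ha] at k1
  rw [hb] at k2
  have hsub : P.powerset.filter (fun S => ε * U < |((S ∩ R).card : ℝ) - p * R.card|) ⊆
      P.powerset.filter (fun S => ε / 2 * (ε * U) < ε / 2 * (((S ∩ R).card : ℝ) - p * R.card)) ∪
      P.powerset.filter (fun S => ε / 2 * (ε * U) < -(ε / 2) * (((S ∩ R).card : ℝ) - p * R.card)) := by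
    intro S hS
    rw [mem_filter] at hS
    rw [mem_union, mem_filter, mem_filter]
    rcases le_or_gt 0 (((S ∩ R).card : ℝ) - p * R.card) with h | h
    · left
      rw [abs_of_nonneg h] at hS
      exact ⟨hS.1, mul_lt_mul_of_pos_left hS.2 (by positivity)⟩
    · right
      rw [abs_of_neg h] at hS
      refine ⟨hS.1, ?_⟩
      have := mul_lt_mul_of_pos_left hS.2 (show 0 < ε / 2 by positivity)
      linarith
  have hun := sum_union_inter (s₁ := P.powerset.filter (fun S => ε / 2 * (ε * U) < ε / 2 * (((S ∩ R).card : ℝ) - p * R.card)))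
    (s₂ := P.powerset.filter (fun S => ε / 2 * (ε * U) < -(ε / 2) * (((S ∩ R).card : ℝ) - p * R.card)))
    (f := fun S => wt P p S)
  have hnn : 0 ≤ ∑ S ∈ P.powerset.filter (fun S => ε / 2 * (ε * U) < ε / 2 * (((S ∩ R).card : ℝ) - p * R.card)) ∩
      P.powerset.filter (fun S => ε / 2 * (ε * U) < -(ε / 2) * (((S ∩ R).card : ℝ) - p * R.card)), wt P p S :=
    sum_nonneg fun S _ => wt_nonneg P hp hp1 S
  have hle := sum_le_sum_of_subset_of_nonneg (f := fun S => wt P p S) hsub (fun S _ _ => wt_nonneg P hp hp1 S)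
  linarith

/-- **Sampling.** A family of `M` subsets `R i` of a finite set `P`: for `0 ≤ p ≤ 1` some subset `S` of `P` has
`p |R i|` elements in `R i`, up to the error `ε U i`, simultaneously for all `i`, whenever `p |R i| ≤ U i` and
`ε ^ 2 U i` is larger than `4 log (2 M + 1)`. -/
theorem sampling {α ι : Type*} [DecidableEq α] (P : Finset α) (I : Finset ι) (R : ι → Finset α)
    (hR : ∀ i ∈ I, R i ⊆ P) {p ε : ℝ} (hp : 0 ≤ p) (hp1 : p ≤ 1) (hε : 0 < ε) (hε1 : ε ≤ 1) (U : ι → ℝ)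
    (hU : ∀ i ∈ I, p * (R i).card ≤ U i) (hL : ∀ i ∈ I, 4 * Real.log (2 * I.card + 1) ≤ ε ^ 2 * U i) :
    ∃ S ⊆ P, ∀ i ∈ I, |((S ∩ R i).card : ℝ) - p * (R i).card| ≤ ε * U i := by
  classical
  by_contra hcon
  push Not at hcon
  have h1 : (1 : ℝ) ≤ ∑ i ∈ I, ∑ S ∈ P.powerset.filter (fun S => ε * U i < |((S ∩ R i).card : ℝ) - p * (R i).card|),
      wt P p S := by
    rw [← wt_sum P p]
    simp only [sum_filter]
    rw [sum_comm]
    apply sum_le_sum
    intro S hS
    obtain ⟨i, hi, h⟩ := hcon S (mem_powerset.1 hS)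
    refine le_trans ?_ (single_le_sum (f := fun i => if ε * U i < |((S ∩ R i).card : ℝ) - p * (R i).card| then
      wt P p S else 0) ?_ hi)
    · rw [if_pos h]
    · intro j _
      split_ifs
      · exact wt_nonneg P hp hp1 S
      · exact le_rfl
  have h3 : ∑ i ∈ I, ∑ S ∈ P.powerset.filter (fun S => ε * U i < |((S ∩ R i).card : ℝ) - p * (R i).card|),
      wt P p S ≤ ∑ _i ∈ I, 2 / (2 * (I.card : ℝ) + 1) := by
    apply sum_le_sum
    intro i hi
    refine (wt_tail P (R i) (hR i hi) hp hp1 hε hε1 (hU i hi)).trans ?_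
    have h4 := hL i hi
    have h5 : (0 : ℝ) < 2 * I.card + 1 := by positivity
    have h6 : Real.exp (-(ε ^ 2 * U i / 4)) ≤ Real.exp (-Real.log (2 * I.card + 1)) :=
      Real.exp_le_exp.2 (by linarith)
    rw [Real.exp_neg (Real.log _), Real.exp_log h5] at h6
    rw [div_eq_mul_inv (2 : ℝ) (2 * (I.card : ℝ) + 1)]
    linarith
  rw [sum_const, nsmul_eq_mul] at h3
  have h5 : (0 : ℝ) < 2 * I.card + 1 := by positivity
  have h6 : (I.card : ℝ) * (2 / (2 * (I.card : ℝ) + 1)) < 1 := by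
    rw [← mul_div_assoc, div_lt_one h5]
    linarith
  linarith

end Pool.Agent.Q253.Thin
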