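import Pool.Agent.Q253.Thin.Int
import Pool.Agent.Q253.Thin.Sample

/-!
# Progressions and sampling for integers outside residue classes
-/

set_option autoImplicit false

namespace Pool.Agent.Q253.Thin

open Finset Filter
open Pool.Agent.Y843.HS (Pr VV Pr_mem Pr_prime VV_split Sv)
open Pool.Agent.Y840.CT

/-- lower bound, and progressions in subsets of positive relative density -/
theorem int_rel (r : ℕ) (hr : 1 ≤ r) : ∃ t : ℕ, 1 ≤ t ∧ ∃ c : ℝ, 0 < c ∧
    (∃ X₀ : ℕ, ∀ X : ℕ, X₀ ≤ X → ∀ Z : ℕ → Finset ℕ, SysZ r Z → ∀ A : ℕ,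
      c * (X * VV Z 0 X) ≤ ((IS t X A (A + X) Z).card : ℝ)) ∧
    ∀ (k : ℕ) (δ : ℝ), 0 < δ → ∃ D X₀ : ℕ, ∀ X : ℕ, X₀ ≤ X → ∀ Z : ℕ → Finset ℕ, SysZ r Z → ∀ A : ℕ,
      ∀ S : Finset ℕ, S ⊆ IS t X A (A + X) Z → δ * ((IS t X A (A + X) Z).card : ℝ) ≤ S.card →
        ∃ a d : ℕ, 1 ≤ d ∧ (d : ℝ) ≤ Real.log X ^ D ∧ ∀ j < k, a + j * d ∈ S := by
  classical
  obtain ⟨t, ht, c, hc, hlow⟩ := int_lower r hr
  have htr : (0 : ℝ) < t := by exact_mod_cast ht
  obtain ⟨X₁, hX₁⟩ := hlow 1 one_pos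
  have hL : ∀ X : ℕ, X₁ ≤ X → ∀ Z : ℕ → Finset ℕ, SysZ r Z → ∀ A : ℕ,
      c * (X * VV Z 0 X) ≤ ((IS t X A (A + X) Z).card : ℝ) := by
    intro X hX Z hZ A
    have h1 := hX₁ X hX Z hZ A (A + X) (by push_cast; linarith)
    have e : ((A + X : ℕ) : ℝ) - A = X := by
      push_cast
      ring
    rw [e] at h1
    exact h1
  refine ⟨t, ht, c, hc, ⟨X₁, hL⟩, ?_⟩
  intro k δ hδ
  obtain ⟨cD, hcD, R₀, hden⟩ := Pool.Agent.Y79.HS.den r (2 * t)
  obtain ⟨D, X₂, hX₂⟩ := Pool.Agent.Y843.HS.fin k r (1 / (t : ℝ)) (δ * c * cD) (by positivity) (by positivity)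
  obtain ⟨X₃, hX₃⟩ := eventually_atTop.1 (((tendsto_rpow_atTop (show (0 : ℝ) < 1 / (t : ℝ) by positivity)).comp
    tendsto_natCast_atTop_atTop).eventually_ge_atTop ((R₀ : ℝ) + 2))
  refine ⟨D, max (max X₁ X₂) (max X₃ 1), ?_⟩
  intro X hX Z hZ A S hS hSc
  have x1 : X₁ ≤ X := (le_max_left _ _).trans ((le_max_left _ _).trans hX)
  have x2 : X₂ ≤ X := (le_max_right _ _).trans ((le_max_left _ _).trans hX)
  have x3 : X₃ ≤ X := (le_max_left _ _).trans ((le_max_right _ _).trans hX)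
  have x4 : 1 ≤ X := (le_max_right _ _).trans ((le_max_right _ _).trans hX)
  have hX0 : (0 : ℝ) < X := by exact_mod_cast x4
  have hR : (R₀ : ℝ) + 2 ≤ (X : ℝ) ^ (1 / (t : ℝ)) := hX₃ X x3
  set z := ⌊(X : ℝ) ^ (1 / (t : ℝ))⌋₊ with hz
  have hz1 : R₀ + 1 ≤ z := by
    apply Nat.le_floor
    push_cast
    linarith
  have hzlt : (X : ℝ) ^ (1 / (t : ℝ)) < z + 1 := Nat.lt_floor_add_one _
  have hzle : (z : ℝ) ≤ (X : ℝ) ^ (1 / (t : ℝ)) := Nat.floor_le (by positivity)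
  have hz2 : (2 : ℝ) ≤ (X : ℝ) ^ (1 / (t : ℝ)) := by
    have : (0 : ℝ) ≤ R₀ := Nat.cast_nonneg _
    linarith
  have hz22 : 2 ≤ z := Nat.le_floor (by exact_mod_cast hz2)
  have hXz : X ≤ z ^ (2 * t) := by
    have h1 : (X : ℝ) ^ (1 / (t : ℝ)) ≤ (z : ℝ) ^ 2 := by
      have : (2 : ℝ) ≤ z := by exact_mod_cast hz22
      nlinarith
    have h2 := pow_le_pow_left₀ (by positivity) h1 t
    rw [← Real.rpow_natCast ((X : ℝ) ^ (1 / (t : ℝ))), ← Real.rpow_mul hX0.le, one_div, inv_mul_cancel₀ htr.ne',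
      Real.rpow_one, ← pow_mul] at h2
    exact_mod_cast h2
  have hzX : z ≤ X := by
    have h1 : (X : ℝ) ^ (1 / (t : ℝ)) ≤ X := by
      have h2 := Real.rpow_le_rpow_of_exponent_le (show (1 : ℝ) ≤ X by exact_mod_cast x4)
        (show 1 / (t : ℝ) ≤ 1 by
          rw [div_le_one htr]
          exact_mod_cast ht)
      rwa [Real.rpow_one] at h2
    exact_mod_cast hzle.trans h1
  have hV2 : cD ≤ VV Z z X := hden z X (by omega) hXz Z (fun p hp => ⟨hZ.card p (Pr_prime hp), hZ.lt p (Pr_prime hp)⟩)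
  have hVz : cD * VV Z 0 z ≤ VV Z 0 X := by
    rw [← VV_split Z (Nat.zero_le z) hzX, mul_comm]
    exact mul_le_mul_of_nonneg_left hV2 (VZ_nonneg hZ _ _)
  obtain ⟨a, d, h1, h2, h3⟩ := hX₂ X A x2 Z (fun p hp _ => ⟨hZ.card p hp, hZ.loc p hp, hZ.lt p hp⟩) S (by
    intro n hn
    have h1 := hS hn
    unfold IS at h1
    exact (mem_filter.1 h1).1) (by
    intro n hn p hp hpX
    have h1 := hS hn
    unfold IS at h1
    exact (mem_filter.1 h1).2 p hp hpX) (by
    refine le_trans ?_ hSc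
    have h1 := mul_le_mul_of_nonneg_left (hL X x1 Z hZ A) hδ.le
    refine le_trans ?_ h1
    have h2 : (X : ℝ) * (cD * VV Z 0 z) ≤ X * VV Z 0 X := mul_le_mul_of_nonneg_left hVz hX0.le
    have h3 := mul_le_mul_of_nonneg_left h2 (show 0 ≤ δ * c by positivity)
    refine le_trans (le_of_eq ?_) (h3.trans (le_of_eq ?_))
    · ring
    · ring)
  exact ⟨a, d, h1, h2, h3⟩

/-- **A sparse set of integers that represents given sets of sifted integers for all systems of a family.** -/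
theorem familyZ (r t : ℕ) (hr : 1 ≤ r) (ht : 1 ≤ t) (D : ℕ) (ε : ℝ) (hε : 0 < ε) :
    ∃ K : ℝ, 0 < K ∧ ∃ X₀ : ℕ, ∀ X : ℕ, X₀ ≤ X → ∀ A : ℕ,
    ∀ (ι : Type) (I : Finset ι) (Z : ι → ℕ → Finset ℕ) (R : ι → Finset ℕ),
    (∀ i ∈ I, SysZ r (Z i)) → (∀ i ∈ I, R i ⊆ IS t X A (A + X) (Z i)) → I.card ≤ X ^ D →
    ∀ m : ℝ, K * Real.log X ^ (r + 1) ≤ m → m ≤ X →
    ∃ S ⊆ Ioc A (A + X), |(S.card : ℝ) - m| ≤ ε * m ∧ ∀ i ∈ I,
      |((S ∩ R i).card : ℝ) - m / X * (R i).card| ≤ ε * (m * VV (Z i) 0 X) := by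
  classical
  obtain ⟨C, hC, hup⟩ := int_upper r t hr ht
  obtain ⟨cV, hcV, hlow⟩ := VZ_low r hr
  obtain ⟨X₁, hX₁⟩ := hup 1 one_pos
  set ε1 : ℝ := min 1 (min ε (ε / C)) with hε1
  have hε10 : 0 < ε1 := by positivity
  have hε11 : ε1 ≤ 1 := min_le_left _ _
  have hε12 : ε1 ≤ ε := (min_le_right _ _).trans (min_le_left _ _)
  have hε13 : ε1 * C ≤ ε := by
    have h1 : ε1 ≤ ε / C := (min_le_right _ _).trans (min_le_right _ _)
    rwa [le_div_iff₀ hC] at h1
  set K : ℝ := 4 * (D + 4) / ε1 ^ 2 * (1 + 1 / (C * cV)) with hK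
  have hK0 : 0 < K := by positivity
  refine ⟨K, hK0, max X₁ 3, ?_⟩
  intro X hX A ι I Z R hS hR hI m hm hmP
  have hX1 : X₁ ≤ X := (le_max_left _ _).trans hX
  have hX3 : 3 ≤ X := (le_max_right _ _).trans hX
  have hXr : (0 : ℝ) < X := by exact_mod_cast (by omega : 0 < X)
  have hl1 : 1 ≤ Real.log X := by
    rw [Real.le_log_iff_exp_le hXr]
    have h3 : (3 : ℝ) ≤ X := by exact_mod_cast hX3
    have := Real.exp_one_lt_d9
    linarith
  have hl0 : 0 < Real.log X := by linarith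
  have hm0 : 0 < m := lt_of_lt_of_le (by positivity) hm
  set P := Ioc A (A + X) with hP
  have hPc : (P.card : ℝ) = X := by
    rw [hP, Nat.card_Ioc]
    congr 1
    omega
  set p : ℝ := m / X with hp
  have hp0 : 0 < p := by positivity
  have hp1 : p ≤ 1 := by
    rw [hp, div_le_one hXr]
    exact hmP
  -- the number of indices
  have hlogI : Real.log (2 * ((insertNone I).card : ℝ) + 1) ≤ (D + 4) * Real.log X := by
    rw [card_insertNone]
    push_cast
    have h1 : (I.card : ℝ) ≤ (X : ℝ) ^ D := by exact_mod_cast hI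
    have h2 : (1 : ℝ) ≤ (X : ℝ) ^ D := one_le_pow₀ (by exact_mod_cast (by omega : 1 ≤ X))
    have h3 : 2 * ((I.card : ℝ) + 1) + 1 ≤ (X : ℝ) ^ (D + 4) := by
      have h4 : (3 : ℝ) ≤ X := by exact_mod_cast hX3
      have h5 : (81 : ℝ) ≤ (X : ℝ) ^ 4 := by
        calc (81 : ℝ) = 3 ^ 4 := by norm_num
          _ ≤ (X : ℝ) ^ 4 := pow_le_pow_left₀ (by norm_num) h4 4
      rw [pow_add]
      nlinarith
    have h6 := Real.log_le_log (by positivity) h3
    rw [Real.log_pow] at h6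
    push_cast at h6
    exact h6
  -- the sizes
  set U : Option ι → ℝ := fun o => match o with
    | none => m
    | some i => p * (C * (X * VV (Z i) 0 X)) with hUdef
  set R' : Option ι → Finset ℕ := fun o => match o with
    | none => P
    | some i => R i with hR'def
  have hGP : ∀ i ∈ I, R i ⊆ P := by
    intro i hi x hx
    have h1 := hR i hi hx
    unfold IS at h1
    rw [mem_filter] at h1
    exact h1.1
  have hR' : ∀ o ∈ insertNone I, R' o ⊆ P := by
    intro o ho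
    cases o with
    | none => exact Subset.refl _
    | some i => exact hGP i (some_mem_insertNone.1 ho)
  have hU : ∀ o ∈ insertNone I, p * (R' o).card ≤ U o := by
    intro o ho
    cases o with
    | none =>
      show p * (P.card : ℝ) ≤ m
      rw [hPc, hp, div_mul_cancel₀ _ hXr.ne']
    | some i =>
      have hi := some_mem_insertNone.1 ho
      show p * ((R i).card : ℝ) ≤ p * (C * (X * VV (Z i) 0 X))
      apply mul_le_mul_of_nonneg_left _ hp0.le
      have h1 := hX₁ X hX1 (Z i) (hS i hi) A (A + X) (by push_cast; linarith)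
      have e : ((A + X : ℕ) : ℝ) - A = X := by
        push_cast
        ring
      rw [e] at h1
      refine le_trans ?_ h1
      exact_mod_cast card_le_card (hR i hi)
  have hKm : 4 * (D + 4) / ε1 ^ 2 * Real.log X ^ (r + 1) ≤ m := by
    refine le_trans ?_ hm
    rw [hK]
    have h1 : 0 ≤ 4 * (D + 4) / ε1 ^ 2 * (1 / (C * cV)) * Real.log X ^ (r + 1) := by positivity
    nlinarith
  have hKm2 : 4 * (D + 4) / ε1 ^ 2 * (1 / (C * cV)) * Real.log X ^ (r + 1) ≤ m := by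
    refine le_trans ?_ hm
    rw [hK]
    have h1 : 0 ≤ 4 * (D + 4) / ε1 ^ 2 * Real.log X ^ (r + 1) := by positivity
    nlinarith
  have hL : ∀ o ∈ insertNone I, 4 * Real.log (2 * ((insertNone I).card : ℝ) + 1) ≤ ε1 ^ 2 * U o := by
    intro o ho
    refine (mul_le_mul_of_nonneg_left hlogI (by norm_num)).trans ?_
    cases o with
    | none =>
      show 4 * ((D + 4) * Real.log X) ≤ ε1 ^ 2 * m
      have h1 : Real.log X ≤ Real.log X ^ (r + 1) := by
        rw [pow_succ]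
        exact le_mul_of_one_le_left hl0.le (one_le_pow₀ hl1)
      have h2 := mul_le_mul_of_nonneg_left hKm (show 0 ≤ ε1 ^ 2 by positivity)
      have h3 : ε1 ^ 2 * (4 * (D + 4) / ε1 ^ 2 * Real.log X ^ (r + 1)) = 4 * (D + 4) * Real.log X ^ (r + 1) := by
        field_simp
      rw [h3] at h2
      have h4 : 4 * ((D : ℝ) + 4) * Real.log X ≤ 4 * (D + 4) * Real.log X ^ (r + 1) :=
        mul_le_mul_of_nonneg_left h1 (by positivity)
      linarith
    | some i =>
      have hi := some_mem_insertNone.1 ho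
      show 4 * ((D + 4) * Real.log X) ≤ ε1 ^ 2 * (p * (C * (X * VV (Z i) 0 X)))
      have hV := hlow X (by omega) (Z i) (hS i hi)
      have h3 : m / X * (C * (X * (cV / Real.log X ^ r))) ≤ p * (C * (X * VV (Z i) 0 X)) := by
        rw [hp]
        gcongr
      refine le_trans ?_ (mul_le_mul_of_nonneg_left h3 (show 0 ≤ ε1 ^ 2 by positivity))
      have h4 : ε1 ^ 2 * (m / X * (C * (X * (cV / Real.log X ^ r)))) = m * (ε1 ^ 2 * (C * cV) / Real.log X ^ r) := by
        field_simp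
      rw [h4]
      have h5 := mul_le_mul_of_nonneg_right hKm2
        (show 0 ≤ ε1 ^ 2 * (C * cV) / Real.log X ^ r by positivity)
      refine le_trans (le_of_eq ?_) h5
      field_simp
      ring
  obtain ⟨S, hSP, hSR⟩ := sampling P (insertNone I) R' hR' hp0.le hp1 hε10 hε11 U hU hL
  refine ⟨S, hSP, ?_, ?_⟩
  · have h1 := hSR none none_mem_insertNone
    have h2 : S ∩ R' none = S := inter_eq_left.2 hSP
    rw [h2] at h1
    have h3 : p * ((R' none).card : ℝ) = m := by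
      show p * (P.card : ℝ) = m
      rw [hPc, hp, div_mul_cancel₀ _ hXr.ne']
    rw [h3] at h1
    exact h1.trans (mul_le_mul_of_nonneg_right hε12 hm0.le)
  · intro i hi
    have h1 := hSR (some i) (some_mem_insertNone.2 hi)
    refine h1.trans ?_
    show ε1 * (p * (C * (X * VV (Z i) 0 X))) ≤ ε * (m * VV (Z i) 0 X)
    have h2 : 0 ≤ m * VV (Z i) 0 X := mul_nonneg hm0.le (VZ_nonneg (hS i hi) _ _)
    have h3 : ε1 * (p * (C * (X * VV (Z i) 0 X))) = ε1 * C * (m * VV (Z i) 0 X) := by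
      rw [hp]
      field_simp
    rw [h3]
    exact mul_le_mul_of_nonneg_right hε13 h2

end Pool.Agent.Q253.Thin
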