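import Pool.Agent.Q253.Thin.Fixed

/-!
# Countable lists of systems: a set of primes with `O((log log x) ^ 2)` elements up to `x`
-/

set_option autoImplicit false

namespace Pool.Agent.Q253.Thin

open Finset Filter
open Pool.Agent.Y840.CT
open Pool.Agent.Y843.HS (Pr VV Pr_mem Pr_prime VV_split Sv)
open Pool.Agent.Y843.HG (Z0)
open Pool.Agent.Y843.CH (hr hr_lt)

/-- the conditions on a system without the size of the shift -/
structure Sys0 (r : ℕ) (F : ℕ → Finset ℤ) (h0 : ℤ) : Prop where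
  card : ∀ q : ℕ, q.Prime → (F q).card ≤ r
  ne : h0 ≠ 0
  mem : ∀ q : ℕ, q.Prime → h0 ∈ F q
  loc : ∀ q : ℕ, q.Prime → rho (F q) q < q

theorem Sys0.sys {r : ℕ} {F : ℕ → Finset ℤ} {h0 : ℤ} (h : Sys0 r F h0) {X : ℕ} (hX : |h0| ≤ X) :
    SysF r X F h0 := ⟨h.card, h.ne, hX, h.mem, h.loc⟩

theorem thinList {r t : ℕ} {c ρ : ℝ} (hc : 0 < c) (hρ : 0 < ρ) (hdich : Dich r t c ρ)
    (L : ℕ → (ℕ → Finset ℤ) × ℤ) :
    ∃ c' : ℝ, 0 < c' ∧ ∃ C : ℝ, 0 < C ∧ ∃ Q : Set ℕ, (∀ q ∈ Q, q.Prime) ∧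
    (∀ x : ℕ, 16 ≤ x → ∃ S : Finset ℕ, (∀ q ∈ Q, q ≤ x → q ∈ S) ∧ (S.card : ℝ) ≤ C * Real.log (Real.log x) ^ 2) ∧
    ∀ n : ℕ, Sys0 r (L n).1 (L n).2 → ∀ θ : ℝ, 0 < θ → ∃ X₀ : ℕ, ∀ X : ℕ, X₀ ≤ X →
      ∀ A B : ℕ, B ≤ X → θ * X ≤ (B : ℝ) - A →
        c' * (((B : ℝ) - A) * VF (L n).1 X) ≤ ((PF t X A B (L n).1 (L n).2).card : ℝ) ∨
        ∃ q ∈ Q, c' * (((B : ℝ) - A) * VF (L n).1 X / q) ≤ ((RF t X A B (L n).1 (L n).2 q).card : ℝ) := by
  classical
  obtain ⟨M, hM, hmert⟩ := mert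
  obtain ⟨cD, hcD, R₀, hratio⟩ := VF_ratio r
  set K : ℕ := 4 with hK
  set C' : ℝ := (1 / (ρ / M) + 2) * (K * Real.log 2) with hC'
  have hl2 : 0 < Real.log 2 := Real.log_pos (by norm_num)
  have hC'0 : 0 < C' := by positivity
  have hstep : ∀ i : ℕ, ∃ T : Finset ℕ, (∀ q ∈ T, q.Prime ∧ ((2 ^ 2 ^ i : ℕ) : ℝ) ^ (1 / 9 : ℝ) < q) ∧
      ((T.card : ℝ) ≤ C' * (i + 2)) ∧
      (2 ^ 18 ≤ 2 ^ 2 ^ i → ∀ s : ℕ, 2 ^ 2 ^ i ≤ 2 ^ s → 2 ^ s < (2 ^ 2 ^ i) ^ 2 → ∀ n : ℕ,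
        n ≤ i → ∀ a b : ℕ, a ≤ 2 * i + 2 → b ≤ 2 * i + 2 →
        ρ ≤ ∑ q ∈ Gd c t (2 ^ s) (a * (2 ^ s / (i + 1))) (b * (2 ^ s / (i + 1))) (L n).1 (L n).2, (1 : ℝ) / q →
        ∃ q ∈ T, q ∈ Gd c t (2 ^ s) (a * (2 ^ s / (i + 1))) (b * (2 ^ s / (i + 1))) (L n).1 (L n).2) := by
    intro i
    by_cases hi : 2 ^ 18 ≤ 2 ^ 2 ^ i
    swap
    · refine ⟨∅, by simp, ?_, fun h => absurd h hi⟩
      simp only [card_empty, Nat.cast_zero]
      positivity
    set Y : ℕ := 2 ^ 2 ^ i with hY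
    set Ω := (Icc 1 (2 * Y)).filter (fun q : ℕ => q.Prime ∧ (Y : ℝ) ^ (1 / 9 : ℝ) < q) with hΩ
    set J : Finset (ℕ × ℕ × ℕ × ℕ) :=
      (range (2 ^ (i + 1))) ×ˢ ((range (i + 1)) ×ˢ ((range (2 * i + 3)) ×ˢ (range (2 * i + 3)))) with hJ
    set G : (ℕ × ℕ × ℕ × ℕ) → Finset ℕ := fun τ =>
      Gd c t (2 ^ τ.1) (τ.2.2.1 * (2 ^ τ.1 / (i + 1))) (τ.2.2.2 * (2 ^ τ.1 / (i + 1)))
        (L τ.2.1).1 (L τ.2.1).2 with hG
    set I := J.filter (fun τ => (Y ≤ 2 ^ τ.1 ∧ 2 ^ τ.1 < Y ^ 2) ∧ ρ ≤ ∑ q ∈ G τ, (1 : ℝ) / q) with hI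
    have hJc : J.card = 2 ^ (i + 1) * ((i + 1) * ((2 * i + 3) * (2 * i + 3))) := by
      rw [hJ, card_product, card_product, card_product, card_range, card_range, card_range]
    have hIM : (I.card : ℝ) ≤ (2 : ℝ) ^ (K * (i + 2)) := by
      have h1 : I.card ≤ 2 ^ (K * (i + 2)) := by
        refine (card_filter_le _ _).trans ?_
        rw [hJc]
        have b1 : 2 * i + 3 ≤ 2 ^ (i + 2) := by
          have : i + 2 < 2 ^ (i + 2) := Nat.lt_two_pow_self
          have h3 : i < 2 ^ i := Nat.lt_two_pow_self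
          have h4 : 2 ^ (i + 2) = 4 * 2 ^ i := by ring
          omega
        have b2 : i + 1 ≤ 2 ^ (i + 2) := by omega
        calc 2 ^ (i + 1) * ((i + 1) * ((2 * i + 3) * (2 * i + 3)))
            ≤ 2 ^ (i + 2) * (2 ^ (i + 2) * (2 ^ (i + 2) * 2 ^ (i + 2))) :=
              Nat.mul_le_mul (Nat.pow_le_pow_right (by norm_num) (by omega))
                (Nat.mul_le_mul b2 (Nat.mul_le_mul b1 b1))
          _ = 2 ^ (K * (i + 2)) := by
              rw [hK, ← pow_add, ← pow_add, ← pow_add]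
              congr 1
              ring
      exact_mod_cast h1
    have hKY : (2 : ℝ) ≤ (2 : ℝ) ^ (K * (i + 2)) := by
      calc (2 : ℝ) = 2 ^ 1 := by norm_num
        _ ≤ 2 ^ (K * (i + 2)) := pow_le_pow_right₀ (by norm_num) (by
            rw [hK]
            omega)
    have hsub : ∀ τ ∈ I, G τ ⊆ Ω := by
      intro τ hτ q hq
      rw [hI, mem_filter] at hτ
      rw [hG] at hq
      unfold Gd at hq
      rw [mem_filter, mem_Icc] at hq
      obtain ⟨⟨q1, q2⟩, ⟨q3, q4⟩, q5, -⟩ := hq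
      rw [hΩ, mem_filter, mem_Icc]
      refine ⟨⟨q1, ?_⟩, q3, ?_⟩
      · by_contra hcon
        push Not at hcon
        have h1 : (2 * Y) ^ 2 < q ^ 2 := Nat.pow_lt_pow_left hcon (by norm_num)
        have h2 : q ^ 2 < 2 * Y ^ 2 := by
          have := hτ.2.1.2
          omega
        have h3 : (2 * Y) ^ 2 = 4 * Y ^ 2 := by ring
        omega
      · refine lt_of_le_of_lt ?_ q4
        apply Real.rpow_le_rpow (by positivity) _ (by norm_num)
        exact_mod_cast hτ.2.1.1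
    obtain ⟨T, hT, hTc, hTh⟩ := hit2 Ω (fun q : ℕ => (1 : ℝ) / q) (fun q _ => by positivity) M (ρ / M) hM
      (hmert Y hi) (by positivity) G I ((2 : ℝ) ^ (K * (i + 2))) hKY hIM (by
        intro τ hτ
        refine ⟨hsub τ hτ, ?_⟩
        rw [hI, mem_filter] at hτ
        have e : ρ / M * M = ρ := by field_simp
        rw [e]
        exact hτ.2.2)
    refine ⟨T, ?_, ?_, ?_⟩
    · intro q hq
      have := hT hq
      rw [hΩ, mem_filter] at this
      exact this.2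
    · rw [Real.log_pow] at hTc
      rw [hC']
      push_cast at hTc
      calc (T.card : ℝ) ≤ _ := hTc
        _ = (1 / (ρ / M) + 2) * (K * Real.log 2) * (i + 2) := by ring
    · intro _ s hs1 hs2 n hn a b ha hb hs
      obtain ⟨q, hq, hq2⟩ := hTh (s, n, a, b) (by
        rw [hI, mem_filter, hJ]
        simp only [mem_product, mem_range]
        refine ⟨⟨?_, by omega, by omega, by omega⟩, ⟨hs1, hs2⟩, hs⟩
        rw [hY, ← pow_mul] at hs2
        have := (Nat.pow_lt_pow_iff_right (show 1 < 2 by norm_num)).1 hs2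
        rw [pow_succ]
        exact this)
      exact ⟨q, hq, hq2⟩
  choose T hT1 hT2 hT3 using hstep
  refine ⟨c * cD / 2, by positivity, 64 * C', by positivity, {q : ℕ | ∃ i, q ∈ T i}, ?_, ?_, ?_⟩
  · rintro q ⟨i, hi⟩
    exact (hT1 i q hi).1
  · intro x hx
    exact thin_union2 T C' hC'0 hT1 hT2 x hx
  · intro n hadm θ hθ
    obtain ⟨X₁, hX₁⟩ := hdich (θ / 4) (by positivity)
    -- a bound for the shift and the index
    obtain ⟨Kg, hKn, hKg⟩ : ∃ Kg : ℕ, n ≤ Kg ∧ |(L n).2| ≤ Kg := by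
      refine ⟨n + (L n).2.natAbs, by omega, ?_⟩
      rw [Int.abs_eq_natAbs]
      push_cast
      omega
    set i₀ : ℕ := max (max Kg 5) ⌈8 / θ⌉₊ with hi₀
    refine ⟨max (max X₁ R₀) (max ((2 ^ 2 ^ i₀) ^ 2) 2), ?_⟩
    intro X hX A B hBX hAB
    have g1 : X₁ ≤ X := le_trans (le_trans (le_max_left _ _) (le_max_left _ _)) hX
    have g2 : R₀ ≤ X := le_trans (le_trans (le_max_right _ _) (le_max_left _ _)) hX
    have g3 : (2 ^ 2 ^ i₀) ^ 2 ≤ X := le_trans (le_trans (le_max_left _ _) (le_max_right _ _)) hX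
    have g4 : 2 ≤ X := le_trans (le_trans (le_max_right _ _) (le_max_right _ _)) hX
    have hXpos : (0 : ℝ) < X := by exact_mod_cast (by omega : 0 < X)
    have hABr : (0 : ℝ) < (B : ℝ) - A := lt_of_lt_of_le (by positivity) hAB
    set s := Nat.clog 2 X with hs
    have hs1 : X ≤ 2 ^ s := Nat.le_pow_clog (by norm_num) X
    have hs2 : 2 ^ s < 2 * X := by
      have h1 : 0 < s := Nat.clog_pos (by norm_num) g4
      have h2 := Nat.pow_pred_clog_lt_self (b := 2) (by norm_num) (show 1 < X by omega)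
      rw [← hs] at h2
      have h3 : 2 ^ s = 2 * 2 ^ (s - 1) := by
        rw [← pow_succ']
        congr 1
        omega
      rw [h3]
      have h4 : s.pred = s - 1 := rfl
      rw [h4] at h2
      omega
    have hs2X : 2 ≤ 2 ^ s := by omega
    obtain ⟨i, hi1, hi2⟩ := tower hs2X
    have hii : i₀ < i := by
      by_contra hcon
      push Not at hcon
      have h1 : 2 ^ 2 ^ i ≤ 2 ^ 2 ^ i₀ :=
        Nat.pow_le_pow_right (by norm_num) (Nat.pow_le_pow_right (by norm_num) hcon)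
      have h2 : (2 ^ 2 ^ i) ^ 2 ≤ (2 ^ 2 ^ i₀) ^ 2 := Nat.pow_le_pow_left h1 2
      omega
    have hK1 : Kg ≤ i := by
      have : Kg ≤ i₀ := (le_max_left _ _).trans (le_max_left _ _)
      omega
    have h5 : 5 ≤ i := by
      have : 5 ≤ i₀ := (le_max_right _ _).trans (le_max_left _ _)
      omega
    have hθi : 8 / θ ≤ (i : ℝ) + 1 := by
      have h1 : ⌈8 / θ⌉₊ ≤ i₀ := le_max_right _ _
      have h2 := Nat.le_ceil (8 / θ)
      have h3 : ((⌈8 / θ⌉₊ : ℕ) : ℝ) ≤ i := by exact_mod_cast (by omega : ⌈8 / θ⌉₊ ≤ i)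
      linarith
    have h18 : 2 ^ 18 ≤ 2 ^ 2 ^ i := by
      apply Nat.pow_le_pow_right (by norm_num)
      calc 18 ≤ 2 ^ 5 := by norm_num
        _ ≤ 2 ^ i := Nat.pow_le_pow_right (by norm_num) h5
    have hKX : (Kg : ℤ) ≤ (2 ^ s : ℕ) := by
      have h1 : Kg < 2 ^ i := lt_of_le_of_lt hK1 Nat.lt_two_pow_self
      have h2 : 2 ^ i < 2 ^ 2 ^ i := Nat.lt_two_pow_self
      exact_mod_cast (by omega : Kg ≤ 2 ^ s)
    set m := 2 ^ s / (i + 1) with hm
    have hi1X : i + 1 ≤ 2 ^ s := by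
      have h1 : i < 2 ^ i := Nat.lt_two_pow_self
      have h2 : 2 ^ i < 2 ^ 2 ^ i := Nat.lt_two_pow_self
      omega
    have hm1 : 1 ≤ m := (Nat.one_le_div_iff (by omega)).2 hi1X
    have hm2 : m * (i + 1) ≤ 2 ^ s := Nat.div_mul_le_self _ _
    have hm3 : 2 ^ s < 2 * (i + 1) * m := by
      have h1 : 2 ^ s < (i + 1) * (m + 1) := Nat.lt_mul_div_succ (2 ^ s) (show 0 < i + 1 by omega)
      nlinarith
    set b := B / m with hb
    set a := (A + m - 1) / m with ha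
    have hb1 : b * m ≤ B := Nat.div_mul_le_self _ _
    have hb2 : B < (b + 1) * m := by
      have := Nat.lt_mul_div_succ B (show 0 < m by omega)
      rw [mul_comm] at this
      exact this
    have ha1 : a * m ≤ A + m - 1 := Nat.div_mul_le_self _ _
    have ha2 : A ≤ a * m := by
      have := Nat.lt_mul_div_succ (A + m - 1) (show 0 < m by omega)
      rw [mul_comm, ← ha] at this
      have h3 : (a + 1) * m = a * m + m := by ring
      omega
    have hmr : (m : ℝ) ≤ θ / 4 * X := by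
      have h1 : (m : ℝ) * ((i : ℝ) + 1) ≤ 2 * X := by
        have h2 : m * (i + 1) ≤ 2 * X := hm2.trans hs2.le
        exact_mod_cast h2
      have hi0 : (0 : ℝ) < (i : ℝ) + 1 := by positivity
      have h3 : 8 ≤ ((i : ℝ) + 1) * θ := by
        rw [div_le_iff₀ hθ] at hθi
        exact hθi
      have h4 : (m : ℝ) * 8 ≤ 2 * X * θ := by
        calc (m : ℝ) * 8 ≤ m * (((i : ℝ) + 1) * θ) := mul_le_mul_of_nonneg_left h3 (by positivity)
          _ = (m * ((i : ℝ) + 1)) * θ := by ring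
          _ ≤ 2 * X * θ := mul_le_mul_of_nonneg_right h1 hθ.le
      linarith
    have har : ((a * m : ℕ) : ℝ) ≤ A + m := by
      have : a * m ≤ A + m := by omega
      exact_mod_cast this
    have hbr : (B : ℝ) - m ≤ ((b * m : ℕ) : ℝ) := by
      have : B ≤ b * m + m := by
        have h3 : (b + 1) * m = b * m + m := by ring
        omega
      have h4 : (B : ℝ) ≤ ((b * m + m : ℕ) : ℝ) := by exact_mod_cast this
      push_cast at h4 ⊢
      linarith
    have hwin : ((B : ℝ) - A) / 2 ≤ ((b * m : ℕ) : ℝ) - ((a * m : ℕ) : ℝ) := by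
      have h2 : 2 * (m : ℝ) ≤ ((B : ℝ) - A) / 2 := by linarith
      linarith
    have hX'r : ((2 ^ s : ℕ) : ℝ) ≤ 2 * X := by exact_mod_cast hs2.le
    have hab : a * m < b * m := by
      have : ((a * m : ℕ) : ℝ) < ((b * m : ℕ) : ℝ) := by linarith
      exact_mod_cast this
    have hbb : b ≤ 2 * i + 2 := by
      have h1 : b * m < 2 * (i + 1) * m := by omega
      have := lt_of_mul_lt_mul_right h1 (Nat.zero_le m)
      omega
    have haa : a ≤ 2 * i + 2 := by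
      have := lt_of_mul_lt_mul_right hab (Nat.zero_le m)
      omega
    have hVr : cD * VF (L n).1 X ≤ VF (L n).1 (2 ^ s) := by
      apply hratio X (2 ^ s) g2 hs1 _ (L n).1 (fun q hq => hadm.card q hq) hadm.loc
      calc 2 ^ s ≤ 2 * X := hs2.le
        _ ≤ X ^ 2 := by nlinarith
    have hVX0 : 0 ≤ VF (L n).1 X := (VF_mono hadm.loc le_rfl).2
    have hconv : c * cD / 2 * (((B : ℝ) - A) * VF (L n).1 X) ≤
        c * ((((b * m : ℕ) : ℝ) - ((a * m : ℕ) : ℝ)) * VF (L n).1 (2 ^ s)) := by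
      calc c * cD / 2 * (((B : ℝ) - A) * VF (L n).1 X) = c * (((B : ℝ) - A) / 2 * (cD * VF (L n).1 X)) := by ring
        _ ≤ c * ((((b * m : ℕ) : ℝ) - ((a * m : ℕ) : ℝ)) * VF (L n).1 (2 ^ s)) :=
          mul_le_mul_of_nonneg_left (mul_le_mul hwin hVr (by positivity) (by linarith)) hc.le
    have hsys : SysF r (2 ^ s) (L n).1 (L n).2 := hadm.sys (hKg.trans hKX)
    have hwin2 : θ / 4 * ((2 ^ s : ℕ) : ℝ) ≤ ((b * m : ℕ) : ℝ) - ((a * m : ℕ) : ℝ) := by
      calc θ / 4 * ((2 ^ s : ℕ) : ℝ) ≤ θ / 4 * (2 * X) := mul_le_mul_of_nonneg_left hX'r (by positivity)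
        _ ≤ _ := by linarith
    rcases hX₁ (2 ^ s) (by omega) (L n).1 (L n).2 hsys (a * m) (b * m) (by omega) hwin2 with h | h
    · left
      refine hconv.trans (h.trans ?_)
      rw [Nat.cast_le]
      apply card_le_card
      intro p hp
      unfold PF at hp ⊢
      rw [mem_filter] at hp ⊢
      exact ⟨GoodF_mono hs1 ha2 hb1 _ _ hp.1, hp.2⟩
    · right
      obtain ⟨q, hq, hq2⟩ := hT3 i h18 s hi1 hi2 n (hKn.trans hK1) a b haa hbb h
      refine ⟨q, ⟨i, hq⟩, ?_⟩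
      unfold Gd at hq2
      rw [mem_filter] at hq2
      have h6 := hq2.2.2.2
      have hq0 : (0 : ℝ) < q := by exact_mod_cast hq2.2.1.1.pos
      calc c * cD / 2 * (((B : ℝ) - A) * VF (L n).1 X / q) = (c * cD / 2 * (((B : ℝ) - A) * VF (L n).1 X)) / q := by ring
        _ ≤ (c * ((((b * m : ℕ) : ℝ) - ((a * m : ℕ) : ℝ)) * VF (L n).1 (2 ^ s))) / q :=
            div_le_div_of_nonneg_right hconv hq0.le
        _ = c * ((((b * m : ℕ) : ℝ) - ((a * m : ℕ) : ℝ)) * VF (L n).1 (2 ^ s) / q) := by ring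
        _ ≤ ((RF t (2 ^ s) (a * m) (b * m) (L n).1 (L n).2 q).card : ℝ) := h6
        _ ≤ ((RF t X A B (L n).1 (L n).2 q).card : ℝ) := by
            rw [Nat.cast_le]
            apply card_le_card
            intro p hp
            unfold RF at hp ⊢
            rw [mem_filter] at hp ⊢
            exact ⟨GoodF_mono hs1 ha2 hb1 _ _ hp.1, hp.2⟩

end Pool.Agent.Q253.Thin
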