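import Pool.Agent.Q253.Thin.PowGap

/-!
# The sieve product of a tuple has the order `1 / log ^ k X`
-/

set_option autoImplicit false

namespace Pool.Agent.Q253.Thin

open Finset Filter
open Pool.Agent.Y843.HS (Pr VV Pr_mem Pr_prime VV_split Sv)
open Pool.Agent.Y843.HG (V1 V1_bounds)
open Pool.Agent.Y840.CT

theorem dT_log (H : ℕ → Finset ℕ) (k q0 : ℕ) (hk : 1 ≤ k) (hkq : k ≤ q0)
    (hloc : ∀ q : ℕ, q.Prime → (Tz H q).card < q)
    (hcard : ∀ q : ℕ, q.Prime → q0 < q → (Tz H q).card = k) :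
    ∃ c : ℝ, 0 < c ∧ ∀ X : ℕ, 2 ≤ X → c / Real.log X ^ k ≤ dT H X ∧ dT H X ≤ c⁻¹ / Real.log X ^ k := by
  classical
  have hlt : ∀ q : ℕ, ∀ c ∈ Tz H q, c < q := by
    intro q c hc
    unfold Tz at hc
    rw [mem_filter, mem_range] at hc
    exact hc.1
  have hfp : ∀ q : ℕ, q.Prime → 0 < 1 - ((Tz H q).card : ℝ) / q := by
    intro q hq
    have h0 : (0 : ℝ) < q := by exact_mod_cast hq.pos
    rw [sub_pos, div_lt_one h0]
    exact_mod_cast hloc q hq
  have hf1 : ∀ q : ℕ, 1 - ((Tz H q).card : ℝ) / q ≤ 1 := by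
    intro q
    have : (0 : ℝ) ≤ ((Tz H q).card : ℝ) / q := by positivity
    linarith
  -- lower bound
  obtain ⟨c1, hc1, hlow⟩ := VZ_low k hk
  set Z : ℕ → Finset ℕ := fun q => if q0 < q then Tz H q else ∅ with hZ
  have hZs : SysZ k Z := by
    refine ⟨fun p hp => ?_, fun p hp => ?_, fun p hp c hc => ?_⟩
    · rw [hZ]
      simp only
      split_ifs with h
      · exact (hcard p hp h).le
      · simp
    · rw [hZ]
      simp only
      split_ifs with h
      · exact hloc p hp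
      · rw [card_empty]; exact hp.pos
    · rw [hZ] at hc
      simp only at hc
      split_ifs at hc with h
      · exact hlt p c hc
      · simp at hc
  set A : ℝ := ∏ p ∈ Pr 0 q0, (1 - ((Tz H p).card : ℝ) / p) with hA
  have hA0 : 0 < A := prod_pos fun p hp => hfp p (Pr_prime hp)
  have hl : ∀ X : ℕ, A * VV Z 0 X ≤ VV (Tz H) 0 X := by
    intro X
    have h1 : VV (Tz H) 0 X = (∏ p ∈ (Pr 0 X).filter (fun p => p ≤ q0), (1 - ((Tz H p).card : ℝ) / p)) *
        ∏ p ∈ (Pr 0 X).filter (fun p => ¬ p ≤ q0), (1 - ((Tz H p).card : ℝ) / p) := by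
      rw [prod_filter_mul_prod_filter_not]
      rfl
    have h2 : VV Z 0 X = (∏ p ∈ (Pr 0 X).filter (fun p => p ≤ q0), (1 - ((Z p).card : ℝ) / p)) *
        ∏ p ∈ (Pr 0 X).filter (fun p => ¬ p ≤ q0), (1 - ((Z p).card : ℝ) / p) := by
      rw [prod_filter_mul_prod_filter_not]
      rfl
    have h3 : ∏ p ∈ (Pr 0 X).filter (fun p => p ≤ q0), (1 - ((Z p).card : ℝ) / p) = 1 := by
      apply prod_eq_one
      intro p hp
      rw [mem_filter] at hp
      rw [hZ]
      simp only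
      rw [if_neg (by omega)]
      simp
    have h4 : ∏ p ∈ (Pr 0 X).filter (fun p => ¬ p ≤ q0), (1 - ((Z p).card : ℝ) / p) =
        ∏ p ∈ (Pr 0 X).filter (fun p => ¬ p ≤ q0), (1 - ((Tz H p).card : ℝ) / p) := by
      apply prod_congr rfl
      intro p hp
      rw [mem_filter] at hp
      rw [hZ]
      simp only
      rw [if_pos (by omega)]
    have h5 : A ≤ ∏ p ∈ (Pr 0 X).filter (fun p => p ≤ q0), (1 - ((Tz H p).card : ℝ) / p) := by
      have hs : (Pr 0 X).filter (fun p => p ≤ q0) ⊆ Pr 0 q0 := by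
        intro p hp
        rw [mem_filter, Pr_mem] at hp
        exact Pr_mem.2 ⟨⟨hp.1.1.1, hp.2⟩, hp.1.2⟩
      rw [hA, ← prod_sdiff hs]
      apply mul_le_of_le_one_left
      · exact prod_nonneg fun p hp => (hfp p (Pr_prime (mem_filter.1 hp).1)).le
      · exact prod_le_one (fun p hp => (hfp p (Pr_prime (mem_sdiff.1 hp).1)).le) (fun p _ => hf1 p)
    rw [h1, h2, h3, h4, one_mul]
    exact mul_le_mul_of_nonneg_right h5 (prod_nonneg fun p hp => (hfp p (Pr_prime (mem_filter.1 hp).1)).le)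
  -- upper bound
  obtain ⟨c2, C2, hc2, hC2, hV1⟩ := V1_bounds
  have hu : ∀ X : ℕ, VV (Tz H) 0 X ≤ (2 ^ k) ^ q0 * V1 X ^ k := by
    intro X
    set g : ℕ → ℝ := fun p => if p ≤ q0 then 2 ^ k else 1 with hg
    have h1 : ∀ p ∈ Pr 0 X, 1 - ((Tz H p).card : ℝ) / p ≤ g p * (1 - 1 / (p : ℝ)) ^ k := by
      intro p hp
      have hpp := Pr_prime hp
      have h2 : (2 : ℝ) ≤ p := by exact_mod_cast hpp.two_le
      have h3 : (1 / 2 : ℝ) ≤ 1 - 1 / (p : ℝ) := (Pool.Agent.Y843.HG.fac1 hpp).1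
      rw [hg]
      simp only
      split_ifs with h
      · rw [← mul_pow]
        refine (hf1 p).trans ?_
        exact one_le_pow₀ (by linarith)
      · rw [one_mul, hcard p hpp (by omega)]
        have h4 := one_add_mul_le_pow (a := -(1 / (p : ℝ))) (by
          have : 1 / (p : ℝ) ≤ 1 / 2 := by
            rw [div_le_div_iff₀ (by linarith) (by norm_num)]
            linarith
          linarith) k
        calc (1 : ℝ) - (k : ℝ) / p = 1 + (k : ℝ) * -(1 / (p : ℝ)) := by ring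
          _ ≤ _ := h4
          _ = _ := by ring
    have h5 : VV (Tz H) 0 X ≤ ∏ p ∈ Pr 0 X, g p * (1 - 1 / (p : ℝ)) ^ k :=
      Finset.prod_le_prod (fun p hp => (hfp p (Pr_prime hp)).le) h1
    refine h5.trans ?_
    rw [prod_mul_distrib, prod_pow]
    have h6 : ∏ p ∈ Pr 0 X, g p ≤ (2 ^ k) ^ q0 := by
      have h7 : ∏ p ∈ Pr 0 X, g p = ∏ p ∈ (Pr 0 X).filter (fun p => p ≤ q0), (2 : ℝ) ^ k := by
        rw [prod_filter]
      rw [h7, prod_const]
      apply pow_le_pow_right₀ (one_le_pow₀ (by norm_num))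
      have h8 : (Pr 0 X).filter (fun p => p ≤ q0) ⊆ Icc 1 q0 := by
        intro p hp
        rw [mem_filter, Pr_mem] at hp
        rw [mem_Icc]
        omega
      exact (card_le_card h8).trans (by rw [Nat.card_Icc]; omega)
    exact mul_le_mul_of_nonneg_right h6 (pow_nonneg (Pool.Agent.Y843.HG.V1_pos X).le _)
  set cU : ℝ := (2 ^ k) ^ q0 * C2 ^ k with hcU
  have hcU0 : 0 < cU := by positivity
  refine ⟨min (A * c1) cU⁻¹, by positivity, ?_⟩
  intro X hX
  have hlX : 0 < Real.log X := Real.log_pos (by exact_mod_cast (by omega : 1 < X))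
  rw [← dT_eq]
  constructor
  · refine le_trans ?_ (hl X)
    have h1 := hlow X hX Z hZs
    calc min (A * c1) cU⁻¹ / Real.log X ^ k ≤ A * c1 / Real.log X ^ k :=
          div_le_div_of_nonneg_right (min_le_left _ _) (by positivity)
      _ = A * (c1 / Real.log X ^ k) := by ring
      _ ≤ _ := mul_le_mul_of_nonneg_left h1 hA0.le
  · refine (hu X).trans ?_
    have h1 : V1 X ^ k ≤ C2 ^ k / Real.log X ^ k := by
      rw [← div_pow]
      exact pow_le_pow_left₀ (Pool.Agent.Y843.HG.V1_pos X).le (hV1 X hX).2 _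
    calc (2 ^ k) ^ q0 * V1 X ^ k ≤ (2 ^ k) ^ q0 * (C2 ^ k / Real.log X ^ k) :=
          mul_le_mul_of_nonneg_left h1 (by positivity)
      _ = cU / Real.log X ^ k := by rw [hcU]; ring
      _ ≤ _ := by
          apply div_le_div_of_nonneg_right _ (by positivity)
          rw [le_inv_comm₀ hcU0 (by positivity)]
          exact min_le_right _ _

end Pool.Agent.Q253.Thin
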