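import Pool.Agent.Q253.Thin.PowSample
import Pool.Agent.Q253.Thin.LogDens

/-!
# Tuples between consecutive powers, with the orders `n ^ (e - 1) / log ^ k n`
-/

set_option autoImplicit false

namespace Pool.Agent.Q253.Thin

open Finset Filter
open Pool.Agent.Y840.CT

theorem LP_size {e m n : ℕ} (he : 2 ≤ e) (hn : 2 * m + 4 ≤ n) :
    n ^ (e - 1) ≤ 2 * LP e m n ∧ LP e m n ≤ e * 2 ^ (e - 1) * n ^ (e - 1) := by
  have h1 := pow_gap e n (by omega)
  have h2 : n ≤ n ^ (e - 1) := Nat.le_self_pow (by omega) n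
  unfold LP
  constructor
  · omega
  · have h3 : (n + 1) ^ (e - 1) ≤ (2 * n) ^ (e - 1) := Nat.pow_le_pow_left (by omega) _
    have h4 : (2 * n) ^ (e - 1) = 2 ^ (e - 1) * n ^ (e - 1) := mul_pow _ _ _
    have h5 : e * (n + 1) ^ (e - 1) ≤ e * (2 ^ (e - 1) * n ^ (e - 1)) := by
      rw [← h4]
      exact Nat.mul_le_mul_left _ h3
    have h6 : e * (2 ^ (e - 1) * n ^ (e - 1)) = e * 2 ^ (e - 1) * n ^ (e - 1) := by ring
    omega

theorem LP_log {e m n : ℕ} (he : 2 ≤ e) (hn : m + 4 ≤ n) :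
    Real.log n ≤ Real.log (LP e m n) ∧ Real.log (LP e m n) ≤ 2 * e * Real.log n := by
  have h := LP_bounds (e := e) (m := m) (n := n) he hn
  have hn0 : (0 : ℝ) < n := by exact_mod_cast (by omega : 0 < n)
  constructor
  · exact Real.log_le_log hn0 (by exact_mod_cast h.1)
  · have h1 : ((LP e m n : ℕ) : ℝ) ≤ (n : ℝ) ^ (2 * e) := by exact_mod_cast h.2
    have h2 : (0 : ℝ) < LP e m n := by
      have : 0 < LP e m n := by omega
      exact_mod_cast this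
    have h3 := Real.log_le_log h2 h1
    rw [Real.log_pow] at h3
    push_cast at h3
    linarith

/-- all windows: the number of the almost prime tuples has the order `n ^ (e - 1) / log ^ k n` -/
theorem powLow (H : ℕ → Finset ℕ) (r k q0 e m : ℕ) (hr1 : 1 ≤ r) (hr : ∀ q : ℕ, q.Prime → (H q).card ≤ r) (hk : 1 ≤ k)
    (hkq : k ≤ q0) (he : 2 ≤ e) (hloc : ∀ q : ℕ, q.Prime → (Tz H q).card < q)
    (hcard : ∀ q : ℕ, q.Prime → q0 < q → (Tz H q).card = k) :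
    ∃ t : ℕ, 1 ≤ t ∧ ∀ t' : ℕ, t ≤ t' → ∃ κ : ℝ, 0 < κ ∧ ∃ n₀ : ℕ, ∀ n : ℕ, n₀ ≤ n →
      κ * ((n : ℝ) ^ (e - 1) / Real.log n ^ k) ≤ ((IS t' (LP e m n) (n ^ e) (n ^ e + LP e m n) (Tz H)).card : ℝ) ∧
      ((IS t' (LP e m n) (n ^ e) (n ^ e + LP e m n) (Tz H)).card : ℝ) ≤ κ⁻¹ * ((n : ℝ) ^ (e - 1) / Real.log n ^ k) := by
  classical
  obtain ⟨t, ht, c0, hc0, hlow⟩ := int_lower r hr1
  refine ⟨t, ht, fun t' ht' => ?_⟩
  obtain ⟨Cu, hCu, hup⟩ := int_upper r t' hr1 (ht.trans ht')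
  obtain ⟨X₁, hX₁⟩ := hlow 1 one_pos
  obtain ⟨X₂, hX₂⟩ := hup 1 one_pos
  have hsys := Tz_sys hr hloc
  obtain ⟨c, hc, hd⟩ := dT_log H k q0 hk hkq hloc hcard
  have he0 : (0 : ℝ) < e := by exact_mod_cast (by omega : 0 < e)
  set κ1 : ℝ := c0 * (1 / 2 * (c / (2 * e) ^ k)) with hκ1
  set κ2 : ℝ := Cu * (e * 2 ^ (e - 1) * c⁻¹) with hκ2
  have hκ10 : 0 < κ1 := by positivity
  have hκ20 : 0 < κ2 := by positivity
  refine ⟨min κ1 κ2⁻¹, by positivity, max (max X₁ X₂) (2 * m + 4), ?_⟩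
  intro n hn
  have n1 : X₁ ≤ n := (le_max_left _ _).trans ((le_max_left _ _).trans hn)
  have n2 : X₂ ≤ n := (le_max_right _ _).trans ((le_max_left _ _).trans hn)
  have n3 : 2 * m + 4 ≤ n := (le_max_right _ _).trans hn
  obtain ⟨hL, -⟩ := LP_bounds (e := e) (m := m) (n := n) he (by omega)
  obtain ⟨hs1, hs2⟩ := LP_size (e := e) (m := m) (n := n) he n3
  obtain ⟨hl1, hl2⟩ := LP_log (e := e) (m := m) (n := n) he (by omega)
  obtain ⟨hd1, hd2⟩ := hd (LP e m n) (by omega)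
  have hlen : (((n ^ e + LP e m n : ℕ) : ℝ) - ((n ^ e : ℕ) : ℝ)) = (LP e m n : ℕ) := by
    push_cast
    ring
  have h1 := hX₁ (LP e m n) (n1.trans hL) (Tz H) hsys (n ^ e) (n ^ e + LP e m n) (by rw [hlen]; linarith)
  have h2 := hX₂ (LP e m n) (n2.trans hL) (Tz H) hsys (n ^ e) (n ^ e + LP e m n) (by rw [hlen]; linarith)
  rw [hlen, dT_eq] at h1 h2
  have hn0 : (0 : ℝ) < n := by exact_mod_cast (by omega : 0 < n)
  have hln : 0 < Real.log n := Real.log_pos (by exact_mod_cast (by omega : 1 < n))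
  have hlL : 0 < Real.log (LP e m n) := lt_of_lt_of_le hln hl1
  have hs1' : 1 / 2 * (n : ℝ) ^ (e - 1) ≤ LP e m n := by
    have : ((n : ℝ)) ^ (e - 1) ≤ 2 * LP e m n := by exact_mod_cast hs1
    linarith
  have hs2' : ((LP e m n : ℕ) : ℝ) ≤ e * 2 ^ (e - 1) * (n : ℝ) ^ (e - 1) := by exact_mod_cast hs2
  have hsub : IS t (LP e m n) (n ^ e) (n ^ e + LP e m n) (Tz H) ⊆
      IS t' (LP e m n) (n ^ e) (n ^ e + LP e m n) (Tz H) := by
    intro p hp
    unfold IS at hp ⊢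
    rw [mem_filter] at hp ⊢
    refine ⟨hp.1, fun q hq hqz => hp.2 q hq (hqz.trans ?_)⟩
    apply Real.rpow_le_rpow_of_exponent_le
    · have : 1 ≤ LP e m n := by omega
      exact_mod_cast this
    · have ht1 : (0 : ℝ) < t := by exact_mod_cast ht
      exact one_div_le_one_div_of_le ht1 (by exact_mod_cast ht')
  have h1' := h1.trans (show ((IS t (LP e m n) (n ^ e) (n ^ e + LP e m n) (Tz H)).card : ℝ) ≤
    ((IS t' (LP e m n) (n ^ e) (n ^ e + LP e m n) (Tz H)).card : ℝ) by exact_mod_cast card_le_card hsub)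
  constructor
  · refine le_trans ?_ h1'
    have g1 : c / ((2 * e) ^ k * Real.log n ^ k) ≤ c / Real.log (LP e m n) ^ k := by
      apply div_le_div_of_nonneg_left hc.le (by positivity)
      rw [← mul_pow]
      exact pow_le_pow_left₀ hlL.le hl2 _
    have g2 := g1.trans hd1
    calc min κ1 κ2⁻¹ * ((n : ℝ) ^ (e - 1) / Real.log n ^ k) ≤ κ1 * ((n : ℝ) ^ (e - 1) / Real.log n ^ k) :=
          mul_le_mul_of_nonneg_right (min_le_left _ _) (by positivity)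
      _ = c0 * ((1 / 2 * (n : ℝ) ^ (e - 1)) * (c / ((2 * e) ^ k * Real.log n ^ k))) := by
          rw [hκ1]
          field_simp
      _ ≤ c0 * ((LP e m n : ℕ) * dT H (LP e m n)) := by
          apply mul_le_mul_of_nonneg_left _ hc0.le
          exact mul_le_mul hs1' g2 (by positivity) (by positivity)
  · refine h2.trans ?_
    have g1 : c⁻¹ / Real.log (LP e m n) ^ k ≤ c⁻¹ / Real.log n ^ k := by
      apply div_le_div_of_nonneg_left (by positivity) (by positivity)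
      exact pow_le_pow_left₀ hln.le hl1 _
    have g2 := hd2.trans g1
    calc Cu * (((LP e m n : ℕ) : ℝ) * dT H (LP e m n)) ≤
          Cu * ((e * 2 ^ (e - 1) * (n : ℝ) ^ (e - 1)) * (c⁻¹ / Real.log n ^ k)) := by
          apply mul_le_mul_of_nonneg_left _ hCu.le
          exact mul_le_mul hs2' g2 (dT_nonneg hloc _) (by positivity)
      _ = κ2 * ((n : ℝ) ^ (e - 1) / Real.log n ^ k) := by rw [hκ2]; ring
      _ ≤ _ := by
          apply mul_le_mul_of_nonneg_right _ (by positivity)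
          rw [le_inv_comm₀ hκ20 (by positivity)]
          exact min_le_right _ _

/-- one sparse set of integers for all windows -/
theorem powSampleLog (H : ℕ → Finset ℕ) (k q0 : ℕ) (hk : 1 ≤ k) (hr : ∀ q : ℕ, q.Prime → (H q).card ≤ k)
    (hkq : k ≤ q0) (e m D t : ℕ) (he : 2 ≤ e) (ht : 1 ≤ t) (hloc : ∀ q : ℕ, q.Prime → (Tz H q).card < q)
    (hcard : ∀ q : ℕ, q.Prime → q0 < q → (Tz H q).card = k)
    (ι : Type) (I : ℕ → Finset ι) (R : ℕ → ι → Finset ℕ)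
    (hR : ∀ n, ∀ i ∈ I n, R n i ⊆ IS t (LP e m n) (n ^ e) (n ^ e + LP e m n) (Tz H))
    (hI : ∀ᶠ n : ℕ in atTop, (I n).card ≤ n ^ D) (ω : ℕ → ℝ) (hω0 : ∀ n, 0 ≤ ω n) (hω : Tendsto ω atTop atTop) :
    ∃ S : ℕ → Finset ℕ, (∀ n, S n ⊆ Ioc (n ^ e) (n ^ e + LP e m n)) ∧
      (∀ n, ((S n).card : ℝ) ≤ ω n * Real.log n ^ (k + 1)) ∧
      ∀ ε : ℝ, 0 < ε → ∃ n₀ : ℕ, ∀ n : ℕ, n₀ ≤ n → 0 < (S n).card ∧ ∀ i ∈ I n,
        |((S n ∩ R n i).card : ℝ) - (S n).card * ((R n i).card / LP e m n)| ≤ ε * ((S n).card / Real.log n ^ k) := by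
  obtain ⟨c, hc, hd⟩ := dT_log H k q0 hk hkq hloc hcard
  obtain ⟨S, hS1, hS2, hS3⟩ := powSample k H hk hr e m D t he ht hloc ι I R hR hI ω hω0 hω
  refine ⟨S, hS1, hS2, ?_⟩
  intro ε hε
  obtain ⟨n₀, hn₀⟩ := hS3 (ε * c) (by positivity)
  refine ⟨max n₀ (m + 4), ?_⟩
  intro n hn
  have n1 : n₀ ≤ n := (le_max_left _ _).trans hn
  have n2 : m + 4 ≤ n := (le_max_right _ _).trans hn
  obtain ⟨g1, g2⟩ := hn₀ n n1
  refine ⟨g1, fun i hi => (g2 i hi).trans ?_⟩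
  obtain ⟨hL, -⟩ := LP_bounds (e := e) (m := m) (n := n) he n2
  obtain ⟨hl1, hl2⟩ := LP_log (e := e) (m := m) (n := n) he n2
  obtain ⟨hd1, hd2⟩ := hd (LP e m n) (by omega)
  have hln : 0 < Real.log n := Real.log_pos (by exact_mod_cast (by omega : 1 < n))
  have g3 : c⁻¹ / Real.log (LP e m n) ^ k ≤ c⁻¹ / Real.log n ^ k := by
    apply div_le_div_of_nonneg_left (by positivity) (by positivity)
    exact pow_le_pow_left₀ hln.le hl1 _
  calc ε * c * ((S n).card * dT H (LP e m n)) ≤ ε * c * ((S n).card * (c⁻¹ / Real.log n ^ k)) := by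
        apply mul_le_mul_of_nonneg_left _ (by positivity)
        exact mul_le_mul_of_nonneg_left (hd2.trans g3) (by positivity)
    _ = _ := by field_simp

/-- a positive proportion of the windows contains the expected number of Chen-type tuples -/
theorem posPropLog (H : ℕ → Finset ℕ) (r k q0 h₁ e m : ℕ) (hk : 1 ≤ k) (hkq : k ≤ q0)
    (hr : ∀ q : ℕ, q.Prime → (H q).card ≤ r)
    (hH0 : ∀ q, 0 ∈ H q) (hh : ∀ q, h₁ ∈ H q) (hh0 : h₁ ≠ 0) (he : 2 ≤ e)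
    (hloc : ∀ q : ℕ, q.Prime → (Tz H q).card < q)
    (hcard : ∀ q : ℕ, q.Prime → q0 < q → (Tz H q).card = k) :
    ∃ t : ℕ, 1 ≤ t ∧ ∃ κ : ℝ, 0 < κ ∧ ∃ N₀ : ℕ, ∀ N : ℕ, N₀ ≤ N → ∃ U ⊆ Ico N (2 * N), κ * N ≤ (U.card : ℝ) ∧
      ∀ n ∈ U, κ * ((n : ℝ) ^ (e - 1) / Real.log n ^ k) ≤
        ((Gap e n m ((n : ℝ) ^ (1 / (t : ℝ))) ((n : ℝ) ^ ((e : ℝ) / 9)) H h₁).card : ℝ) := by
  obtain ⟨c, hc, hd⟩ := dT_log H k q0 hk hkq hloc hcard
  obtain ⟨t, ht, κ, hκ, N₀, h⟩ := posProp r H h₁ e m hr hH0 hh hh0 he hloc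
  refine ⟨t, ht, min κ (κ * c), by positivity, max N₀ 2, ?_⟩
  intro N hN
  have n1 : N₀ ≤ N := (le_max_left _ _).trans hN
  have n2 : 2 ≤ N := (le_max_right _ _).trans hN
  obtain ⟨U, hU, hUc, hUn⟩ := h N n1
  refine ⟨U, hU, (mul_le_mul_of_nonneg_right (min_le_left _ _) (by positivity)).trans hUc, ?_⟩
  intro n hn
  have hnN : 2 ≤ n := n2.trans (mem_Ico.1 (hU hn)).1
  have hln : 0 < Real.log n := Real.log_pos (by exact_mod_cast (by omega : 1 < n))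
  refine le_trans ?_ (hUn n hn)
  have h1 := (hd n hnN).1
  calc min κ (κ * c) * ((n : ℝ) ^ (e - 1) / Real.log n ^ k) ≤ κ * c * ((n : ℝ) ^ (e - 1) / Real.log n ^ k) :=
        mul_le_mul_of_nonneg_right (min_le_right _ _) (by positivity)
    _ = κ * ((n : ℝ) ^ (e - 1) * (c / Real.log n ^ k)) := by ring
    _ ≤ _ := by
        apply mul_le_mul_of_nonneg_left _ hκ.le
        exact mul_le_mul_of_nonneg_left h1 (by positivity)

end Pool.Agent.Q253.Thin
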