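import Pool.Agent.Q253.Thin.SparseP
import Pool.Agent.Q253.Thin.Block

/-!
# Tuples between consecutive powers
-/

set_option autoImplicit false

namespace Pool.Agent.Q253.Thin

open Finset Filter
open Pool.Agent.Y840.CT
open Pool.Agent.Y843.HS (Pr VV Pr_mem Pr_prime VV_split Sv)

/-- the classes `a` modulo `q` with `q ∣ a + h` for an `h ∈ H q` -/
def Tz (H : ℕ → Finset ℕ) (q : ℕ) : Finset ℕ := (range q).filter (fun a => ∃ h ∈ H q, q ∣ a + h)

theorem Tz_card (H : ℕ → Finset ℕ) {q : ℕ} (hq : 0 < q) : (Tz H q).card ≤ (H q).card := by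
  classical
  have h1 : Tz H q ⊆ (H q).image (fun h => (q - h % q) % q) := by
    intro a ha
    unfold Tz at ha
    rw [mem_filter, mem_range] at ha
    obtain ⟨haq, h, hh, hd⟩ := ha
    rw [mem_image]
    refine ⟨h, hh, ?_⟩
    have h2 : (a + h % q) % q = 0 := by
      rw [Nat.add_mod_mod]
      exact Nat.mod_eq_zero_of_dvd hd
    have h3 := Nat.mod_lt h hq
    rcases Nat.lt_or_ge (a + h % q) q with h4 | h4
    · rw [Nat.mod_eq_of_lt h4] at h2
      have h5 : h % q = 0 := by omega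
      have h6 : a = 0 := by omega
      rw [h5, h6, Nat.sub_zero, Nat.mod_self]
    · have h5 : (a + h % q) % q = a + h % q - q := by
        rw [Nat.mod_eq_sub_mod h4, Nat.mod_eq_of_lt (by omega)]
      have h6 : a + h % q = q := by omega
      have h7 : q - h % q = a := by omega
      rw [h7, Nat.mod_eq_of_lt haq]
  exact (card_le_card h1).trans card_image_le

theorem Tz_sys {r : ℕ} {H : ℕ → Finset ℕ} (hr : ∀ q : ℕ, q.Prime → (H q).card ≤ r)
    (h : ∀ q : ℕ, q.Prime → (Tz H q).card < q) : SysZ r (Tz H) where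
  card p hp := (Tz_card H hp.pos).trans (hr p hp)
  loc p hp := h p hp
  lt p hp c hc := by
    unfold Tz at hc
    rw [mem_filter, mem_range] at hc
    exact hc.1

theorem mem_Tz (H : ℕ → Finset ℕ) {q : ℕ} (hq : 0 < q) (n : ℕ) : n % q ∈ Tz H q ↔ ∃ h ∈ H q, q ∣ n + h := by
  unfold Tz
  rw [mem_filter, mem_range]
  have e : ∀ h : ℕ, q ∣ n % q + h ↔ q ∣ n + h := by
    intro h
    rw [Nat.dvd_iff_mod_eq_zero, Nat.dvd_iff_mod_eq_zero, Nat.mod_add_mod]
  constructor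
  · rintro ⟨_, h, hh, hd⟩
    exact ⟨h, hh, (e h).1 hd⟩
  · rintro ⟨h, hh, hd⟩
    exact ⟨Nat.mod_lt _ hq, h, hh, (e h).2 hd⟩

/-- `∏ (1 - |Tz| / q)` over the primes `q ≤ X` -/
noncomputable def dT (H : ℕ → Finset ℕ) (X : ℕ) : ℝ :=
  ∏ q ∈ (Icc 1 X).filter Nat.Prime, (1 - ((Tz H q).card : ℝ) / q)

theorem dT_eq (H : ℕ → Finset ℕ) (X : ℕ) : VV (Tz H) 0 X = dT H X := by
  unfold VV dT
  apply prod_congr _ (fun _ _ => rfl)
  ext p
  rw [Pr_mem, mem_filter, mem_Icc]
  constructor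
  · rintro ⟨h1, h2⟩
    exact ⟨⟨by omega, h1.2⟩, h2⟩
  · rintro ⟨h1, h2⟩
    exact ⟨⟨by omega, h1.2⟩, h2⟩

/-- the shifts of the primes -/
def Fz (H : ℕ → Finset ℕ) : ℕ → Finset ℤ := fun q => ((H q).erase 0).image (fun h : ℕ => -(h : ℤ))

theorem rho_Fz {H : ℕ → Finset ℕ} {q : ℕ} (h0 : 0 ∈ H q) (hq : 0 < q) : rho (Fz H q) q = (Tz H q).card := by
  classical
  rw [rho_card _ hq]
  unfold Tz
  congr 1
  apply filter_congr
  intro a _
  unfold Fz
  constructor
  · rintro ⟨h, hh, hd⟩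
    rcases mem_insert.1 hh with h1 | h1
    · rw [h1, zero_sub, dvd_neg] at hd
      exact ⟨0, h0, by rw [add_zero]; exact_mod_cast hd⟩
    · rw [mem_image] at h1
      obtain ⟨g, hg, rfl⟩ := h1
      refine ⟨g, mem_of_mem_erase hg, ?_⟩
      have e : -(g : ℤ) - a = -((a + g : ℕ) : ℤ) := by
        push_cast
        ring
      rw [e, dvd_neg] at hd
      exact_mod_cast hd
  · rintro ⟨h, hh, hd⟩
    by_cases h1 : h = 0
    · refine ⟨0, mem_insert_self _ _, ?_⟩
      rw [h1, add_zero] at hd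
      rw [zero_sub, dvd_neg]
      exact_mod_cast hd
    · refine ⟨-(h : ℤ), mem_insert_of_mem (mem_image_of_mem _ (mem_erase.2 ⟨h1, hh⟩)), ?_⟩
      have e : -(h : ℤ) - a = -((a + h : ℕ) : ℤ) := by
        push_cast
        ring
      rw [e, dvd_neg]
      exact_mod_cast hd

theorem VF_dT {H : ℕ → Finset ℕ} (h0 : ∀ q, 0 ∈ H q) (X : ℕ) : VF (Fz H) X = dT H X := by
  unfold VF dT
  apply prod_congr rfl
  intro q hq
  rw [rho_Fz (h0 q) (mem_filter.1 hq).2.pos]

/-- the ratio of the products at `X` and `X' ≤ X ^ E` -/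
theorem dT_ratio (r E : ℕ) : ∃ c : ℝ, 0 < c ∧ ∃ R₀ : ℕ, ∀ X X' : ℕ, R₀ ≤ X → X ≤ X' → X' ≤ X ^ E →
    ∀ H : ℕ → Finset ℕ, (∀ q : ℕ, q.Prime → (H q).card ≤ r) → (∀ q : ℕ, q.Prime → (Tz H q).card < q) →
      c * dT H X ≤ dT H X' := by
  obtain ⟨c, hc, R₀, hden⟩ := Pool.Agent.Y79.HS.den r E
  refine ⟨c, hc, R₀, ?_⟩
  intro X X' hX hXX hX2 H hH hloc
  have hSv : Sv r X X' (Tz H) := by
    intro p hp
    have hpp := Pr_prime hp
    refine ⟨(Tz_card H hpp.pos).trans (hH p hpp), fun c hc => ?_⟩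
    unfold Tz at hc
    rw [mem_filter, mem_range] at hc
    exact hc.1
  have h1 := hden X X' hX hX2 (Tz H) hSv
  rw [← dT_eq, ← dT_eq, ← VV_split (Tz H) (Nat.zero_le X) hXX, mul_comm]
  exact mul_le_mul_of_nonneg_left h1 (VZ_nonneg (Tz_sys hH hloc) _ _)

theorem dT_nonneg {H : ℕ → Finset ℕ} (hloc : ∀ q : ℕ, q.Prime → (Tz H q).card < q) (X : ℕ) : 0 ≤ dT H X := by
  apply prod_nonneg
  intro q hq
  have hqp := (mem_filter.1 hq).2
  have hq0 : (0 : ℝ) < q := by exact_mod_cast hqp.pos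
  rw [sub_nonneg, div_le_one hq0]
  exact_mod_cast (hloc q hqp).le

theorem pow_gap (e n : ℕ) (he : 1 ≤ e) : n ^ (e - 1) ≤ (n + 1) ^ e - n ^ e ∧ (n + 1) ^ e - n ^ e ≤ e * (n + 1) ^ (e - 1) := by
  obtain ⟨k, rfl⟩ : ∃ k, e = k + 1 := ⟨e - 1, by omega⟩
  rw [Nat.add_sub_cancel]
  have h1 : n ^ (k + 1) ≤ (n + 1) ^ (k + 1) := Nat.pow_le_pow_left (Nat.le_succ n) _
  constructor
  · have h2 : n ^ k * (n + 1) ≤ (n + 1) ^ (k + 1) := by
      rw [pow_succ]
      exact Nat.mul_le_mul_right _ (Nat.pow_le_pow_left (Nat.le_succ n) _)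
    have h3 : n ^ k * (n + 1) = n ^ (k + 1) + n ^ k := by ring
    omega
  · induction k with
    | zero => simp
    | succ k ih =>
      have ih' := ih (by omega) (Nat.pow_le_pow_left (Nat.le_succ n) _)
      have h2 : (n + 1) ^ (k + 2) = (n + 1) * (n + 1) ^ (k + 1) := by ring
      have h3 : n ^ (k + 2) = n * n ^ (k + 1) := by ring
      have h4 : (n + 1) ^ (k + 1) ≤ n ^ (k + 1) + (k + 1) * (n + 1) ^ k := by omega
      have h5 := Nat.mul_le_mul_left (n + 1) h4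
      have h6 : n ^ (k + 1) ≤ (n + 1) ^ (k + 1) := Nat.pow_le_pow_left (Nat.le_succ n) _
      have h7 : (n + 1) * (n ^ (k + 1) + (k + 1) * (n + 1) ^ k) =
          n * n ^ (k + 1) + n ^ (k + 1) + (k + 1) * (n + 1) ^ (k + 1) := by ring
      have h8 : (k + 1 + 1) * (n + 1) ^ (k + 1) = (n + 1) ^ (k + 1) + (k + 1) * (n + 1) ^ (k + 1) := by ring
      show (n + 1) ^ (k + 2) - n ^ (k + 2) ≤ (k + 1 + 1) * (n + 1) ^ (k + 1)
      omega

open Classical in
/-- the primes `p` between `n ^ e` and `(n + 1) ^ e` (with `p + m` before the end) with `p + h₁` a prime or a product of two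
primes, for which no `p + h`, `h ∈ H q`, is divisible by a prime `q ≤ z` -/
noncomputable def Gap (e n m : ℕ) (z y : ℝ) (H : ℕ → Finset ℕ) (h₁ : ℕ) : Finset ℕ :=
  (Ioo (n ^ e) ((n + 1) ^ e)).filter (fun p => p + m < (n + 1) ^ e ∧ p.Prime ∧ P2 y (p + h₁) ∧
    ∀ q : ℕ, q.Prime → ∀ h ∈ H q, q ∣ p + h → z < q)

/-- **A positive proportion of the intervals between consecutive powers.** -/
theorem posProp (r : ℕ) (H : ℕ → Finset ℕ) (h₁ e m : ℕ) (hr : ∀ q : ℕ, q.Prime → (H q).card ≤ r)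
    (hH0 : ∀ q, 0 ∈ H q) (hh : ∀ q, h₁ ∈ H q) (hh0 : h₁ ≠ 0) (he : 2 ≤ e)
    (hloc : ∀ q : ℕ, q.Prime → (Tz H q).card < q) :
    ∃ t : ℕ, 1 ≤ t ∧ ∃ κ : ℝ, 0 < κ ∧ ∃ N₀ : ℕ, ∀ N : ℕ, N₀ ≤ N → ∃ U ⊆ Ico N (2 * N), κ * N ≤ (U.card : ℝ) ∧
      ∀ n ∈ U, κ * ((n : ℝ) ^ (e - 1) * dT H n) ≤
        ((Gap e n m ((n : ℝ) ^ (1 / (t : ℝ))) ((n : ℝ) ^ ((e : ℝ) / 9)) H h₁).card : ℝ) := by
  classical
  have hr1 : 1 ≤ r := (show 1 ≤ (H 2).card from card_pos.2 ⟨0, hH0 2⟩).trans (hr 2 Nat.prime_two)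
  have hcardF : ∀ q : ℕ, q.Prime → (Fz H q).card ≤ r := by
    intro q hq
    unfold Fz
    exact (card_image_le.trans (card_erase_le)).trans (hr q hq)
  have hlocF : ∀ q : ℕ, q.Prime → rho (Fz H q) q < q := fun q hq => by
    rw [rho_Fz (hH0 q) hq.pos]
    exact hloc q hq
  obtain ⟨t, ht, c0, hc0, hgen, -⟩ := genF r
  obtain ⟨Cu, hCu, hup⟩ := int_upper r t hr1 ht
  obtain ⟨cV, hcV, hVlow⟩ := VF_low r
  obtain ⟨c1, hc1, R₁, hrat⟩ := dT_ratio r (2 * e + 2)
  obtain ⟨X₁, hX₁⟩ := hgen (1 / 2) (by norm_num)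
  obtain ⟨X₂, hX₂⟩ := hup 1 one_pos
  have her : (0 : ℝ) < e := by exact_mod_cast (by omega : 0 < e)
  -- the error
  obtain ⟨X₃, hX₃⟩ : ∃ X₃ : ℕ, ∀ N : ℕ, X₃ ≤ N → 2 * ((N : ℝ) * (m + 1)) ≤
      c0 * (N ^ 2 * (cV / Real.log (((2 * N) ^ e : ℕ) : ℝ) ^ (r + 1))) := by
    have h1 := (isLittleO_log_rpow_rpow_atTop (s := 1) ((r + 1 : ℕ) : ℝ) (by norm_num)).def
      (show (0 : ℝ) < c0 * cV / (2 * (m + 1) * (2 * e) ^ (r + 1)) by positivity)
    obtain ⟨x₂, h₂⟩ := eventually_atTop.1 (tendsto_natCast_atTop_atTop (R := ℝ) |>.eventually h1)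
    refine ⟨max x₂ 2, fun N hN => ?_⟩
    have g2 := h₂ N ((le_max_left _ _).trans hN)
    have g3 : 2 ≤ N := (le_max_right _ _).trans hN
    have hN0 : (0 : ℝ) < N := by exact_mod_cast (by omega : 0 < N)
    have hl : 0 < Real.log N := Real.log_pos (by exact_mod_cast (by omega : 1 < N))
    rw [Real.rpow_natCast, Real.rpow_one, Real.norm_of_nonneg (by positivity), Real.norm_of_nonneg hN0.le] at g2
    have hlog : Real.log (((2 * N) ^ e : ℕ) : ℝ) ≤ 2 * e * Real.log N := by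
      push_cast
      rw [Real.log_pow]
      have h3 : Real.log (2 * N) ≤ 2 * Real.log N := by
        have h4 : (2 : ℝ) * N ≤ (N : ℝ) ^ 2 := by
          have : (2 : ℝ) ≤ N := by exact_mod_cast g3
          nlinarith
        have h5 := Real.log_le_log (by positivity) h4
        rwa [Real.log_pow, Nat.cast_ofNat] at h5
      calc (e : ℝ) * Real.log (2 * N) ≤ e * (2 * Real.log N) := mul_le_mul_of_nonneg_left h3 her.le
        _ = _ := by ring
    have hlog0 : 0 < Real.log (((2 * N) ^ e : ℕ) : ℝ) := Real.log_pos (by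
      have : 1 < (2 * N) ^ e := Nat.one_lt_pow (by omega) (by omega)
      exact_mod_cast this)
    have h6 : Real.log (((2 * N) ^ e : ℕ) : ℝ) ^ (r + 1) ≤ (2 * e) ^ (r + 1) * Real.log N ^ (r + 1) := by
      calc _ ≤ (2 * e * Real.log N) ^ (r + 1) := pow_le_pow_left₀ hlog0.le hlog _
        _ = _ := by rw [mul_pow]
    have h7 : (2 * (e : ℝ)) ^ (r + 1) * Real.log N ^ (r + 1) ≤ c0 * cV / (2 * (m + 1)) * N := by
      have h8 := mul_le_mul_of_nonneg_left g2 (show 0 ≤ (2 * (e : ℝ)) ^ (r + 1) by positivity)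
      refine h8.trans (le_of_eq ?_)
      field_simp
    have h9 := h6.trans h7
    have h10 : 2 * ((N : ℝ) * (m + 1)) * Real.log (((2 * N) ^ e : ℕ) : ℝ) ^ (r + 1) ≤ c0 * (N ^ 2 * cV) := by
      calc 2 * ((N : ℝ) * (m + 1)) * Real.log (((2 * N) ^ e : ℕ) : ℝ) ^ (r + 1) ≤
            2 * ((N : ℝ) * (m + 1)) * (c0 * cV / (2 * (m + 1)) * N) := mul_le_mul_of_nonneg_left h9 (by positivity)
        _ = _ := by field_simp
    have h11 : c0 * (N ^ 2 * (cV / Real.log (((2 * N) ^ e : ℕ) : ℝ) ^ (r + 1))) =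
        c0 * (N ^ 2 * cV) / Real.log (((2 * N) ^ e : ℕ) : ℝ) ^ (r + 1) := by ring
    rw [h11, le_div_iff₀ (by positivity)]
    exact h10
  set C2 : ℝ := Cu * (e * 2 ^ (e - 1)) / c1 with hC2
  have hC20 : 0 < C2 := by positivity
  refine ⟨t, ht, min (c0 / (8 * C2)) (c0 * c1 / (8 * 2 ^ (e - 1))), by positivity,
    max (max (max X₁ X₂) (max X₃ R₁)) (max h₁ 4), ?_⟩
  intro N hN
  have n1 : X₁ ≤ N := (le_trans (le_max_left _ _) (le_trans (le_max_left _ _) (le_max_left _ _))).trans hN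
  have n2 : X₂ ≤ N := (le_trans (le_max_right _ _) (le_trans (le_max_left _ _) (le_max_left _ _))).trans hN
  have n3 : X₃ ≤ N := (le_trans (le_max_left _ _) (le_trans (le_max_right _ _) (le_max_left _ _))).trans hN
  have n4 : R₁ ≤ N := (le_trans (le_max_right _ _) (le_trans (le_max_right _ _) (le_max_left _ _))).trans hN
  have n5 : h₁ ≤ N := (le_trans (le_max_left _ _) (le_max_right _ _)).trans hN
  have n6 : 4 ≤ N := (le_trans (le_max_right _ _) (le_max_right _ _)).trans hN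
  have hN0 : (0 : ℝ) < N := by exact_mod_cast (by omega : 0 < N)
  set X : ℕ := (2 * N) ^ e with hX
  have hNX : N ≤ X := by
    calc N ≤ 2 * N := by omega
      _ ≤ (2 * N) ^ e := Nat.le_self_pow (by omega) _
  have hsys : SysF r X (Fz H) (-(h₁ : ℤ)) := by
    refine ⟨hcardF, by omega, ?_, fun q _ => ?_, hlocF⟩
    · rw [abs_neg, Nat.abs_cast]
      exact_mod_cast n5.trans hNX
    · unfold Fz
      exact mem_image_of_mem _ (mem_erase.2 ⟨hh0, hh q⟩)
  have hNe : N ^ e ≤ X := Nat.pow_le_pow_left (by omega) _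
  have h2e : (2 : ℝ) ≤ 2 ^ e := by
    calc (2 : ℝ) = 2 ^ 1 := by norm_num
      _ ≤ 2 ^ e := pow_le_pow_right₀ (by norm_num) (by omega)
  have hXr : ((X : ℕ) : ℝ) = 2 ^ e * (N : ℝ) ^ e := by
    rw [hX]
    push_cast
    rw [mul_pow]
  have hNep : (0 : ℝ) < (N : ℝ) ^ e := by positivity
  have hAB : (1 / 2 : ℝ) * (X : ℝ) ≤ (X : ℝ) - ((N ^ e : ℕ) : ℝ) := by
    rw [hXr]
    push_cast
    nlinarith
  have hG := hX₁ X (n1.trans hNX) _ _ hsys (N ^ e) X le_rfl hAB
  set G := GoodF t X (N ^ e) X (Fz H) (-(h₁ : ℤ)) with hGdef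
  set V : ℝ := VF (Fz H) X with hV
  have hVd : V = dT H X := VF_dT hH0 X
  have hV0 : 0 ≤ V := by
    rw [hVd]
    exact dT_nonneg hloc X
  -- the parts
  set P : ℕ → Finset ℕ := fun n => G.filter (fun p => n ^ e < p ∧ p + m < (n + 1) ^ e) with hP
  have hmemG : ∀ p ∈ G, N ^ e < p ∧ p ≤ X ∧ p.Prime ∧ P2 ((X : ℝ) ^ (1 / 9 : ℝ)) (p + h₁) ∧
      ∀ q : ℕ, q.Prime → ∀ h ∈ H q, q ∣ p + h → (X : ℝ) ^ (1 / (t : ℝ)) < q := by
    intro p hp
    rw [hGdef] at hp
    unfold GoodF at hp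
    rw [mem_filter, mem_Ioc] at hp
    obtain ⟨⟨p1, p2⟩, pp, pt, ⟨pr1, pr2, pr3⟩, pF⟩ := hp
    have hnat : (-(h₁ : ℤ) - p).natAbs = p + h₁ := by omega
    refine ⟨p1, p2, pp, ?_, ?_⟩
    · rw [P2_iff (by have := pp.two_le; omega)]
      rw [hnat] at pr2
      refine ⟨pr2, fun q hq hd => pr3 q hq ?_⟩
      rw [Int.natCast_dvd, hnat]
      exact hd
    · intro q hq h hh hd
      by_cases h0 : h = 0
      · rw [h0, add_zero] at hd
        rw [(Nat.prime_dvd_prime_iff_eq hq pp).1 hd]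
        exact pt
      · by_contra hcon
        push Not at hcon
        apply pF q hq hcon (-(h : ℤ))
        · unfold Fz
          exact mem_image_of_mem _ (mem_erase.2 ⟨h0, hh⟩)
        · rw [Int.natCast_dvd]
          have : (-(h : ℤ) - p).natAbs = p + h := by omega
          rw [this]
          exact hd
  -- the sum of the parts
  have hcover : G ⊆ ((Ico N (2 * N)).biUnion P) ∪ ((Ico N (2 * N)).biUnion (fun n => Icc ((n + 1) ^ e - m) ((n + 1) ^ e))) := by
    intro p hp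
    obtain ⟨p1, p2, _⟩ := hmemG p hp
    have hex : ∃ n, N ≤ n ∧ n ^ e < p := ⟨N, le_rfl, p1⟩
    set n := Nat.findGreatest (fun n => n ^ e < p) (2 * N) with hn
    have hnspec : n ^ e < p := Nat.findGreatest_spec (P := fun n => n ^ e < p) (show N ≤ 2 * N by omega) p1
    have hNn : N ≤ n := Nat.le_findGreatest (by omega) p1
    have hn2 : n < 2 * N := by
      have h1 : n ≤ 2 * N := Nat.findGreatest_le _
      rcases h1.lt_or_eq with h2 | h2
      · exact h2
      · rw [h2] at hnspec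
        omega
    have hnlast : p ≤ (n + 1) ^ e := by
      by_contra hcon
      push Not at hcon
      have := Nat.le_findGreatest (P := fun n => n ^ e < p) (show n + 1 ≤ 2 * N by omega) hcon
      rw [← hn] at this
      omega
    rw [mem_union, mem_biUnion, mem_biUnion]
    by_cases h3 : p + m < (n + 1) ^ e
    · left
      refine ⟨n, mem_Ico.2 ⟨hNn, hn2⟩, ?_⟩
      rw [hP]
      simp only
      rw [mem_filter]
      exact ⟨hp, hnspec, h3⟩
    · right
      refine ⟨n, mem_Ico.2 ⟨hNn, hn2⟩, ?_⟩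
      rw [mem_Icc]
      omega
  have hsum : (G.card : ℝ) ≤ ∑ n ∈ Ico N (2 * N), ((P n).card : ℝ) + N * (m + 1) := by
    have h1 : G.card ≤ ∑ n ∈ Ico N (2 * N), (P n).card + N * (m + 1) := by
      refine (card_le_card hcover).trans ((card_union_le _ _).trans ?_)
      apply Nat.add_le_add card_biUnion_le
      refine card_biUnion_le.trans ?_
      calc ∑ n ∈ Ico N (2 * N), (Icc ((n + 1) ^ e - m) ((n + 1) ^ e)).card ≤ ∑ _n ∈ Ico N (2 * N), (m + 1) := by
            apply sum_le_sum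
            intro n _
            rw [Nat.card_Icc]
            omega
        _ = N * (m + 1) := by
            rw [sum_const, Nat.card_Ico, smul_eq_mul]
            congr 1
            omega
    exact_mod_cast h1
  -- the upper bound of one part
  have hN1 : N ≤ N ^ (e - 1) := Nat.le_self_pow (by omega) N
  have hpart : ∀ n ∈ Ico N (2 * N), ((P n).card : ℝ) ≤ C2 * ((N : ℝ) ^ (e - 1) * V) := by
    intro n hn
    rw [mem_Ico] at hn
    have hg := pow_gap e n (by omega)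
    have hle : n ^ e ≤ (n + 1) ^ e := Nat.pow_le_pow_left (Nat.le_succ n) _
    have hlen : (((n + 1) ^ e : ℕ) : ℝ) - ((n ^ e : ℕ) : ℝ) = (((n + 1) ^ e - n ^ e : ℕ) : ℝ) := by
      rw [Nat.cast_sub hle]
    have h1 : (1 : ℝ) * ((N ^ (e - 1) : ℕ) : ℝ) ≤ (((n + 1) ^ e : ℕ) : ℝ) - ((n ^ e : ℕ) : ℝ) := by
      rw [one_mul, hlen]
      exact_mod_cast (Nat.pow_le_pow_left hn.1 _).trans hg.1
    have h2 := hX₂ (N ^ (e - 1)) (n2.trans hN1) (Tz H) (Tz_sys hr hloc) (n ^ e) ((n + 1) ^ e) h1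
    have h3 : P n ⊆ IS t (N ^ (e - 1)) (n ^ e) ((n + 1) ^ e) (Tz H) := by
      intro p hp
      rw [hP] at hp
      simp only at hp
      rw [mem_filter] at hp
      obtain ⟨hpG, hp1, hp2⟩ := hp
      obtain ⟨_, _, _, _, hfree⟩ := hmemG p hpG
      unfold IS
      rw [mem_filter, mem_Ioc]
      refine ⟨⟨hp1, by omega⟩, ?_⟩
      intro q hq hqz hmem
      obtain ⟨h, hh, hd⟩ := (mem_Tz H hq.pos p).1 hmem
      have h4 := hfree q hq h hh hd
      have h5 : ((N ^ (e - 1) : ℕ) : ℝ) ^ (1 / (t : ℝ)) ≤ (X : ℝ) ^ (1 / (t : ℝ)) := by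
        apply Real.rpow_le_rpow (by positivity) _ (by positivity)
        have h6 : N ^ (e - 1) ≤ X := by
          calc N ^ (e - 1) ≤ N ^ e := Nat.pow_le_pow_right (by omega) (by omega)
            _ ≤ X := hNe
        exact_mod_cast h6
      linarith
    have h4 : ((P n).card : ℝ) ≤ Cu * (((((n + 1) ^ e : ℕ) : ℝ) - ((n ^ e : ℕ) : ℝ)) * VV (Tz H) 0 (N ^ (e - 1))) := by
      refine le_trans ?_ h2
      exact_mod_cast card_le_card h3
    have h5 : c1 * dT H (N ^ (e - 1)) ≤ V := by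
      rw [hVd]
      apply hrat (N ^ (e - 1)) X (n4.trans hN1) _ _ H hr hloc
      · calc N ^ (e - 1) ≤ N ^ e := Nat.pow_le_pow_right (by omega) (by omega)
          _ ≤ X := hNe
      · calc X = (2 * N) ^ e := hX
          _ ≤ (N ^ 2) ^ e := Nat.pow_le_pow_left (by nlinarith) _
          _ = N ^ (2 * e) := by rw [← pow_mul]
          _ ≤ N ^ ((e - 1) * (2 * e + 2)) := by
              apply Nat.pow_le_pow_right (by omega)
              have : 1 ≤ e - 1 := by omega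
              nlinarith
          _ = (N ^ (e - 1)) ^ (2 * e + 2) := by rw [pow_mul]
    have h6 : ((((n + 1) ^ e : ℕ) : ℝ) - ((n ^ e : ℕ) : ℝ)) ≤ e * 2 ^ (e - 1) * (N : ℝ) ^ (e - 1) := by
      rw [hlen]
      have h7 : (n + 1) ^ e - n ^ e ≤ e * (2 * N) ^ (e - 1) :=
        hg.2.trans (Nat.mul_le_mul_left e (Nat.pow_le_pow_left (by omega) _))
      have h8 : (((n + 1) ^ e - n ^ e : ℕ) : ℝ) ≤ ((e * (2 * N) ^ (e - 1) : ℕ) : ℝ) := by exact_mod_cast h7
      refine h8.trans (le_of_eq ?_)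
      push_cast
      rw [mul_pow]
      ring
    have h7 : dT H (N ^ (e - 1)) ≤ V / c1 := by
      rw [le_div_iff₀ hc1]
      linarith
    have h8 := dT_nonneg hloc (N ^ (e - 1))
    rw [dT_eq] at h4
    refine h4.trans ?_
    calc Cu * (((((n + 1) ^ e : ℕ) : ℝ) - ((n ^ e : ℕ) : ℝ)) * dT H (N ^ (e - 1))) ≤
          Cu * ((e * 2 ^ (e - 1) * (N : ℝ) ^ (e - 1)) * (V / c1)) :=
          mul_le_mul_of_nonneg_left (mul_le_mul h6 h7 h8 (by positivity)) hCu.le
      _ = C2 * ((N : ℝ) ^ (e - 1) * V) := by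
          rw [hC2]
          field_simp
  -- the lower bound of the sum
  have hNN : (N : ℝ) ^ e = N * (N : ℝ) ^ (e - 1) := by
    rw [← pow_succ']
    congr 1
    omega
  have hlow : c0 / 2 * (N * ((N : ℝ) ^ (e - 1) * V)) ≤ ∑ n ∈ Ico N (2 * N), ((P n).card : ℝ) := by
    have h1 : (N : ℝ) ^ e ≤ (X : ℝ) - ((N ^ e : ℕ) : ℝ) := by
      rw [hXr]
      push_cast
      nlinarith
    have h2 : c0 * (N : ℝ) ^ e * V ≤ (G.card : ℝ) := by
      refine le_trans ?_ hG
      exact mul_le_mul_of_nonneg_right (mul_le_mul_of_nonneg_left h1 hc0.le) hV0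
    have h3 := hX₃ N n3
    have h4 := hVlow X (by omega) (Fz H) hcardF hlocF
    rw [← hV] at h4
    have h5 : c0 * ((N : ℝ) ^ 2 * (cV / Real.log ((X : ℕ) : ℝ) ^ (r + 1))) ≤ c0 * ((N : ℝ) ^ e * V) := by
      apply mul_le_mul_of_nonneg_left _ hc0.le
      have h6 : (N : ℝ) ^ 2 ≤ (N : ℝ) ^ e := pow_le_pow_right₀ (by exact_mod_cast (by omega : 1 ≤ N)) he
      have h7 : 0 < Real.log ((X : ℕ) : ℝ) := Real.log_pos (by
        have : 1 < X := by omega
        exact_mod_cast this)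
      exact mul_le_mul h6 h4 (by positivity) (by positivity)
    have h6 : 2 * ((N : ℝ) * (m + 1)) ≤ c0 * (N : ℝ) ^ e * V := by
      refine h3.trans (h5.trans (le_of_eq ?_))
      ring
    have h7 : c0 / 2 * (N * ((N : ℝ) ^ (e - 1) * V)) = c0 * (N : ℝ) ^ e * V / 2 := by
      rw [hNN]
      ring
    rw [h7]
    linarith
  -- the good `n`
  set W : ℝ := (N : ℝ) ^ (e - 1) * V with hW
  have hW0 : 0 < W := by
    have h4 := hVlow X (by omega) (Fz H) hcardF hlocF
    rw [← hV] at h4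
    have h7 : 0 < Real.log ((X : ℕ) : ℝ) := Real.log_pos (by
      have : 1 < X := by omega
      exact_mod_cast this)
    have : 0 < V := lt_of_lt_of_le (by positivity) h4
    positivity
  refine ⟨(Ico N (2 * N)).filter (fun n => c0 / 4 * W ≤ ((P n).card : ℝ)), filter_subset _ _, ?_, ?_⟩
  · set U := (Ico N (2 * N)).filter (fun n => c0 / 4 * W ≤ ((P n).card : ℝ)) with hU
    have h1 : ∑ n ∈ Ico N (2 * N), ((P n).card : ℝ) ≤ U.card * (C2 * W) + N * (c0 / 4 * W) := by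
      rw [← sum_filter_add_sum_filter_not (Ico N (2 * N)) (fun n => c0 / 4 * W ≤ ((P n).card : ℝ))]
      apply add_le_add
      · rw [← nsmul_eq_mul, ← sum_const]
        exact sum_le_sum fun n hn => hpart n (mem_filter.1 hn).1
      · calc ∑ n ∈ (Ico N (2 * N)).filter (fun n => ¬ c0 / 4 * W ≤ ((P n).card : ℝ)), ((P n).card : ℝ) ≤
              ∑ _n ∈ (Ico N (2 * N)).filter (fun n => ¬ c0 / 4 * W ≤ ((P n).card : ℝ)), (c0 / 4 * W) := by
              apply sum_le_sum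
              intro n hn
              rw [mem_filter] at hn
              exact (not_le.1 hn.2).le
          _ ≤ N * (c0 / 4 * W) := by
              rw [sum_const, nsmul_eq_mul]
              apply mul_le_mul_of_nonneg_right _ (by positivity)
              have h2 := card_filter_le (Ico N (2 * N)) (fun n => ¬ c0 / 4 * W ≤ ((P n).card : ℝ))
              rw [Nat.card_Ico] at h2
              exact_mod_cast (by omega : ((Ico N (2 * N)).filter (fun n => ¬ c0 / 4 * W ≤ ((P n).card : ℝ))).card ≤ N)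
    have h2 : c0 / 4 * (N * W) ≤ U.card * (C2 * W) := by
      have := hlow.trans h1
      linarith
    have h3 : c0 / 4 * N ≤ U.card * C2 := by
      have h4 : c0 / 4 * N * W ≤ U.card * C2 * W := by
        calc _ = c0 / 4 * (N * W) := by ring
          _ ≤ _ := h2
          _ = _ := by ring
      exact le_of_mul_le_mul_right h4 hW0
    have h4 : c0 / (8 * C2) * N ≤ U.card := by
      rw [div_mul_eq_mul_div, div_le_iff₀ (by positivity)]
      nlinarith [hc0, hN0]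
    refine le_trans (mul_le_mul_of_nonneg_right (min_le_left _ _) hN0.le) h4
  · intro n hn
    rw [mem_filter, mem_Ico] at hn
    obtain ⟨⟨hn1, hn2⟩, hn3⟩ := hn
    have hnr : (0 : ℝ) < n := by exact_mod_cast (by omega : 0 < n)
    have hsub : P n ⊆ Gap e n m ((n : ℝ) ^ (1 / (t : ℝ))) ((n : ℝ) ^ ((e : ℝ) / 9)) H h₁ := by
      intro p hp
      rw [hP] at hp
      simp only at hp
      rw [mem_filter] at hp
      obtain ⟨hpG, hp1, hp2⟩ := hp
      obtain ⟨_, _, pp, hP2, hfree⟩ := hmemG p hpG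
      unfold Gap
      rw [mem_filter, mem_Ioo]
      have hnX : (n : ℝ) ^ (e : ℝ) ≤ (X : ℝ) := by
        rw [Real.rpow_natCast]
        have : n ^ e ≤ X := Nat.pow_le_pow_left hn2.le _
        exact_mod_cast this
      refine ⟨⟨hp1, by omega⟩, hp2, pp, ⟨hP2.1, fun q hq hd => ?_⟩, fun q hq h hh hd => ?_⟩
      · refine lt_of_le_of_lt ?_ (hP2.2 q hq hd)
        have := Real.rpow_le_rpow (by positivity) hnX (show (0 : ℝ) ≤ 1 / 9 by norm_num)
        rw [← Real.rpow_mul hnr.le] at this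
        refine le_trans (le_of_eq ?_) this
        congr 1
        ring
      · refine lt_of_le_of_lt ?_ (hfree q hq h hh hd)
        apply Real.rpow_le_rpow hnr.le _ (by positivity)
        have : n ≤ X := hn2.le.trans (Nat.le_self_pow (by omega) _)
        exact_mod_cast this
    have h1 : ((P n).card : ℝ) ≤ (Gap e n m ((n : ℝ) ^ (1 / (t : ℝ))) ((n : ℝ) ^ ((e : ℝ) / 9)) H h₁).card := by
      exact_mod_cast card_le_card hsub
    refine le_trans ?_ (hn3.trans h1)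
    -- compare `n` and `N`
    have h2 : (n : ℝ) ^ (e - 1) ≤ 2 ^ (e - 1) * (N : ℝ) ^ (e - 1) := by
      rw [← mul_pow]
      apply pow_le_pow_left₀ hnr.le
      exact_mod_cast hn2.le
    have h3 : c1 * dT H n ≤ V := by
      rw [hVd]
      apply hrat n X (n4.trans hn1) (hn2.le.trans (Nat.le_self_pow (by omega) _)) _ H hr hloc
      calc X = (2 * N) ^ e := hX
        _ ≤ (n ^ 2) ^ e := Nat.pow_le_pow_left (by nlinarith) _
        _ = n ^ (2 * e) := by rw [← pow_mul]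
        _ ≤ n ^ (2 * e + 2) := Nat.pow_le_pow_right (by omega) (by omega)
    have h4 := dT_nonneg hloc n
    have h5 : dT H n ≤ V / c1 := by
      rw [le_div_iff₀ hc1]
      linarith
    calc min (c0 / (8 * C2)) (c0 * c1 / (8 * 2 ^ (e - 1))) * ((n : ℝ) ^ (e - 1) * dT H n) ≤
          c0 * c1 / (8 * 2 ^ (e - 1)) * ((2 ^ (e - 1) * (N : ℝ) ^ (e - 1)) * (V / c1)) :=
          mul_le_mul (min_le_right _ _) (mul_le_mul h2 h5 h4 (by positivity)) (by positivity) (by positivity)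
      _ = c0 / 8 * W := by
          rw [hW]
          field_simp
      _ ≤ c0 / 4 * W := by
          apply mul_le_mul_of_nonneg_right _ hW0.le
          linarith

end Pool.Agent.Q253.Thin
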