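import Pool.Agent.Q253.Thin.PowGap

/-!
# Sparse sets between consecutive powers
-/

set_option autoImplicit false

namespace Pool.Agent.Q253.Thin

open Finset Filter
open Pool.Agent.Y840.CT
open Pool.Agent.Y843.HS (Pr VV Pr_mem Pr_prime VV_split Sv)

/-- one window with an arbitrary start -/
theorem blockZA (r t : ℕ) (hr : 1 ≤ r) (ht : 1 ≤ t) (D : ℕ) (ε : ℝ) (hε : 0 < ε) :
    ∃ K : ℝ, 0 < K ∧ ∃ X₀ : ℕ, ∀ X : ℕ, X₀ ≤ X → ∀ A : ℕ,
    ∀ (ι : Type) (I : Finset ι) (Z : ι → ℕ → Finset ℕ) (R : ι → Finset ℕ),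
    (∀ i ∈ I, SysZ r (Z i)) → (∀ i ∈ I, R i ⊆ IS t X A (A + X) (Z i)) → I.card ≤ X ^ D →
    ∀ m : ℝ, K * Real.log X ^ (r + 1) ≤ m → m ≤ X →
    ∃ S ⊆ Ioc A (A + X), (S.card : ℝ) ≤ 2 * m ∧ m ≤ 2 * (S.card : ℝ) ∧ ∀ i ∈ I,
      |((S ∩ R i).card : ℝ) - S.card * ((R i).card / X)| ≤ ε * (S.card * VV (Z i) 0 X) := by
  classical
  obtain ⟨Cu, hCu, hup⟩ := int_upper r t hr ht
  obtain ⟨X₂, hX₂⟩ := hup 1 one_pos
  set ε1 : ℝ := min (1 / 2) (ε / (2 * (1 + Cu))) with hε1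
  have hε10 : 0 < ε1 := by positivity
  have e2 : ε1 ≤ 1 / 2 := min_le_left _ _
  have e3 : ε1 * (2 * (1 + Cu)) ≤ ε := by
    have := min_le_right (1 / 2) (ε / (2 * (1 + Cu)))
    rwa [← hε1, le_div_iff₀ (by positivity)] at this
  obtain ⟨K, hK, X₃, h3⟩ := familyZ r t hr ht D ε1 hε10
  refine ⟨K, hK, max (max X₂ X₃) 3, ?_⟩
  intro X hX A ι I Z R hsys hsub hIc m hm hmX
  have x2 : X₂ ≤ X := (le_max_left _ _).trans ((le_max_left _ _).trans hX)
  have x3 : X₃ ≤ X := (le_max_right _ _).trans ((le_max_left _ _).trans hX)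
  have x5 : 3 ≤ X := (le_max_right _ _).trans hX
  have hXr : (3 : ℝ) ≤ X := by exact_mod_cast x5
  have hX0 : (0 : ℝ) < X := by linarith
  have hl : 0 < Real.log X := Real.log_pos (by linarith)
  have hm0 : 0 < m := lt_of_lt_of_le (by positivity) hm
  obtain ⟨S, hSP, hScard, hSR⟩ := h3 X x3 A ι I Z R hsys hsub hIc m hm hmX
  have hScard' := abs_le.1 hScard
  have hSle : (S.card : ℝ) ≤ 2 * m := by
    have h5 := mul_le_mul_of_nonneg_right e2 hm0.le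
    linarith [hScard'.2]
  have hSge : m ≤ 2 * (S.card : ℝ) := by
    have h5 := mul_le_mul_of_nonneg_right e2 hm0.le
    linarith [hScard'.1]
  refine ⟨S, hSP, hSle, hSge, ?_⟩
  intro i hi
  have hVN0 : 0 ≤ VV (Z i) 0 X := VZ_nonneg (hsys i hi) _ _
  have h5 := hSR i hi
  set w : ℝ := ((R i).card : ℝ) with hw
  have hw0 : 0 ≤ w := Nat.cast_nonneg _
  have hwu : w ≤ Cu * (X * VV (Z i) 0 X) := by
    have h7 := hX₂ X x2 (Z i) (hsys i hi) A (A + X) (by push_cast; linarith)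
    have h8 : (((A + X : ℕ) : ℝ) - A) = X := by
      push_cast
      ring
    rw [h8] at h7
    refine le_trans ?_ h7
    rw [hw]
    exact_mod_cast card_le_card (hsub _ hi)
  clear_value w
  have h7 : |(S.card : ℝ) * (w / X) - m / X * w| ≤ ε1 * m * (Cu * VV (Z i) 0 X) := by
    have h8 : (S.card : ℝ) * (w / X) - m / X * w = ((S.card : ℝ) - m) * (w / X) := by
      field_simp
    rw [h8, abs_mul, abs_of_nonneg (show 0 ≤ w / X by positivity)]
    apply mul_le_mul hScard _ (by positivity) (by positivity)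
    rw [div_le_iff₀ hX0]
    linarith
  have h8 : |((S ∩ R i).card : ℝ) - S.card * (w / X)| ≤
      ε1 * (m * VV (Z i) 0 X) + ε1 * m * (Cu * VV (Z i) 0 X) := by
    have h9 : ((S ∩ R i).card : ℝ) - S.card * (w / X) =
      (((S ∩ R i).card : ℝ) - m / X * w) - ((S.card : ℝ) * (w / X) - m / X * w) := by ring
    rw [h9]
    refine (abs_sub _ _).trans (add_le_add h5 h7)
  refine h8.trans ?_
  have h9 : ε1 * (m * VV (Z i) 0 X) + ε1 * m * (Cu * VV (Z i) 0 X) = ε1 * (1 + Cu) * (m * VV (Z i) 0 X) := by ring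
  rw [h9]
  have h10 : m * VV (Z i) 0 X ≤ 2 * (S.card : ℝ) * VV (Z i) 0 X := mul_le_mul_of_nonneg_right hSge hVN0
  have h11 := mul_le_mul_of_nonneg_left h10 (show 0 ≤ ε1 * (1 + Cu) by positivity)
  have h12 := mul_le_mul_of_nonneg_right e3 (mul_nonneg (Nat.cast_nonneg S.card) hVN0)
  refine h11.trans (le_trans (le_of_eq ?_) h12)
  ring

/-- the diagonal choice for arbitrary windows and arbitrary sizes -/
theorem diagW (W : ℕ → Finset ℕ) (b : ℕ → ℝ) (hb : ∀ n, 0 ≤ b n) (Good : ℝ → ℕ → Finset ℕ → Prop)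
    (hmono : ∀ ε ε' : ℝ, ε ≤ ε' → ∀ n T, Good ε n T → Good ε' n T)
    (hev : ∀ j : ℕ, ∀ᶠ n : ℕ in atTop, ∃ T : Finset ℕ, T ⊆ W n ∧ (T.card : ℝ) ≤ b n ∧ Good (1 / ((j : ℝ) + 1)) n T) :
    ∃ S : ℕ → Finset ℕ, (∀ n, S n ⊆ W n) ∧ (∀ n, ((S n).card : ℝ) ≤ b n) ∧
      ∀ ε : ℝ, 0 < ε → ∃ n₀ : ℕ, ∀ n : ℕ, n₀ ≤ n → Good ε n (S n) := by
  classical
  have hchoice : ∀ i : ℕ, ∃ T : Finset ℕ, T ⊆ W i ∧ (T.card : ℝ) ≤ b i ∧
      ∀ j : ℕ, j ≤ i → (∃ T' : Finset ℕ, T' ⊆ W i ∧ (T'.card : ℝ) ≤ b i ∧ Good (1 / ((j : ℝ) + 1)) i T') →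
        Good (1 / ((j : ℝ) + 1)) i T := by
    intro i
    set P : ℕ → Prop := fun j => ∃ T' : Finset ℕ, T' ⊆ W i ∧ (T'.card : ℝ) ≤ b i ∧ Good (1 / ((j : ℝ) + 1)) i T' with hP
    by_cases h : ∃ j ≤ i, P j
    · obtain ⟨j, hj, hPj⟩ := h
      have h1 := Nat.findGreatest_spec hj hPj
      obtain ⟨T, hT1, hT2, hT3⟩ := h1
      refine ⟨T, hT1, hT2, fun j' hj' hPj' => hmono _ _ ?_ _ _ hT3⟩
      have h2 : j' ≤ Nat.findGreatest P i := Nat.le_findGreatest hj' hPj'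
      apply one_div_le_one_div_of_le (by positivity)
      have : (j' : ℝ) ≤ (Nat.findGreatest P i : ℕ) := by exact_mod_cast h2
      linarith
    · refine ⟨∅, by simp, ?_, fun j hj hPj => absurd ⟨j, hj, hPj⟩ h⟩
      rw [card_empty, Nat.cast_zero]
      exact hb i
  choose T hT1 hT2 hT3 using hchoice
  refine ⟨T, hT1, hT2, ?_⟩
  intro ε hε
  obtain ⟨j, hj⟩ := exists_nat_one_div_lt hε
  obtain ⟨i₁, hi₁⟩ := eventually_atTop.1 (hev j)
  refine ⟨max i₁ j, ?_⟩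
  intro i hi
  have hi1 : i₁ ≤ i := (le_max_left _ _).trans hi
  have hi2 : j ≤ i := (le_max_right _ _).trans hi
  exact hmono _ _ hj.le _ _ (hT3 i j hi2 (hi₁ i hi1))

/-- the length of the window between `n ^ e` and `(n + 1) ^ e` without the last `m + 1` integers -/
def LP (e m n : ℕ) : ℕ := (n + 1) ^ e - n ^ e - m - 1

theorem LP_bounds {e m n : ℕ} (he : 2 ≤ e) (hn : m + 4 ≤ n) : n ≤ LP e m n ∧ LP e m n ≤ n ^ (2 * e) := by
  unfold LP
  have h1 := pow_gap e n (by omega)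
  have h2 : 2 * n + 1 ≤ (n + 1) ^ e - n ^ e := by
    obtain ⟨k, rfl⟩ : ∃ k, e = k + 2 := ⟨e - 2, by omega⟩
    have h3 : n ^ (k + 2) ≤ n ^ k * n ^ 2 := by rw [pow_add]
    have h4 : (n + 1) ^ (k + 2) = (n + 1) ^ k * (n + 1) ^ 2 := by rw [pow_add]
    have h5 : n ^ k ≤ (n + 1) ^ k := Nat.pow_le_pow_left (Nat.le_succ n) k
    have h6 : 1 ≤ (n + 1) ^ k := Nat.one_le_pow _ _ (by omega)
    have h7 : n ^ k * n ^ 2 ≤ (n + 1) ^ k * n ^ 2 := Nat.mul_le_mul_right _ h5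
    have h8 : (n + 1) ^ k * (n + 1) ^ 2 = (n + 1) ^ k * n ^ 2 + (n + 1) ^ k * (2 * n + 1) := by ring
    have h9 : 1 * (2 * n + 1) ≤ (n + 1) ^ k * (2 * n + 1) := Nat.mul_le_mul_right _ h6
    omega
  constructor
  · omega
  · have h3 : (n + 1) ^ e ≤ n ^ (2 * e) := by
      rw [pow_mul]
      exact Nat.pow_le_pow_left (by nlinarith) _
    omega

/-- **Sparse sets between consecutive powers.** -/
theorem powSample (r : ℕ) (H : ℕ → Finset ℕ) (hr1 : 1 ≤ r) (hr : ∀ q : ℕ, q.Prime → (H q).card ≤ r)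
    (e m D t : ℕ) (he : 2 ≤ e) (ht : 1 ≤ t) (hloc : ∀ q : ℕ, q.Prime → (Tz H q).card < q) (ι : Type) (I : ℕ → Finset ι) (R : ℕ → ι → Finset ℕ)
    (hR : ∀ n, ∀ i ∈ I n, R n i ⊆ IS t (LP e m n) (n ^ e) (n ^ e + LP e m n) (Tz H))
    (hI : ∀ᶠ n : ℕ in atTop, (I n).card ≤ n ^ D) (ω : ℕ → ℝ) (hω0 : ∀ n, 0 ≤ ω n) (hω : Tendsto ω atTop atTop) :
    ∃ S : ℕ → Finset ℕ, (∀ n, S n ⊆ Ioc (n ^ e) (n ^ e + LP e m n)) ∧
      (∀ n, ((S n).card : ℝ) ≤ ω n * Real.log n ^ (r + 1)) ∧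
      ∀ ε : ℝ, 0 < ε → ∃ n₀ : ℕ, ∀ n : ℕ, n₀ ≤ n → 0 < (S n).card ∧ ∀ i ∈ I n,
        |((S n ∩ R n i).card : ℝ) - (S n).card * ((R n i).card / LP e m n)| ≤ ε * ((S n).card * dT H (LP e m n)) := by
  classical
  refine diagW (fun n => Ioc (n ^ e) (n ^ e + LP e m n)) (fun n => ω n * Real.log n ^ (r + 1)) (fun n => by
      have := Real.log_natCast_nonneg n
      have := hω0 n
      positivity)
    (fun ε n T => 0 < T.card ∧ ∀ i ∈ I n,
      |((T ∩ R n i).card : ℝ) - T.card * ((R n i).card / LP e m n)| ≤ ε * (T.card * dT H (LP e m n)))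
    (by
      intro ε ε' hεε n T hT
      refine ⟨hT.1, fun i hi => (hT.2 i hi).trans ?_⟩
      exact mul_le_mul_of_nonneg_right hεε (mul_nonneg (Nat.cast_nonneg _) (dT_nonneg hloc _))) ?_
  intro j
  obtain ⟨K, hK, X₀, hb⟩ := blockZA r t hr1 ht D (1 / ((j : ℝ) + 1)) (by positivity)
  have h1 : ∀ᶠ n : ℕ in atTop, 2 * (K * (2 * e) ^ (r + 1)) ≤ ω n := hω.eventually_ge_atTop _
  have h2 : ∀ᶠ n : ℕ in atTop, K * (2 * e) ^ (r + 1) * Real.log n ^ (r + 1) ≤ n := by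
    have h3 := (isLittleO_log_rpow_rpow_atTop (s := 1) ((r + 1 : ℕ) : ℝ) (by norm_num)).def
      (show (0 : ℝ) < 1 / (K * (2 * e) ^ (r + 1)) by
        have : (0 : ℝ) < e := by exact_mod_cast (by omega : 0 < e)
        positivity)
    filter_upwards [(tendsto_natCast_atTop_atTop (R := ℝ)).eventually h3] with n g
    have her : (0 : ℝ) < e := by exact_mod_cast (by omega : 0 < e)
    have hl : 0 ≤ Real.log (n : ℝ) := Real.log_natCast_nonneg n
    rw [Real.rpow_natCast, Real.rpow_one, Real.norm_of_nonneg (by positivity), Real.norm_of_nonneg (Nat.cast_nonneg n),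
      div_mul_eq_mul_div, one_mul, le_div_iff₀ (by positivity)] at g
    linarith
  filter_upwards [h1, h2, hI, eventually_ge_atTop (max X₀ (m + 4))] with n g1 g2 g3 g4
  have n1 : X₀ ≤ n := (le_max_left _ _).trans g4
  have n2 : m + 4 ≤ n := (le_max_right _ _).trans g4
  obtain ⟨l1, l2⟩ := LP_bounds he n2
  have hn0 : (0 : ℝ) < n := by exact_mod_cast (by omega : 0 < n)
  have hL0 : 1 < LP e m n := by omega
  have hlL : Real.log (LP e m n : ℕ) ≤ 2 * e * Real.log n := by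
    have h3 : ((LP e m n : ℕ) : ℝ) ≤ (n : ℝ) ^ (2 * e) := by exact_mod_cast l2
    have h4 := Real.log_le_log (by exact_mod_cast (by omega : 0 < LP e m n)) h3
    rw [Real.log_pow] at h4
    push_cast at h4
    exact h4
  have hlL0 : 0 < Real.log (LP e m n : ℕ) := Real.log_pos (by exact_mod_cast hL0)
  have h5 : K * Real.log (LP e m n : ℕ) ^ (r + 1) ≤ K * (2 * e) ^ (r + 1) * Real.log n ^ (r + 1) := by
    calc K * Real.log (LP e m n : ℕ) ^ (r + 1) ≤ K * (2 * e * Real.log n) ^ (r + 1) :=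
          mul_le_mul_of_nonneg_left (pow_le_pow_left₀ hlL0.le hlL _) hK.le
      _ = _ := by
          rw [mul_pow]
          ring
  obtain ⟨S, hS1, hS2, hS3, hS4⟩ := hb (LP e m n) (n1.trans l1) (n ^ e) ι (I n) (fun _ => Tz H) (R n)
    (fun _ _ => Tz_sys hr hloc) (hR n) (g3.trans (Nat.pow_le_pow_left l1 D)) _ h5
    (g2.trans (by exact_mod_cast l1))
  have hm0 : 0 < K * (2 * (e : ℝ)) ^ (r + 1) * Real.log n ^ (r + 1) :=
    lt_of_lt_of_le (by positivity) h5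
  refine ⟨S, hS1, ?_, ?_, ?_⟩
  · refine hS2.trans ?_
    have hl : 0 ≤ Real.log (n : ℝ) := Real.log_natCast_nonneg n
    have := mul_le_mul_of_nonneg_right g1 (show 0 ≤ Real.log (n : ℝ) ^ (r + 1) by positivity)
    linarith
  · have : (0 : ℝ) < S.card := by linarith
    exact_mod_cast this
  · intro i hi
    have := hS4 i hi
    rw [dT_eq] at this
    exact this

end Pool.Agent.Q253.Thin
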