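import Pool.Agent.Q253.Thin.Dich
import Pool.Agent.Y843.HS.Top

/-!
# Progressions of good prime factors `q`
-/

set_option autoImplicit false

namespace Pool.Agent.Q253.Thin

open Finset Filter
open Pool.Agent.Y843.HS (Pr VV Pr_mem Pr_prime VV_split Sv)
open Pool.Agent.Y843.HG (Z0 V1 V1_bounds)
open Pool.Agent.Y840.CT

/-- Green and Tao, narrow: dense sets of primes in `(y, 2 y]` contain progressions with small differences -/
theorem primes_ap (k : ℕ) (δ : ℝ) (hδ : 0 < δ) : ∃ D y₀ : ℕ, ∀ y : ℕ, y₀ ≤ y → ∀ S : Finset ℕ,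
    (∀ p ∈ S, p.Prime ∧ y < p ∧ p ≤ 2 * y) → δ * (y / Real.log y) ≤ S.card →
    ∃ a d : ℕ, 1 ≤ d ∧ (d : ℝ) ≤ Real.log y ^ D ∧ ∀ j < k, a + j * d ∈ S := by
  obtain ⟨c, C, hc, hC, hV⟩ := V1_bounds
  obtain ⟨D, y₀, h⟩ := Pool.Agent.Y843.HS.fin k 1 (1 / 2) (δ / (4 * C)) (by norm_num) (by positivity)
  refine ⟨D, max y₀ 16, ?_⟩
  intro y hy S hS hcard
  have hy1 : y₀ ≤ y := (le_max_left _ _).trans hy
  have hy2 : 16 ≤ y := (le_max_right _ _).trans hy
  have hyr : (16 : ℝ) ≤ y := by exact_mod_cast hy2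
  have hy0 : (0 : ℝ) < y := by linarith
  have hl : 0 < Real.log y := Real.log_pos (by linarith)
  have hsq : (4 : ℝ) ≤ (y : ℝ) ^ (1 / 2 : ℝ) := by
    have h1 := Real.rpow_le_rpow (by norm_num) hyr (show (0 : ℝ) ≤ 1 / 2 by norm_num)
    have h2 : (16 : ℝ) ^ (1 / 2 : ℝ) = 4 := by
      rw [show (16 : ℝ) = 4 ^ (2 : ℝ) by norm_num, ← Real.rpow_mul (by norm_num)]
      norm_num
    rwa [h2] at h1
  have hsqy : (y : ℝ) ^ (1 / 2 : ℝ) ≤ y := by
    have := Real.rpow_le_rpow_of_exponent_le (show (1 : ℝ) ≤ y by linarith) (show (1 / 2 : ℝ) ≤ 1 by norm_num)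
    rwa [Real.rpow_one] at this
  obtain ⟨a, d, h1, h2, h3⟩ := h y y hy1 (fun _ => {0}) (by
    intro p hp _
    refine ⟨by simp, by simpa using hp.one_lt, ?_⟩
    intro c hc
    rw [mem_singleton] at hc
    rw [hc]
    exact hp.pos) S (by
    intro p hp
    obtain ⟨_, h2, h3⟩ := hS p hp
    rw [mem_Ioc]
    omega) (by
    intro n hn p hp hpy hmem
    rw [mem_singleton] at hmem
    obtain ⟨hnp, h2, h3⟩ := hS n hn
    have h4 := (Nat.prime_dvd_prime_iff_eq hp hnp).1 (Nat.dvd_of_mod_eq_zero hmem)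
    have h5 : (y : ℝ) < n := by exact_mod_cast h2
    rw [h4] at hpy
    linarith) (by
    refine le_trans ?_ hcard
    set z := ⌊(y : ℝ) ^ (1 / 2 : ℝ)⌋₊ with hz
    have hz4 : 4 ≤ z := Nat.le_floor (by exact_mod_cast hsq)
    have hVV : VV (fun _ => {0}) 0 z = V1 z := by
      unfold VV V1
      apply prod_congr rfl
      intro p _
      simp
    rw [hVV]
    have hlz : Real.log y / 4 ≤ Real.log z := by
      have h1 : (y : ℝ) ^ (1 / 2 : ℝ) < z + 1 := Nat.lt_floor_add_one _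
      have h2 : (4 : ℝ) ≤ z := by exact_mod_cast hz4
      have h3 : (y : ℝ) ^ (1 / 2 : ℝ) ≤ (z : ℝ) ^ 2 := by nlinarith
      have h4 := Real.log_le_log (by positivity) h3
      rw [Real.log_rpow hy0, Real.log_pow, Nat.cast_ofNat] at h4
      linarith
    have h1 : V1 z ≤ C / (Real.log y / 4) :=
      (hV z (by omega)).2.trans (div_le_div_of_nonneg_left hC.le (by positivity) hlz)
    calc δ / (4 * C) * y * V1 z ≤ δ / (4 * C) * y * (C / (Real.log y / 4)) :=
          mul_le_mul_of_nonneg_left h1 (by positivity)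
      _ = δ * (y / Real.log y) := by
          field_simp)
  exact ⟨a, d, h1, h2, h3⟩

/-- a set of primes in `(R, y]` with large sum of the reciprocals has many elements in a dyadic block -/
theorem block (ρ : ℝ) (G : Finset ℕ) (L : ℕ) (hG : ∀ q ∈ G, q.Prime ∧ 4 < q ∧ Nat.log 2 q < L)
    (hρ : 0 < ρ) (h : ρ ≤ ∑ q ∈ G, (1 : ℝ) / q) : ∃ i : ℕ, i < L ∧
      ρ * (2 ^ i / L) ≤ ((G.filter (fun q => 2 ^ i < q ∧ q ≤ 2 * 2 ^ i)).card : ℝ) ∧
      (G.filter (fun q => 2 ^ i < q ∧ q ≤ 2 * 2 ^ i)).Nonempty := by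
  classical
  have hL : 0 < L := by
    by_contra hcon
    have h0 : L = 0 := by omega
    have hGe : G = ∅ := by
      rw [eq_empty_iff_forall_notMem]
      intro q hq
      have := (hG q hq).2.2
      omega
    rw [hGe, sum_empty] at h
    linarith
  have hLr : (0 : ℝ) < L := by exact_mod_cast hL
  by_contra hcon
  push Not at hcon
  have hlt : ∀ i, i < L → ((G.filter (fun q => 2 ^ i < q ∧ q ≤ 2 * 2 ^ i)).card : ℝ) < ρ * (2 ^ i / L) := by
    intro i hi
    by_contra h1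
    push Not at h1
    have h2 := hcon i hi h1
    rw [h2, card_empty, Nat.cast_zero] at h1
    have : 0 < ρ * (2 ^ i / (L : ℝ)) := by positivity
    linarith
  have hfib : ∑ q ∈ G, (1 : ℝ) / q = ∑ i ∈ range L, ∑ q ∈ G.filter (fun q => Nat.log 2 q = i), (1 : ℝ) / q := by
    rw [sum_fiberwise_of_maps_to]
    intro q hq
    exact mem_range.2 (hG q hq).2.2
  have hbd : ∀ i ∈ range L, ∑ q ∈ G.filter (fun q => Nat.log 2 q = i), (1 : ℝ) / q < ρ / L := by
    intro i hi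
    rw [mem_range] at hi
    have hsub : G.filter (fun q => Nat.log 2 q = i) ⊆ G.filter (fun q => 2 ^ i < q ∧ q ≤ 2 * 2 ^ i) := by
      intro q hq
      rw [mem_filter] at hq ⊢
      obtain ⟨hp, h4, _⟩ := hG q hq.1
      have h5 : 2 ^ i ≤ q := by
        rw [← hq.2]
        exact Nat.pow_log_le_self 2 (by omega)
      have h6 : q < 2 ^ (i + 1) := by
        rw [← hq.2]
        exact Nat.lt_pow_succ_log_self (by norm_num) q
      refine ⟨hq.1, ?_, by rw [pow_succ] at h6; omega⟩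
      rcases h5.eq_or_lt with h7 | h7
      · exfalso
        rw [← h7] at hp h4
        have h8 : 2 ∣ 2 ^ i := dvd_pow_self 2 (by
          rintro rfl
          norm_num at h4)
        have h9 := (Nat.prime_dvd_prime_iff_eq Nat.prime_two hp).1 h8
        omega
      · exact h7
    calc ∑ q ∈ G.filter (fun q => Nat.log 2 q = i), (1 : ℝ) / q
        ≤ ∑ q ∈ G.filter (fun q => 2 ^ i < q ∧ q ≤ 2 * 2 ^ i), (1 : ℝ) / q :=
          sum_le_sum_of_subset_of_nonneg hsub fun _ _ _ => by positivity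
      _ ≤ ∑ _q ∈ G.filter (fun q => 2 ^ i < q ∧ q ≤ 2 * 2 ^ i), (1 : ℝ) / 2 ^ i := by
          apply sum_le_sum
          intro q hq
          rw [mem_filter] at hq
          apply one_div_le_one_div_of_le (by positivity)
          exact_mod_cast hq.2.1.le
      _ = ((G.filter (fun q => 2 ^ i < q ∧ q ≤ 2 * 2 ^ i)).card : ℝ) / 2 ^ i := by
          rw [sum_const, nsmul_eq_mul]
          ring
      _ < ρ * (2 ^ i / L) / 2 ^ i := div_lt_div_of_pos_right (hlt i hi) (by positivity)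
      _ = ρ / L := by
          field_simp
  have hsum : ∑ i ∈ range L, ∑ q ∈ G.filter (fun q => Nat.log 2 q = i), (1 : ℝ) / q < ∑ _i ∈ range L, ρ / L :=
    sum_lt_sum_of_nonempty (nonempty_range_iff.2 (by omega)) hbd
  rw [sum_const, card_range, nsmul_eq_mul, mul_div_cancel₀ _ hLr.ne'] at hsum
  linarith

theorem ev_qap (y₀ : ℕ) : ∀ᶠ X : ℕ in atTop, 2 * (y₀ : ℝ) + 8 ≤ (X : ℝ) ^ (1 / 9 : ℝ) :=
  ((tendsto_rpow_atTop (show (0 : ℝ) < 1 / 9 by norm_num)).comp tendsto_natCast_atTop_atTop).eventually_ge_atTop _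

/-- **The dichotomy with progressions of prime factors.** -/
theorem dich_ap (r : ℕ) : ∃ t : ℕ, 1 ≤ t ∧ ∃ c : ℝ, 0 < c ∧ ∀ (k : ℕ) (θ : ℝ), 0 < θ → ∃ D X₀ : ℕ, ∀ X : ℕ, X₀ ≤ X →
    ∀ F : ℕ → Finset ℤ, ∀ h0 : ℤ, SysF r X F h0 → ∀ A B : ℕ, B ≤ X → θ * X ≤ (B : ℝ) - A →
      c * (((B : ℝ) - A) * VF F X) ≤ ((PF t X A B F h0).card : ℝ) ∨
      ∃ q d : ℕ, 1 ≤ d ∧ (d : ℝ) ≤ Real.log X ^ D ∧ ∀ j < k, q + j * d ∈ Gd c t X A B F h0 := by
  classical
  obtain ⟨t, ht, c, hc, ρ, hρ, hd⟩ := dich r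
  refine ⟨t, ht, c, hc, ?_⟩
  intro k θ hθ
  obtain ⟨X₁, h1⟩ := hd θ hθ
  obtain ⟨D, y₀, h2⟩ := primes_ap k (ρ / 72) (by positivity)
  obtain ⟨X₂, h3⟩ := eventually_atTop.1 (ev_qap y₀)
  refine ⟨D, max (max X₁ X₂) 16, ?_⟩
  intro X hX F h0 S A B hBX hAB
  have hX1 : X₁ ≤ X := (le_max_left _ _).trans ((le_max_left _ _).trans hX)
  have hX2 : X₂ ≤ X := (le_max_right _ _).trans ((le_max_left _ _).trans hX)
  have hX3 : 16 ≤ X := (le_max_right _ _).trans hX
  rcases h1 X hX1 F h0 S A B hBX hAB with h | h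
  · left
    exact h
  right
  have hXr : (16 : ℝ) ≤ X := by exact_mod_cast hX3
  have hX0 : (0 : ℝ) < X := by linarith
  have hlX : 0 < Real.log X := Real.log_pos (by linarith)
  have h9 := h3 X hX2
  have hGd : ∀ q ∈ Gd c t X A B F h0, q.Prime ∧ (X : ℝ) ^ (1 / 9 : ℝ) < q ∧ q ^ 2 ≤ 2 * X := by
    intro q hq
    unfold Gd at hq
    rw [mem_filter] at hq
    exact ⟨hq.2.1.1, hq.2.1.2, hq.2.2.1⟩
  obtain ⟨i, hi, hcard, hne⟩ := block ρ (Gd c t X A B F h0) (Nat.log 2 X + 1) (by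
    intro q hq
    obtain ⟨a1, a2, a3⟩ := hGd q hq
    refine ⟨a1, ?_, ?_⟩
    · have : (4 : ℝ) < q := by
        have : (0 : ℝ) ≤ y₀ := Nat.cast_nonneg _
        linarith
      exact_mod_cast this
    · have h5 : q ≤ X := by
        by_contra hcon
        push Not at hcon
        nlinarith
      have := Nat.log_mono_right (b := 2) h5
      omega) hρ h
  obtain ⟨q0, hq0⟩ := hne
  rw [mem_filter] at hq0
  obtain ⟨b1, b2, b3⟩ := hGd q0 hq0.1
  set y := 2 ^ i with hy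
  have hyX : (X : ℝ) ^ (1 / 9 : ℝ) ≤ 2 * y := by
    have : (q0 : ℝ) ≤ 2 * y := by exact_mod_cast hq0.2.2
    linarith
  have hyy : y₀ + 4 ≤ y := by
    have : 2 * ((y₀ : ℝ) + 4) ≤ 2 * y := by linarith
    have h5 : ((y₀ : ℝ) + 4) ≤ y := by linarith
    exact_mod_cast h5
  have hyr : (4 : ℝ) ≤ y := by exact_mod_cast (by omega : 4 ≤ y)
  have hly : 0 < Real.log y := Real.log_pos (by linarith)
  have hyX2 : y ≤ X := by
    by_contra hcon
    push Not at hcon
    have : y < q0 := hq0.2.1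
    nlinarith
  have hlyX : Real.log X ≤ 18 * Real.log y := by
    have h5 := Real.log_le_log (by positivity) hyX
    rw [Real.log_rpow hX0] at h5
    have h6 : Real.log (2 * (y : ℝ)) ≤ 2 * Real.log y := by
      have : 2 * (y : ℝ) ≤ (y : ℝ) ^ 2 := by nlinarith
      have h7 := Real.log_le_log (by positivity) this
      rwa [Real.log_pow, Nat.cast_ofNat] at h7
    linarith
  have hL : ((Nat.log 2 X + 1 : ℕ) : ℝ) ≤ 4 * Real.log X := by
    have h5 : ((2 : ℝ)) ^ (Nat.log 2 X) ≤ X := by exact_mod_cast Nat.pow_log_le_self 2 (show X ≠ 0 by omega)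
    have h6 := Real.log_le_log (by positivity) h5
    rw [Real.log_pow] at h6
    have h7 := Real.log_two_gt_d9
    have h8 : (1 : ℝ) ≤ Real.log X := by
      have h10 : Real.log 16 ≤ Real.log X := Real.log_le_log (by norm_num) hXr
      have h11 : Real.log 16 = 4 * Real.log 2 := by
        rw [show (16 : ℝ) = 2 ^ 4 by norm_num, Real.log_pow]
        norm_num
      linarith
    push_cast
    have h12 : (0 : ℝ) ≤ (Nat.log 2 X : ℝ) := Nat.cast_nonneg _
    nlinarith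
  obtain ⟨a, d, c1, c2, c3⟩ := h2 y (by omega) ((Gd c t X A B F h0).filter (fun q => y < q ∧ q ≤ 2 * y)) (by
    intro p hp
    rw [mem_filter] at hp
    exact ⟨(hGd p hp.1).1, hp.2⟩) (by
    refine le_trans ?_ hcard
    have hL0 : (0 : ℝ) < ((Nat.log 2 X + 1 : ℕ) : ℝ) := by positivity
    have h5 : ((Nat.log 2 X + 1 : ℕ) : ℝ) ≤ 72 * Real.log y := by linarith
    have h6 : (y : ℝ) / (72 * Real.log y) ≤ y / ((Nat.log 2 X + 1 : ℕ) : ℝ) :=
      div_le_div_of_nonneg_left (by linarith) hL0 h5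
    have h7 := mul_le_mul_of_nonneg_left h6 hρ.le
    have h8 : ρ / 72 * ((y : ℝ) / Real.log y) = ρ * (y / (72 * Real.log y)) := by
      field_simp
    rw [h8]
    refine h7.trans (le_of_eq ?_)
    rw [hy]
    push_cast
    rfl)
  refine ⟨a, d, c1, c2.trans ?_, fun j hj => (mem_filter.1 (c3 j hj)).1⟩
  apply pow_le_pow_left₀ hly.le
  exact Real.log_le_log (by linarith) (by exact_mod_cast hyX2)

end Pool.Agent.Q253.Thin
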