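import Pool.Agent.Q253.Thin.QAP

/-!
# Sets of primes with a large sum of reciprocals between `N ^ (1/e)` and `N` contain progressions
-/

set_option autoImplicit false

namespace Pool.Agent.Q253.Thin

open Finset Filter

/-- A set of primes in `(N ^ (1/e), N]` whose sum of reciprocals is at least `ρ` contains a progression of length `k`
with difference at most `log ^ D N`. -/
theorem recip_ap (k e : ℕ) (he : 1 ≤ e) (ρ : ℝ) (hρ : 0 < ρ) : ∃ D N₀ : ℕ, ∀ N : ℕ, N₀ ≤ N → ∀ G : Finset ℕ,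
    (∀ q ∈ G, q.Prime ∧ (N : ℝ) ^ (1 / (e : ℝ)) < q ∧ q ≤ N) → ρ ≤ ∑ q ∈ G, (1 : ℝ) / q →
    ∃ q d : ℕ, 1 ≤ d ∧ (d : ℝ) ≤ Real.log N ^ D ∧ ∀ j < k, q + j * d ∈ G := by
  classical
  have her : (1 : ℝ) ≤ e := by exact_mod_cast he
  obtain ⟨D, y₀, h2⟩ := primes_ap k (ρ / (8 * e)) (by positivity)
  obtain ⟨X₂, h3⟩ := eventually_atTop.1 (((tendsto_rpow_atTop (show (0 : ℝ) < 1 / (e : ℝ) by positivity)).comp
    tendsto_natCast_atTop_atTop).eventually_ge_atTop (2 * (y₀ : ℝ) + 8))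
  refine ⟨D, max X₂ 16, ?_⟩
  intro N hN G hG h
  have n2 : X₂ ≤ N := (le_max_left _ _).trans hN
  have n4 : 16 ≤ N := (le_max_right _ _).trans hN
  have hNr : (16 : ℝ) ≤ N := by exact_mod_cast n4
  have hN0 : (0 : ℝ) < N := by linarith
  have hlN : 0 < Real.log N := Real.log_pos (by linarith)
  have h9 : 2 * (y₀ : ℝ) + 8 ≤ (N : ℝ) ^ (1 / (e : ℝ)) := h3 N n2
  obtain ⟨i, hi, hcard, hne⟩ := block ρ G (Nat.log 2 N + 1) (by
    intro q hq
    obtain ⟨a1, a2, a3⟩ := hG q hq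
    refine ⟨a1, ?_, ?_⟩
    · have : (4 : ℝ) < q := by
        have : (0 : ℝ) ≤ y₀ := Nat.cast_nonneg _
        linarith
      exact_mod_cast this
    · have := Nat.log_mono_right (b := 2) a3
      omega) hρ h
  obtain ⟨q0, hq0⟩ := hne
  rw [mem_filter] at hq0
  obtain ⟨b1, b2, b3⟩ := hG q0 hq0.1
  set y := 2 ^ i with hy
  have hyX : (N : ℝ) ^ (1 / (e : ℝ)) ≤ 2 * y := by
    have : (q0 : ℝ) ≤ 2 * y := by exact_mod_cast hq0.2.2
    linarith
  have hyy : y₀ + 4 ≤ y := by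
    have h5 : ((y₀ : ℝ) + 4) ≤ y := by linarith
    exact_mod_cast h5
  have hyr : (4 : ℝ) ≤ y := by exact_mod_cast (by omega : 4 ≤ y)
  have hly : 0 < Real.log y := Real.log_pos (by linarith)
  have hyX2 : y ≤ N := by
    have : y < q0 := hq0.2.1
    omega
  have hlyX : Real.log N ≤ 2 * e * Real.log y := by
    have h5 := Real.log_le_log (by positivity) hyX
    rw [Real.log_rpow hN0] at h5
    have h6 : Real.log (2 * (y : ℝ)) ≤ 2 * Real.log y := by
      have : 2 * (y : ℝ) ≤ (y : ℝ) ^ 2 := by nlinarith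
      have h7 := Real.log_le_log (by positivity) this
      rwa [Real.log_pow, Nat.cast_ofNat] at h7
    have h8 := mul_le_mul_of_nonneg_left (h5.trans h6) (show (0 : ℝ) ≤ e by linarith)
    calc Real.log N = e * (1 / e * Real.log N) := by field_simp
      _ ≤ e * (2 * Real.log y) := h8
      _ = _ := by ring
  have hL : ((Nat.log 2 N + 1 : ℕ) : ℝ) ≤ 4 * Real.log N := by
    have h5 : ((2 : ℝ)) ^ (Nat.log 2 N) ≤ N := by exact_mod_cast Nat.pow_log_le_self 2 (show N ≠ 0 by omega)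
    have h6 := Real.log_le_log (by positivity) h5
    rw [Real.log_pow] at h6
    have h7 := Real.log_two_gt_d9
    have h8 : (1 : ℝ) ≤ Real.log N := by
      have h10 : Real.log 16 ≤ Real.log N := Real.log_le_log (by norm_num) hNr
      have h11 : Real.log 16 = 4 * Real.log 2 := by
        rw [show (16 : ℝ) = 2 ^ 4 by norm_num, Real.log_pow]
        norm_num
      linarith
    push_cast
    have h12 : (0 : ℝ) ≤ (Nat.log 2 N : ℝ) := Nat.cast_nonneg _
    nlinarith
  obtain ⟨a, d, e1, e2, e3⟩ := h2 y (by omega) (G.filter (fun q => y < q ∧ q ≤ 2 * y)) (by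
    intro p hp
    rw [mem_filter] at hp
    exact ⟨(hG p hp.1).1, hp.2⟩) (by
    refine le_trans ?_ hcard
    have hL0 : (0 : ℝ) < ((Nat.log 2 N + 1 : ℕ) : ℝ) := by positivity
    have h5 : ((Nat.log 2 N + 1 : ℕ) : ℝ) ≤ 8 * e * Real.log y := by
      calc _ ≤ 4 * Real.log N := hL
        _ ≤ 4 * (2 * e * Real.log y) := by linarith
        _ = _ := by ring
    have h6 : (y : ℝ) / (8 * e * Real.log y) ≤ y / ((Nat.log 2 N + 1 : ℕ) : ℝ) :=
      div_le_div_of_nonneg_left (by linarith) hL0 h5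
    have h7 := mul_le_mul_of_nonneg_left h6 hρ.le
    have h8 : ρ / (8 * e) * ((y : ℝ) / Real.log y) = ρ * (y / (8 * e * Real.log y)) := by
      field_simp
    rw [h8]
    refine h7.trans (le_of_eq ?_)
    rw [hy]
    push_cast
    rfl)
  refine ⟨a, d, e1, e2.trans ?_, fun j hj => (mem_filter.1 (e3 j hj)).1⟩
  apply pow_le_pow_left₀ hly.le
  exact Real.log_le_log (by linarith) (by exact_mod_cast hyX2)

end Pool.Agent.Q253.Thin
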