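import Pool.Agent.Q253.Thin.FamilyS

/-!
# Sparse sets of primes good for all systems of a large family, one block and all blocks
-/

set_option autoImplicit false

namespace Pool.Agent.Q253.Thin

open Finset Filter
open Pool.Agent.Y840.CT

/-- the number of the classes as the number of the forbidden representatives -/
theorem rho_card (F : Finset ℤ) {q : ℕ} (hq : 0 < q) :
    rho F q = ((range q).filter (fun a : ℕ => ∃ h ∈ insert (0 : ℤ) F, (q : ℤ) ∣ h - a)).card := by
  classical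
  unfold rho
  have hqz : (0 : ℤ) < q := by exact_mod_cast hq
  have h1 : (insert (0 : ℤ) F).image (fun h : ℤ => h % q) =
      ((range q).filter (fun a : ℕ => ∃ h ∈ insert (0 : ℤ) F, (q : ℤ) ∣ h - a)).image (fun a : ℕ => (a : ℤ)) := by
    ext z
    rw [mem_image, mem_image]
    constructor
    · rintro ⟨h, hh, rfl⟩
      have h2 := Int.emod_nonneg h hqz.ne'
      have h3 := Int.emod_lt_of_pos h hqz
      refine ⟨(h % q).toNat, ?_, Int.toNat_of_nonneg h2⟩
      rw [mem_filter, mem_range]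
      refine ⟨by omega, h, hh, ?_⟩
      rw [Int.toNat_of_nonneg h2]
      exact Int.dvd_self_sub_emod
    · rintro ⟨a, ha, rfl⟩
      rw [mem_filter, mem_range] at ha
      obtain ⟨haq, h, hh, hd⟩ := ha
      refine ⟨h, hh, ?_⟩
      rw [(Int.emod_emod_of_dvd h (dvd_refl (q : ℤ))).symm]
      have h4 : h % q = (a : ℤ) % q := Int.ModEq.symm ((Int.modEq_iff_dvd).2 hd)
      rw [Int.emod_emod_of_dvd h (dvd_refl (q : ℤ)), h4]
      exact Int.emod_eq_of_lt (by positivity) (by exact_mod_cast haq)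
  rw [h1]
  exact card_image_of_injective _ Nat.cast_injective

/-- **One block.** -/
theorem sparseBlock (r : ℕ) : ∃ t : ℕ, 1 ≤ t ∧ ∀ D E : ℕ, 2 ≤ E → ∃ c C : ℝ, 0 < c ∧ 0 < C ∧ ∃ x₀ : ℕ, ∀ x : ℕ, x₀ ≤ x →
    ∀ (ι : Type) (I : Finset ι) (F : ι → ℕ → Finset ℤ) (h0 : ι → ℤ), (∀ i ∈ I, SysF r (E * x) (F i) (h0 i)) →
    I.card ≤ x ^ D → ∃ S ⊆ PI x (2 * x), (S.card : ℝ) ≤ C * Real.log x ^ (r + 1) ∧
      ∀ i ∈ I, c * Real.log x ≤ ((S ∩ GoodF t (E * x) x (2 * x) (F i) (h0 i)).card : ℝ) := by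
  classical
  obtain ⟨t0, ht0, c0, hc0, hgen, -⟩ := genF r
  refine ⟨t0, ht0, ?_⟩
  intro D E hE
  have hEr : (2 : ℝ) ≤ E := by exact_mod_cast hE
  obtain ⟨cV, hcV, hVlow⟩ := VF_low r
  obtain ⟨X₁, hX₁⟩ := hgen (1 / E) (by positivity)
  obtain ⟨X₃, hX₃⟩ := PI_upper
  obtain ⟨X₄, hX₄⟩ := PI_lower
  set ε : ℝ := min (c0 / 2) 1 with hε
  have hε0 : 0 < ε := by positivity
  have e1 : ε ≤ c0 / 2 := min_le_left _ _
  have e2 : ε ≤ 1 := min_le_right _ _
  obtain ⟨K, hK, X₅, hX₅⟩ := familyS r t0 ht0 D (1 / E) ε (by positivity) hε0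
  obtain ⟨X₆, hX₆⟩ : ∃ X₆ : ℕ, ∀ x : ℕ, X₆ ≤ x → K * 2 ^ (r + 1) * Real.log x ^ (r + 1) ≤ ((PI x (2 * x)).card : ℝ) := by
    have h2 := (isLittleO_log_rpow_rpow_atTop (s := 1) ((r + 2 : ℕ) : ℝ) (by norm_num)).def
      (show (0 : ℝ) < 1 / (2 * (K * 2 ^ (r + 1))) by positivity)
    obtain ⟨x₂, h₂⟩ := eventually_atTop.1 (tendsto_natCast_atTop_atTop (R := ℝ) |>.eventually h2)
    refine ⟨max (max X₄ x₂) 3, fun x hx => ?_⟩
    have g1 := hX₄ x ((le_max_left _ _).trans ((le_max_left _ _).trans hx))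
    have g2 := h₂ x ((le_max_right _ _).trans ((le_max_left _ _).trans hx))
    have g3 : 3 ≤ x := (le_max_right _ _).trans hx
    have hx0 : (0 : ℝ) < x := by exact_mod_cast (by omega : 0 < x)
    have hl : 0 < Real.log x := Real.log_pos (by exact_mod_cast (by omega : 1 < x))
    rw [Real.rpow_natCast, Real.rpow_one, Real.norm_of_nonneg (by positivity), Real.norm_of_nonneg hx0.le,
      div_mul_eq_mul_div, one_mul, le_div_iff₀ (by positivity)] at g2
    refine le_trans ?_ g1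
    rw [← mul_div_assoc, le_div_iff₀ hl]
    have h3 : K * 2 ^ (r + 1) * Real.log x ^ (r + 1) * Real.log x =
        Real.log x ^ (r + 2) * (2 * (K * 2 ^ (r + 1))) / 2 := by ring
    rw [h3]
    linarith
  refine ⟨c0 * K * cV / 8, 2 * (K * 2 ^ (r + 1)), by positivity, by positivity,
    max (max X₁ X₃) (max (max X₄ X₅) (max X₆ (max E 8))), ?_⟩
  intro x hx ι I F h0 hsys hI
  have hx1 : X₁ ≤ x := ((le_max_left _ _).trans (le_max_left _ _)).trans hx
  have hx3 : X₃ ≤ x := ((le_max_right _ _).trans (le_max_left _ _)).trans hx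
  have hx4 : X₄ ≤ x := ((le_max_left _ _).trans ((le_max_left _ _).trans (le_max_right _ _))).trans hx
  have hx5 : X₅ ≤ x := ((le_max_right _ _).trans ((le_max_left _ _).trans (le_max_right _ _))).trans hx
  have hx6 : X₆ ≤ x := ((le_max_left _ _).trans ((le_max_right _ _).trans (le_max_right _ _))).trans hx
  have hxE : E ≤ x := ((le_max_left _ _).trans ((le_max_right _ _).trans ((le_max_right _ _).trans (le_max_right _ _)))).trans hx
  have hx8 : 8 ≤ x := ((le_max_right _ _).trans ((le_max_right _ _).trans ((le_max_right _ _).trans (le_max_right _ _)))).trans hx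
  have hxr : (8 : ℝ) ≤ x := by exact_mod_cast hx8
  have hx0 : (0 : ℝ) < x := by linarith
  have hl : 0 < Real.log x := Real.log_pos (by linarith)
  have hxEx : x ≤ E * x := by nlinarith
  have hEx2 : E * x ≤ x ^ 2 := by nlinarith
  have hlX : Real.log ((E * x : ℕ) : ℝ) ≤ 2 * Real.log x := by
    have h1 : ((E * x : ℕ) : ℝ) ≤ (x : ℝ) ^ 2 := by exact_mod_cast hEx2
    have h2 := Real.log_le_log (by exact_mod_cast (by omega : 0 < E * x)) h1
    rwa [Real.log_pow, Nat.cast_ofNat] at h2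
  have hlX0 : 0 < Real.log ((E * x : ℕ) : ℝ) := Real.log_pos (by exact_mod_cast (by omega : 1 < E * x))
  set m : ℝ := K * 2 ^ (r + 1) * Real.log x ^ (r + 1) with hm
  have hm0 : 0 < m := by positivity
  have hmP : m ≤ (PI x (2 * x)).card := hX₆ x hx6
  have hP0 : (0 : ℝ) < (PI x (2 * x)).card := lt_of_lt_of_le hm0 hmP
  have hPup := hX₃ (2 * x) (by omega) x (2 * x) le_rfl
  have hl2x : 0 < Real.log ((2 * x : ℕ) : ℝ) := Real.log_pos (by exact_mod_cast (by omega : 1 < 2 * x))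
  have hl2x1 : Real.log x ≤ Real.log ((2 * x : ℕ) : ℝ) :=
    Real.log_le_log hx0 (by exact_mod_cast (by omega : x ≤ 2 * x))
  have hABe : ((2 * x : ℕ) : ℝ) - x = x := by
    push_cast
    ring
  have hAB : (1 / E : ℝ) * ((E * x : ℕ) : ℝ) ≤ ((2 * x : ℕ) : ℝ) - x := by
    rw [hABe]
    push_cast
    apply le_of_eq
    field_simp
  have hB : 2 * x ≤ E * x := Nat.mul_le_mul_right x hE
  -- `m / |P|`
  have hp1 : m * (Real.log x / (4 * x)) ≤ m / (PI x (2 * x)).card := by
    rw [div_eq_mul_inv m]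
    apply mul_le_mul_of_nonneg_left _ hm0.le
    rw [← one_div, div_le_div_iff₀ (by positivity) hP0]
    rw [← mul_div_assoc, le_div_iff₀ hl2x] at hPup
    have h2 := mul_le_mul_of_nonneg_left hl2x1 hP0.le
    push_cast at hPup h2
    linarith
  obtain ⟨S, hSP, hScard, hSR⟩ := hX₅ (E * x) (by omega) x (2 * x) hB hAB ι I F
    (fun i => GoodF t0 (E * x) x (2 * x) (F i) (h0 i)) (fun i hi => ⟨(hsys i hi).card, (hsys i hi).loc⟩)
    (fun i _ => GoodF_SF _ _ _ _ _ _) (hI.trans (Nat.pow_le_pow_left hxEx D)) m (by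
      rw [hm]
      have h1 : Real.log ((E * x : ℕ) : ℝ) ^ (r + 1) ≤ 2 ^ (r + 1) * Real.log x ^ (r + 1) := by
        calc _ ≤ (2 * Real.log x) ^ (r + 1) := pow_le_pow_left₀ hlX0.le hlX _
          _ = _ := by rw [mul_pow]
      have := mul_le_mul_of_nonneg_left h1 hK.le
      linarith) hmP
  refine ⟨S, hSP, ?_, ?_⟩
  · have h1 := (abs_le.1 hScard).2
    have h2 := mul_le_mul_of_nonneg_right e2 hm0.le
    linarith
  · intro i hi
    have hs := hsys i hi
    have h1 := hSR i hi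
    have g1 := hX₁ (E * x) (by omega) _ _ hs x (2 * x) hB hAB
    have hp0 : 0 ≤ m / ((PI x (2 * x)).card : ℝ) := by positivity
    have hV := hVlow (E * x) (by omega) _ hs.card hs.loc
    have hV0 : 0 ≤ VF (F i) (E * x) := (VF_mono hs.loc le_rfl).2
    set E0 : ℝ := m / (PI x (2 * x)).card * ((((2 * x : ℕ) : ℝ) - x) * VF (F i) (E * x)) with hE0d
    have hE00 : 0 ≤ E0 := by
      rw [hE0d, hABe]
      positivity
    have g4 : c0 * E0 ≤ m / (PI x (2 * x)).card * (GoodF t0 (E * x) x (2 * x) (F i) (h0 i)).card := by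
      have := mul_le_mul_of_nonneg_left g1 hp0
      refine le_trans (le_of_eq ?_) this
      rw [hE0d]
      ring
    have g5 := (abs_le.1 h1).1
    have g6 := mul_le_mul_of_nonneg_right e1 hE00
    have g7 : c0 / 2 * E0 ≤ ((S ∩ GoodF t0 (E * x) x (2 * x) (F i) (h0 i)).card : ℝ) := by linarith
    have g8 : K * cV / 4 * Real.log x ≤ E0 := by
      rw [hE0d, hABe]
      have h4 : cV / (2 * Real.log x) ^ (r + 1) ≤ VF (F i) (E * x) := by
        refine le_trans ?_ hV
        apply div_le_div_of_nonneg_left hcV.le (by positivity)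
        exact pow_le_pow_left₀ hlX0.le hlX _
      have h5 : m * (Real.log x / (4 * x)) * (x * (cV / (2 * Real.log x) ^ (r + 1))) ≤
          m / (PI x (2 * x)).card * (x * VF (F i) (E * x)) :=
        mul_le_mul hp1 (mul_le_mul_of_nonneg_left h4 hx0.le) (by positivity) hp0
      refine le_trans (le_of_eq ?_) h5
      rw [hm, mul_pow]
      field_simp
    refine le_trans ?_ g7
    have := mul_le_mul_of_nonneg_left g8 (show 0 ≤ c0 / 2 by positivity)
    refine le_trans (le_of_eq ?_) this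
    ring

/-- the union of blocks `S i ⊆ (2 ^ i, ∞)` with at most `C i ^ e` elements -/
theorem union_blocks (e : ℕ) (C : ℝ) (hC : 0 ≤ C) (S : ℕ → Finset ℕ) (hS : ∀ i, ∀ p ∈ S i, 2 ^ i < p)
    (hc : ∀ i, ((S i).card : ℝ) ≤ C * (i : ℝ) ^ e) (x : ℕ) (hx : 2 ≤ x) :
    ∃ T : Finset ℕ, (∀ p, (∃ i, p ∈ S i) → p ≤ x → p ∈ T) ∧
      (T.card : ℝ) ≤ 2 * C / Real.log 2 ^ (e + 1) * Real.log x ^ (e + 1) := by
  classical
  have hl2 : 0 < Real.log 2 := Real.log_pos (by norm_num)
  set L := Nat.log 2 x with hL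
  have hL1 : 1 ≤ L := (Nat.le_log_iff_pow_le (by norm_num) (by omega)).2 (by simpa using hx)
  refine ⟨(range (L + 1)).biUnion S, ?_, ?_⟩
  · rintro p ⟨i, hi⟩ hpx
    rw [mem_biUnion]
    refine ⟨i, ?_, hi⟩
    rw [mem_range]
    have h1 := hS i p hi
    have h2 : 2 ^ i ≤ x := by omega
    have h3 : i ≤ L := (Nat.le_log_iff_pow_le (by norm_num) (by omega)).2 h2
    omega
  · have h1 : (((range (L + 1)).biUnion S).card : ℝ) ≤ ∑ i ∈ range (L + 1), ((S i).card : ℝ) := by
      exact_mod_cast card_biUnion_le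
    refine h1.trans ?_
    have h2 : ∑ i ∈ range (L + 1), ((S i).card : ℝ) ≤ ∑ _i ∈ range (L + 1), C * (L : ℝ) ^ e := by
      apply sum_le_sum
      intro i hi
      rw [mem_range] at hi
      refine (hc i).trans ?_
      apply mul_le_mul_of_nonneg_left _ hC
      apply pow_le_pow_left₀ (by positivity)
      exact_mod_cast (by omega : i ≤ L)
    refine h2.trans ?_
    rw [sum_const, card_range, nsmul_eq_mul]
    push_cast
    have hLr : (1 : ℝ) ≤ L := by exact_mod_cast hL1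
    have h3 : (L : ℝ) * Real.log 2 ≤ Real.log x := by
      have h4 : 2 ^ L ≤ x := Nat.pow_log_le_self 2 (by omega)
      have h5 : ((2 : ℝ)) ^ L ≤ x := by exact_mod_cast h4
      have h6 := Real.log_le_log (by positivity) h5
      rwa [Real.log_pow] at h6
    have h4 : (L : ℝ) ≤ Real.log x / Real.log 2 := by
      rw [le_div_iff₀ hl2]
      exact h3
    have h5 : (L : ℝ) ^ (e + 1) ≤ (Real.log x / Real.log 2) ^ (e + 1) := pow_le_pow_left₀ (by positivity) h4 _
    calc ((L : ℝ) + 1) * (C * (L : ℝ) ^ e) ≤ (2 * L) * (C * (L : ℝ) ^ e) := by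
          apply mul_le_mul_of_nonneg_right _ (by positivity)
          linarith
      _ = 2 * C * (L : ℝ) ^ (e + 1) := by ring
      _ ≤ 2 * C * (Real.log x / Real.log 2) ^ (e + 1) := mul_le_mul_of_nonneg_left h5 (by positivity)
      _ = _ := by rw [div_pow]; ring

end Pool.Agent.Q253.Thin
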