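import Pool.Agent.Q253.Thin.VGold
import Pool.Agent.Q253.Cov.Gold

/-!
# The sieve product of a pair of shifts
-/

set_option autoImplicit false

namespace Pool.Agent.Q253.Thin

open Finset Filter
open Pool.Agent.Y840.CT
open Pool.Agent.Q253.Cov (sg sg_fac sg_pos)

theorem VFd_low : ∃ c : ℝ, 0 < c ∧ ∀ X d : ℕ, 2 ≤ X → Even d → 1 ≤ d → d ≤ X →
    c * (sg d / Real.log X ^ 2) ≤ VF (fun _ => {(d : ℤ)}) X := by
  classical
  obtain ⟨c, hc, hlow⟩ := VF_low 1
  refine ⟨c, hc, ?_⟩
  intro X d hX hd hd1 hdX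
  have h1 := hlow X hX (fun _ => {2}) (fun q _ => by simp) (by
    intro q hq
    rw [rho_single]
    split_ifs with h
    · exact hq.one_lt
    · rcases hq.two_le.eq_or_lt with h2 | h2
      · exfalso
        apply h
        rw [← h2]
        norm_num
      · exact h2)
  have hd2 : (2 : ℤ) ∣ (d : ℤ) := by exact_mod_cast hd.two_dvd
  have h2 : VF (fun _ => {(d : ℤ)}) X = VF (fun _ => {2}) X * sg d := by
    unfold VF
    have h3 : sg d = ∏ p ∈ (Icc 1 X).filter Nat.Prime, (if p ∈ d.primeFactors.erase 2 then ((p : ℝ) - 1) / ((p : ℝ) - 2) else 1) := by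
      rw [← prod_filter]
      unfold sg
      apply prod_congr _ (fun _ _ => rfl)
      ext p
      rw [mem_filter, mem_filter, mem_Icc]
      constructor
      · intro hp
        have hp' := (mem_erase.1 hp).2
        have hpp := Nat.prime_of_mem_primeFactors hp'
        have hle := Nat.le_of_mem_primeFactors hp'
        exact ⟨⟨⟨hpp.one_le, hle.trans hdX⟩, hpp⟩, hp⟩
      · intro hp
        exact hp.2
    rw [h3, ← prod_mul_distrib]
    apply prod_congr rfl
    intro p hp
    rw [mem_filter, mem_Icc] at hp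
    have hpp := hp.2
    have hp0 : (0 : ℝ) < p := by exact_mod_cast hpp.pos
    rw [rho_single, rho_single]
    by_cases hp2 : p = 2
    · subst hp2
      have e1 : ((2 : ℕ) : ℤ) ∣ (d : ℤ) := by exact_mod_cast hd.two_dvd
      have e2 : ((2 : ℕ) : ℤ) ∣ (2 : ℤ) := by norm_num
      rw [if_pos e1, if_pos e2, if_neg (by simp)]
      ring
    · have h3 : 3 ≤ p := by
        have := hpp.two_le
        omega
      have h3r : (3 : ℝ) ≤ p := by exact_mod_cast h3
      have e2 : ¬ ((p : ℤ) ∣ (2 : ℤ)) := by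
        intro h
        have h4 : p ∣ 2 := by exact_mod_cast h
        exact hp2 ((Nat.prime_dvd_prime_iff_eq hpp Nat.prime_two).1 h4)
      rw [if_neg e2]
      by_cases hpd : p ∣ d
      · have e1 : ((p : ℕ) : ℤ) ∣ (d : ℤ) := by exact_mod_cast hpd
        rw [if_pos e1, if_pos (mem_erase.2 ⟨hp2, Nat.mem_primeFactors.2 ⟨hpp, hpd, by omega⟩⟩)]
        have h4 : (p : ℝ) - 2 ≠ 0 := by
          have : (0 : ℝ) < (p : ℝ) - 2 := by linarith
          exact this.ne'
        push_cast
        field_simp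
      · have e1 : ¬ ((p : ℕ) : ℤ) ∣ (d : ℤ) := fun h => hpd (by exact_mod_cast h)
        rw [if_neg e1, if_neg (fun h => hpd (Nat.dvd_of_mem_primeFactors (mem_erase.1 h).2))]
        ring
  rw [h2]
  calc c * (sg d / Real.log X ^ 2) = c / Real.log X ^ (1 + 1) * sg d := by ring
    _ ≤ _ := mul_le_mul_of_nonneg_right h1 (sg_pos d).le

end Pool.Agent.Q253.Thin
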