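import Pool.Agent.Q253.Thin.Main

/-!
# The size of the sieve product for the shifts `0`, `N`
-/

set_option autoImplicit false

namespace Pool.Agent.Q253.Thin

open Finset Filter
open Pool.Agent.Y840.CT
open Pool.Agent.Y843.HS (Pr Pr_mem Pr_prime)
open Pool.Agent.Y843.HG (V1 V1_bounds V1_pos fac1 totient_real)

theorem rho_single (N : ℤ) (q : ℕ) : rho {N} q = if (q : ℤ) ∣ N then 1 else 2 := by
  unfold rho
  rw [image_insert, image_singleton, Int.zero_emod]
  split_ifs with h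
  · rw [Int.emod_eq_zero_of_dvd h]
    simp
  · rw [card_insert_of_notMem, card_singleton]
    rw [mem_singleton]
    intro h0
    exact h (Int.dvd_of_emod_eq_zero h0.symm)

theorem prod_telescope (n : ℕ) (hn : 2 ≤ n) :
    ∏ m ∈ (Icc 2 n : Finset ℕ), (1 - 1 / (m : ℝ) ^ 2) = ((n : ℝ) + 1) / (2 * n) := by
  induction n, hn using Nat.le_induction with
  | base => norm_num
  | succ n hn ih =>
    rw [Finset.prod_Icc_succ_top (by omega), ih]
    have h0 : (n : ℝ) ≠ 0 := by
      have : n ≠ 0 := by omega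
      exact_mod_cast this
    have h1 : ((n : ℝ) + 1) ≠ 0 := by positivity
    push_cast
    field_simp
    ring

theorem twin_prod (n : ℕ) : (1 : ℝ) / 2 ≤ ∏ p ∈ Pr 2 n, (1 - 1 / ((p : ℝ) - 1) ^ 2) := by
  have hsub : (Pr 2 n).image (fun p : ℕ => p - 1) ⊆ Icc 2 (n + 2) := by
    intro m hm
    rw [mem_image] at hm
    obtain ⟨p, hp, rfl⟩ := hm
    rw [Pr_mem] at hp
    rw [mem_Icc]
    omega
  have hinj : Set.InjOn (fun p : ℕ => p - 1) (Pr 2 n) := by
    intro a ha b hb hab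
    have h1 := (Pr_mem.1 (mem_coe.1 ha)).1.1
    have h2 := (Pr_mem.1 (mem_coe.1 hb)).1.1
    simp only at hab
    omega
  have e1 : ∏ p ∈ Pr 2 n, (1 - 1 / ((p : ℝ) - 1) ^ 2) = ∏ m ∈ ((Pr 2 n).image (fun p : ℕ => p - 1) : Finset ℕ), (1 - 1 / (m : ℝ) ^ 2) := by
    rw [prod_image hinj]
    apply prod_congr rfl
    intro p hp
    have h1 := (Pr_mem.1 hp).1.1
    push_cast [Nat.cast_sub (show 1 ≤ p by omega)]
    rfl
  have hf : ∀ m ∈ Icc 2 (n + 2), 0 ≤ 1 - 1 / (m : ℝ) ^ 2 ∧ 1 - 1 / (m : ℝ) ^ 2 ≤ 1 := by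
    intro m hm
    rw [mem_Icc] at hm
    have h2 : (2 : ℝ) ≤ m := by exact_mod_cast hm.1
    have h3 : (1 : ℝ) ≤ (m : ℝ) ^ 2 := by nlinarith
    constructor
    · rw [sub_nonneg, div_le_one (by positivity)]
      exact h3
    · have : 0 ≤ 1 / (m : ℝ) ^ 2 := by positivity
      linarith
  rw [e1]
  have h1 : ∏ m ∈ (Icc 2 (n + 2) : Finset ℕ), (1 - 1 / (m : ℝ) ^ 2) ≤
      ∏ m ∈ ((Pr 2 n).image (fun p : ℕ => p - 1) : Finset ℕ), (1 - 1 / (m : ℝ) ^ 2) := by
    rw [← prod_sdiff hsub]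
    apply mul_le_of_le_one_left
    · exact prod_nonneg fun m hm => (hf m (hsub hm)).1
    · apply Finset.prod_le_one
      · intro m hm
        exact (hf m (mem_sdiff.1 hm).1).1
      · intro m hm
        exact (hf m (mem_sdiff.1 hm).1).2
  refine le_trans ?_ h1
  rw [prod_telescope (n + 2) (by omega), div_le_div_iff₀ (by norm_num) (by positivity)]
  push_cast
  nlinarith

/-- the lower bound for the sieve product of Goldbach's problem -/
theorem VG_low : ∃ c : ℝ, 0 < c ∧ ∀ N : ℕ, 2 ≤ N → Even N →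
    c * (N / (N.totient * Real.log N ^ 2)) ≤ VF (fun _ => {(N : ℤ)}) N := by
  obtain ⟨c, C, hc, hC, hV⟩ := V1_bounds
  refine ⟨c ^ 2 / 2, by positivity, ?_⟩
  intro N hN hNe
  have hN0 : N ≠ 0 := by omega
  have hl : 0 < Real.log N := Real.log_pos (by exact_mod_cast (by omega : 1 < N))
  have hφ : (0 : ℝ) < N.totient := by exact_mod_cast Nat.totient_pos.2 (by omega)
  have hV1 := (hV N hN).1
  have hVF : VF (fun _ => {(N : ℤ)}) N = ∏ p ∈ Pr 0 N, (1 - (if p ∣ N then (1 : ℝ) else 2) / p) := by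
    unfold VF
    apply prod_congr
    · ext q
      rw [Pr_mem, mem_filter, mem_Icc]
      constructor
      · rintro ⟨⟨a, b⟩, c⟩
        exact ⟨⟨c.pos, b⟩, c⟩
      · rintro ⟨⟨a, b⟩, c⟩
        exact ⟨⟨c.pos, b⟩, c⟩
    · intro p hp
      rw [rho_single]
      simp only [Int.natCast_dvd_natCast]
      split_ifs <;> norm_num
  have hPF : (∏ p ∈ Pr 0 N, (if p ∣ N then (1 - 1 / (p : ℝ)) else 1)) = (N.totient : ℝ) / N := by
    rw [totient_real, ← prod_filter]
    have hNr : (N : ℝ) ≠ 0 := by exact_mod_cast hN0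
    rw [mul_div_cancel_left₀ _ hNr]
    apply prod_congr _ (fun _ _ => rfl)
    ext p
    rw [mem_filter, Pr_mem, Nat.mem_primeFactors]
    constructor
    · rintro ⟨⟨_, hp⟩, hd⟩
      exact ⟨hp, hd, hN0⟩
    · rintro ⟨hp, hd, _⟩
      exact ⟨⟨⟨hp.pos, Nat.le_of_dvd (by omega) hd⟩, hp⟩, hd⟩
  have hsplit2 : ∏ p ∈ Pr 0 N, (if p = 2 then (1 : ℝ) else 1 - 1 / ((p : ℝ) - 1) ^ 2) =
      ∏ p ∈ Pr 2 N, (1 - 1 / ((p : ℝ) - 1) ^ 2) := by
    have h1 : Pr 0 N = insert 2 (Pr 2 N) := by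
      ext p
      rw [mem_insert, Pr_mem, Pr_mem]
      constructor
      · rintro ⟨⟨a, b⟩, hp⟩
        rcases hp.two_le.eq_or_lt with h | h
        · left
          exact h.symm
        · right
          exact ⟨⟨h, b⟩, hp⟩
      · rintro (h | ⟨⟨a, b⟩, hp⟩)
        · rw [h]
          exact ⟨⟨by norm_num, hN⟩, Nat.prime_two⟩
        · exact ⟨⟨by omega, b⟩, hp⟩
    rw [h1, prod_insert (by rw [Pr_mem]; omega), if_pos rfl, one_mul]
    apply prod_congr rfl
    intro p hp
    have := (Pr_mem.1 hp).1.1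
    rw [if_neg (by omega)]
  -- factor by factor
  have hfac : (V1 N) ^ 2 * ∏ p ∈ Pr 0 N, (if p = 2 then (1 : ℝ) else 1 - 1 / ((p : ℝ) - 1) ^ 2) ≤
      (∏ p ∈ Pr 0 N, (1 - (if p ∣ N then (1 : ℝ) else 2) / p)) *
        ∏ p ∈ Pr 0 N, (if p ∣ N then (1 - 1 / (p : ℝ)) else 1) := by
    unfold V1
    rw [← prod_pow, ← prod_mul_distrib, ← prod_mul_distrib]
    apply Finset.prod_le_prod
    · intro p hp
      have hpp := Pr_prime hp
      apply mul_nonneg (by positivity)
      split_ifs with h2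
      · norm_num
      · have h3 : (3 : ℝ) ≤ p := by
          have : 3 ≤ p := by
            have := hpp.two_le
            omega
          exact_mod_cast this
        rw [sub_nonneg, div_le_one (by nlinarith)]
        nlinarith
    · intro p hp
      have hpp := Pr_prime hp
      have hp2 : (2 : ℝ) ≤ p := by exact_mod_cast hpp.two_le
      have hp0 : (p : ℝ) ≠ 0 := by positivity
      by_cases hd : p ∣ N
      · rw [if_pos hd, if_pos hd]
        have h4 : (if p = 2 then (1 : ℝ) else 1 - 1 / ((p : ℝ) - 1) ^ 2) ≤ 1 := by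
          split_ifs
          · exact le_rfl
          · have : 0 ≤ 1 / ((p : ℝ) - 1) ^ 2 := by positivity
            linarith
        calc (1 - 1 / (p : ℝ)) ^ 2 * _ ≤ (1 - 1 / (p : ℝ)) ^ 2 * 1 :=
              mul_le_mul_of_nonneg_left h4 (by positivity)
          _ = _ := by ring
      · rw [if_neg hd, if_neg hd, mul_one]
        have hp3 : p ≠ 2 := by
          rintro rfl
          exact hd hNe.two_dvd
        rw [if_neg hp3]
        have h3 : (3 : ℝ) ≤ p := by
          have : 3 ≤ p := by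
            have := hpp.two_le
            omega
          exact_mod_cast this
        have hp1 : (p : ℝ) - 1 ≠ 0 := by linarith
        apply le_of_eq
        field_simp
        ring
  rw [hVF]
  rw [hPF, hsplit2] at hfac
  have htw := twin_prod N
  have hN0r : (0 : ℝ) < N := by exact_mod_cast (by omega : 0 < N)
  have h5 : (c / Real.log N) ^ 2 * (1 / 2) ≤ (V1 N) ^ 2 * ∏ p ∈ Pr 2 N, (1 - 1 / ((p : ℝ) - 1) ^ 2) :=
    mul_le_mul (pow_le_pow_left₀ (by positivity) hV1 2) htw (by norm_num) (by positivity)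
  have h6 := h5.trans hfac
  have e : c ^ 2 / 2 * ((N : ℝ) / (N.totient * Real.log N ^ 2)) = (c / Real.log N) ^ 2 * (1 / 2) * (N / N.totient) := by
    field_simp
  rw [e]
  calc (c / Real.log N) ^ 2 * (1 / 2) * (N / N.totient)
      ≤ ((∏ p ∈ Pr 0 N, (1 - (if p ∣ N then (1 : ℝ) else 2) / p)) * (N.totient / N)) * (N / N.totient) :=
        mul_le_mul_of_nonneg_right h6 (by positivity)
    _ = ∏ p ∈ Pr 0 N, (1 - (if p ∣ N then (1 : ℝ) else 2) / p) := by
        field_simp

end Pool.Agent.Q253.Thin
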